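import Pool.Agent.Lib.MP_33bfb2_co.Rep

namespace Pool.Agent.Lib.MP_33bfb2_co

open Finset

set_option maxHeartbeats 400000

section
variable {R ι : Type} [CommRing R]

def es (S : Finset ι) (t : ι → R) (j : ℕ) : R := ∑ s ∈ powersetCard j S, ∏ c ∈ s, t c

theorem es_zero (S : Finset ι) (t : ι → R) : es S t 0 = 1 := by simp [es]

theorem es_big {S : Finset ι} (t : ι → R) {j : ℕ} (h : S.card < j) : es S t j = 0 := by
  rw [es, powersetCard_eq_empty.2 h, sum_empty]

theorem es_insert [DecidableEq ι] {S : Finset ι} (t : ι → R) {c : ι} (hc : c ∉ S) (j : ℕ) :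
    es (insert c S) t (j + 1) = es S t (j + 1) + t c * es S t j := by
  have h : ∀ τ ∈ powersetCard j S, c ∉ τ := fun τ hτ e => hc ((mem_powersetCard.1 hτ).1 e)
  rw [es, powersetCard_succ_insert hc, sum_union, sum_image, es, es, mul_sum]
  · congr 1
    exact sum_congr rfl fun τ hτ => prod_insert (h τ hτ)
  · intro a ha b hb e
    rw [← erase_insert (h a ha), ← erase_insert (h b hb)]
    exact congrArg (erase · c) e
  · rw [disjoint_right]
    intro _ h1 h2
    obtain ⟨τ, -, rfl⟩ := mem_image.1 h1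
    exact hc ((mem_powersetCard.1 h2).1 (mem_insert_self _ _))

theorem prod_es (S : Finset ι) (t : ι → R) (x : R) {M : ℕ} (h : S.card ≤ M) :
    ∏ c ∈ S, (1 + x * t c) = ∑ j ∈ range (M + 1), x ^ j * es S t j := by
  rw [prod_one_add, sum_powerset, ← sum_subset (range_subset_range.2 (Nat.succ_le_succ h))]
  · refine sum_congr rfl fun j _ => ?_
    rw [es, mul_sum]
    refine sum_congr rfl fun s hs => ?_
    rw [prod_mul_distrib, prod_const, (mem_powersetCard.1 hs).2]
  · intro j _ hj
    rw [es_big t (by rw [mem_range] at hj; omega), mul_zero]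

theorem map_es {R' : Type} [CommRing R'] (φ : R →+* R') (S : Finset ι) (t : ι → R) (j : ℕ) :
    φ (es S t j) = es S (fun c => φ (t c)) j := by simp [es]

theorem coeff_prod_aeval {B : Type} [Fintype B] [DecidableEq B] (p : B → Polynomial R)
    (d : B →₀ ℕ) : MvPolynomial.coeff d (∏ b, Polynomial.aeval (MvPolynomial.X b) (p b)) =
      ∏ b, (p b).coeff (d b) := by
  let M := ∑ b, ((p b).natDegree + d b) + 1
  have hM : ∀ b, (p b).natDegree + d b < M := fun b => Nat.lt_succ_of_le
    (single_le_sum (f := fun b => (p b).natDegree + d b) (fun _ _ => Nat.zero_le _) (mem_univ b))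
  have e : ∀ b, Polynomial.aeval (MvPolynomial.X b : MvPolynomial B R) (p b) =
      ∑ m ∈ range M, MvPolynomial.monomial (Finsupp.single b m) ((p b).coeff m) := fun b => by
    rw [Polynomial.aeval_eq_sum_range' (n := M) (by have := hM b; omega)]
    exact sum_congr rfl fun m _ => by
      rw [MvPolynomial.X_pow_eq_monomial, MvPolynomial.smul_monomial, smul_eq_mul, mul_one]
  simp only [e, prod_univ_sum, ← MvPolynomial.monomial_sum_prod, MvPolynomial.coeff_sum,
    MvPolynomial.coeff_monomial]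
  rw [sum_eq_single (d : B → ℕ), if_pos]
  · ext b; simp
  · intro f _ hf
    refine if_neg fun h => hf ?_
    funext b
    rw [← h]; simp [Finsupp.finsetSum_apply, Finsupp.single_apply]
  · intro h
    exact absurd (Fintype.mem_piFinset.2 fun b => mem_range.2 (by have := hM b; omega)) h

noncomputable def gp (f : ℕ → R) (M : ℕ) : Polynomial R :=
  ∑ a ∈ range (M + 1), Polynomial.monomial a (f a)

theorem coeff_gp (f : ℕ → R) {M a : ℕ} (h : a ≤ M) : (gp f M).coeff a = f a := by
  simp only [gp, Polynomial.finsetSum_coeff, Polynomial.coeff_monomial]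
  rw [sum_ite_eq', if_pos (mem_range.2 (by omega))]

theorem aeval_gp {A : Type} [CommRing A] [Algebra R A] (f : ℕ → R) (M : ℕ) (t : A) :
    Polynomial.aeval t (gp f M) = ∑ a ∈ range (M + 1), algebraMap R A (f a) * t ^ a := by
  simp [gp, Polynomial.aeval_monomial]

theorem coeff_mul_range (p p' : Polynomial R) (k : ℕ) :
    (p * p').coeff k = ∑ j ∈ range (k + 1), p.coeff j * p'.coeff (k - j) := by
  rw [Polynomial.coeff_mul, Nat.sum_antidiagonal_eq_sum_range_succ_mk]

end

variable {n : ℕ} {T : Type} [CommRing T]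

theorem uu_apply (q : T) (E : Finset (Rt n)) (a : V n) (f : St n T) (U : Finset (Fin n)) :
    uu q E a f U = if a.1 ∈ U then wt q E (vec {a}) U * f (U.erase a.1) else 0 := by
  have : spp (vec {a}) = {a.1} := by
    ext i
    obtain ⟨j, u⟩ := a
    rcases Int.units_eq_one_or u with rfl | rfl <;> simp [mem_spp, vec]
  rw [uu, Wk_apply, this, sdiff_singleton_eq_erase]
  simp only [singleton_subset_iff]

theorem list_prod_apply {M R : Type} [AddCommGroup M] [Module T M] [CommRing R] [Algebra T R]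
    (Ψ : R →ₗ[T] M) (X : T → Module.End T M) (p : T → R) (h : ∀ x g, X x (Ψ g) = Ψ (p x * g))
    (xs : List T) (g : R) : (xs.map X).prod (Ψ g) = Ψ ((xs.map p).prod * g) := by
  induction xs with
  | nil => simp
  | cons x xs ih => simp only [List.map_cons, List.prod_cons, Module.End.mul_apply, ih, h, mul_assoc]

section
variable {B : Type} [Fintype B] [DecidableEq B] (q : T) (blk : Fin n → B)

def cU (U : Finset (Fin n)) (b : B) : ℕ := (U.filter fun i => blk i = b).card

noncomputable def sz (U : Finset (Fin n)) : B →₀ ℕ := Finsupp.equivFunOnFinite.symm (cU blk U)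

noncomputable def Psi : MvPolynomial B T →ₗ[T] St n T where
  toFun g U := (∏ b, qf q (cU blk U b)) * MvPolynomial.coeff (sz blk U) g
  map_add' f g := by funext U; simp [mul_add]
  map_smul' c f := by funext U; simp [mul_left_comm]

theorem Psi_apply (g : MvPolynomial B T) (U : Finset (Fin n)) :
    Psi q blk g U = (∏ b, qf q (cU blk U b)) * MvPolynomial.coeff (sz blk U) g := rfl

theorem Psi_one : Psi q blk 1 = dlt n T := by
  funext U
  rw [Psi_apply, dlt, MvPolynomial.coeff_one]
  by_cases h : U = ∅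
  · subst h
    rw [if_pos rfl, if_pos (by ext b; simp [sz, cU])]
    simp [cU, qf]
  · rw [if_neg h, if_neg, mul_zero]
    intro e
    obtain ⟨i, hi⟩ := nonempty_iff_ne_empty.2 h
    have := congrArg (fun d => d (blk i)) e
    simp only [sz, Finsupp.coe_zero, Pi.zero_apply, Finsupp.equivFunOnFinite_symm_apply_apply, cU]
      at this
    exact (card_pos.2 ⟨i, by simp [hi]⟩).ne this

omit [Fintype B] in
theorem cU_erase {U : Finset (Fin n)} {i : Fin n} (hi : i ∈ U) (b : B) :
    cU blk (U.erase i) b = if b = blk i then cU blk U b - 1 else cU blk U b := by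
  rw [cU, filter_erase, card_erase_eq_ite]
  simp only [mem_filter, hi, true_and, eq_comm, cU]

theorem Psi_step (b : B) (w : Fin n → Finset (Fin n) → T) (c : T)
    (hw : ∀ U : Finset (Fin n), ∑ i ∈ U.filter (fun i => blk i = b), w i U = c * qi q (cU blk U b))
    (g : MvPolynomial B T) (U : Finset (Fin n)) :
    ∑ i ∈ univ.filter (fun i => blk i = b),
      (if i ∈ U then w i U * Psi q blk g (U.erase i) else 0) =
      Psi q blk (MvPolynomial.C c * MvPolynomial.X b * g) U := by
  rw [← sum_filter, filter_comm, filter_mem_eq_inter, univ_inter, mul_assoc, Psi_apply,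
    MvPolynomial.coeff_C_mul, MvPolynomial.coeff_X_mul']
  have key : ∀ i ∈ U.filter (fun i => blk i = b), w i U * Psi q blk g (U.erase i) =
      w i U * ((qf q (cU blk U b - 1) * ∏ b' ∈ univ.erase b, qf q (cU blk U b')) *
        MvPolynomial.coeff (sz blk U - Finsupp.single b 1) g) := by
    intro i hi
    obtain ⟨h1, rfl⟩ := mem_filter.1 hi
    rw [Psi_apply, ← mul_prod_erase _ _ (mem_univ (blk i)), cU_erase blk h1, if_pos rfl]
    congr 3
    · exact prod_congr rfl fun b' hb' => by rw [cU_erase blk h1, if_neg (ne_of_mem_erase hb')]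
    · ext b'
      simp only [sz, Finsupp.equivFunOnFinite_symm_apply_apply, cU_erase blk h1, Finsupp.coe_tsub,
        Pi.sub_apply, Finsupp.single_apply, eq_comm (a := blk i)]
      split_ifs <;> rfl
  rw [sum_congr rfl key, ← sum_mul, hw, ← mul_prod_erase _ _ (mem_univ b)]
  simp only [Finsupp.mem_support_iff, sz, Finsupp.equivFunOnFinite_symm_apply_apply]
  rcases e : cU blk U b with _ | m
  · simp [qi_zero]
  · simp only [ne_eq, Nat.succ_ne_zero, not_false_eq_true, if_true, Nat.add_sub_cancel, qf,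
      prod_range_succ]
    ring

variable {blk} {lp : B → Prop} [DecidablePred lp] {E : Finset (Rt n)}

omit [Fintype B] in
theorem wt_plus (h : IsBase blk lp E) {i : Fin n} {U : Finset (Fin n)} (hi : i ∈ U) :
    wt q E (vec {(i, 1)}) U = (if lp (blk i) then q else 1) *
      q ^ ((U.filter fun j => blk j = blk i).filter (i < ·)).card := by
  have : ∀ γ : Rt n, (if γ ∈ E then (if (γ.1 ∈ U ∧ γ.2.1 ∈ U) ∧
      (vec {(i, 1)} γ.1 ≠ 0 ∨ vec {(i, 1)} γ.2.1 ≠ 0) then chi q (vl (kh (vec {(i, 1)})) γ) else 1)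
      else 1) = if γ.1 = i then (if γ.2.2 = 1 then
        (if (γ.2.1 ∈ U ∧ blk γ.2.1 = blk i) ∧ i < γ.2.1 then q else 1)
        else (if γ.2.1 = i then (if lp (blk i) then q else 1) else 1)) else 1 := by
    rintro ⟨k, j, u⟩
    rcases Int.units_eq_one_or u with rfl | rfl <;>
      simp [h _, isLoop, vl, kh, vec, chi] <;> grind
  rw [wt, ← univ_inter E, ← filter_mem_eq_inter, prod_filter]
  simp only [this, Fintype.prod_prod_type, show (univ : Finset ℤˣ) = {1, -1} from rfl,
    prod_pair (show (1 : ℤˣ) ≠ -1 by decide), if_true, show ¬ (-1 : ℤˣ) = 1 by decide, if_false]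
  rw [prod_eq_single i (fun k _ hk => by simp [hk]) (by simp)]
  simp only [if_true, prod_mul_distrib, prod_ite_eq', mem_univ]
  rw [mul_comm, ← prod_filter, prod_const]
  congr 3
  ext j; simp

omit [Fintype B] in
theorem wt_minus (h : IsBase blk lp E) {i : Fin n} {U : Finset (Fin n)} (hi : i ∈ U) :
    wt q E (vec {(i, -1)}) U = q ^ ((U.filter fun j => blk j = blk i).filter (· < i)).card := by
  have : ∀ γ : Rt n, (if γ ∈ E then (if (γ.1 ∈ U ∧ γ.2.1 ∈ U) ∧
      (vec {(i, -1)} γ.1 ≠ 0 ∨ vec {(i, -1)} γ.2.1 ≠ 0) then chi q (vl (kh (vec {(i, -1)})) γ)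
      else 1) else 1) = if γ.2 = (i, 1) then
        (if (γ.1 ∈ U ∧ blk γ.1 = blk i) ∧ γ.1 < i then q else 1) else 1 := by
    rintro ⟨k, j, u⟩
    rcases Int.units_eq_one_or u with rfl | rfl <;>
      simp [h _, isLoop, vl, kh, vec, chi] <;> grind
  rw [wt, ← univ_inter E, ← filter_mem_eq_inter, prod_filter]
  simp only [this, Fintype.prod_prod_type (f := fun γ : Rt n => _), prod_ite_eq', mem_univ, if_true]
  rw [← prod_filter, prod_const]
  congr 2
  ext j; simp

variable (lp) in
noncomputable def tc (c : B × ℤˣ) : MvPolynomial B T :=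
  MvPolynomial.C (if c.2 = 1 ∧ lp c.1 then q else 1) * MvPolynomial.X c.1

variable (blk) in
def ZZ (S : Finset (B × ℤˣ)) : Finset (V n) := univ.filter fun v => (blk v.1, v.2) ∈ S

omit [Fintype B] in
theorem mem_ZZ {S : Finset (B × ℤˣ)} {v : V n} : v ∈ ZZ blk S ↔ (blk v.1, v.2) ∈ S := by simp [ZZ]

theorem class_step (h : IsBase blk lp E) (c : B × ℤˣ) (g : MvPolynomial B T) :
    (∑ a ∈ ZZ blk {c}, uu q E a) (Psi q blk g) = Psi q blk (tc q lp c * g) := by
  obtain ⟨b, u⟩ := c
  funext U
  have e : ZZ blk {(b, u)} = (univ.filter fun i => blk i = b).image fun i => (i, u) := by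
    ext ⟨i, u'⟩; simp [mem_ZZ, eq_comm]
  rw [e, sum_image (fun _ _ _ _ e => (Prod.mk.inj e).1), LinearMap.sum_apply, Finset.sum_apply]
  simp only [uu_apply]
  refine Psi_step q blk b (fun i U => wt q E (vec {(i, u)}) U) _ (fun U => ?_) g U
  rcases Int.units_eq_one_or u with rfl | rfl
  · have e2 : ∀ S : Finset (Fin n), ∑ k ∈ S, q ^ (S.filter (k < ·)).card =
        ∑ m ∈ range S.card, q ^ m := fun S => rank_sum (α := (Fin n)ᵒᵈ) S (q ^ ·)
    rw [sum_congr rfl fun i hi => wt_plus q h (mem_filter.1 hi).1, qi, cU, ← e2, mul_sum]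
    refine sum_congr rfl fun i hi => ?_
    rw [(mem_filter.1 hi).2]
    simp only [true_and]
  · rw [sum_congr rfl fun i hi => wt_minus q h (mem_filter.1 hi).1, qi, cU,
      ← rank_sum (U.filter fun i => blk i = b) (q ^ ·), if_neg (by simp), one_mul]
    refine sum_congr rfl fun i hi => ?_
    rw [(mem_filter.1 hi).2]

omit [Fintype B] [DecidableEq B] [DecidablePred lp] in
theorem tadj_base (h : IsBase blk lp E) {a b : V n} :
    tadj E a b ↔ a.1 ≠ b.1 ∧ (blk a.1, a.2) = (blk b.1, b.2) := by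
  obtain ⟨i, u⟩ := a
  obtain ⟨j, u'⟩ := b
  refine and_congr_right fun hne => ⟨?_, fun e => ?_⟩
  · rintro ⟨⟨k, l, s⟩, hγ, e⟩
    have := (h _).1 hγ
    simp only [isLoop, ng, Prod.mk.injEq, neg_eq_iff_eq_neg] at this e hne ⊢
    grind
  · simp only [Prod.mk.injEq] at e hne
    obtain ⟨e, rfl⟩ := e
    rcases lt_or_gt_of_ne hne with l | l
    · refine ⟨(i, (j, 1)), (h _).2 (Or.inl ⟨l, rfl, e⟩), ?_⟩
      rcases Int.units_eq_one_or u with rfl | rfl <;> simp [ng]
    · refine ⟨(j, (i, 1)), (h _).2 (Or.inl ⟨l, rfl, e.symm⟩), ?_⟩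
      rcases Int.units_eq_one_or u with rfl | rfl <;> simp [ng]

omit [Fintype B] [DecidablePred lp] in
theorem Ej_class (h : IsBase blk lp E) {S : Finset (B × ℤˣ)} {c : B × ℤˣ} (hc : c ∉ S) (j : ℕ)
    (K : Finset (V n)) (hK : K ⊆ ZZ blk {c}) :
    Ej q E (j + 1) (ZZ blk S ∪ K) =
      Ej q E (j + 1) (ZZ blk S) + (∑ a ∈ K, uu q E a) * Ej q E j (ZZ blk S) := by
  induction K using Finset.induction_on with
  | empty => simp
  | insert v K hv ih =>
    have v1 : (blk v.1, v.2) = c := mem_singleton.1 (mem_ZZ.1 (hK (mem_insert_self _ _)))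
    have v2 : v ∉ ZZ blk S := fun e => hc (v1 ▸ mem_ZZ.1 e)
    rw [union_insert, Ej_insert _ (by simp [hv, v2]), ih ((subset_insert _ _).trans hK),
      sum_insert hv, add_mul, add_assoc, add_comm (uu q E v * _)]
    congr 2
    rw [Ej, mul_sum, ← sum_subset (powersetCard_mono (subset_union_left (s₂ := K)))]
    · refine sum_congr rfl fun τ hτ => Wt_insert (fun e => v2 ((mem_powersetCard.1 hτ).1 e)) ?_
      intro a ha e
      exact hc (v1 ▸ ((tadj_base h).1 e).2 ▸ mem_ZZ.1 ((mem_powersetCard.1 hτ).1 ha))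
    · intro τ h1 h2
      rw [mem_powersetCard] at h1 h2
      obtain ⟨a, a1, a2⟩ := not_subset.1 fun e => h2 ⟨e, h1.2⟩
      have a3 : a ∈ K := (mem_union.1 (h1.1 a1)).resolve_left a2
      have a4 : (blk a.1, a.2) = c := mem_singleton.1 (mem_ZZ.1 (hK (mem_insert_of_mem a3)))
      refine Wt_zero (mem_insert_self _ _) (mem_insert_of_mem a1) (fun e => hv (e ▸ a3)) ?_
      by_cases e : v.1 = a.1
      · exact Or.inl e
      · exact Or.inr ((tadj_base h).2 ⟨e, v1.trans a4.symm⟩)

theorem Ej_Psi (h : IsBase blk lp E) (S : Finset (B × ℤˣ)) (j : ℕ) (g : MvPolynomial B T) :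
    Ej q E j (ZZ blk S) (Psi q blk g) = Psi q blk (es S (tc q lp) j * g) := by
  induction S using Finset.induction_on generalizing j with
  | empty =>
    rcases j with _ | j
    · simp [Ej_zero, es_zero]
    · rw [show ZZ blk (∅ : Finset (B × ℤˣ)) = ∅ by ext; simp [mem_ZZ], Ej_empty,
        es_big _ (by simp)]; simp
  | insert c S hc ih =>
    rcases j with _ | j
    · simp [Ej_zero, es_zero]
    · rw [show ZZ blk (insert c S) = ZZ blk S ∪ ZZ blk {c} by ext; simp [mem_ZZ, or_comm],
        Ej_class q h hc j _ subset_rfl, LinearMap.add_apply, Module.End.mul_apply, ih, ih,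
        class_step q h, es_insert _ hc, ← map_add, add_mul, mul_assoc]

theorem tele {R : Type} [CommRing R] (r : ℕ → R) (t : R) (h0 : r 0 = 1) (j : ℕ) :
    (-1) ^ j * r j + ∑ i ∈ range j, (-1) ^ i * ((r (i + 1) + t * r i) * t ^ (j - 1 - i)) = t ^ j := by
  induction j with
  | zero => simp [h0]
  | succ j ih =>
    rw [sum_range_succ, sum_congr rfl (g := fun i => t * ((-1) ^ i * ((r (i + 1) + t * r i) *
      t ^ (j - 1 - i)))), ← mul_sum]
    · rw [show j + 1 - 1 - j = 0 by omega]
      linear_combination t * ih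
    · intro i hi
      rw [show j + 1 - 1 - i = (j - 1 - i) + 1 by have := mem_range.1 hi; omega]; ring

theorem Yt_Psi (h : IsBase blk lp E) {S : Finset (B × ℤˣ)} (hS : RR E = ZZ blk S)
    (t : MvPolynomial B T)
    (ht : ∀ j, es univ (tc q lp) (j + 1) = es S (tc q lp) (j + 1) + t * es S (tc q lp) j) (j : ℕ) :
    Yt q E j = Psi q blk (t ^ j) := by
  induction j using Nat.strong_induction_on with
  | _ j ih =>
  have hu : (univ : Finset (V n)) = ZZ blk univ := by ext; simp [mem_ZZ]
  rw [Yt, ← tele (es S (tc q lp)) t (es_zero _ _) j, map_add, map_sum, hS, ← Psi_one q blk,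
    Ej_Psi q h, mul_one, sum_range]
  have e : ∀ (k : ℕ) (g : MvPolynomial B T), (-1 : T) ^ k • Psi q blk g =
      Psi q blk ((-1) ^ k * g) := fun k g => by
    rw [← map_smul, MvPolynomial.smul_eq_C_mul]; simp
  rw [e]
  congr 1
  refine sum_congr rfl fun i _ => ?_
  rw [ih _ (by have := i.2; omega), hu, Ej_Psi q h, ht, e]

end

theorem CC_base (q : T) {blk : Fin n → Fin (n + 1)} {b0 : Option (Fin (n + 1))} {E : Finset (Rt n)}
    (h : IsBase blk (fun b => some b ≠ b0) E) (x : Fin n → T) (ε η : ℕ → T) (h0 : ε 0 = 1)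
    (hε : ∀ m ≤ n, ∑ j ∈ range (m + 1), ε j * es univ x (m - j) = η m) :
    CC q (List.ofFn x) ε E = BaseV q (es univ x) η (fun b => some b ≠ b0) (cnt blk) := by
  have hu : (univ : Finset (V n)) = ZZ blk univ := by ext; simp [mem_ZZ]
  have hR : RR E = ZZ blk (univ.filter fun c => ¬ (c.2 = 1 ∧ some c.1 = b0)) := by
    ext ⟨i, u⟩
    simp [RR, mem_ZZ, h _, isLoop]
  obtain ⟨t, ht, ht'⟩ : ∃ t : MvPolynomial (Fin (n + 1)) T,
      (∀ j, es univ (tc q fun b => some b ≠ b0) (j + 1) =
        es (univ.filter fun c => ¬ (c.2 = 1 ∧ some c.1 = b0)) (tc q fun b => some b ≠ b0) (j + 1) +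
        t * es (univ.filter fun c => ¬ (c.2 = 1 ∧ some c.1 = b0)) (tc q fun b => some b ≠ b0) j) ∧
      ∑ j ∈ range (n + 1), MvPolynomial.C (ε j) * t ^ j =
        ∏ b, Polynomial.aeval (MvPolynomial.X b) (if some b = b0 then gp ε n else 1) := by
    rcases b0 with _ | b
    · refine ⟨0, fun j => by simp, ?_⟩
      rw [sum_range_succ']; simp [h0]
    · refine ⟨MvPolynomial.X b, fun j => ?_, ?_⟩
      · have e : (univ : Finset (Fin (n + 1) × ℤˣ)) = insert (b, 1)
            (univ.filter fun c => ¬ (c.2 = 1 ∧ some c.1 = some b)) := by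
          ext ⟨c, u⟩; by_cases e : c = b <;> by_cases e' : u = 1 <;> simp [e, e']
        conv_lhs => rw [e, es_insert _ (by simp)]
        simp [tc]
      · rw [prod_eq_single b (fun c _ hc => by simp [hc]) (by simp), if_pos rfl, aeval_gp]; rfl
  have e1 : ∀ (y : T) g, Ex q E y (Psi q blk g) =
      Psi q blk ((∏ c, (1 + MvPolynomial.C y * tc q (fun b => some b ≠ b0) c)) * g) := by
    intro y g
    rw [prod_es _ _ _ (M := 2 * n + 2) (by simp; omega), Ex, LinearMap.sum_apply, sum_mul, map_sum]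
    refine sum_congr rfl fun j _ => ?_
    rw [LinearMap.smul_apply, hu, Ej_Psi q h, ← map_smul, MvPolynomial.smul_eq_C_mul, map_pow,
      mul_assoc]
  have e2 : ∑ j ∈ range (n + 1), ε j • Yt q E j =
      Psi q blk (∑ j ∈ range (n + 1), MvPolynomial.C (ε j) * t ^ j) := by
    rw [map_sum]
    exact sum_congr rfl fun j _ => by
      rw [Yt_Psi q h hR t ht, ← map_smul, MvPolynomial.smul_eq_C_mul]
  have e3 : ∀ (b : Fin (n + 1)) (c : T), ∏ i, (1 + MvPolynomial.C (x i) * (MvPolynomial.C c *
      MvPolynomial.X b) : MvPolynomial (Fin (n + 1)) T) =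
      Polynomial.aeval (MvPolynomial.X b) (gp (fun a => c ^ a * es univ x a) n) := by
    intro b c
    simp only [mul_comm (MvPolynomial.C (x _))]
    rw [prod_es _ _ _ (M := n) (by simp), aeval_gp]
    refine sum_congr rfl fun a _ => ?_
    rw [← map_es (MvPolynomial.C : T →+* _), MvPolynomial.algebraMap_eq, map_mul, map_pow]; ring
  rw [CC, e2, list_prod_apply _ _ _ e1, ht', List.map_ofFn, List.prod_ofFn]
  simp only [Function.comp_apply, tc]
  rw [prod_comm, Fintype.prod_prod_type]
  simp only [e3, show (univ : Finset ℤˣ) = {1, -1} from rfl,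
    prod_pair (show (1 : ℤˣ) ≠ -1 by decide), ← prod_mul_distrib, ← map_mul]
  rw [Psi_apply, coeff_prod_aeval, BaseV, ← prod_mul_distrib]
  refine prod_congr rfl fun b _ => ?_
  have hk : cnt blk b ≤ n := (card_filter_le _ _).trans (by simp)
  change qf q (cnt blk b) * Polynomial.coeff _ (cnt blk b) = _
  congr 1
  by_cases l : some b = b0
  · rw [if_pos l, mul_right_comm, coeff_mul_range]
    refine sum_congr rfl fun j hj => ?_
    have := mem_range.1 hj
    rw [coeff_gp _ (by omega), if_neg (not_not.2 l), mul_comm (gp _ _), coeff_mul_range,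
      ← hε j (by omega)]
    congr 1
    · refine sum_congr rfl fun i hi => ?_
      have := mem_range.1 hi
      rw [coeff_gp _ (by omega), coeff_gp _ (by omega)]; simp [l]
    · simp
  · rw [if_neg l, mul_one, coeff_mul_range]
    refine sum_congr rfl fun j hj => ?_
    have := mem_range.1 hj
    rw [coeff_gp _ (by omega), coeff_gp _ (by omega)]; simp [l]

end Pool.Agent.Lib.MP_33bfb2_co
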