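import Pool.Agent.Lib.MP_33bfb2_co.Expand

namespace Pool.Agent.Lib.MP_33bfb2_co

open Finset

set_option maxHeartbeats 400000

variable {n : ℕ} {T : Type} [CommRing T]

def rt (i j : Fin n) (u : ℤˣ) : Rt n := if i < j then (i, (j, u)) else (j, (i, u))

theorem tadj_iff {E : Finset (Rt n)} (hE : ∀ γ ∈ E, can γ) {a b : V n} :
    tadj E a b ↔ a.1 ≠ b.1 ∧ rt a.1 b.1 (a.2 * b.2) ∈ E := by
  obtain ⟨i, u⟩ := a
  obtain ⟨j, u'⟩ := b
  refine and_congr_right fun hne => ⟨?_, fun e => ⟨_, e, ?_⟩⟩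
  · rintro ⟨⟨k, l, s⟩, hγ, e⟩
    have := hE _ hγ
    simp only [can, isLoop, ng, Prod.mk.injEq, neg_eq_iff_eq_neg] at this e hne
    rcases e with ⟨⟨rfl, rfl⟩, rfl, rfl⟩ | ⟨⟨rfl, rfl⟩, rfl, rfl⟩ | ⟨⟨rfl, rfl⟩, rfl, rfl⟩ |
      ⟨⟨rfl, rfl⟩, rfl, rfl⟩
    · rw [rt, if_pos (by tauto)]; simpa using hγ
    · rw [rt, if_neg (by dsimp only; omega)]; simpa using hγ
    · rw [rt, if_pos (by tauto)]; simpa using hγ
    · rw [rt, if_neg (by dsimp only; omega)]; simpa using hγ
  · unfold rt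
    rcases Int.units_eq_one_or u with rfl | rfl <;> rcases Int.units_eq_one_or u' with rfl | rfl <;>
      split_ifs <;> simp [ng]

theorem tadj_UI {h : ℕ → ℕ} (hv : valid n h) {a b c : V n} (h1 : pos a < pos b) (h2 : pos b < pos c)
    (h3 : tadj (TT n h) a c) : adj (TT n h) a b ∧ adj (TT n h) b c := by
  obtain ⟨i, u⟩ := a
  obtain ⟨j, u'⟩ := b
  obtain ⟨k, u''⟩ := c
  have m : ∀ s t : Fin n, (s : ℕ) ≤ t → h (s + 1) ≤ h (t + 1) ∨ 2 * n ≤ h (t + 1) + (t + 1) :=
    fun s t e => hv.mono (by omega) t.2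
  have := m i j
  have := m j i
  have := m i k
  have := m k i
  have := m j k
  have := m k j
  have := i.2
  have := j.2
  have := k.2
  simp only [adj, tadj_iff fun _ => can_TT, rt, Fin.lt_def, ne_eq, Fin.ext_iff] at h3 ⊢
  rcases Int.units_eq_one_or u with rfl | rfl <;> rcases Int.units_eq_one_or u' with rfl | rfl <;>
    rcases Int.units_eq_one_or u'' with rfl | rfl <;>
    simp only [pos_p, pos_m, mul_one, mul_neg, neg_neg] at h1 h2 h3 ⊢ <;>
    split_ifs at h3 ⊢ <;> simp only [mem_p, mem_m] at h3 ⊢ <;> omega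

section
variable {q : T} {E : Finset (Rt n)}

theorem vec_self (a : V n) : vec {a} a.1 ≠ 0 := (inj_single a).vec_ne (mem_singleton_self a)

theorem uu_rep {a b : V n} (h : a.1 = b.1) : uu q E a * uu q E b = 0 :=
  LinearMap.ext fun f => (van_Wk (vec_self b) f).kill (h ▸ vec_self a)

theorem uu_rep' {a b : V n} (c : V n) (h : a.1 = b.1) : uu q E a * uu q E c * uu q E b = 0 :=
  LinearMap.ext fun f => ((van_Wk (vec_self b) f).Wk _).kill (h ▸ vec_self a)

theorem Wt_pair {a b : V n} (h : ¬ adj E a b) : Wt q E {a, b} = uu q E a * uu q E b := by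
  rw [Wt_insert (by rw [mem_singleton]; rintro rfl; exact h (Or.inl rfl))
    (fun c hc e => h (Or.inr (by rwa [mem_singleton.1 hc] at e))), Wt, if_pos (inj_single b)]; rfl

def omg (q : T) (E : Finset (Rt n)) (v : V n) (j : Fin n) : T :=
  ∏ u : ℤˣ, if rt v.1 j u ∈ E then chi q (vl (kh (vec {v})) (rt v.1 j u)) else 1

theorem wt_erase (hE : ∀ γ ∈ E, can γ) {v : V n} {j : Fin n} {U : Finset (Fin n)} (hv : v.1 ∈ U)
    (hj : j ∈ U) (hne : v.1 ≠ j) :
    wt q E (vec {v}) U = wt q E (vec {v}) (U.erase j) * omg q E v j := by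
  have e0 : ∀ i, vec {v} i ≠ 0 ↔ i = v.1 := by
    intro i
    obtain ⟨k, u⟩ := v
    rcases Int.units_eq_one_or u with rfl | rfl <;> simp [vec]
  have e1 : omg q E v j = ∏ γ ∈ E, if (γ.1 = v.1 ∧ γ.2.1 = j) ∨ (γ.1 = j ∧ γ.2.1 = v.1) then
      chi q (vl (kh (vec {v})) γ) else 1 := by
    rw [← prod_filter, omg, ← prod_filter]
    refine prod_nbij (rt v.1 j) (fun u hu => ?_) (fun u _ u' _ e => ?_) (fun γ hγ => ?_)
      fun _ _ => rfl
    · rw [mem_filter] at hu ⊢
      refine ⟨hu.2, ?_⟩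
      unfold rt; split_ifs <;> simp
    · unfold rt at e; split_ifs at e <;> simpa using e
    · obtain ⟨k, l, s⟩ := γ
      rw [coe_filter] at hγ
      have := hE _ hγ.1
      have e : rt v.1 j s = (k, l, s) := by
        simp only [can, isLoop, Prod.mk.injEq] at this
        rcases hγ.2 with ⟨rfl, rfl⟩ | ⟨rfl, rfl⟩
        · exact if_pos (by tauto)
        · exact if_neg (by dsimp only; omega)
      exact ⟨s, mem_coe.2 (mem_filter.2 ⟨mem_univ _, e ▸ hγ.1⟩), e⟩
  rw [e1, wt, wt, ← prod_mul_distrib]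
  refine prod_congr rfl fun γ _ => ?_
  simp only [e0, mem_erase]
  grind

theorem omg_tadj (hE : ∀ γ ∈ E, can γ) {v a : V n} (h : tadj E v a) (hp : pos v < pos a) :
    omg q E v a.1 = q * omg q E a v.1 := by
  rw [tadj_iff hE] at h
  obtain ⟨i, u⟩ := v
  obtain ⟨j, u'⟩ := a
  obtain ⟨h1, h2⟩ := h
  have := i.2
  have := j.2
  simp only [omg, show (univ : Finset ℤˣ) = {1, -1} from rfl,
    prod_pair (show (1 : ℤˣ) ≠ -1 by decide)]
  rcases lt_or_gt_of_ne h1 with l | l <;>
    simp only [rt, l, l.not_gt, if_true, if_false] at h2 ⊢ <;>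
    rcases Int.units_eq_one_or u with rfl | rfl <;> rcases Int.units_eq_one_or u' with rfl | rfl <;>
    simp only [pos_p, pos_m, Fin.lt_def, mul_one, mul_neg, neg_neg] at hp l h2 <;>
    first
      | omega
      | simp [h2, vl, kh, vec, chi, h1, h1.symm, mul_comm]

theorem uu_r2 (hE : ∀ γ ∈ E, can γ) {a b v : V n} (hab : a.1 ≠ b.1) (ha : tadj E v a)
    (hb : tadj E v b) (h1 : pos a < pos v) (h2 : pos v < pos b) :
    uu q E v * uu q E a * uu q E b = uu q E a * uu q E b * uu q E v := by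
  refine LinearMap.ext fun f => funext fun U => ?_
  simp only [Module.End.mul_apply, uu_apply, mem_erase]
  by_cases m : v.1 ∈ U ∧ a.1 ∈ U ∧ b.1 ∈ U
  · obtain ⟨m1, m2, m3⟩ := m
    simp only [m1, m2, m3, ha.1, ha.1.symm, hb.1, hb.1.symm, hab.symm, ne_eq, not_false_eq_true,
      and_self, if_true]
    rw [wt_erase hE m1 m2 ha.1, wt_erase hE (U := U.erase a.1) (mem_erase.2 ⟨ha.1, m1⟩)
      (mem_erase.2 ⟨hab.symm, m3⟩) hb.1, wt_erase hE m2 m1 ha.1.symm,
      wt_erase hE (v := b) (U := U.erase a.1) (mem_erase.2 ⟨hab.symm, m3⟩) (mem_erase.2 ⟨ha.1, m1⟩)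
        hb.1.symm, omg_tadj hE hb h2, omg_tadj hE ha.symm h1, erase_right_comm (a := v.1) (b := a.1),
      erase_right_comm (a := v.1) (b := b.1)]
    ring
  · split_ifs <;> first | rfl | (exfalso; tauto) | simp only [mul_zero]

end

theorem mem_RR {h : ℕ → ℕ} {v : V n} : v ∈ RR (TT n h) ↔ h 0 < pos v ∨ v.2 ≠ 1 := by
  obtain ⟨i, u⟩ := v
  rcases Int.units_eq_one_or u with rfl | rfl <;> simp [RR, mem_m, pos_p, Nat.lt_succ_iff]

theorem alg_TT (q : T) {h : ℕ → ℕ} (hv : valid n h)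
    (h3 : ∀ a b c, adj (TT n h) a b ∨ adj (TT n h) a c ∨ adj (TT n h) b c) :
    Alg (uu q (TT n h)) (adj (TT n h)) (Ej q (TT n h) 2) (RR (TT n h)) := by
  have hE : ∀ γ ∈ TT n h, can γ := fun _ => can_TT
  have r1 : ∀ a b, ¬ adj (TT n h) a b →
      uu q (TT n h) a * uu q (TT n h) b = uu q (TT n h) b * uu q (TT n h) a := fun a b e => by
    rw [← Wt_pair e, ← Wt_pair fun e' => e e'.symm, pair_comm]
  have lt : ∀ l ∉ RR (TT n h), ∀ r ∈ RR (TT n h), pos l < pos r := by
    rintro ⟨i, u⟩ hl ⟨j, u'⟩ hr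
    have := hv.1
    have := j.2
    rw [mem_RR] at hl hr
    rcases Int.units_eq_one_or u' with rfl | rfl
    · simp only [ne_eq, not_true, or_false] at hr; omega
    · rw [pos_m]; omega
  have ne : ∀ a b, ¬ adj (TT n h) a b → pos a ≠ pos b := fun a b e e' =>
    e (Or.inl (congrArg Prod.fst (pos_inj e')))
  refine ⟨fun _ _ => adj.symm, fun _ => Or.inl rfl, Ej_empty 1, fun v Z hv => ?_, ?_, h3, r1,
    fun a b v hab ha hb => ?_, fun l hl l' hl' r hr r' hr' a1 a2 a3 => ?_,
    fun l hl r hr r' hr' a1 a2 a3 => ?_⟩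
  · rw [Ej_insert 1 hv, powersetCard_one, sum_map]
    congr 1
    refine sum_congr rfl fun a ha => ?_
    split_ifs with e
    · exact Wt_zero (mem_insert_self _ _) (mem_insert_of_mem (mem_singleton_self a))
        (fun e => hv (e ▸ ha)) e
    · exact Wt_pair e
  · rintro ⟨i, u⟩ ha ⟨j, u'⟩ hb
    simp only [mem_RR, not_or, not_not] at ha hb
    obtain ⟨ha, rfl⟩ := ha
    obtain ⟨hb, rfl⟩ := hb
    have := hv.mono (Nat.zero_le (i + 1)) i.2
    have := hv.mono (Nat.zero_le (j + 1)) j.2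
    have := hv.1
    simp only [adj, tadj_iff hE, rt, Fin.lt_def, ne_eq, Fin.ext_iff, pos_p, mul_one] at ha hb ⊢
    split_ifs <;> simp only [mem_p] <;> omega
  · have n1 : a.1 ≠ b.1 := fun e => hab (Or.inl e)
    rcases ha with ha | ha
    · rw [uu_rep ha, uu_rep' b ha.symm, zero_mul]
    rcases hb with hb | hb
    · rw [uu_rep' a hb, mul_assoc, uu_rep hb.symm, mul_zero]
    have p1 : pos v ≠ pos a := fun e => ha.1 (congrArg Prod.fst (pos_inj e))
    have p2 : pos v ≠ pos b := fun e => hb.1 (congrArg Prod.fst (pos_inj e))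
    have p3 := ne a b hab
    have u1 := fun x y => hab (tadj_UI hv x y hb).2
    have u2 := fun x y => hab (tadj_UI hv x y ha).2.symm
    have u3 := fun x y => hab (tadj_UI hv x y ha.symm).1
    have u4 := fun x y => hab (tadj_UI hv x y hb.symm).1.symm
    rcases lt_or_gt_of_ne p3 with l | l
    · exact uu_r2 hE n1 ha hb (by by_contra; exact u1 (by omega) l)
        (by by_contra; exact u3 l (by omega))
    · rw [mul_assoc, r1 a b hab, ← mul_assoc]
      exact uu_r2 hE n1.symm hb ha (by by_contra; exact u2 (by omega) l)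
        (by by_contra; exact u4 l (by omega))
  · rcases lt_or_gt_of_ne (ne _ _ a2) with p | p
    · rcases (h3 l r' r).resolve_left a1 |>.resolve_right a2 with e | e
      · rw [mul_assoc, mul_assoc, ← mul_assoc (uu q _ r), uu_rep' r' e.symm, mul_zero]
      · exact absurd (tadj_UI hv (lt l hl r' hr') p e).1 a1
    · rcases (h3 l' r r').resolve_left (fun e => a3 e.symm) |>.resolve_right
        (fun e => a2 e.symm) with e | e
      · rw [uu_rep' r e, zero_mul]
      · exact absurd (tadj_UI hv (lt l' hl' r hr) p e).1.symm a3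
  · rcases lt_or_gt_of_ne (ne _ _ a3) with p | p
    · rcases a2 with e | e
      · rw [mul_assoc, uu_rep e.symm, mul_zero]
      · exact absurd (tadj_UI hv (lt l hl r hr) p e).2 a3
    · rcases a1 with e | e
      · exact uu_rep' r' e.symm
      · exact absurd (tadj_UI hv (lt l hl r' hr') p e).2.symm a3

def Dg (n : ℕ) (T : Type) [CommRing T] (d : ℕ) : Submodule T (Module.End T (St n T)) where
  carrier := {X | ∀ j f, (∀ U : Finset (Fin n), U.card ≠ j → f U = 0) →
    ∀ U : Finset (Fin n), U.card ≠ j + d → X f U = 0}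
  zero_mem' _ _ _ _ _ := rfl
  add_mem' hX hY j f hf U hU := by simp [hX j f hf U hU, hY j f hf U hU]
  smul_mem' c X hX j f hf U hU := by simp [hX j f hf U hU]

theorem gr_Dg : Gr (Dg n T) where
  one _ _ hf U hU := hf U hU
  mul hx hy j f hf U hU := hx _ _ (hy j f hf) U (by omega)

theorem Yop_rec {A : Type} [Ring A] (e1 e2 L P : A) (j : ℕ) : Yop e1 e2 L P (j + 1 + 1 + 1) =
    e1 * Yop e1 e2 L P (j + 1 + 1) - e2 * Yop e1 e2 L P (j + 1) := by
  simp only [Yop, Hm]; noncomm_ring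

theorem CC_pos (q : T) {h : ℕ → ℕ} (hv : valid n h)
    (h3 : ∀ a b c, adj (TT n h) a b ∨ adj (TT n h) a c ∨ adj (TT n h) b c)
    (K : Subsemiring T) (hq : q ∈ K) (x : Fin n → T) (ε η : ℕ → T) (h0 : ε 0 = 1)
    (hε : ∀ m ≤ n, ∑ j ∈ range (m + 1), ε j * es univ x (m - j) = η m) :
    ∃ cy cx : ℕ → T, (∀ m, cy m ∈ K) ∧ (∀ m ≤ n, cx m ∈ K) ∧
      CC q (List.ofFn x) ε (TT n h) = ∑ m ∈ range (n + 1), cy m * (η m * es univ x (n - m)) +
        ∑ m ∈ range (n + 1), cx m * (es univ x m * es univ x (n - m)) := by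
  have ha := alg_TT q hv h3
  generalize TT n h = E at *
  have big : ∀ j Z, Ej q E (j + 3) Z = 0 := by
    intro j Z
    refine sum_eq_zero fun τ hτ => ?_
    obtain ⟨a, b, c, m1, m2, m3, n1, n2, n3⟩ :=
      two_lt_card_iff.1 (show 2 < τ.card by rw [(mem_powersetCard.1 hτ).2]; omega)
    rcases h3 a b c with e | e | e
    exacts [Wt_zero m1 m2 n1 e, Wt_zero m1 m3 n2 e, Wt_zero m2 m3 n3 e]
  let ev : Module.End T (St n T) →ₗ[T] T :=
    { toFun := fun X => X (dlt n T) univ, map_add' := fun _ _ => rfl, map_smul' := fun _ _ => rfl }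
  have s1 : ∀ v, uu q E v ∈ Dg n T 1 := by
    intro v j f hf U hU
    rw [uu_apply]
    split_ifs with e
    · rw [hf _ (by rw [card_erase_of_mem e]; have := card_pos.2 ⟨_, e⟩; omega), mul_zero]
    · rfl
  have s2 : ∀ X ∈ Subsemiring.closure (Set.range (uu q E)), ev X ∈ K.toAddSubmonoid := by
    intro X hX
    have : ∀ f : St n T, (∀ U, f U ∈ K) → ∀ U, X f U ∈ K := by
      induction hX using Subsemiring.closure_induction with
      | mem X hX =>
        obtain ⟨v, rfl⟩ := hX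
        intro f hf U
        rw [uu_apply]
        split_ifs
        · refine mul_mem (prod_mem fun γ _ => ?_) (hf _)
          unfold chi
          split_ifs
          exacts [zero_mem _, hq, one_mem _, one_mem _]
        · exact zero_mem _
      | zero => exact fun _ _ _ => zero_mem _
      | one => exact fun _ hf => hf
      | add X Y _ _ hX hY => exact fun f hf U => add_mem (hX f hf U) (hY f hf U)
      | mul X Y _ _ hX hY => exact fun f hf U => hX _ (hY f hf) U
    refine this _ (fun U => ?_) _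
    unfold dlt; split_ifs
    exacts [one_mem _, zero_mem _]
  obtain ⟨cy, cx, c1, c2, c3⟩ := ha.expand gr_Dg s1 ev
    (fun d hd X hX => hX 0 _ (fun U hU => if_neg fun e => hU (by simp [e])) _ (by simpa using hd.symm))
    K.toAddSubmonoid s2 x ε η h0 hε
  · refine ⟨cy, cx, c1, c2, Eq.trans ?_ c3⟩
    have e1 : Ex q E = fun y => 1 + y • ∑ v, uu q E v + y ^ 2 • Ej q E 2 univ := by
      funext y
      rw [Ex, sum_range_succ', sum_range_succ', sum_range_succ', sum_eq_zero fun j _ => by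
        rw [big, smul_zero]]
      simp only [Ej_zero, zero_add, Ej_one, pow_zero, pow_one, one_smul]
      abel
    have e2 : ∀ j, Yt q E j = Yop (∑ v, uu q E v) (Ej q E 2 univ) (∑ l ∈ (RR E)ᶜ, uu q E l)
        (Ej q E 2 univ - Ej q E 2 (RR E)) j (dlt n T) := by
      intro j
      induction j using Nat.strong_induction_on with
      | _ j ih =>
      rw [Yt]
      rcases j with _ | _ | _ | j
      · simp [Ej_zero, Yop]
      · rw [Fin.sum_univ_succ, Fin.sum_univ_zero]
        simp only [zero_add, pow_one, Fin.val_zero, pow_zero, Nat.sub_self, ih 0 (by omega),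
          Yop, Hm, Ej_one, ← sum_add_sum_compl (RR E) (uu q E)]
        simp
      · simp only [Fin.sum_univ_two, Fin.val_zero, Fin.val_one, ih 0 (by omega), ih 1 (by omega),
          Yop, Hm, Ej_one, zero_add, Nat.reduceAdd, Nat.reduceSub]
        simp; abel
      · rw [big, Fin.sum_univ_succ, Fin.sum_univ_succ, sum_eq_zero fun i _ => by
          simp only [Fin.val_succ]; rw [big, LinearMap.zero_apply, smul_zero]]
        simp only [Fin.val_zero, Fin.val_succ, zero_add, Nat.add_sub_cancel, Nat.sub_zero,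
          ih (j + 1 + 1) (by omega), ih (j + 1) (by omega), Ej_one]
        rw [Yop_rec]
        simp [sub_eq_add_neg]
    rw [CC, e1]
    simp only [e2, ev, LinearMap.coe_mk, AddHom.coe_mk, Module.End.mul_apply, LinearMap.sum_apply,
      LinearMap.smul_apply]

end Pool.Agent.Lib.MP_33bfb2_co
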