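import Pool.Agent.Lib.MP_33bfb2_co.Tr

namespace Pool.Agent.Lib.MP_33bfb2_co

open MvPolynomial

abbrev P (n : ℕ) := MvPolynomial (Fin n) ℂ
abbrev Fn (n : ℕ) := W n → P n

variable {n : ℕ}

attribute [local instance] MvPolynomial.gradedAlgebra in
theorem hcomp_mul {z : P n} {d : ℕ} (hz : z.IsHomogeneous d) (f : P n) (i : ℕ) :
    homogeneousComponent i (z * f) =
      if d ≤ i then z * homogeneousComponent (i - d) f else 0 := by
  have := DirectSum.coe_decompose_mul_of_left_mem (homogeneousSubmodule (Fin n) ℂ) (a := z) (b := f)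
    i hz
  rw [← decomposition.decompose'_apply, ← decomposition.decompose'_apply]
  exact this

noncomputable def hc (i : ℕ) : Fn n →ₗ[ℂ] Fn n where
  toFun ρ w := homogeneousComponent i (ρ w)
  map_add' ρ σ := by funext w; simp
  map_smul' c ρ := by funext w; simp

theorem hc_apply (i : ℕ) (ρ : Fn n) (w : W n) : hc i ρ w = homogeneousComponent i (ρ w) := rfl

theorem hc_mem_deg (i : ℕ) (ρ : Fn n) : hc i ρ ∈ deg n i :=
  fun _ _ => homogeneousComponent_isHomogeneous _ _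

theorem hc_of_mem {i : ℕ} {ρ : Fn n} (h : ρ ∈ deg n i) : hc i ρ = ρ := by
  funext w
  exact homogeneousComponent_eq_self (h w (Set.mem_univ _))

theorem hc_mul {z : Fn n} {d : ℕ} (hz : z ∈ deg n d) (ρ : Fn n) (i : ℕ) :
    hc i (z * ρ) = if d ≤ i then z * hc (i - d) ρ else 0 := by
  funext w
  rw [hc_apply, Pi.mul_apply, hcomp_mul (hz w (Set.mem_univ _))]
  split_ifs <;> rfl

structure GS (N : Submodule (P n) (Fn n)) : Prop where
  gr : ∀ ρ ∈ N, ∀ i, hc i ρ ∈ N
  st : ∀ w, ∀ ρ ∈ N, dot w ρ ∈ N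

instance finDeg (i : ℕ) : FiniteDimensional ℂ (deg n i) := by
  have : (deg n i).FG := Submodule.fg_pi fun _ => homogeneousSubmodule_fg _ _ _
  exact Module.Finite.iff_fg.2 this

instance finCut (N : Submodule (P n) (Fn n)) (i : ℕ) : FiniteDimensional ℂ (cut N i) :=
  Submodule.finiteDimensional_of_le (inf_le_right : cut N i ≤ deg n i)

noncomputable def ch (N : Submodule (P n) (Fn n)) (w : W n) : PowerSeries ℂ :=
  PowerSeries.mk fun i => trOn (dot w) (cut N i) - trOn (dot w) (cut (aug n • N) i)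

theorem GS.cut_st {N : Submodule (P n) (Fn n)} (h : GS N) (w : W n) (i : ℕ) :
    ∀ x ∈ cut N i, dot w x ∈ cut N i :=
  fun _ hx => ⟨h.st w _ hx.1, dot_mem_deg w hx.2⟩

theorem GS.aug {N : Submodule (P n) (Fn n)} (h : GS N) : GS (aug n • N) where
  st w _ hρ := dot_mem_aug_smul w (h.st w) hρ
  gr ρ hρ i := by
    refine Submodule.smul_induction_on hρ (fun f hf σ hσ => ?_) (fun x y hx hy => ?_)
    · obtain ⟨g, rfl⟩ := Ideal.mem_span_range_iff_exists_fun.1 hf
      rw [Finset.sum_smul, map_sum]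
      refine Submodule.sum_mem _ fun k _ => ?_
      have e : (g k * X k) • σ = (fun _ => X k : Fn n) * (g k • σ) := by
        funext w
        simp only [Pi.smul_apply, smul_eq_mul, Pi.mul_apply]
        ring
      rw [e, hc_mul (d := 1) (fun _ _ => isHomogeneous_X _ _)]
      split_ifs
      · exact Submodule.smul_mem_smul (Ideal.subset_span (Set.mem_range_self k))
          (h.gr _ (N.smul_mem _ hσ) _)
      · exact zero_mem _
    · rw [map_add]; exact add_mem hx hy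

theorem GS.sup {N M : Submodule (P n) (Fn n)} (h : GS N) (h' : GS M) : GS (N ⊔ M) where
  st w ρ hρ := by
    obtain ⟨a, ha, b, hb, rfl⟩ := Submodule.mem_sup.1 hρ
    rw [map_add]; exact Submodule.add_mem_sup (h.st w a ha) (h'.st w b hb)
  gr ρ hρ i := by
    obtain ⟨a, ha, b, hb, rfl⟩ := Submodule.mem_sup.1 hρ
    rw [map_add]; exact Submodule.add_mem_sup (h.gr a ha i) (h'.gr b hb i)

theorem GS.inf {N M : Submodule (P n) (Fn n)} (h : GS N) (h' : GS M) : GS (N ⊓ M) where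
  st w ρ hρ := ⟨h.st w ρ hρ.1, h'.st w ρ hρ.2⟩
  gr ρ hρ i := ⟨h.gr ρ hρ.1 i, h'.gr ρ hρ.2 i⟩

theorem GS.bot : GS (⊥ : Submodule (P n) (Fn n)) where
  st w ρ hρ := by rw [Submodule.mem_bot] at hρ ⊢; rw [hρ, map_zero]
  gr ρ hρ i := by rw [Submodule.mem_bot] at hρ ⊢; rw [hρ, map_zero]

theorem cut_sup {N M : Submodule (P n) (Fn n)} (h : GS N) (h' : GS M) (i : ℕ) :
    cut (N ⊔ M) i = cut N i ⊔ cut M i := by
  apply le_antisymm
  · rintro ρ ⟨h1, h2⟩
    obtain ⟨a, ha, b, hb, rfl⟩ := Submodule.mem_sup.1 h1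
    rw [← hc_of_mem h2, map_add]
    exact Submodule.add_mem_sup ⟨h.gr a ha i, hc_mem_deg _ _⟩ ⟨h'.gr b hb i, hc_mem_deg _ _⟩
  · exact sup_le (fun x hx => ⟨Submodule.mem_sup_left hx.1, hx.2⟩)
      (fun x hx => ⟨Submodule.mem_sup_right hx.1, hx.2⟩)

theorem trOn_cut_sup {N M : Submodule (P n) (Fn n)} (h : GS N) (h' : GS M) (hd : Disjoint N M)
    (w : W n) (i : ℕ) :
    trOn (dot w) (cut (N ⊔ M) i) = trOn (dot w) (cut N i) + trOn (dot w) (cut M i) := by
  rw [cut_sup h h', trOn_sup _ (h.cut_st w i) (h'.cut_st w i)]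
  rw [Submodule.disjoint_def] at hd ⊢
  exact fun x hx hy => hd x hx.1 hy.1

theorem ch_sup {N M : Submodule (P n) (Fn n)} (h : GS N) (h' : GS M) (hd : Disjoint N M)
    (w : W n) : ch (N ⊔ M) w = ch N w + ch M w := by
  ext i
  simp only [ch, PowerSeries.coeff_mk, map_add]
  rw [Submodule.smul_sup, trOn_cut_sup h h' hd, trOn_cut_sup h.aug h'.aug
    (hd.mono Submodule.smul_le_right Submodule.smul_le_right)]
  ring

theorem ch_bot (w : W n) : ch (⊥ : Submodule (P n) (Fn n)) w = 0 := by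
  ext i
  simp [ch]

/-- multiplication by a function -/
noncomputable def mz (z : Fn n) (N : Submodule (P n) (Fn n)) : Submodule (P n) (Fn n) :=
  N.map (LinearMap.mulLeft (P n) z)

theorem mem_mz {z ρ : Fn n} {N : Submodule (P n) (Fn n)} : ρ ∈ mz z N ↔ ∃ σ ∈ N, z * σ = ρ :=
  Iff.rfl

structure Inv (z : Fn n) (d : ℕ) : Prop where
  hd : z ∈ deg n d
  ne : ∀ w, z w ≠ 0
  inv : ∀ w, dot w z = z

theorem dot_mul (w : W n) (ρ σ : Fn n) : dot w (ρ * σ) = dot w ρ * dot w σ := by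
  funext v; simp [dot]

theorem Inv.pow {z : Fn n} (h : Inv z 1) (j : ℕ) : Inv (z ^ j) j where
  hd w _ := by
    have := IsHomogeneous.pow (h.hd w (Set.mem_univ _)) j
    rw [one_mul] at this
    exact this
  ne w := pow_ne_zero _ (h.ne w)
  inv w := by
    funext v
    have := congrFun (h.inv w) v
    simp only [dot, LinearMap.coe_mk, AddHom.coe_mk, Pi.pow_apply, map_pow] at this ⊢
    rw [this]

theorem GS.mz {z : Fn n} {d : ℕ} (hz : Inv z d) {N : Submodule (P n) (Fn n)} (h : GS N) :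
    GS (mz z N) where
  st w ρ hρ := by
    obtain ⟨σ, hσ, rfl⟩ := mem_mz.1 hρ
    rw [dot_mul, hz.inv]
    exact ⟨_, h.st w σ hσ, rfl⟩
  gr ρ hρ i := by
    obtain ⟨σ, hσ, rfl⟩ := mem_mz.1 hρ
    rw [hc_mul hz.hd]
    split_ifs
    · exact ⟨_, h.gr σ hσ _, rfl⟩
    · exact zero_mem _

theorem trOn_cut_mz {z : Fn n} {d : ℕ} (hz : Inv z d) {N : Submodule (P n) (Fn n)} (h : GS N)
    (w : W n) (i : ℕ) :
    trOn (dot w) (cut (mz z N) i) = if d ≤ i then trOn (dot w) (cut N (i - d)) else 0 := by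
  split_ifs with hi
  · have : cut (mz z N) i = (cut N (i - d)).map (LinearMap.mulLeft ℂ z) := by
      apply le_antisymm
      · rintro ρ ⟨h1, h2⟩
        obtain ⟨σ, hσ, rfl⟩ := mem_mz.1 h1
        rw [← hc_of_mem h2, hc_mul hz.hd, if_pos hi]
        exact ⟨_, ⟨h.gr σ hσ _, hc_mem_deg _ _⟩, rfl⟩
      · rintro _ ⟨σ, ⟨h1, h2⟩, rfl⟩
        refine ⟨⟨σ, h1, rfl⟩, fun v _ => ?_⟩
        have := IsHomogeneous.mul (hz.hd v (Set.mem_univ _)) (h2 v (Set.mem_univ _))
        rw [Nat.add_sub_cancel' hi] at this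
        exact this
    rw [this, trOn_map _ _ (h.cut_st w _)]
    · intro a b hab
      funext v
      exact mul_left_cancel₀ (hz.ne v) (congrFun hab v)
    · intro x
      simp [dot_mul, hz.inv]
  · have : cut (mz z N) i = ⊥ := by
      rw [eq_bot_iff]
      rintro ρ ⟨h1, h2⟩
      obtain ⟨σ, hσ, rfl⟩ := mem_mz.1 h1
      rw [← hc_of_mem h2, hc_mul hz.hd, if_neg hi]
      exact zero_mem _
    rw [this, trOn_bot]

theorem ch_mz {z : Fn n} {d : ℕ} (hz : Inv z d) {N : Submodule (P n) (Fn n)} (h : GS N)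
    (w : W n) : ch (mz z N) w = PowerSeries.X ^ d * ch N w := by
  ext i
  have : aug n • mz z N = mz z (aug n • N) := (Submodule.map_smul'' _ _ _).symm
  rw [PowerSeries.coeff_X_pow_mul']
  simp only [ch, PowerSeries.coeff_mk]
  rw [this, trOn_cut_mz hz h, trOn_cut_mz hz h.aug]
  split_ifs <;> simp

theorem cut_mono {N M : Submodule (P n) (Fn n)} (h : N ≤ M) (i : ℕ) : cut N i ≤ cut M i :=
  fun _ hx => ⟨h hx.1, hx.2⟩

theorem dotChar_eq (H : Set (Fin n → ℤ)) (i : ℕ) (w : W n) :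
    dotChar H i w = PowerSeries.coeff i (ch (spl H) w) := by
  rw [ch, PowerSeries.coeff_mk]
  exact quotTrace_eq (dot w) (cut (spl H) i) (cut (aug n • spl H) i)
    (cut_mono Submodule.smul_le_right i) _ _

end Pool.Agent.Lib.MP_33bfb2_co
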