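import Pool.Agent.Lib.MP_33bfb2_co.Free

namespace Pool.Agent.Lib.MP_33bfb2_co

open Finset MvPolynomial

set_option maxHeartbeats 400000

variable {n : ℕ}

theorem W_pair (w : W n) (i : Fin n) (u : ℤˣ) :
    w.1 (i, u) = ((w.1 (i, 1)).1, u * (w.1 (i, 1)).2) := by
  rcases Int.units_eq_one_or u with rfl | rfl
  · simp
  · rw [← ng_mk, W_ng]; simp [ng]

theorem W_inv_apply (w : W n) (v : V n) : (w⁻¹).1 (w.1 v) = v := by
  rw [← W_mul_apply, inv_mul_cancel]; rfl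

theorem W_apply_inv (w : W n) (v : V n) : w.1 ((w⁻¹).1 v) = v := by
  rw [← W_mul_apply, mul_inv_cancel]; rfl

def ab (w : W n) : Equiv.Perm (Fin n) where
  toFun i := (w.1 (i, 1)).1
  invFun i := ((w⁻¹).1 (i, 1)).1
  left_inv i := by
    have := congrArg Prod.fst (W_inv_apply w (i, 1))
    rwa [← Prod.mk.eta (p := w.1 (i, 1)), W_pair] at this
  right_inv i := by
    have := congrArg Prod.fst (W_apply_inv w (i, 1))
    rwa [← Prod.mk.eta (p := (w⁻¹).1 (i, 1)), W_pair] at this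

def sg (w : W n) (i : Fin n) : ℤˣ := (w.1 (i, 1)).2

theorem W_apply (w : W n) (v : V n) : w.1 v = (ab w v.1, v.2 * sg w v.1) := W_pair w v.1 v.2

theorem ab_mul (u w : W n) : ab (u * w) = ab u * ab w := by
  ext1 i
  change ((u * w).1 (i, 1)).1 = _
  rw [W_mul_apply, W_apply]; rfl

theorem sg_mul (u w : W n) (i : Fin n) : sg (u * w) i = sg w i * sg u (ab w i) := by
  change ((u * w).1 (i, 1)).2 = _
  rw [W_mul_apply, W_apply]; rfl

theorem ab_inv (w : W n) : ab w⁻¹ = (ab w)⁻¹ := rfl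

theorem sg_inv (w : W n) (i : Fin n) : sg w⁻¹ (ab w i) = sg w i := by
  have := sg_mul w⁻¹ w i
  rw [inv_mul_cancel] at this
  have h1 : sg (1 : W n) i = 1 := rfl
  rw [h1] at this
  rcases Int.units_eq_one_or (sg w i) with e | e <;> rw [e] at this ⊢
  · simpa using this.symm
  · rw [neg_mul, one_mul] at this; exact neg_eq_iff_eq_neg.1 this.symm

def mkW (π : Equiv.Perm (Fin n)) (ε : Fin n → ℤˣ) : W n :=
  ⟨⟨fun v => (π v.1, v.2 * ε v.1), fun v => (π⁻¹ v.1, v.2 * ε (π⁻¹ v.1)),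
    fun v => by simp [mul_assoc], fun v => by simp [mul_assoc]⟩, mem_W fun v => by simp [ng]⟩

theorem ab_mkW (π : Equiv.Perm (Fin n)) (ε : Fin n → ℤˣ) : ab (mkW π ε) = π := rfl
theorem sg_mkW (π : Equiv.Perm (Fin n)) (ε : Fin n → ℤˣ) : sg (mkW π ε) = ε := by
  funext i; simp [sg, mkW]

theorem W_ext' {u w : W n} (h1 : ab u = ab w) (h2 : sg u = sg w) : u = w :=
  W_ext fun v => by rw [W_apply, W_apply, h1, h2]

def eW : W n ≃ Equiv.Perm (Fin n) × (Fin n → ℤˣ) where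
  toFun w := (ab w, sg w)
  invFun p := mkW p.1 p.2
  left_inv _ := W_ext' rfl (sg_mkW _ _)
  right_inv p := Prod.ext rfl (sg_mkW p.1 p.2)

theorem ab_lift (g : Equiv.Perm (Fin n)) : ab (lift g) = g := rfl
theorem sg_lift (g : Equiv.Perm (Fin n)) (i : Fin n) : sg (lift g) i = 1 := rfl
theorem lift_inv (g : Equiv.Perm (Fin n)) : (lift g)⁻¹ = lift g⁻¹ := W_ext fun _ => rfl

theorem ab_flip (i : Fin n) : ab (rf (i, 1) (i, -1)) = 1 := by
  ext1 j
  change ((rf (i, 1) (i, -1)).1 (j, 1)).1 = _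
  rw [rf_flip]; split_ifs <;> rfl

theorem sg_flip (i j : Fin n) : sg (rf (i, 1) (i, -1)) j = if j = i then -1 else 1 := by
  rw [sg, rf_flip]; split_ifs <;> rfl

theorem rf_inv (a b : V n) : (rf a b)⁻¹ = rf a b := inv_eq_of_mul_eq_one_right (rf_mul_self a b)

theorem Ed.prod {a b : V n} {ι : Type} (s : Finset ι) (f : ι → Fn n) (h : ∀ i, Ed a b (f i)) :
    Ed a b (∏ i ∈ s, f i) :=
  Finset.prod_induction f (Ed a b) (fun _ _ => Ed.mul) (fun w => by simp) fun i _ => h i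

theorem dot_prod (u : W n) {ι : Type} (s : Finset ι) (f : ι → Fn n) :
    dot u (∏ i ∈ s, f i) = ∏ i ∈ s, dot u (f i) := by
  funext w; simp [dot]

section
variable {B : Type} [DecidableEq B] (blk : Fin n → B) (lp : B → Prop)

abbrev Th := {β : Fin n → B // ∃ π : Equiv.Perm (Fin n), β = blk ∘ π} × (Fin n → ℤˣ)

variable {blk}

noncomputable def gv (θ : Th blk) (v : Fin n) : Fn n := fun w =>
  if θ.1.1 v = blk (ab w⁻¹ v) then
    gs (lp (θ.1.1 v)) (θ.2 v) (sg w⁻¹ v) • gm (lp (θ.1.1 v)) (θ.2 v) v else 0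

noncomputable def bb (θ : Th blk) : Fn n := ∏ v, gv lp θ v

open Classical in
noncomputable def tau (u : W n) (θ : Th blk) : Th blk :=
  (⟨θ.1.1 ∘ ab u⁻¹, by obtain ⟨π, h⟩ := θ.1.2; exact ⟨π * ab u⁻¹, by rw [h]; rfl⟩⟩,
    fun v => if lp (θ.1.1 (ab u⁻¹ v)) then θ.2 (ab u⁻¹ v) else sg u⁻¹ v * θ.2 (ab u⁻¹ v))

open Classical in
noncomputable def dg (θ : Th blk) : ℕ := ∑ v, if lp (θ.1.1 v) ∧ θ.2 v ≠ 1 then 1 else 0

theorem dot_gv (u : W n) (θ : Th blk) (v : Fin n) :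
    dot u (gv lp θ (ab u⁻¹ v)) = gv lp (tau lp u θ) v := by
  funext w
  change act u (gv lp θ (ab u⁻¹ v) (u⁻¹ * w)) = _
  have e1 : ab u (ab u⁻¹ v) = v := by rw [ab_inv]; simp
  have e2 : sg u (ab u⁻¹ v) = sg u⁻¹ v := by rw [← sg_inv u, e1]
  simp only [gv, tau, mul_inv_rev, inv_inv, ab_mul, sg_mul, Equiv.Perm.mul_apply, e1, e2,
    Function.comp_apply]
  by_cases h : θ.1.1 (ab u⁻¹ v) = blk (ab w⁻¹ v)
  · rw [if_pos h, if_pos h, map_zsmul]
    have e3 : act u (X (ab u⁻¹ v)) = (sg u⁻¹ v : ℤ) • X v := by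
      rw [act_X, W_apply, e1, e2, one_mul]; rfl
    by_cases l : lp (θ.1.1 (ab u⁻¹ v))
    · by_cases l2 : θ.2 (ab u⁻¹ v) = 1
      · simp [gs, gm, l, l2]
      · simp only [gs, gm, l, l2, if_true, if_false, ne_eq, not_false_eq_true, and_self, e3,
          smul_smul]
        congr 1
        rw [← Units.val_mul, mul_right_comm, Int.units_mul_self, one_mul]
    · simp only [gs, gm, l, if_false, false_and, map_one]
      congr 1
      refine if_congr ?_ rfl rfl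
      rcases Int.units_eq_one_or (sg u⁻¹ v) with e | e <;> simp [e, neg_eq_iff_eq_neg]
  · rw [if_neg h, if_neg h, map_zero]

theorem dot_bb (u : W n) (θ : Th blk) : dot u (bb lp θ) = bb lp (tau lp u θ) := by
  rw [bb, ← Equiv.prod_comp (ab u⁻¹), dot_prod]
  exact prod_congr rfl fun v _ => dot_gv lp u θ v

theorem bb_deg (θ : Th blk) : bb lp θ ∈ deg n (dg lp θ) := by
  intro w _
  rw [bb, Finset.prod_apply]
  refine IsHomogeneous.prod _ _ _ fun v _ => ?_
  simp only [gv]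
  split_ifs with h1 h2 h2
  · rw [gm, if_pos h2]
    exact (homogeneousSubmodule (Fin n) ℂ 1).toAddSubgroup.zsmul_mem (isHomogeneous_X _ _) _
  · rw [gm, if_neg h2]
    exact (homogeneousSubmodule (Fin n) ℂ 0).toAddSubgroup.zsmul_mem (isHomogeneous_one _ _) _
  · exact isHomogeneous_zero _ _ _
  · exact isHomogeneous_zero _ _ _

theorem gv_lift (θ : Th blk) (v : Fin n) {g : Equiv.Perm (Fin n)} (h : ∀ i, blk (g i) = blk i)
    (w : W n) : gv lp θ v (w * lift g) = gv lp θ v w := by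
  have : ∀ i, blk (g⁻¹ i) = blk i := fun i => by rw [← h]; simp
  simp only [gv, mul_inv_rev, ab_mul, sg_mul, lift_inv, ab_lift, sg_lift, mul_one,
    Equiv.Perm.mul_apply, this]

theorem bb_mem (θ : Th blk) : bb lp θ ∈ Mk blk lp n := by
  constructor
  · rintro ⟨i, u⟩ ⟨j, u'⟩ ⟨rfl, ⟨rfl, -, h⟩ | ⟨h1, h2⟩⟩
    · refine Ed.prod _ _ fun v w => ?_
      rw [rf_lift, gv_lift lp θ v (blk_swap h), sub_self]
      exact dvd_zero _
    · rw [h1, ng_mk]
      refine Ed.prod _ _ fun v w => ?_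
      simp only [gv, mul_inv_rev, rf_inv, ab_mul, sg_mul, ab_flip, sg_flip, one_mul]
      by_cases e : ab w⁻¹ v = i
      · have e1 : ab w i = v := by rw [← e, ab_inv]; simp
        rw [if_pos e, e]
        split_ifs with h3
        · rw [h3]
          by_cases l2 : θ.2 v = 1
          · simp [gs, h2, l2]
          · simp only [gs, gm, h2, l2, if_true, if_false, ne_eq, not_false_eq_true, and_self]
            rw [← ng_mk, W_ng, xv_ng, W_apply, e1, ← e1, sg_inv, e1, one_mul]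
            simp [xv]
        · simp
      · simp [e]
  · rintro _ ⟨g, rfl, h, -⟩ w
    simp only [bb, Finset.prod_apply, gv_lift lp θ _ h]

theorem bb_apply (θ : Th blk) (w : W n) : bb lp θ w = if θ.1.1 = blk ∘ ab w⁻¹ then
    ∏ v, (gs (lp (θ.1.1 v)) (θ.2 v) (sg w⁻¹ v) • gm (lp (θ.1.1 v)) (θ.2 v) v) else 0 := by
  rw [bb, Finset.prod_apply]
  split_ifs with h
  · exact prod_congr rfl fun v _ => if_pos (congrFun h v)
  · obtain ⟨v, hv⟩ := Function.ne_iff.1 h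
    exact prod_eq_zero (mem_univ v) (if_neg hv)

variable [Fintype B]

theorem sum_bb (f : Th blk → P n) (w : W n) : (∑ θ, f θ • bb lp θ) w =
    ∑ η, f (⟨blk ∘ ab w⁻¹, _, rfl⟩, η) * ∏ v, (gs (lp (blk (ab w⁻¹ v))) (η v) (sg w⁻¹ v) •
      gm (lp (blk (ab w⁻¹ v))) (η v) v) := by
  rw [Finset.sum_apply, Fintype.sum_prod_type, sum_eq_single ⟨blk ∘ ab w⁻¹, _, rfl⟩]
  · refine sum_congr rfl fun η _ => ?_
    rw [Pi.smul_apply, bb_apply, if_pos rfl]; rfl
  · intro β _ hβ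
    refine sum_eq_zero fun η _ => ?_
    rw [Pi.smul_apply, bb_apply, if_neg fun e => hβ (Subtype.ext e), smul_zero]
  · simp

theorem bb_span (ρ : Fn n) (hρ : ρ ∈ Mk blk lp n) : ∃ f : Th blk → P n, ρ = ∑ θ, f θ • bb lp θ := by
  have key : ∀ β : {β : Fin n → B // ∃ π : Equiv.Perm (Fin n), β = blk ∘ π},
      ∃ f : (Fin n → ℤˣ) → P n, ∀ w : W n, β.1 = blk ∘ ab w⁻¹ → ρ w =
        ∑ η, f η * ∏ v, (gs (lp (β.1 v)) (η v) (sg w⁻¹ v) • gm (lp (β.1 v)) (η v) v) := by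
    rintro ⟨_, π, rfl⟩
    obtain ⟨f, hf⟩ := cube_span (fun v => lp (blk (π v))) (fun ε => ρ (mkW π ε)⁻¹) (by
      intro v hv ε
      have := hρ.1 (π v, 1) (π v, -1) ⟨rfl, Or.inr ⟨rfl, hv⟩⟩ (mkW π ε)⁻¹
      have e : (mkW π ε)⁻¹ * rf (π v, 1) (π v, -1) =
          (mkW π (Function.update ε v (- ε v)))⁻¹ := by
        rw [← inv_inj, mul_inv_rev, rf_inv, inv_inv, inv_inv]
        refine W_ext' (by rw [ab_mul, ab_flip, one_mul]; rfl) ?_
        funext t
        rw [sg_mul, sg_flip, sg_mkW, sg_mkW, ab_mkW]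
        by_cases h : t = v <;> simp [h]
      rw [e] at this
      refine Dvd.dvd.trans ?_ this
      have e2 : ∀ u, X v ∣ xv (((mkW π ε)⁻¹).1 (π v, u)) := fun u => by
        rw [W_apply, ab_inv, ab_mkW, xv, zsmul_eq_mul]
        simp
      exact dvd_sub (e2 _) (e2 _))
    refine ⟨f, fun w hw => ?_⟩
    refine Eq.trans ?_ (hf (sg w⁻¹))
    have e : (mkW π (sg w⁻¹))⁻¹ = w * lift (ab w⁻¹ * π⁻¹) := by
      rw [← inv_inj, mul_inv_rev, inv_inv, lift_inv]
      refine W_ext' (by rw [ab_mul, ab_lift, ab_mkW]; group) ?_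
      funext t
      rw [sg_mul, sg_lift, sg_mkW, mul_one]
    rw [e]
    refine (hρ.2 _ ⟨_, rfl, fun i => ?_, fun i hi => absurd i.2 (by omega)⟩ w).symm
    have := congrFun hw (π⁻¹ i)
    simpa using this.symm
  choose f hf using key
  refine ⟨fun θ => f θ.1 θ.2, funext fun w => ?_⟩
  rw [sum_bb]
  exact hf ⟨blk ∘ ab w⁻¹, _, rfl⟩ w rfl

theorem bb_indep (f : Th blk → P n) (h : ∑ θ, f θ • bb lp θ = 0) (θ : Th blk) : f θ = 0 := by
  obtain ⟨⟨_, π, rfl⟩, η⟩ := θ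
  refine cube_indep (fun v => lp (blk (π v))) (fun η => f (⟨_, π, rfl⟩, η)) (fun ε => ?_) η
  have := congrFun h (mkW π ε)⁻¹
  rw [sum_bb] at this
  simp only [inv_inv, ab_mkW, sg_mkW] at this
  exact this

open Classical in
theorem ch_Mk (u : W n) : ch (Mk blk lp n) u =
    ∑ θ : Th blk, if tau lp u θ = θ then PowerSeries.X ^ dg lp θ else 0 := by
  convert ch_basis (bb lp) (dg lp) (bb_deg lp) (gs_Mk n) (bb_mem lp) (bb_span lp) (bb_indep lp) u
    (tau lp u) (dot_bb lp u)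

end

end Pool.Agent.Lib.MP_33bfb2_co
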