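import Mathlib

namespace Pool.Agent.Lib.MP_33bfb2_co

open MvPolynomial

/-- Signed permutations: permutations of the pairs (i, sign) commuting with the sign change. -/
def W (n : ℕ) : Subgroup (Equiv.Perm (Fin n × ℤˣ)) :=
  Subgroup.centralizer {Equiv.prodCongr (Equiv.refl (Fin n)) (Equiv.neg ℤˣ)}

/-- The action of a signed permutation on polynomials. -/
noncomputable def act {n : ℕ} (w : W n) :
    MvPolynomial (Fin n) ℂ →ₐ[ℂ] MvPolynomial (Fin n) ℂ :=
  aeval fun i => ((w.1 (i, 1)).2 : ℤ) • X (w.1 (i, 1)).1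

/-- The linear form with coefficient vector a. -/
noncomputable def lin {n : ℕ} (a : Fin n → ℤ) : MvPolynomial (Fin n) ℂ := ∑ i, a i • X i

/-- Positive roots; c = 1 gives type B and c = 2 gives type C. -/
def posRoots (n : ℕ) (c : ℤ) : Set (Fin n → ℤ) :=
  {a | (∃ i j, i < j ∧ (a = Pi.single i 1 - Pi.single j 1 ∨ a = Pi.single i 1 + Pi.single j 1)) ∨
    ∃ i, a = Pi.single i c}

/-- s is the reflection in the root a. -/
def IsRefl {n : ℕ} (a : Fin n → ℤ) (s : W n) : Prop :=
  ∀ i, (∑ j, a j ^ 2) • (X i - act s (X i)) = (2 * a i) • lin a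

/-- Splines (GKM description of equivariant cohomology). -/
def spl {n : ℕ} (H : Set (Fin n → ℤ)) :
    Submodule (MvPolynomial (Fin n) ℂ) (W n → MvPolynomial (Fin n) ℂ) where
  carrier := {ρ | ∀ a ∈ H, ∀ s, IsRefl a s → ∀ w, act w (lin a) ∣ ρ w - ρ (w * s)}
  zero_mem' := by intro a _ s _ w; simp
  add_mem' := by
    intro ρ σ hρ hσ a ha s hs w
    have := dvd_add (hρ a ha s hs w) (hσ a ha s hs w)
    simpa [add_sub_add_comm] using this
  smul_mem' := by
    intro f ρ hρ a ha s hs w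
    have := (hρ a ha s hs w).mul_left f
    simpa [mul_sub] using this

/-- The dot action. -/
noncomputable def dot {n : ℕ} (w : W n) :
    (W n → MvPolynomial (Fin n) ℂ) →ₗ[ℂ] (W n → MvPolynomial (Fin n) ℂ) where
  toFun ρ v := act w (ρ (w⁻¹ * v))
  map_add' ρ σ := by funext v; simp
  map_smul' c ρ := by funext v; simp

/-- Functions all of whose values are homogeneous of degree i. -/
noncomputable def deg (n i : ℕ) : Submodule ℂ (W n → MvPolynomial (Fin n) ℂ) :=
  Submodule.pi Set.univ fun _ => homogeneousSubmodule (Fin n) ℂ i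

/-- The ideal generated by the variables. -/
noncomputable def aug (n : ℕ) : Ideal (MvPolynomial (Fin n) ℂ) := Ideal.span (Set.range X)

/-- The trace of the map induced by f on the subquotient A / B. -/
noncomputable def quotTrace {M : Type} [AddCommGroup M] [Module ℂ M] (f : M →ₗ[ℂ] M)
    (A B : Submodule ℂ M) (hA : ∀ x ∈ A, f x ∈ A) (hB : ∀ x ∈ B, f x ∈ B) : ℂ :=
  LinearMap.trace ℂ (A ⧸ B.comap A.subtype)
    ((B.comap A.subtype).mapQ (B.comap A.subtype) (f.restrict hA) fun x hx => hB x hx)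

theorem W_neg {n : ℕ} (w : W n) (v : Fin n × ℤˣ) :
    w.1 (v.1, -v.2) = ((w.1 v).1, -(w.1 v).2) := by
  have h := Subgroup.mem_centralizer_iff.1 w.2 _ (Set.mem_singleton _)
  exact (congrArg (fun e : Equiv.Perm (Fin n × ℤˣ) => e v) h).symm

theorem act_xv {n : ℕ} (w : W n) (v : Fin n × ℤˣ) :
    act w ((v.2 : ℤ) • X v.1) = ((w.1 v).2 : ℤ) • X (w.1 v).1 := by
  obtain ⟨i, u⟩ := v
  rcases Int.units_eq_one_or u with rfl | rfl
  · simp [act]
  · have := W_neg w (i, 1)
    simp only at this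
    rw [this]
    simp [act]

theorem act_mul {n : ℕ} (u w : W n) (f : MvPolynomial (Fin n) ℂ) :
    act (u * w) f = act u (act w f) := by
  have : act (u * w) = (act u).comp (act w) := by
    apply MvPolynomial.algHom_ext
    intro i
    rw [AlgHom.comp_apply]
    conv_rhs => rw [act.eq_1 w, aeval_X, act_xv]
    simp [act]
  rw [this]; rfl

theorem dot_mem_spl {n : ℕ} (H : Set (Fin n → ℤ)) (w : W n) {ρ : W n → MvPolynomial (Fin n) ℂ}
    (h : ρ ∈ spl H) : dot w ρ ∈ spl H := by
  intro a ha s hs v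
  have := map_dvd (act w) (h a ha s hs (w⁻¹ * v))
  rw [← act_mul, mul_inv_cancel_left, map_sub, mul_assoc] at this
  exact this

theorem act_hom {n i : ℕ} (w : W n) {f : MvPolynomial (Fin n) ℂ} (h : f.IsHomogeneous i) :
    (act w f).IsHomogeneous i := by
  have := h.aeval (fun i => ((w.1 (i, 1)).2 : ℤ) • (X (w.1 (i, 1)).1 : MvPolynomial (Fin n) ℂ))
    (fun i => (homogeneousSubmodule (Fin n) ℂ 1).toAddSubgroup.zsmul_mem (isHomogeneous_X _ _) _)
  rw [one_mul] at this
  exact this

theorem dot_mem_deg {n i : ℕ} (w : W n) {ρ : W n → MvPolynomial (Fin n) ℂ}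
    (h : ρ ∈ deg n i) : dot w ρ ∈ deg n i :=
  fun _ _ => act_hom w (h _ (Set.mem_univ _))

theorem act_mem_aug {n : ℕ} (w : W n) {f : MvPolynomial (Fin n) ℂ} (h : f ∈ aug n) :
    act w f ∈ aug n := by
  have : (aug n).map (act w) ≤ aug n := by
    rw [aug, Ideal.map_span, Ideal.span_le]
    rintro _ ⟨_, ⟨i, rfl⟩, rfl⟩
    rw [act, aeval_X]
    exact zsmul_mem (Ideal.subset_span (Set.mem_range_self _)) _
  exact this (Ideal.mem_map_of_mem _ h)

theorem dot_mem_aug_smul {n : ℕ} (w : W n)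
    {N : Submodule (MvPolynomial (Fin n) ℂ) (W n → MvPolynomial (Fin n) ℂ)}
    (hN : ∀ ρ ∈ N, dot w ρ ∈ N) {ρ : W n → MvPolynomial (Fin n) ℂ} (h : ρ ∈ aug n • N) :
    dot w ρ ∈ aug n • N := by
  refine Submodule.smul_induction_on h (fun f hf σ hσ => ?_) (fun x y hx hy => ?_)
  · have : dot w (f • σ) = act w f • dot w σ := by funext v; simp [dot]
    rw [this]
    exact Submodule.smul_mem_smul (act_mem_aug w hf) (hN σ hσ)
  · rw [map_add]; exact add_mem hx hy

/-- The degree i part of a module of functions. -/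
noncomputable def cut {n : ℕ}
    (N : Submodule (MvPolynomial (Fin n) ℂ) (W n → MvPolynomial (Fin n) ℂ)) (i : ℕ) :
    Submodule ℂ (W n → MvPolynomial (Fin n) ℂ) :=
  N.restrictScalars ℂ ⊓ deg n i

/-- The submodule of splines generated by the products of a variable with a spline. -/
noncomputable def splAug {n : ℕ} (H : Set (Fin n → ℤ)) :
    Submodule (MvPolynomial (Fin n) ℂ) (W n → MvPolynomial (Fin n) ℂ) :=
  aug n • spl H

theorem dot_cut_spl {n : ℕ} (H : Set (Fin n → ℤ)) (i : ℕ) (w : W n) :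
    ∀ ρ ∈ cut (spl H) i, dot w ρ ∈ cut (spl H) i :=
  fun _ h => ⟨dot_mem_spl H w h.1, dot_mem_deg w h.2⟩

theorem dot_cut_splAug {n : ℕ} (H : Set (Fin n → ℤ)) (i : ℕ) (w : W n) :
    ∀ ρ ∈ cut (splAug H) i, dot w ρ ∈ cut (splAug H) i :=
  fun _ h => ⟨dot_mem_aug_smul w (fun _ => dot_mem_spl H w) h.1, dot_mem_deg w h.2⟩

/-- The character of the dot action on the degree i part of splines modulo the variables. -/
noncomputable def dotChar {n : ℕ} (H : Set (Fin n → ℤ)) (i : ℕ) (w : W n) : ℂ :=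
  quotTrace (dot w) (cut (spl H) i) (cut (splAug H) i) (dot_cut_spl H i w) (dot_cut_splAug H i w)

open Classical in
/-- The cycles of the underlying unsigned permutation, as subsets. -/
noncomputable def cycles {n : ℕ} (w : W n) : Finset (Finset (Fin n)) :=
  Finset.univ.image fun i => Finset.univ.filter fun j => ∃ k : ℕ, ((w ^ k).1 (i, 1)).1 = j

open Classical in
/-- The type B/C Frobenius characteristic in N variables x (inl) and N variables y (inr). -/
noncomputable def frob {n : ℕ} (N : ℕ) (χ : W n → ℂ) : MvPolynomial (Fin N ⊕ Fin N) ℂ :=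
  (1 / (2 ^ n * n.factorial) : ℂ) • ∑ w : W n, χ w • ∏ C ∈ cycles w,
    if Even (C.filter fun j => (w.1 (j, 1)).2 = -1).card then
      rename Sum.inl (psum (Fin N) ℂ C.card) + rename Sum.inr (psum (Fin N) ℂ C.card)
    else rename Sum.inl (psum (Fin N) ℂ C.card) - rename Sum.inr (psum (Fin N) ℂ C.card)

/-- A family of polynomials (one for each number N of variables) is a combination of the
products h_l(x) h_m(y) with natural number coefficients not depending on N. -/
def HPos (n : ℕ) (F : (N : ℕ) → MvPolynomial (Fin N ⊕ Fin N) ℂ) : Prop :=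
  ∃ c : (k : Fin (n + 1)) → Nat.Partition k → Nat.Partition (n - k) → ℕ,
    ∀ N, F N = ∑ k, ∑ l, ∑ m, c k l m •
      (rename Sum.inl (hsymmPart (Fin N) ℂ l) * rename Sum.inr (hsymmPart (Fin N) ℂ m))

end Pool.Agent.Lib.MP_33bfb2_co
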