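import Mathlib

namespace Pool.Agent.Lib.MP_33bfb2_co

def valid (n : ℕ) (h : ℕ → ℕ) : Prop :=
  h 0 ≤ n ∧ (∀ i ≤ n, i ≤ h i ∧ h i + i ≤ 2 * n) ∧
    ∀ i < n, h i ≤ h (i + 1) ∨ 2 * n ≤ h (i + 1) + i + 1

def stable (n : ℕ) (h : ℕ → ℕ) (k : ℕ) : Prop :=
  (1 ≤ k ∧ k < n ∧ k + 1 ≤ h k ∧ (∀ i < k, h i ≠ k ∧ h i + k ≠ 2 * n) ∧
    min (h k) (2 * n - k - 1) = h (k + 1)) ∨ (k = n ∧ ∀ i < n, h i ≠ n)

def colc (n : ℕ) (p : ℕ → ℕ) (k i : ℕ) : Prop :=
  i < k ∧ ((k < n ∧ (p i = k + 1 ∨ p i + k = 2 * n + 1)) ∨ (k = n ∧ p i = n + 1))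

def rowc (n : ℕ) (p : ℕ → ℕ) (k : ℕ) : Prop := k < n ∧ p k = p (k + 1) ∧ k + 2 ≤ p k

def dn (g : ℕ → ℕ) (j c : ℕ) : ℕ → ℕ := fun t => if t = j then g j - c else g t
def upp (g : ℕ → ℕ) (j : ℕ) : ℕ → ℕ := fun t => if t = j then g j + 1 else g t

def Tri (n : ℕ) (p a b : ℕ → ℕ) : Prop :=
  (∃ k i, stable n p k ∧ colc n p k i ∧ a = dn p i 1 ∧ b = dn p i 2) ∨
    (∃ k, stable n p k ∧ rowc n p k ∧ a = dn p k 1 ∧ b = dn (dn p k 1) (k + 1) 1)

theorem dn_upp (g : ℕ → ℕ) (j : ℕ) : dn (upp g j) j 1 = g := by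
  funext t; simp only [dn, upp]; split_ifs <;> simp_all
theorem dn_upp2 (g : ℕ → ℕ) (j : ℕ) : dn (upp g j) j 2 = dn g j 1 := by
  funext t; simp only [dn, upp]; split_ifs <;> simp_all

theorem valid.mono {n : ℕ} {h : ℕ → ℕ} (hv : valid n h) {i j : ℕ} (hij : i ≤ j) (hj : j ≤ n) :
    h i ≤ h j ∨ 2 * n ≤ h j + j := by
  induction j, hij using Nat.le_induction with
  | base => exact Or.inl le_rfl
  | succ j hij ih =>
    have := ih (by omega)
    have := hv.2.2 j (by omega)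
    have := hv.2.1 j (by omega)
    omega

def fh (n : ℕ) (h : ℕ → ℕ) (t : ℕ) : ℕ := min (max (h t) (t + 1)) (n + 1)

def orb (n : ℕ) (h : ℕ → ℕ) : ℕ → ℕ
  | 0 => 0
  | r + 1 => fh n h (orb n h r)

def inO (n : ℕ) (h : ℕ → ℕ) (t : ℕ) : Prop := ∃ r, orb n h r = t

def mS (n : ℕ) (h : ℕ → ℕ) : ℕ := ∑ r ∈ Finset.range (n + 1), orb n h r
def mB (n : ℕ) (h : ℕ → ℕ) : ℕ := ∑ i ∈ Finset.range (n + 1), i * h i

def mlt (n : ℕ) (x h : ℕ → ℕ) : Prop := mS n x < mS n h ∨ (mS n x ≤ mS n h ∧ mB n x < mB n h)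

theorem fh_mono {n : ℕ} {h : ℕ → ℕ} (hv : valid n h) {t t' : ℕ} (ht : t ≤ t') :
    fh n h t ≤ fh n h t' := by
  unfold fh
  by_cases h1 : t' < n
  · have := hv.mono ht h1.le
    omega
  · omega

theorem orb_le_succ (n : ℕ) (h : ℕ → ℕ) (r : ℕ) :
    orb n h r ≤ n + 1 ∧ min r (n + 1) ≤ orb n h r ∧ orb n h r ≤ orb n h (r + 1) := by
  induction r with
  | zero => simp [orb]
  | succ r ih =>
    simp only [orb, fh] at ih ⊢
    omega

theorem orb_mono (n : ℕ) (h : ℕ → ℕ) : Monotone (orb n h) :=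
  monotone_nat_of_le_succ fun r => (orb_le_succ n h r).2.2

theorem inO_zero (n : ℕ) (h : ℕ → ℕ) : inO n h 0 := ⟨0, rfl⟩

theorem inO.next {n : ℕ} {h : ℕ → ℕ} {t : ℕ} (ht : inO n h t) : inO n h (fh n h t) := by
  obtain ⟨r, rfl⟩ := ht
  exact ⟨r + 1, rfl⟩

theorem inO.between {n : ℕ} {h : ℕ → ℕ} {i t : ℕ} (hi : inO n h i) (h1 : i < t)
    (h2 : t < fh n h i) : ¬ inO n h t := by
  obtain ⟨r, rfl⟩ := hi
  rintro ⟨r', rfl⟩
  rcases le_or_gt r' r with hr | hr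
  · have := orb_mono n h hr
    omega
  · have := orb_mono n h (show r + 1 ≤ r' from hr)
    simp only [orb] at this
    omega

theorem mlt_of {n : ℕ} {x h : ℕ → ℕ} (hx : valid n x)
    (h1 : ∀ t, inO n h t → fh n x t ≤ fh n h t)
    (h2 : (∃ t, inO n h t ∧ t < n ∧ fh n x t < fh n h t) ∨ mB n x < mB n h) : mlt n x h := by
  have key : ∀ r, orb n x r ≤ orb n h r := by
    intro r
    induction r with
    | zero => exact le_rfl
    | succ r ih => exact (fh_mono hx ih).trans (h1 _ ⟨r, rfl⟩)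
  rcases h2 with ⟨_, ⟨r, rfl⟩, ht, hlt⟩ | h2
  · refine Or.inl (Finset.sum_lt_sum (fun r _ => key r) ⟨r + 1, ?_, ?_⟩)
    · have := orb_le_succ n h r
      rw [Finset.mem_range]; omega
    · exact (fh_mono hx (key r)).trans_lt hlt
  · exact Or.inr ⟨Finset.sum_le_sum fun r _ => key r, h2⟩

theorem mB_upp {n : ℕ} (g : ℕ → ℕ) {j : ℕ} (hj : j ≤ n) : mB n (upp g j) = mB n g + j := by
  have hm : j ∈ Finset.range (n + 1) := Finset.mem_range.2 (by omega)
  rw [mB, mB, ← Finset.add_sum_erase _ _ hm, ← Finset.add_sum_erase _ _ hm,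
    Finset.sum_congr rfl (g := fun i => i * g i)]
  · simp only [upp, if_true]; ring
  · intro i hi
    simp only [upp, if_neg (Finset.ne_of_mem_erase hi)]

theorem mB_dn {n : ℕ} (g : ℕ → ℕ) {j c : ℕ} (hj : j ≤ n) (hc : c ≤ g j) :
    mB n (dn g j c) + j * c = mB n g := by
  have hm : j ∈ Finset.range (n + 1) := Finset.mem_range.2 (by omega)
  rw [mB, mB, ← Finset.add_sum_erase _ _ hm, ← Finset.add_sum_erase _ _ hm,
    Finset.sum_congr rfl (g := fun i => i * g i)]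
  · simp only [dn, if_true]
    obtain ⟨d, hd⟩ := Nat.exists_eq_add_of_le hc
    rw [hd, Nat.add_sub_cancel_left]; ring
  · intro i hi
    simp only [dn, if_neg (Finset.ne_of_mem_erase hi)]

def flat (n : ℕ) (h : ℕ → ℕ) (u : ℕ) : Prop :=
  1 ≤ u ∧ u < n ∧ h (u - 1) < h u ∧ h u = h (u + 1) ∧ u + 2 ≤ h u

theorem spoiler {n : ℕ} {h : ℕ → ℕ} (hv : valid n h) {K c : ℕ} (hK : K ≤ n) (hc : K ≤ c)
    (hc' : c + K ≤ 2 * n) (hf : ∀ u < K, ¬ inO n h u → ¬ flat n h u)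
    (hO : ∀ t < K, h t = c → ¬ inO n h t) :
    (∀ j < K, h j ≠ c) ∨ ∃ j < K, 1 ≤ j ∧ h j = c ∧ ¬ inO n h j ∧ ∀ t < K, t ≠ j → h t ≠ c := by
  classical
  by_cases hex : ∃ j, j < K ∧ h j = c
  · right
    have h0 := Nat.find_spec hex
    have h1 := fun t => Nat.find_min hex (m := t)
    set j := Nat.find hex
    have hj := hO j h0.1 h0.2
    have hj1 : 1 ≤ j := by
      rcases Nat.eq_zero_or_pos j with e | e
      · exact absurd (e ▸ inO_zero n h) hj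
      · exact e
    refine ⟨j, h0.1, hj1, h0.2, hj, fun t ht hne e => ?_⟩
    have hjt : j < t := by
      rcases lt_or_gt_of_ne hne with h2 | h2
      · exact absurd ⟨ht, e⟩ (h1 t h2)
      · exact h2
    have a1 := hv.mono (show j + 1 ≤ t from hjt) (by omega)
    have a2 := hv.mono (show j - 1 ≤ t by omega) (by omega)
    have a3 := hv.2.2 j (by omega)
    have a4 := h1 (j - 1) (by omega)
    refine hf j h0.1 hj ⟨hj1, by omega, ?_, ?_, ?_⟩ <;> omega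
  · left
    exact fun j hj e => hex ⟨j, hj, e⟩

theorem valid_dn {n : ℕ} {h : ℕ → ℕ} (hv : valid n h) {j c : ℕ} (h1 : j + c ≤ h j)
    (h2 : j = 0 ∨ h (j - 1) + c ≤ h j) : valid n (dn h j c) := by
  refine ⟨?_, fun i hi => ?_, fun i hi => ?_⟩
  · have := hv.1
    simp only [dn]; split_ifs with e
    · subst e; omega
    · exact this
  · have := hv.2.1 i hi
    simp only [dn]; split_ifs with e
    · subst e; omega
    · exact this
  · have := hv.2.2 i hi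
    simp only [dn]; split_ifs with e e' e'
    · omega
    · subst e; omega
    · subst e'; simp only [Nat.add_sub_cancel] at h2; omega
    · exact this

theorem valid_upp {n : ℕ} {h : ℕ → ℕ} (hv : valid n h) {j : ℕ} (h0 : 1 ≤ j)
    (h1 : h j + j + 1 ≤ 2 * n)
    (h2 : h j + 1 ≤ h (j + 1) ∨ 2 * n ≤ h (j + 1) + j + 1) : valid n (upp h j) := by
  refine ⟨?_, fun i hi => ?_, fun i hi => ?_⟩
  · have := hv.1
    simp only [upp]; split_ifs with e
    · omega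
    · exact this
  · have := hv.2.1 i hi
    simp only [upp]; split_ifs with e
    · subst e; omega
    · exact this
  · have := hv.2.2 i hi
    simp only [upp]; split_ifs with e e' e'
    · omega
    · subst e; omega
    · subst e'; omega
    · exact this

end Pool.Agent.Lib.MP_33bfb2_co
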