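import Pool.Agent.Lib.MP_33bfb2_co.Det1

namespace Pool.Agent.Lib.MP_33bfb2_co

def Fam (n : ℕ) (D : Set ℕ) (M : ℕ → Prop) (h : ℕ → ℕ) : Prop :=
  valid n h ∧ (∀ i ∈ D, h i = i) ∧ M (h 0)

section
variable {n : ℕ} {D : Set ℕ} {M : ℕ → Prop} {Z : (ℕ → ℕ) → Prop}

theorem fam_dn {h : ℕ → ℕ} (hv : Fam n D M h) {j c : ℕ} (hc : 1 ≤ c) (h1 : j + c ≤ h j)
    (h2 : j = 0 ∨ h (j - 1) + c ≤ h j) (h3 : j = 0 → M (h 0 - c)) : Fam n D M (dn h j c) := by
  refine ⟨valid_dn hv.1 h1 h2, fun i hi => ?_, ?_⟩
  · have := hv.2.1 i hi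
    simp only [dn]; split_ifs with e
    · subst e; omega
    · exact this
  · simp only [dn]; split_ifs with e
    · subst e; exact h3 rfl
    · exact hv.2.2

theorem fam_upp {h : ℕ → ℕ} (hv : Fam n D M h) {j : ℕ} (h0 : 1 ≤ j) (h0' : j < h j)
    (h1 : h j + j + 1 ≤ 2 * n)
    (h2 : h j + 1 ≤ h (j + 1) ∨ 2 * n ≤ h (j + 1) + j + 1) : Fam n D M (upp h j) := by
  refine ⟨valid_upp hv.1 h0 h1 h2, fun i hi => ?_, ?_⟩
  · have := hv.2.1 i hi
    simp only [upp]; split_ifs with e
    · subst e; omega
    · exact this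
  · simp only [upp]; split_ifs with e
    · omega
    · exact hv.2.2

theorem rowZ
    (hZ : ∀ p a b, Fam n D M p → Tri n p a b → (Z a → Z b → Z p) ∧ (Z p → Z b → Z a))
    {h g : ℕ → ℕ} (IH : ∀ x, Fam n D M x → mlt n x h → Z x) (hh : valid n h) {u : ℕ}
    (hu : ¬ inO n h u) (hf : flat n h u) (hg : Fam n D M g)
    (h1 : ∀ t, g t = h t ∨ (t < u ∧ ¬ inO n h t ∧ g t ≤ u + 1)) (h2 : ∀ t < u, g t ≠ u)
    (h3 : mB n g < mB n h + u) : Z g := by
  obtain ⟨f1, f2, f3, f4, f5⟩ := hf
  have e1 : g u = h u := by have := h1 u; omega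
  have e2 : g (u + 1) = h (u + 1) := by have := h1 (u + 1); omega
  have e3 : g (u - 1) < g u := by have := h1 (u - 1); omega
  have b1 := hh.2.1 (u + 1) (by omega)
  have hs : stable n g u := by
    refine Or.inl ⟨f1, f2, by omega, fun i hi => ⟨h2 i hi, ?_⟩, by omega⟩
    have := h1 i
    have := hh.mono hi.le f2.le
    omega
  have ha : Fam n D M (dn g u 1) := fam_dn hg le_rfl (by omega) (by omega) (by omega)
  have e4 : dn g u 1 (u + 1) = g (u + 1) := by simp [dn]
  have e5 : dn g u 1 u = g u - 1 := by simp [dn]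
  have hb : Fam n D M (dn (dn g u 1) (u + 1) 1) :=
    fam_dn ha le_rfl (by omega) (by rw [Nat.add_sub_cancel]; omega) (by omega)
  have m1 := mB_dn (n := n) g (j := u) (c := 1) f2.le (by omega)
  have m2 := mB_dn (n := n) (dn g u 1) (j := u + 1) (c := 1) f2 (by omega)
  refine (hZ g _ _ hg (Or.inr ⟨u, hs, ⟨f2, by omega, by omega⟩, rfl, rfl⟩)).1
    (IH _ ha (mlt_of ha.1 (fun t ht => ?_) (Or.inr (by omega))))
    (IH _ hb (mlt_of hb.1 (fun t ht => ?_) (Or.inr (by omega))))
  · have := (h1 t).resolve_right fun e => e.2.1 ht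
    simp only [fh, dn]; split_ifs with e
    · subst e; omega
    · omega
  · have := (h1 t).resolve_right fun e => e.2.1 ht
    simp only [fh, dn]; split_ifs with e e' e'
    · omega
    · subst e; omega
    · subst e'; omega
    · omega

theorem colZ (hM : ∀ x, 2 ≤ x → M x → M (x - 1) ∧ M (x - 2))
    (hZ : ∀ p a b, Fam n D M p → Tri n p a b → (Z a → Z b → Z p) ∧ (Z p → Z b → Z a))
    {h g : ℕ → ℕ} (IH : ∀ x, Fam n D M x → mlt n x h → Z x) {k i : ℕ}
    (hi : inO n h i) (hin : i < n) (hi2 : i + 2 ≤ h i) (hg : Fam n D M g) (hs : stable n g k)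
    (hc : colc n h k i) (e : g i = h i) (h1 : i = 0 ∨ g (i - 1) + 2 ≤ g i)
    (h2 : ∀ t, inO n h t → fh n g t ≤ fh n h t) (h3 : h i ≤ n + 1 ∨ mB n g < mB n h + i) :
    Z g := by
  have key : ∀ c, 1 ≤ c → c ≤ 2 → Z (dn g i c) := by
    intro c c1 c2
    have ha : Fam n D M (dn g i c) := by
      refine fam_dn hg c1 (by omega) (by omega) ?_
      rintro rfl
      have := hM (g 0) (by omega) hg.2.2
      interval_cases c
      · exact this.1
      · exact this.2
    have m1 := mB_dn (n := n) g (j := i) (c := c) hin.le (by omega)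
    refine IH _ ha (mlt_of ha.1 (fun t ht => ?_) ?_)
    · have := h2 t ht
      simp only [fh, dn] at this ⊢; split_ifs with e
      · subst e; omega
      · omega
    · rcases h3 with h3 | h3
      · refine Or.inl ⟨i, hi, hin, ?_⟩
        simp only [fh, dn, if_true]; omega
      · right
        have : i * 1 ≤ i * c := Nat.mul_le_mul_left _ c1
        omega
  refine (hZ g _ _ hg (Or.inl ⟨k, i, hs, ?_, rfl, rfl⟩)).1 (key 1 le_rfl one_le_two)
    (key 2 one_le_two le_rfl)
  unfold colc at hc ⊢
  rw [e]; exact hc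

theorem midCol
    (hZ : ∀ p a b, Fam n D M p → Tri n p a b → (Z a → Z b → Z p) ∧ (Z p → Z b → Z a))
    {h : ℕ → ℕ} {k j : ℕ} (hp : Fam n D M (upp h j)) (hs : stable n (upp h j) k)
    (hc : colc n (upp h j) k j) (z1 : Z (upp h j)) (z2 : Z (dn h j 1)) : Z h :=
  (hZ _ h _ hp (Or.inl ⟨k, j, hs, hc, (dn_upp h j).symm, (dn_upp2 h j).symm⟩)).2 z1 z2

theorem case1
    (hZ : ∀ p a b, Fam n D M p → Tri n p a b → (Z a → Z b → Z p) ∧ (Z p → Z b → Z a))
    {h : ℕ → ℕ} (IH : ∀ x, Fam n D M x → mlt n x h → Z x) (hh : Fam n D M h)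
    (hex : ∃ u, ¬ inO n h u ∧ flat n h u) : Z h := by
  classical
  have h0 := Nat.find_spec hex
  have h1 := fun t => Nat.find_min hex (m := t)
  set u := Nat.find hex
  obtain ⟨hu, hf⟩ := h0
  have hf' := hf
  obtain ⟨f1, f2, f3, f4, f5⟩ := hf'
  rcases spoiler hh.1 (K := u) (c := u) f2.le le_rfl (by omega)
    (fun t ht a b => h1 t ht ⟨a, b⟩) (fun t ht e a => hu (by
      have := a.next
      rwa [show fh n h t = u by simp only [fh]; omega] at this)) with hs | ⟨j, j1, j2, j3, j4, j5⟩
  · exact rowZ hZ IH hh.1 hu hf hh (fun t => Or.inl rfl) hs (by omega)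
  · have a1 := hh.1.2.2 j (by omega)
    have a2 := j5 (j + 1)
    have a3 := j5 (j - 1) (by omega) (by omega)
    have a4 := hh.1.mono (show j - 1 ≤ j by omega) (by omega)
    have a5 : j + 1 = u → h (j + 1) = h u := fun e => by rw [e]
    have hp : Fam n D M (upp h j) := fam_upp hh j2 (by omega) (by omega) (by omega)
    have hb : Fam n D M (dn h j 1) := fam_dn hh le_rfl (by omega) (by omega) (by omega)
    have m1 := mB_upp (n := n) h (j := j) (by omega)
    have m2 := mB_dn (n := n) h (j := j) (c := 1) (by omega) (by omega)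
    have q1 : ∀ t < u, upp h j t ≠ u := by
      intro t ht
      have := j5 t ht
      simp only [upp]; split_ifs <;> omega
    refine midCol hZ (k := u) hp ?_ ⟨j1, Or.inl ⟨f2, Or.inl (by simp [upp, j3])⟩⟩
      (rowZ hZ IH hh.1 hu hf hp (fun t => ?_) q1 (by omega))
      (rowZ hZ IH hh.1 hu hf hb (fun t => ?_) (fun t ht => ?_) (by omega))
    · have b1 := hh.1.2.1 (u + 1) (by omega)
      have e1 : upp h j u = h u := by simp only [upp]; rw [if_neg (by omega)]
      have e2 : upp h j (u + 1) = h (u + 1) := by simp only [upp]; rw [if_neg (by omega)]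
      refine Or.inl ⟨f1, f2, by omega, fun i hi => ⟨q1 i hi, ?_⟩, by omega⟩
      have := hh.1.mono hi.le f2.le
      simp only [upp]; split_ifs <;> omega
    · simp only [upp]; split_ifs with e
      · subst e; exact Or.inr ⟨j1, j4, by omega⟩
      · exact Or.inl rfl
    · simp only [dn]; split_ifs with e
      · subst e; exact Or.inr ⟨j1, j4, by omega⟩
      · exact Or.inl rfl
    · have := j5 t ht
      simp only [dn]; split_ifs <;> omega

theorem case2 (hM : ∀ x, 2 ≤ x → M x → M (x - 1) ∧ M (x - 2))
    (hZ : ∀ p a b, Fam n D M p → Tri n p a b → (Z a → Z b → Z p) ∧ (Z p → Z b → Z a))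
    {h : ℕ → ℕ} (IH : ∀ x, Fam n D M x → mlt n x h → Z x) (hh : Fam n D M h)
    (hnf : ∀ u, ¬ inO n h u → ¬ flat n h u) {i : ℕ} (hi : inO n h i) (hin : i < n)
    (hi2 : i + 2 ≤ h i) (hi3 : i = 0 ∨ h (i - 1) + 2 ≤ h i)
    (hmax : ∀ t, i < t → t < n → inO n h t → t + 2 ≤ h t → ¬ h (t - 1) + 2 ≤ h t) : Z h := by
  have hv := hh.1
  have b0 := hv.1
  have bi := hv.2.1 i hin.le
  have lo : ∀ t < i, h t + 2 ≤ h i := by
    intro t ht
    have := hv.mono (show t ≤ i - 1 by omega) (by omega)
    omega
  have hi' : ∀ t, i ≤ t → t ≤ n → h i ≤ h t ∨ 2 * n ≤ h t + t := fun t a b => hv.mono a b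
  have i0 : i = 0 → h i ≤ n := fun e => by rw [e]; exact b0
  rcases lt_trichotomy (h i) (n + 1) with hv1 | hv1 | hv1
  · -- v at most n
    obtain ⟨k, hk⟩ : ∃ k, h i = k + 1 := ⟨h i - 1, by omega⟩
    have hO : ∀ t, i < t → t ≤ k → ¬ inO n h t := fun t a b =>
      hi.between a (by simp only [fh]; omega)
    have hOv : inO n h (k + 1) := by
      have := hi.next
      rwa [show fh n h i = k + 1 by simp only [fh]; omega] at this
    have q0 : ∀ t < k, h t ≠ k := by
      intro t ht
      have := lo t
      have := hi' t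
      omega
    have hc : colc n h k i := ⟨by omega, Or.inl ⟨by omega, Or.inl hk⟩⟩
    have bk := hv.2.1 k (by omega)
    have bk1 := hv.2.1 (k + 1) (by omega)
    have ck := hv.2.2 k (by omega)
    have dk := hi' k (by omega) (by omega)
    rcases spoiler hv (K := k) (c := 2 * n - k) (by omega) (by omega) (by omega)
      (fun t _ => hnf t) (fun t ht e => hO t (by
        by_contra hc
        rcases Nat.lt_or_ge t i with a | a
        · have := lo t a; omega
        · have : t = i := by omega
          subst this; omega) ht.le) with hs | ⟨j, j1, j2, j3, j4, j5⟩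
    · have q1 : ∀ t < k, h t ≠ k ∧ h t + k ≠ 2 * n := fun t ht =>
        ⟨q0 t ht, by have := hs t ht; omega⟩
      by_cases hst : min (h k) (2 * n - k - 1) = h (k + 1)
      · exact colZ hM hZ IH hi hin hi2 hh (Or.inl ⟨by omega, by omega, by omega, q1, hst⟩) hc rfl
          hi3 (fun _ _ => le_rfl) (Or.inl (by omega))
      · have bn := hv.2.1 n le_rfl
        have e0 : k + 1 = n → h (k + 1) = h n := fun e => by rw [e]
        have e1 : h (k + 1) = h k + 1 := by
          have := hmax (k + 1) (by omega) (by omega) hOv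
          rw [Nat.add_sub_cancel] at this
          omega
        have hp : Fam n D M (upp h k) := fam_upp hh (by omega) (by omega) (by omega) (by omega)
        have hb : Fam n D M (dn h (k + 1) 1) :=
          fam_dn hh le_rfl (by omega) (by rw [Nat.add_sub_cancel]; omega) (by omega)
        have u1 : ∀ t < k, upp h k t = h t := fun t ht => by
          simp only [upp]; rw [if_neg (by omega)]
        have u2 : upp h k k = h k + 1 := by simp [upp]
        have u3 : upp h k (k + 1) = h (k + 1) := by simp [upp]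
        have d1 : ∀ t ≤ k, dn h (k + 1) 1 t = h t := fun t ht => by
          simp only [dn]; rw [if_neg (by omega)]
        have d2 : dn h (k + 1) 1 (k + 1) = h k := by simp [dn, e1]
        have sp : stable n (upp h k) k :=
          Or.inl ⟨by omega, by omega, by omega, fun t ht => by rw [u1 t ht]; exact q1 t ht,
            by omega⟩
        have sb : stable n (dn h (k + 1) 1) k :=
          Or.inl ⟨by omega, by omega, by rw [d1 k le_rfl]; omega,
            fun t ht => by rw [d1 t ht.le]; exact q1 t ht, by rw [d1 k le_rfl, d2]; omega⟩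
        refine (hZ _ h (dn h (k + 1) 1) hp (Or.inr ⟨k, sp, ⟨by omega, by omega, by omega⟩,
          (dn_upp h k).symm, by rw [dn_upp]⟩)).2
          (colZ hM hZ IH hi hin hi2 hp sp hc (u1 i (by omega))
            (by rw [u1 i (by omega), u1 (i - 1) (by omega)]; exact hi3) (fun t ht => ?_)
            (Or.inl (by omega)))
          (colZ hM hZ IH hi hin hi2 hb sb hc (d1 i (by omega))
            (by rw [d1 i (by omega), d1 (i - 1) (by omega)]; exact hi3) (fun t ht => ?_)
            (Or.inl (by omega)))
        · simp only [fh, upp]; split_ifs with e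
          · subst e; exact absurd ht (hO t (by omega) le_rfl)
          · exact le_rfl
        · simp only [fh, dn]; split_ifs with e
          · subst e; omega
          · exact le_rfl
    · have ji : i < j := by
        by_contra hc
        rcases Nat.lt_or_ge j i with a | a
        · have := lo j a; omega
        · have : j = i := by omega
          subst this; omega
      have a1 := hv.2.2 j (by omega)
      have a2 := j5 (j + 1)
      have a3 := j5 (j - 1) (by omega) (by omega)
      have a4 := hv.mono (show j - 1 ≤ j by omega) (by omega)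
      have a5 : j + 1 = k → h (j + 1) = h k := fun e => by rw [e]
      have a6 := hv.mono j1.le (by omega)
      have hp : Fam n D M (upp h j) := fam_upp hh j2 (by omega) (by omega) (by omega)
      have hb : Fam n D M (dn h j 1) := fam_dn hh le_rfl (by omega) (by omega) (by omega)
      have u1 : ∀ t, t ≠ j → upp h j t = h t := fun t ht => by simp only [upp]; rw [if_neg ht]
      have u2 : upp h j j = h j + 1 := by simp [upp]
      have d1 : ∀ t, t ≠ j → dn h j 1 t = h t := fun t ht => by simp only [dn]; rw [if_neg ht]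
      have d2 : dn h j 1 j = h j - 1 := by simp [dn]
      have sp : stable n (upp h j) k := by
        refine Or.inl ⟨by omega, by omega, by rw [u1 k (by omega)]; omega, fun t ht => ?_,
          by rw [u1 k (by omega), u1 (k + 1) (by omega)]; omega⟩
        have := q0 t ht
        have := j5 t ht
        simp only [upp]; split_ifs <;> omega
      have sb : stable n (dn h j 1) k := by
        refine Or.inl ⟨by omega, by omega, by rw [d1 k (by omega)]; omega, fun t ht => ?_,
          by rw [d1 k (by omega), d1 (k + 1) (by omega)]; omega⟩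
        have := q0 t ht
        have := j5 t ht
        simp only [dn]; split_ifs <;> omega
      refine midCol hZ hp sp ⟨j1, Or.inl ⟨by omega, Or.inr (by omega)⟩⟩
        (colZ hM hZ IH hi hin hi2 hp sp hc (u1 i (by omega))
          (by rw [u1 i (by omega), u1 (i - 1) (by omega)]; exact hi3) (fun t ht => ?_)
          (Or.inl (by omega)))
        (colZ hM hZ IH hi hin hi2 hb sb hc (d1 i (by omega))
          (by rw [d1 i (by omega), d1 (i - 1) (by omega)]; exact hi3) (fun t ht => ?_)
          (Or.inl (by omega)))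
      · simp only [fh, upp]; split_ifs with e
        · subst e; exact absurd ht j4
        · exact le_rfl
      · simp only [fh, dn]; split_ifs with e
        · subst e; omega
        · exact le_rfl
  · -- v = n + 1
    refine colZ hM hZ IH (k := n) hi hin hi2 hh (Or.inr ⟨rfl, fun t ht => ?_⟩)
      ⟨hin, Or.inr ⟨rfl, hv1⟩⟩ rfl hi3 (fun _ _ => le_rfl) (Or.inl hv1.le)
    have := lo t
    have := hi' t
    omega
  · -- v larger than n + 1
    obtain ⟨k, hk⟩ : ∃ k, h i + k = 2 * n + 1 := ⟨2 * n + 1 - h i, by omega⟩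
    have hO : ¬ inO n h k := hi.between (by omega) (by simp only [fh]; omega)
    have q0 : ∀ t < k, h t + k ≠ 2 * n := by
      intro t ht
      have := lo t
      have := hi' t
      omega
    have hc : colc n h k i := ⟨by omega, Or.inl ⟨by omega, Or.inr hk⟩⟩
    have bk := hv.2.1 k (by omega)
    have bk1 := hv.2.1 (k + 1) (by omega)
    have ck := hv.2.2 k (by omega)
    have dk := hi' k (by omega) (by omega)
    rcases spoiler hv (K := k) (c := k) (by omega) le_rfl (by omega)
      (fun t _ => hnf t) (fun t ht e a => hO (by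
        have := a.next
        rwa [show fh n h t = k by simp only [fh]; omega] at this)) with
      hs | ⟨j, j1, j2, j3, j4, j5⟩
    · exact colZ hM hZ IH hi hin hi2 hh (Or.inl ⟨by omega, by omega, by omega,
        fun t ht => ⟨hs t ht, q0 t ht⟩, by omega⟩) hc rfl hi3 (fun _ _ => le_rfl)
        (Or.inr (by omega))
    · have ji : j < i := by
        have := hi' j
        omega
      have a1 := hv.2.2 j (by omega)
      have a2 := j5 (j + 1)
      have a3 := j5 (j - 1) (by omega) (by omega)
      have a4 := hv.mono (show j - 1 ≤ j by omega) (by omega)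
      have hp : Fam n D M (upp h j) := fam_upp hh j2 (by omega) (by omega) (by omega)
      have hb : Fam n D M (dn h j 1) := fam_dn hh le_rfl (by omega) (by omega) (by omega)
      have u1 : ∀ t, t ≠ j → upp h j t = h t := fun t ht => by simp only [upp]; rw [if_neg ht]
      have u2 : upp h j j = h j + 1 := by simp [upp]
      have d1 : ∀ t, t ≠ j → dn h j 1 t = h t := fun t ht => by simp only [dn]; rw [if_neg ht]
      have m1 := mB_upp (n := n) h (j := j) (by omega)
      have m2 := mB_dn (n := n) h (j := j) (c := 1) (by omega) (by omega)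
      have l1 := lo (i - 1) (by omega)
      have sp : stable n (upp h j) k := by
        refine Or.inl ⟨by omega, by omega, by rw [u1 k (by omega)]; omega, fun t ht => ?_,
          by rw [u1 k (by omega), u1 (k + 1) (by omega)]; omega⟩
        have := q0 t ht
        have := j5 t ht
        simp only [upp]; split_ifs <;> omega
      have sb : stable n (dn h j 1) k := by
        refine Or.inl ⟨by omega, by omega, by rw [d1 k (by omega)]; omega, fun t ht => ?_,
          by rw [d1 k (by omega), d1 (k + 1) (by omega)]; omega⟩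
        have := q0 t ht
        have := j5 t ht
        simp only [dn]; split_ifs <;> omega
      refine midCol hZ hp sp ⟨j1, Or.inl ⟨by omega, Or.inl (by omega)⟩⟩
        (colZ hM hZ IH hi hin hi2 hp sp hc (u1 i (by omega)) (Or.inr ?_) (fun t ht => ?_)
          (Or.inr (by omega)))
        (colZ hM hZ IH hi hin hi2 hb sb hc (d1 i (by omega)) (Or.inr ?_) (fun t ht => ?_)
          (Or.inr (by omega)))
      · rw [u1 i (by omega)]
        simp only [upp]; split_ifs <;> omega
      · simp only [fh, upp]; split_ifs with e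
        · subst e; exact absurd ht j4
        · exact le_rfl
      · rw [d1 i (by omega)]
        simp only [dn]; split_ifs <;> omega
      · simp only [fh, dn]; split_ifs with e
        · subst e; omega
        · exact le_rfl

theorem phase1 (hM : ∀ x, 2 ≤ x → M x → M (x - 1) ∧ M (x - 2))
    (hZ : ∀ p a b, Fam n D M p → Tri n p a b → (Z a → Z b → Z p) ∧ (Z p → Z b → Z a))
    (hT : ∀ h, Fam n D M h → (∀ i < n, h i ≤ i + 1) → Z h) (h : ℕ → ℕ) :
    Fam n D M h → Z h := by
  classical
  induction h using (InvImage.wf (fun h => toLex (mS n h, mB n h)) wellFounded_lt).induction with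
  | h h ih =>
  intro hh
  have IH : ∀ x, Fam n D M x → mlt n x h → Z x := by
    intro x hx hlt
    refine ih x ?_ hx
    simp only [InvImage, Prod.Lex.toLex_lt_toLex]
    unfold mlt at hlt
    omega
  by_cases ht : ∀ i < n, h i ≤ i + 1
  · exact hT h hh ht
  by_cases hex : ∃ u, ¬ inO n h u ∧ flat n h u
  · exact case1 hZ IH hh hex
  have hex2 : ∃ t, t < n ∧ t + 2 ≤ h t := by
    by_contra hc
    refine ht fun i hi => ?_
    by_contra hc'
    exact hc ⟨i, hi, by omega⟩
  have h0 := Nat.find_spec hex2
  have h1 := fun t => Nat.find_min hex2 (m := t)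
  set t0 := Nat.find hex2
  have hO : ∀ t ≤ t0, orb n h t = t := by
    intro t ht
    induction t with
    | zero => rfl
    | succ t ih =>
      have := h1 t (by omega)
      rw [orb, ih (by omega), fh]; omega
  let Q : ℕ → Prop := fun i => inO n h i ∧ i < n ∧ i + 2 ≤ h i ∧ (i = 0 ∨ h (i - 1) + 2 ≤ h i)
  have hQ : Q t0 := ⟨⟨t0, hO t0 le_rfl⟩, h0.1, h0.2, by have := h1 (t0 - 1); omega⟩
  have hs := Nat.findGreatest_spec (P := Q) h0.1.le hQ
  refine case2 hM hZ IH hh (fun u a b => hex ⟨u, a, b⟩) hs.1 hs.2.1 hs.2.2.1 hs.2.2.2 ?_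
  intro t a b c d e
  exact Nat.findGreatest_is_greatest a b.le ⟨c, b, d, Or.inr e⟩

end

end Pool.Agent.Lib.MP_33bfb2_co
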