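import Pool.Agent.Lib.MP_33bfb2_co.Det2

namespace Pool.Agent.Lib.MP_33bfb2_co

open Finset

variable {T : Type} [CommRing T]

def qi (q : T) (j : ℕ) : T := ∑ i ∈ range j, q ^ i

theorem qi_succ (q : T) (j : ℕ) : qi q (j + 1) = qi q j + q ^ j := sum_range_succ _ _
theorem qi_zero (q : T) : qi q 0 = 0 := rfl
theorem qi_one (q : T) : qi q 1 = 1 := by simp [qi]
theorem qi_two (q : T) : qi q 2 = 1 + q := by simp [qi, sum_range_succ]
theorem qi_rec (q : T) (j : ℕ) : (1 + q) * qi q (j + 1) = qi q (j + 2) + q * qi q j := by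
  have h : ∀ j, q * qi q j + 1 = qi q (j + 1) := by
    intro j
    rw [qi, qi, sum_range_succ', mul_sum]
    simp [pow_succ']
  linear_combination h (j + 1) - h j

def Law (n : ℕ) (q : T) (F : (ℕ → ℕ) → T) : Prop :=
  ∀ p a b, valid n p → Tri n p a b → (a 0 = p 0 → (1 + q) * F a = F p + q * F b) ∧
    (a 0 ≠ p 0 → (1 + q) * F a = F b + q * F p)

def Blocks (n : ℕ) (h : ℕ → ℕ) : Prop := ∀ i, 1 ≤ i → i ≤ n → h i ≤ n ∧ h (h i) = h i

def Base (n : ℕ) (h : ℕ → ℕ) : Prop := valid n h ∧ Blocks n h ∧ (h 0 = 0 ∨ h 0 = h 1)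

section
variable {n : ℕ} {q : T} {F : (ℕ → ℕ) → T}

theorem detA (hn : 1 ≤ n) (hreg : ∀ j a, qi q (j + 1) * a = 0 → a = 0) (hL : Law n q F)
    (hB : ∀ h, Base n h → F h = 0) {h : ℕ → ℕ} (hv : valid n h) (hb : Blocks n h)
    (h0 : h 0 ≤ 1) : F h = 0 := by
  let g : ℕ → ℕ → ℕ := fun k t => if t = 0 then k else h t
  have b1 := hv.2.1 1 hn
  have b2 := hb 1 le_rfl hn
  have gv : ∀ k ≤ h 1, valid n (g k) := by
    intro k hk
    refine ⟨by simp only [g, if_true]; omega, fun i hi => ?_, fun i hi => ?_⟩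
    · have := hv.2.1 i hi
      simp only [g]; split_ifs <;> omega
    · have := hv.2.2 i hi
      simp only [g]; rw [if_neg (Nat.succ_ne_zero i)]; split_ifs with e
      · subst e; left; simpa using hk
      · exact this
  have gb : ∀ k, Blocks n (g k) := by
    intro k i h1 h2
    have := hb i h1 h2
    have := hv.2.1 i h2
    simp only [g]
    rw [if_neg (by omega : ¬ i = 0), if_neg (by omega : ¬ h i = 0)]
    assumption
  have f0 : F (g 0) = 0 := hB _ ⟨gv 0 (by omega), gb 0, Or.inl rfl⟩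
  have fa : F (g (h 1)) = 0 := hB _ ⟨gv _ le_rfl, gb _, Or.inr (by simp [g])⟩
  have hblk : ∀ t, 1 ≤ t → t ≤ h 1 → h t = h 1 := by
    intro t t1 t2
    have := hv.mono t1 (by omega)
    have := hv.mono t2 b2.1
    have := hb t t1 (by omega)
    omega
  have step : ∀ k, k + 1 < h 1 → (1 + q) * F (g (k + 1)) = F (g k) + q * F (g (k + 2)) := by
    intro k hk
    refine (hL (g (k + 2)) _ _ (gv _ (by omega)) (Or.inl ⟨k + 1, 0, Or.inl
      ⟨by omega, by omega, ?_, fun i hi => ?_, ?_⟩, ⟨by omega, Or.inl ⟨by omega, Or.inl rfl⟩⟩,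
      ?_, ?_⟩)).2 (by simp [g])
    · have := hblk (k + 1) (by omega) (by omega)
      simp only [g]; rw [if_neg (by omega)]; omega
    · have := hblk i
      simp only [g]; split_ifs <;> omega
    · have := hblk (k + 1) (by omega) (by omega)
      have := hblk (k + 1 + 1) (by omega) (by omega)
      simp only [g]; rw [if_neg (by omega), if_neg (by omega)]; omega
    · funext t; simp only [g, dn]; split_ifs <;> rfl
    · funext t; simp only [g, dn]; split_ifs <;> rfl
  have key : ∀ k, k < h 1 → q ^ k * F (g (k + 1)) = qi q (k + 1) * F (g 1) ∧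
      q ^ k * F (g k) = q * qi q k * F (g 1) := by
    intro k hk
    induction k with
    | zero => simp [qi_one, qi_zero, f0]
    | succ k ih =>
      obtain ⟨i1, i2⟩ := ih (by omega)
      have := step k hk
      have := qi_rec q k
      constructor
      · linear_combination (1 + q) * i1 - i2 - q ^ k * step k hk + F (g 1) * qi_rec q k
      · linear_combination q * i1
  rcases Nat.eq_zero_or_pos (h 0) with e | e
  · exact hB h ⟨hv, hb, Or.inl e⟩
  · have : h = g 1 := by
      funext t; simp only [g]; split_ifs with e'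
      · subst e'; omega
      · rfl
    rw [this]
    have k1 := (key (h 1 - 1) (by omega)).1
    rw [show h 1 - 1 + 1 = h 1 by omega, fa, mul_zero] at k1
    refine hreg (h 1 - 1) _ ?_
    rw [show h 1 - 1 + 1 = h 1 by omega, ← k1]

theorem prod_dn (q : T) (S : Finset ℕ) (p : ℕ → ℕ) {i : ℕ} (hi : i ∈ S) (c : ℕ) :
    ∏ t ∈ S, qi q (dn p i c t - t) = qi q (p i - c - i) * ∏ t ∈ S.erase i, qi q (p t - t) := by
  rw [← mul_prod_erase S _ hi]
  congr 1
  · simp [dn]
  · refine prod_congr rfl fun t ht => ?_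
    simp only [dn, if_neg (ne_of_mem_erase ht)]

theorem G_law (q : T) {S : Finset ℕ} {p a b : ℕ → ℕ} (hv : valid n p) (h0 : p 0 ≤ 1)
    (hS : ∀ i, 1 ≤ i → i < n → p i ≠ i → i ∈ S) (ht : Tri n p a b) :
    a 0 = p 0 ∧ (1 + q) * ∏ t ∈ S, qi q (a t - t) =
      ∏ t ∈ S, qi q (p t - t) + q * ∏ t ∈ S, qi q (b t - t) := by
  rcases ht with ⟨k, i, hs, hc, rfl, rfl⟩ | ⟨k, hs, hc, rfl, rfl⟩
  · have h1 : i + 2 ≤ p i ∧ i < n := by
      unfold colc at hc; omega
    have h2 : i ≠ 0 := by rintro rfl; omega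
    have hi := hS i (by omega) h1.2 (by omega)
    refine ⟨by simp only [dn]; rw [if_neg h2.symm], ?_⟩
    rw [prod_dn q S p hi, prod_dn q S p hi, ← mul_prod_erase S _ hi]
    obtain ⟨d, hd⟩ : ∃ d, p i = i + 2 + d := ⟨p i - (i + 2), by omega⟩
    rw [show p i - 1 - i = d + 1 by omega, show p i - 2 - i = d by omega,
      show p i - i = d + 2 by omega]
    linear_combination (∏ t ∈ S.erase i, qi q (p t - t)) * qi_rec q d
  · obtain ⟨c1, c2, c3⟩ := hc
    have h2 : 1 ≤ k := by unfold stable at hs; omega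
    have bn := hv.2.1 n le_rfl
    have e0 : k + 1 = n → p (k + 1) = p n := fun e => by rw [e]
    have hk := hS k h2 c1 (by omega)
    have hk1 := hS (k + 1) (by omega) (by omega) (by omega)
    have hk2 : k + 1 ∈ S.erase k := mem_erase.2 ⟨by omega, hk1⟩
    have hk3 : k ∈ S.erase (k + 1) := mem_erase.2 ⟨by omega, hk⟩
    refine ⟨by simp only [dn]; rw [if_neg (by omega)], ?_⟩
    rw [prod_dn q S _ hk1, prod_dn q S p hk, prod_dn q _ p hk3, ← mul_prod_erase S _ hk,
      ← mul_prod_erase _ _ hk2, erase_right_comm]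
    obtain ⟨d, hd⟩ : ∃ d, p k = k + 2 + d := ⟨p k - (k + 2), by omega⟩
    have e4 : dn p k 1 (k + 1) = p (k + 1) := by simp [dn]
    rw [e4, show p k - 1 - k = d + 1 by omega, show p (k + 1) - 1 - (k + 1) = d by omega,
      show p k - k = d + 2 by omega, show p (k + 1) - (k + 1) = d + 1 by omega]
    linear_combination (qi q (d + 1) * ∏ t ∈ (S.erase (k + 1)).erase k, qi q (p t - t)) *
      qi_rec q d

theorem detB (hn : 1 ≤ n) (hreg : ∀ j a, qi q (j + 1) * a = 0 → a = 0) (hL : Law n q F)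
    (hc : ∀ h h', (∀ i ≤ n, h i = h' i) → F h = F h') (hB : ∀ h, Base n h → F h = 0)
    (c : ℕ) : ∀ h : ℕ → ℕ, ((range n).filter fun i => 1 ≤ i ∧ h i ≠ i).card = c → valid n h →
      (∀ i < n, h i ≤ i + 1) → F h = 0 := by
  induction c using Nat.strong_induction_on with
  | _ c ih =>
  intro h hcard hv ht
  set S := (range n).filter fun i => 1 ≤ i ∧ h i ≠ i with hS
  have mS : ∀ i, i ∈ S ↔ i < n ∧ 1 ≤ i ∧ h i ≠ i := fun i => by simp [hS]
  have h0 : h 0 ≤ 1 := ht 0 hn
  have bn := hv.2.1 n le_rfl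
  have key := phase1 (n := n) (D := {i | 1 ≤ i ∧ i ≤ n ∧ h i = i}) (M := fun x => x = h 0)
    (Z := fun x => F x = F h * ∏ t ∈ S, qi q (x t - t)) (fun x a b => by omega) ?_ ?_
  · have ex : ∀ i, ∃ d, (i ≤ d ∧ h d = d) ∨ n < i := fun i =>
      ⟨n, by by_cases e : i ≤ n <;> omega⟩
    let K : ℕ → ℕ := fun i => if i = 0 then h 0 else Nat.find (ex i)
    have K1 : ∀ i, 1 ≤ i → i ≤ n → i ≤ K i ∧ h (K i) = K i ∧
        ∀ d, i ≤ d → h d = d → K i ≤ d := by
      intro i i1 i2
      have := Nat.find_spec (ex i)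
      simp only [K]; rw [if_neg (by omega)]
      exact ⟨by omega, by omega, fun d a b => Nat.find_min' _ (Or.inl ⟨a, b⟩)⟩
    have K0 : K 0 = h 0 := rfl
    have K2 : ∀ i, 1 ≤ i → i ≤ n → K i ≤ n := fun i a b => (K1 i a b).2.2 n b (by omega)
    have Kv : valid n K := by
      refine ⟨by omega, fun i hi => ?_, fun i hi => Or.inl ?_⟩
      · rcases Nat.eq_zero_or_pos i with rfl | e
        · omega
        · have := K1 i e hi
          have := K2 i e hi
          omega
      · have := K1 (i + 1) (by omega) hi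
        rcases Nat.eq_zero_or_pos i with rfl | e
        · omega
        · exact (K1 i e hi.le).2.2 _ (by omega) this.2.1
    have Kb : Blocks n K := by
      intro i a b
      have k1 := K1 i a b
      have k2 := K2 i a b
      have k3 := K1 (K i) (by omega) k2
      exact ⟨k2, le_antisymm (k3.2.2 _ le_rfl k1.2.1) k3.1⟩
    have z := key K ⟨Kv, fun i hi => le_antisymm ((K1 i hi.1 hi.2.1).2.2 i le_rfl hi.2.2)
      (K1 i hi.1 hi.2.1).1, K0⟩
    rw [detA hn hreg hL hB Kv Kb (by omega)] at z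
    have : ∀ S' ⊆ S, F h * ∏ t ∈ S', qi q (K t - t) = 0 → F h = 0 := by
      intro S'
      induction S' using Finset.induction_on with
      | empty => simp
      | insert i S' hi ih' =>
        intro hsub e
        refine ih' ((subset_insert _ _).trans hsub) ?_
        have a1 := (mS i).1 (hsub (mem_insert_self _ _))
        have a2 := K1 i a1.2.1 a1.1.le
        have a3 : K i ≠ i := fun e' => a1.2.2 (by have := a2.2.1; rwa [e'] at this)
        rw [prod_insert hi, show K i - i = (K i - i - 1) + 1 by omega] at e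
        refine hreg (K i - i - 1) _ ?_
        rw [← e]; ring
    exact this S subset_rfl z.symm
  · intro p a b hp htri
    obtain ⟨g1, g2⟩ := G_law q (S := S) hp.1 (by have := hp.2.2; omega) (fun i a b c =>
      (mS i).2 ⟨b, a, fun e => c (hp.2.1 i ⟨a, b.le, e⟩)⟩) htri
    have g3 := (hL p a b hp.1 htri).1 g1
    constructor
    · intro za zb
      linear_combination (1 + q) * za - q * zb - g3 + F h * g2
    · intro zp zb
      rw [← sub_eq_zero]
      refine hreg 1 _ ?_
      rw [qi_two]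
      linear_combination g3 + zp + q * zb - F h * g2
  · intro x hx hxt
    by_cases e : ∀ i ∈ S, x i ≠ i
    · have e1 : ∀ i ∈ S, x i = i + 1 := by
        intro i hi
        have := (mS i).1 hi
        have := e i hi
        have := hxt i (by omega)
        have := hx.1.2.1 i (by omega)
        omega
      rw [prod_eq_one (fun i hi => by rw [e1 i hi, Nat.add_sub_cancel_left, qi_one]), mul_one]
      refine hc _ _ fun i hi => ?_
      by_cases e2 : i ∈ S
      · have := (mS i).1 e2
        have := ht i (by omega)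
        have := hv.2.1 i hi
        rw [e1 i e2]; omega
      · rcases Nat.eq_zero_or_pos i with rfl | e3
        · exact hx.2.2
        · have e4 : h i = i := by
            by_contra e5
            have : i = n := by
              by_contra e6
              exact e2 ((mS i).2 ⟨by omega, e3, e5⟩)
            subst this; omega
          rw [e4]; exact hx.2.1 i ⟨e3, hi, e4⟩
    · push Not at e
      obtain ⟨i, hi, e⟩ := e
      rw [prod_eq_zero hi (by rw [e, Nat.sub_self, qi_zero]), mul_zero]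
      refine ih _ ?_ x rfl hx.1 hxt
      rw [← hcard]
      refine card_lt_card ⟨fun t ht' => ?_, fun hsub => ?_⟩
      · rw [mem_filter, mem_range] at ht'
        exact (mS t).2 ⟨ht'.1, ht'.2.1, fun e' => ht'.2.2 (hx.2.1 t ⟨ht'.2.1, ht'.1.le, e'⟩)⟩
      · exact (mem_filter.1 (hsub hi)).2.2 e

theorem det (hn : 1 ≤ n) (hq : ∀ a, q * a = 0 → a = 0)
    (hreg : ∀ j a, qi q (j + 1) * a = 0 → a = 0) (hL : Law n q F)
    (hc : ∀ h h', (∀ i ≤ n, h i = h' i) → F h = F h') (hB : ∀ h, Base n h → F h = 0)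
    {h : ℕ → ℕ} (hv : valid n h) : F h = 0 := by
  refine phase1 (n := n) (D := ∅) (M := fun _ => True) (Z := fun x => F x = 0)
    (fun _ _ _ => ⟨trivial, trivial⟩) ?_
    (fun x hx ht => detB hn hreg hL hc hB _ x rfl hx.1 ht) h ⟨hv, by simp, trivial⟩
  intro p a b hp ht
  obtain ⟨l1, l2⟩ := hL p a b hp.1 ht
  by_cases e : a 0 = p 0
  · have := l1 e
    refine ⟨fun za zb => ?_, fun zp zb => hreg 1 _ ?_⟩
    · linear_combination (1 + q) * za - q * zb - this
    · rw [qi_two]; linear_combination this + zp + q * zb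
  · have := l2 e
    refine ⟨fun za zb => hq _ ?_, fun zp zb => hreg 1 _ ?_⟩
    · linear_combination (1 + q) * za - zb - this
    · rw [qi_two]; linear_combination this + q * zp + zb

end

end Pool.Agent.Lib.MP_33bfb2_co
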