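import Pool.Agent.Lib.MP_33bfb2_co.Pos

namespace Pool.Agent.Lib.MP_33bfb2_co

open Finset

set_option maxHeartbeats 400000

section
variable {T A : Type} [CommRing T] [Ring A] [Algebra T A]

noncomputable def Phi (T : Type) [CommRing T] [Algebra T A] (e1 e2 : A) :
    MvPolynomial (Fin 2) T →ₗ[T] A :=
  (MvPolynomial.basisMonomials (Fin 2) T).constr T fun d => Sm e1 e2 (d 0) (d 1)

theorem Phi_mon (e1 e2 : A) (d : Fin 2 →₀ ℕ) :
    Phi T e1 e2 (MvPolynomial.monomial d 1) = Sm e1 e2 (d 0) (d 1) :=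
  (MvPolynomial.basisMonomials (Fin 2) T).constr_basis T _ d

theorem Phi_XX (e1 e2 : A) (a b : ℕ) :
    Phi T e1 e2 (MvPolynomial.X 0 ^ a * MvPolynomial.X 1 ^ b) = Sm e1 e2 a b := by
  rw [MvPolynomial.X_pow_eq_monomial, MvPolynomial.X_pow_eq_monomial, MvPolynomial.monomial_mul,
    mul_one, Phi_mon]
  simp

theorem Phi_ext {f g : MvPolynomial (Fin 2) T →ₗ[T] A}
    (h : ∀ a b, f (MvPolynomial.X 0 ^ a * MvPolynomial.X 1 ^ b) =
      g (MvPolynomial.X 0 ^ a * MvPolynomial.X 1 ^ b)) : f = g := by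
  refine (MvPolynomial.basisMonomials (Fin 2) T).ext fun d => ?_
  have := h (d 0) (d 1)
  rwa [← one_mul (MvPolynomial.X 0 ^ d 0), ← MvPolynomial.C_1, ← MvPolynomial.monomial_fin_two]
    at this

theorem Phi_step {e1 e2 : A} (h : Commute e1 e2) (x : T) (g : MvPolynomial (Fin 2) T) :
    (1 + x • e1 + x ^ 2 • e2) * Phi T e1 e2 g = Phi T e1 e2
      ((1 + MvPolynomial.X 0 * MvPolynomial.C x) * (1 + MvPolynomial.X 1 * MvPolynomial.C x) * g) := by
  have := Phi_ext (f := (LinearMap.mulLeft T (1 + x • e1 + x ^ 2 • e2)) ∘ₗ Phi T e1 e2)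
    (g := Phi T e1 e2 ∘ₗ LinearMap.mulLeft T ((1 + MvPolynomial.X 0 * MvPolynomial.C x) *
      (1 + MvPolynomial.X 1 * MvPolynomial.C x))) fun a b => ?_
  · exact LinearMap.congr_fun this g
  · have e : ((1 + MvPolynomial.X 0 * MvPolynomial.C x) *
        (1 + MvPolynomial.X 1 * MvPolynomial.C x) * (MvPolynomial.X 0 ^ a * MvPolynomial.X 1 ^ b) :
        MvPolynomial (Fin 2) T) = MvPolynomial.X 0 ^ a * MvPolynomial.X 1 ^ b +
        x • (MvPolynomial.X 0 ^ (a + 1) * MvPolynomial.X 1 ^ b +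
          MvPolynomial.X 0 ^ a * MvPolynomial.X 1 ^ (b + 1)) +
        x ^ 2 • (MvPolynomial.X 0 ^ (a + 1) * MvPolynomial.X 1 ^ (b + 1)) := by
      simp only [MvPolynomial.smul_eq_C_mul, map_pow]; ring
    rw [LinearMap.comp_apply, LinearMap.comp_apply, LinearMap.mulLeft_apply,
      LinearMap.mulLeft_apply, e]
    simp only [map_add, map_smul, Phi_XX, add_mul, one_mul, smul_mul_assoc, Sm_e1 h, Sm]

theorem prod_Hm {e1 e2 : A} (h : Commute e1 e2) {n : ℕ} (x : Fin n → T) (j : ℕ) :
    ((List.ofFn x).map fun y => 1 + y • e1 + y ^ 2 • e2).prod * Hm e1 e2 j =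
      ∑ a ∈ range (n + 1), ∑ b ∈ range (n + 1),
        (es univ x a * es univ x b) • Sm e1 e2 (a + j) b := by
  have key : ∀ (xs : List T) g, (xs.map fun y => 1 + y • e1 + y ^ 2 • e2).prod * Phi T e1 e2 g =
      Phi T e1 e2 ((xs.map fun y => (1 + MvPolynomial.X 0 * MvPolynomial.C y) *
        (1 + MvPolynomial.X 1 * MvPolynomial.C y)).prod * g) := by
    intro xs g
    induction xs with
    | nil => simp
    | cons y xs ih => simp only [List.map_cons, List.prod_cons, mul_assoc, ih, Phi_step h]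
  have e : Hm e1 e2 j = Phi T e1 e2 (MvPolynomial.X 0 ^ j * MvPolynomial.X 1 ^ 0) := by
    rw [Phi_XX, Sm]
  rw [e, key, List.map_ofFn, List.prod_ofFn]
  simp only [Function.comp_apply]
  rw [prod_mul_distrib, prod_es _ _ _ (M := n) (by simp), prod_es _ _ _ (M := n) (by simp),
    sum_mul_sum, sum_mul, map_sum]
  refine sum_congr rfl fun a _ => ?_
  rw [sum_mul, map_sum]
  refine sum_congr rfl fun b _ => ?_
  rw [← Phi_XX (T := T), ← map_smul, ← map_es (MvPolynomial.C : T →+* _),
    ← map_es (MvPolynomial.C : T →+* _), MvPolynomial.smul_eq_C_mul, MvPolynomial.C_mul]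
  congr 1; ring

structure Gr (Dg : ℕ → Submodule T A) : Prop where
  one : (1 : A) ∈ Dg 0
  mul : ∀ {a b x y}, x ∈ Dg a → y ∈ Dg b → x * y ∈ Dg (a + b)

theorem Gr.Hm {Dg : ℕ → Submodule T A} (g : Gr Dg) {e1 e2 : A} (h1 : e1 ∈ Dg 1) (h2 : e2 ∈ Dg 2)
    (d : ℕ) : Hm e1 e2 (d + 1) ∈ Dg d := by
  induction d using Nat.twoStepInduction with
  | zero => exact g.one
  | one => simpa [MP_33bfb2_co.Hm] using h1
  | more d a b =>
    have c1 := g.mul h1 b
    have c2 := g.mul h2 a
    rw [add_comm] at c1 c2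
    exact sub_mem c1 c2

theorem Gr.Sm {Dg : ℕ → Submodule T A} (g : Gr Dg) {e1 e2 : A} (h1 : e1 ∈ Dg 1) (h2 : e2 ∈ Dg 2)
    (a b d : ℕ) (h : a + b = d + 1) : Sm e1 e2 a b ∈ Dg d := by
  induction a generalizing b d with
  | zero =>
    obtain rfl : b = d + 1 := by omega
    exact neg_mem (g.Hm h1 h2 d)
  | succ a ih =>
    rcases b with _ | b
    · obtain rfl : a = d := by omega
      exact g.Hm h1 h2 a
    · rcases d with _ | _ | d
      · omega
      · obtain rfl : a = 0 := by omega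
        obtain rfl : b = 0 := by omega
        simp [MP_33bfb2_co.Sm, MP_33bfb2_co.Hm]
      · have := g.mul h2 (ih b d (by omega))
        rwa [add_comm] at this

theorem conv_sum (ε e g : ℕ → T) (n : ℕ) (hg : ∀ m, n < m → g m = 0) :
    ∑ j ∈ range (n + 1), ε j * ∑ a ∈ range (n + 1), e a * g (a + j) =
      ∑ m ∈ range (n + 1), (∑ j ∈ range (m + 1), ε j * e (m - j)) * g m := by
  simp only [sum_mul]
  rw [sum_comm' (t' := range (n + 1)) (s' := fun j => Ico j (n + 1))
    (by intro m j; simp only [mem_range, mem_Ico]; omega)]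
  refine sum_congr rfl fun j hj => ?_
  rw [sum_Ico_eq_sum_range, mul_sum, ← sum_subset (range_subset_range.2 (Nat.sub_le (n + 1) j))]
  · exact sum_congr rfl fun a _ => by rw [Nat.add_sub_cancel_left, add_comm a, mul_assoc]
  · intro a _ ha
    rw [hg _ (by rw [mem_range] at ha hj; omega), mul_zero, mul_zero]

theorem symm_sum (f c : ℕ → T) (n : ℕ) (hf : ∀ a ≤ n, f (n - a) = f a) :
    ∑ a ∈ range (n + 1), c a * f a = ∑ a ∈ range (n + 1),
      (if n - a < a then c a + c (n - a) else if a = n - a then c a else 0) * f a := by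
  have e1 : ∀ a, c a * f a = (if n - a ≤ a then c a * f a else 0) +
      (if a < n - a then c a * f a else 0) := fun a => by split_ifs <;> first | omega | simp
  rw [sum_congr rfl fun a _ => e1 a, sum_add_distrib,
    ← sum_flip (fun a => if a < n - a then c a * f a else 0), ← sum_add_distrib]
  refine sum_congr rfl fun a ha => ?_
  have := mem_range.1 ha
  rw [hf a (by omega)]
  split_ifs <;> first | omega | ring

variable {V : Type} [Fintype V] [DecidableEq V] {u : V → A} {ad : V → V → Prop}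
  {E2 : Finset V → A} {R : Finset V}

def Yop (e1 e2 L P : A) : ℕ → A
  | 0 => 1
  | j + 1 => Hm e1 e2 (j + 1) * L - Hm e1 e2 j * P

theorem Alg.expand (h : Alg u ad E2 R) {Dg : ℕ → Submodule T A} (g : Gr Dg) (hu : ∀ v, u v ∈ Dg 1)
    {n : ℕ} (ev : A →ₗ[T] T) (hev : ∀ d ≠ n, ∀ x ∈ Dg d, ev x = 0) (K : AddSubmonoid T)
    (hK : ∀ x ∈ Subsemiring.closure (Set.range u), ev x ∈ K) (x : Fin n → T) (ε η : ℕ → T)
    (h0 : ε 0 = 1) (hε : ∀ m ≤ n, ∑ j ∈ range (m + 1), ε j * es univ x (m - j) = η m) :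
    ∃ cy cx : ℕ → T, (∀ m, cy m ∈ K) ∧ (∀ m ≤ n, cx m ∈ K) ∧
      ev (((List.ofFn x).map fun y => 1 + y • ∑ v, u v + y ^ 2 • E2 univ).prod *
        ∑ j ∈ range (n + 1), ε j • Yop (∑ v, u v) (E2 univ) (∑ l ∈ Rᶜ, u l) (E2 univ - E2 R) j) =
      ∑ m ∈ range (n + 1), cy m * (η m * es univ x (n - m)) +
        ∑ m ∈ range (n + 1), cx m * (es univ x m * es univ x (n - m)) := by
  have d2 : ∀ Z, E2 Z ∈ Dg 2 := by
    intro Z
    induction Z using Finset.induction_on with
    | empty => rw [h.E0]; exact zero_mem _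
    | insert v Z hv ih =>
      rw [h.Ei v Z hv]
      refine add_mem ih (sum_mem fun a _ => ?_)
      split_ifs
      · exact zero_mem _
      · exact g.mul (hu _) (hu _)
  have d1 : ∀ Z : Finset V, ∑ v ∈ Z, u v ∈ Dg 1 := fun Z => sum_mem fun v _ => hu v
  have hy := h.y_mem
  have hx := @Alg.x_mem _ _ _ _ _ _ _ _ _ h
  have hx' := h.x_mem'
  have hP := prod_Hm h.comm x
  have dS := g.Sm (d1 univ) (d2 univ)
  have dP : E2 univ - E2 R ∈ Dg 2 := sub_mem (d2 _) (d2 _)
  have dL := d1 Rᶜ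
  generalize E2 univ - E2 R = P at *
  generalize ∑ l ∈ Rᶜ, u l = L at *
  generalize E2 univ = e2 at *
  generalize ∑ v, u v = e1 at *
  generalize ((List.ofFn x).map fun y => 1 + y • e1 + y ^ 2 • e2).prod = Q at *
  generalize he : es univ x = e at *
  have e0 : e 0 = 1 := by rw [← he, es_zero]
  let y : ℕ → ℕ → T := fun m b => if m = 0 then 0 else ev (Sm e1 e2 m b * L - Sm e1 e2 (m - 1) b * P)
  have y0 : ∀ m b, m + b ≠ n → y m b = 0 := by
    intro m b hne
    rcases m with _ | m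
    · exact if_pos rfl
    · simp only [y, Nat.succ_ne_zero, if_false, Nat.add_sub_cancel]
      refine hev _ hne _ (sub_mem ?_ ?_)
      · have := g.mul (dS (m + 1) b (m + b) (by omega)) dL
        rwa [show m + b + 1 = m + 1 + b by omega] at this
      · rcases e1 : m + b with _ | d
        · obtain rfl : m = 0 := by omega
          obtain rfl : b = 0 := by omega
          simp [Sm, Hm]
        · have := g.mul (dS m b d e1) dP
          rwa [show d + 2 = m + 1 + b by omega] at this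
  let G : ℕ → T := fun m => ∑ b ∈ range (n + 1), e b * y m b
  have G1 : ∀ m ≤ n, G m = e (n - m) * y m (n - m) := fun m hm =>
    sum_eq_single _ (fun b _ hb => by rw [y0 m b (by omega), mul_zero])
      fun hb => absurd (mem_range.2 (by omega)) hb
  have G0 : ∀ m, n < m → G m = 0 := fun m hm =>
    sum_eq_zero fun b _ => by rw [y0 m b (by omega), mul_zero]
  have t1 : ∀ j, ev (Q * Yop e1 e2 L P (j + 1)) = ∑ a ∈ range (n + 1), e a * G (a + (j + 1)) := by
    intro j
    rw [Yop, mul_sub, ← mul_assoc, ← mul_assoc, hP, hP, sum_mul, sum_mul, ← sum_sub_distrib, map_sum]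
    refine sum_congr rfl fun a _ => ?_
    rw [sum_mul, sum_mul, ← sum_sub_distrib, map_sum, mul_sum]
    refine sum_congr rfl fun b _ => ?_
    rw [smul_mul_assoc, smul_mul_assoc, ← smul_sub, map_smul, smul_eq_mul, mul_assoc]
    rfl
  have t0 : ev (Q * 1) = ∑ a ∈ range (n + 1), ev (Sm e1 e2 (a + 1) (n - a)) * (e a * e (n - a)) := by
    rw [show (1 : A) = Hm e1 e2 1 from rfl, hP, map_sum]
    refine sum_congr rfl fun a ha => ?_
    have := mem_range.1 ha
    rw [map_sum, sum_eq_single (n - a), map_smul, smul_eq_mul, mul_comm]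
    · intro b _ hb
      rw [map_smul, hev (a + b) (by omega) _ (dS _ _ _ (by omega)), smul_zero]
    · exact fun hb => absurd (mem_range.2 (by omega)) hb
  have c1 := conv_sum ε e G n G0
  rw [sum_range_succ', h0, one_mul] at c1
  refine ⟨fun m => y m (n - m), fun a => if n - a < a then ev (cX e1 e2 L P a (n - a)) +
    ev (cX e1 e2 L P (n - a) (n - (n - a))) else if a = n - a then ev (cX e1 e2 L P a (n - a))
    else 0, fun m => ?_, fun a h3 => ?_, ?_⟩
  · rcases m with _ | m
    · exact zero_mem _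
    · exact hK _ (hy m _)
  · beta_reduce
    split_ifs with h1 h2
    · rw [show n - (n - a) = a by omega, ← map_add]
      exact hK _ (hx h1)
    · rw [← h2]; exact hK _ (hx' a)
    · exact zero_mem _
  · rw [← symm_sum (fun a => e a * e (n - a)) (fun a => ev (cX e1 e2 L P a (n - a))) n
      fun a ha => by simp only [show n - (n - a) = a by omega, mul_comm]]
    rw [mul_sum, map_sum, sum_range_succ']
    simp only [mul_smul_comm, map_smul, smul_eq_mul, t1, h0, one_mul]
    rw [Yop, t0]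
    rw [eq_sub_of_add_eq c1, sub_add_eq_add_sub, add_sub_assoc, ← sum_sub_distrib]
    congr 1
    · refine sum_congr rfl fun m hm => ?_
      have := mem_range.1 hm
      rw [hε m (by omega), G1 m (by omega)]; ring
    · refine sum_congr rfl fun a ha => ?_
      have := mem_range.1 ha
      rw [add_zero, G1 a (by omega)]
      rcases a with _ | a
      · simp [y, cX]
      · simp only [y, cX, map_sub, Nat.succ_ne_zero, if_false, Nat.add_sub_cancel]; ring

end

end Pool.Agent.Lib.MP_33bfb2_co
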