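import Pool.Agent.Lib.MP_33bfb2_co.Tower

namespace Pool.Agent.Lib.MP_33bfb2_co

open Finset MvPolynomial

set_option maxHeartbeats 400000

variable {n : ℕ}

theorem mem_aug {f : P n} : f ∈ aug n ↔ constantCoeff f = 0 := by
  constructor
  · intro h
    have : aug n ≤ RingHom.ker (constantCoeff : P n →+* ℂ) := by
      rw [aug, Ideal.span_le]
      rintro _ ⟨i, rfl⟩
      simp
    exact this h
  · intro h
    have : f - C (constantCoeff f) ∈ aug n := by
      clear h
      induction f using MvPolynomial.induction_on with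
      | C r => simp
      | add p q hp hq =>
        have := add_mem hp hq
        rwa [map_add, map_add, add_sub_add_comm]
      | mul_X p k _ =>
        simp only [map_mul, constantCoeff_X, mul_zero, map_zero, sub_zero]
        exact Ideal.mul_mem_left _ _ (Ideal.subset_span (Set.mem_range_self k))
    rwa [h, map_zero, sub_zero] at this

open Classical in
theorem ch_basis {ι : Type} [Fintype ι] (b : ι → Fn n) (d : ι → ℕ) (hb : ∀ i, b i ∈ deg n (d i))
    {M : Submodule (P n) (Fn n)} (hM : GS M) (hmem : ∀ i, b i ∈ M)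
    (hspan : ∀ ρ ∈ M, ∃ f : ι → P n, ρ = ∑ i, f i • b i)
    (hind : ∀ f : ι → P n, ∑ i, f i • b i = 0 → ∀ i, f i = 0) (u : W n) (τ : ι → ι)
    (hτ : ∀ i, dot u (b i) = b (τ i)) :
    ch M u = ∑ i, if τ i = i then PowerSeries.X ^ d i else 0 := by
  have hd : ∀ i, d (τ i) = d i := by
    intro i
    have : b (τ i) ≠ 0 := by
      intro e
      have := hind (Pi.single (τ i) 1) (by
        rw [sum_eq_single (τ i)]
        · simp [e]
        · intro j _ hj; simp [hj]
        · simp) (τ i)
      simp at this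
    obtain ⟨w, hw⟩ := Function.ne_iff.1 this
    exact IsHomogeneous.inj_right (hb (τ i) w (Set.mem_univ _))
      ((hτ i ▸ dot_mem_deg u (hb i)) w (Set.mem_univ _)) hw
  have hext : ∀ (k : ℕ) (c : {i // d i = k} → ℂ), ∑ i, c i • b i.1 =
      ∑ i, (if h : d i = k then C (c ⟨i, h⟩) else 0 : P n) • b i := by
    intro k c
    rw [← Fintype.sum_subtype_add_sum_subtype (fun i => d i = k), sum_eq_zero (s := univ)
      (f := fun i : {i // ¬ d i = k} => _), add_zero]
    · refine sum_congr rfl fun i _ => ?_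
      rw [dif_pos i.2]
      funext w; simp [smul_eq_C_mul]
    · intro i _; rw [dif_neg i.2, zero_smul]
  ext k
  have hli : LinearIndependent ℂ fun i : {i // d i = k} => b i.1 := by
    rw [Fintype.linearIndependent_iff]
    intro c hc i
    have := hind _ ((hext k c).symm.trans hc) i.1
    rw [dif_pos i.2] at this
    simpa using this
  have hst : ∀ x ∈ Submodule.span ℂ (Set.range fun i : {i // d i = k} => b i.1),
      dot u x ∈ Submodule.span ℂ (Set.range fun i : {i // d i = k} => b i.1) := by
    intro x hx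
    obtain ⟨c, rfl⟩ := (Submodule.mem_span_range_iff_exists_fun ℂ).1 hx
    rw [map_sum]
    refine Submodule.sum_mem _ fun i _ => ?_
    rw [map_smul, hτ]
    exact Submodule.smul_mem _ _ (Submodule.subset_span ⟨⟨τ i, (hd i).trans i.2⟩, rfl⟩)
  have h1 : cut M k = cut (aug n • M) k ⊔
      Submodule.span ℂ (Set.range fun i : {i // d i = k} => b i.1) := by
    apply le_antisymm
    · rintro ρ ⟨h1, h2⟩
      obtain ⟨f, rfl⟩ := hspan ρ h1
      rw [← hc_of_mem h2, map_sum]
      refine Submodule.sum_mem _ fun i _ => ?_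
      have e : f i • b i = b i * fun _ => f i := by funext w; simp [mul_comm]
      rw [e, hc_mul (hb i)]
      split_ifs with hi
      · have e' : b i * hc (k - d i) (fun _ => f i) = homogeneousComponent (k - d i) (f i) • b i := by
          funext w; simp [hc_apply, mul_comm]
        rcases hi.lt_or_eq with hi' | hi'
        · refine Submodule.mem_sup_left ⟨?_, fun w _ => ?_⟩
          · have h3 : homogeneousComponent (k - d i) (f i) ∈ aug n := by
              rw [mem_aug, constantCoeff_eq, coeff_homogeneousComponent, if_neg]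
              rw [map_zero]; omega
            have h4 : homogeneousComponent (k - d i) (f i) • b i ∈ aug n • M :=
              Submodule.smul_mem_smul h3 (hmem i)
            rw [e']
            exact h4
          · have := IsHomogeneous.mul (hb i w (Set.mem_univ _))
              (homogeneousComponent_isHomogeneous (k - d i) (f i))
            rw [Nat.add_sub_cancel' hi] at this
            exact this
        · refine Submodule.mem_sup_right ?_
          rw [e', hi', Nat.sub_self, homogeneousComponent_zero]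
          have : (C (coeff 0 (f i)) : P n) • b i = coeff 0 (f i) • b i := by
            funext w; simp [smul_eq_C_mul]
          rw [this]
          exact Submodule.smul_mem _ _ (Submodule.subset_span ⟨⟨i, hi'⟩, rfl⟩)
      · exact zero_mem _
    · refine sup_le (cut_mono Submodule.smul_le_right k) (Submodule.span_le.2 ?_)
      rintro _ ⟨i, rfl⟩
      exact ⟨hmem _, by have := hb i.1; rwa [i.2] at this⟩
  have h2 : Disjoint (cut (aug n • M) k)
      (Submodule.span ℂ (Set.range fun i : {i // d i = k} => b i.1)) := by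
    rw [Submodule.disjoint_def]
    rintro ρ ⟨h1, -⟩ hx
    obtain ⟨c, rfl⟩ := (Submodule.mem_span_range_iff_exists_fun ℂ).1 hx
    have : ∀ ρ ∈ aug n • M, ∃ f : ι → P n, (∀ i, f i ∈ aug n) ∧ ρ = ∑ i, f i • b i := by
      intro ρ hρ
      refine Submodule.smul_induction_on hρ (fun g hg σ hσ => ?_) ?_
      · obtain ⟨f, rfl⟩ := hspan σ hσ
        exact ⟨fun i => g * f i, fun i => Ideal.mul_mem_right _ _ hg, by
          simp only [smul_sum, mul_smul]⟩
      · rintro _ _ ⟨f, hf, rfl⟩ ⟨g, hg, rfl⟩
        exact ⟨f + g, fun i => add_mem (hf i) (hg i), by simp only [Pi.add_apply, add_smul,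
          sum_add_distrib]⟩
    obtain ⟨f, hf, e⟩ := this _ h1
    have e2 := hind (fun i => (if h : d i = k then C (c ⟨i, h⟩) else 0 : P n) - f i) (by
      simp only [sub_smul, sum_sub_distrib]
      rw [← hext, e, sub_self])
    refine sum_eq_zero fun i _ => ?_
    have e3 := e2 i.1
    rw [dif_pos i.2, sub_eq_zero] at e3
    have := mem_aug.1 (hf i.1)
    rw [← e3, constantCoeff_C] at this
    rw [show c i = 0 from this, zero_smul]
  have : FiniteDimensional ℂ (Submodule.span ℂ (Set.range fun i : {i // d i = k} => b i.1)) :=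
    FiniteDimensional.span_of_finite ℂ (Set.finite_range _)
  rw [ch, PowerSeries.coeff_mk, h1, trOn_sup _ (hM.aug.cut_st u k) hst h2, add_sub_cancel_left,
    trOn_perm _ _ hli (fun i => ⟨τ i, (hd i).trans i.2⟩) fun i => hτ i, map_sum,
    ← Fintype.sum_subtype_add_sum_subtype (fun i => d i = k), sum_eq_zero (s := univ)
      (f := fun i : {i // ¬ d i = k} => _), add_zero]
  · refine sum_congr rfl fun i _ => ?_
    simp only [Subtype.ext_iff]
    split_ifs
    · rw [PowerSeries.coeff_X_pow, if_pos i.2.symm]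
    · simp
  · intro i _
    split_ifs
    · rw [PowerSeries.coeff_X_pow, if_neg (Ne.symm i.2)]
    · simp

open Classical in
noncomputable def gs (L : Prop) (η ε : ℤˣ) : ℤ :=
  if L then (if η = 1 then 1 else ε) else (if η = ε then 1 else 0)

open Classical in
noncomputable def gm (L : Prop) (η : ℤˣ) (v : Fin n) : P n := if L ∧ η ≠ 1 then X v else 1

theorem sum_units {M : Type} [AddCommMonoid M] (f : ℤˣ → M) : ∑ u, f u = f 1 + f (-1) := by
  rw [show (univ : Finset ℤˣ) = {1, -1} from rfl, sum_pair (by decide)]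

open Classical in
theorem gs_orth1 (L : Prop) (ε ε' : ℤˣ) :
    ∑ η, gs L η ε * gs L η ε' = if ε = ε' then (if L then 2 else 1) else 0 := by
  rw [sum_units]
  rcases Int.units_eq_one_or ε with rfl | rfl <;> rcases Int.units_eq_one_or ε' with rfl | rfl <;>
    by_cases h : L <;> simp [gs, h]

open Classical in
theorem gs_orth2 (L : Prop) (η η' : ℤˣ) :
    ∑ ε, gs L η ε * gs L η' ε = if η = η' then (if L then 2 else 1) else 0 := by
  rw [sum_units]
  rcases Int.units_eq_one_or η with rfl | rfl <;> rcases Int.units_eq_one_or η' with rfl | rfl <;>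
    by_cases h : L <;> simp [gs, h]

open Classical in
theorem orth_prod (L : Fin n → Prop) (G : Prop → ℤˣ → ℤˣ → ℤ)
    (h : ∀ L a b, ∑ c, G L c a * G L c b = if a = b then (if L then 2 else 1) else 0)
    (a b : Fin n → ℤˣ) :
    ∑ c : Fin n → ℤˣ, (∏ v, G (L v) (c v) (a v)) * ∏ v, G (L v) (c v) (b v) =
      if a = b then ∏ v, (if L v then 2 else 1) else 0 := by
  simp only [← prod_mul_distrib]
  rw [← Fintype.piFinset_univ, ← prod_univ_sum (fun _ => univ)
    fun v c => G (L v) c (a v) * G (L v) c (b v)]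
  simp only [h]
  split_ifs with e
  · subst e; simp
  · obtain ⟨v, hv⟩ := Function.ne_iff.1 e
    exact prod_eq_zero (mem_univ v) (if_neg hv)

open Classical in
theorem cL_ne (L : Fin n → Prop) : ((∏ v, (if L v then 2 else 1) : ℤ) : ℂ) ≠ 0 := by
  rw [Int.cast_ne_zero]
  exact prod_ne_zero_iff.2 fun v _ => by split_ifs <;> norm_num

theorem cube_span (L : Fin n → Prop) (R : (Fin n → ℤˣ) → P n)
    (h : ∀ v, L v → ∀ ε, X v ∣ R ε - R (Function.update ε v (- ε v))) :
    ∃ f : (Fin n → ℤˣ) → P n, ∀ ε, R ε =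
      ∑ η, f η * ∏ v, (gs (L v) (η v) (ε v) • gm (L v) (η v) v) := by
  classical
  have key : ∀ η : Fin n → ℤˣ, ∏ v, gm (L v) (η v) v ∣
      ∑ ε : Fin n → ℤˣ, (∏ v, gs (L v) (η v) (ε v)) • R ε := by
    intro η
    simp only [gm]
    rw [← prod_filter]
    refine prod_dvd_primes _ _ _ (fun v _ => X_prime) (fun v _ v' _ hne hd => hne ?_) ?_
    · simpa using hd
    · intro v hv
      obtain ⟨l1, l2⟩ := (mem_filter.1 hv).2
      let fl : (Fin n → ℤˣ) → (Fin n → ℤˣ) := fun ε => Function.update ε v (- ε v)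
      have inv : Function.Involutive fl := fun ε => by simp [fl]
      have e1 : ∀ ε, ∏ t, gs (L t) (η t) (fl ε t) = - ∏ t, gs (L t) (η t) (ε t) := by
        intro ε
        rw [← mul_prod_erase _ _ (mem_univ v), ← mul_prod_erase _ _ (mem_univ v), ← neg_mul]
        congr 1
        · simp [fl, gs, l1, l2]
        · exact prod_congr rfl fun t ht => by simp [fl, ne_of_mem_erase ht]
      have e2 : ∑ ε : Fin n → ℤˣ, (∏ t, gs (L t) (η t) (ε t)) • R ε =
          C (1 / 2 : ℂ) * ∑ ε : Fin n → ℤˣ, (∏ t, gs (L t) (η t) (ε t)) • (R ε - R (fl ε)) := by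
        have := Equiv.sum_comp inv.toPerm fun ε => (∏ t, gs (L t) (η t) (ε t)) • R ε
        simp only [Function.Involutive.coe_toPerm, e1, neg_smul, sum_neg_distrib] at this
        simp only [smul_sub, sum_sub_distrib]
        linear_combination (- C (1 / 2 : ℂ)) * this -
          (∑ ε : Fin n → ℤˣ, (∏ t, gs (L t) (η t) (ε t)) • R ε) * half_two (n := n)
      rw [e2]
      refine Dvd.dvd.mul_left (dvd_sum fun ε _ => ?_) _
      rw [zsmul_eq_mul]
      exact (h v l1 ε).mul_left _
  choose g hg using key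
  refine ⟨fun η => C ((∏ v, (if L v then 2 else 1) : ℤ) : ℂ)⁻¹ * g η, fun ε => ?_⟩
  have : ∀ η : Fin n → ℤˣ, C ((∏ v, (if L v then 2 else 1) : ℤ) : ℂ)⁻¹ * g η *
      ∏ v, (gs (L v) (η v) (ε v) • gm (L v) (η v) v) =
      C ((∏ v, (if L v then 2 else 1) : ℤ) : ℂ)⁻¹ * ∑ ε' : Fin n → ℤˣ,
        ((∏ v, gs (L v) (η v) (ε v)) * ∏ v, gs (L v) (η v) (ε' v)) • R ε' := by
    intro η
    simp only [mul_smul]
    rw [← smul_sum, hg, prod_smul, zsmul_eq_mul, zsmul_eq_mul]; ring
  simp only [this]
  rw [← mul_sum, sum_comm]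
  simp only [← sum_smul, orth_prod L gs gs_orth1, ite_smul, zero_smul, sum_ite_eq, mem_univ,
    if_true]
  rw [zsmul_eq_mul, ← mul_assoc, ← map_intCast (C : ℂ →+* P n), ← C_mul,
    inv_mul_cancel₀ (cL_ne L), C_1, one_mul]

theorem cube_indep (L : Fin n → Prop) (f : (Fin n → ℤˣ) → P n)
    (h : ∀ ε : Fin n → ℤˣ, ∑ η, f η * ∏ v, (gs (L v) (η v) (ε v) • gm (L v) (η v) v) = 0)
    (η : Fin n → ℤˣ) : f η = 0 := by
  classical
  have : ∑ ε : Fin n → ℤˣ, (∏ v, gs (L v) (η v) (ε v)) •
      ∑ η', f η' * ∏ v, (gs (L v) (η' v) (ε v) • gm (L v) (η' v) v) = 0 := by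
    simp only [h, smul_zero, sum_const_zero]
  simp only [smul_sum, prod_smul, mul_smul_comm, smul_smul] at this
  rw [sum_comm] at this
  simp only [← sum_smul, orth_prod L (fun L a b => gs L b a) gs_orth2, ite_smul, zero_smul,
    sum_ite_eq, mem_univ, if_true] at this
  rw [zsmul_eq_mul, ← map_intCast (C : ℂ →+* P n), mul_eq_zero, mul_eq_zero] at this
  rcases this with h | h | h
  · exact absurd (C_eq_zero.1 h) (cL_ne L)
  · exact h
  · refine absurd h (prod_ne_zero_iff.2 fun v _ => ?_)
    unfold gm; split_ifs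
    · exact X_ne_zero _
    · exact one_ne_zero

end Pool.Agent.Lib.MP_33bfb2_co
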