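import Mathlib

namespace Pool.Agent.Lib.MP_33bfb2_co

open Finset

set_option maxHeartbeats 400000

section
variable {n : ℕ} {A : Type} [DecidableEq A]

def cnt (Θ : Fin n → A) (a : A) : ℕ := (univ.filter fun v => Θ v = a).card

theorem cnt_comp (Θ : Fin n → A) (σ : Equiv.Perm (Fin n)) : cnt (Θ ∘ σ) = cnt Θ := by
  funext a
  exact card_equiv σ (by simp)

theorem cnt_eq_iff {Θ Θ' : Fin n → A} : cnt Θ = cnt Θ' ↔ ∃ σ : Equiv.Perm (Fin n), Θ = Θ' ∘ σ := by
  constructor
  · intro h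
    have e : ∀ a, {v // Θ v = a} ≃ {v // Θ' v = a} := fun a => Fintype.equivOfCardEq (by
      rw [Fintype.card_subtype, Fintype.card_subtype]; exact congrFun h a)
    exact ⟨Equiv.ofFiberEquiv e, funext fun v => (Equiv.ofFiberEquiv_map e v).symm⟩
  · rintro ⟨σ, rfl⟩
    exact cnt_comp _ _

variable [Fintype A]

theorem sum_cnt (Θ : Fin n → A) : ∑ a, cnt Θ a = n := by
  have := card_eq_sum_card_fiberwise (s := univ) (t := univ) (f := Θ) (fun _ _ => mem_univ _)
  rw [card_univ, Fintype.card_fin] at this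
  exact this.symm

theorem exists_cnt (c : A → ℕ) (h : ∑ a, c a = n) : ∃ Θ : Fin n → A, cnt Θ = c := by
  have e : Fin n ≃ Σ a, Fin (c a) := Fintype.equivOfCardEq (by simp [h])
  refine ⟨fun v => (e v).1, funext fun a => ?_⟩
  have : cnt (fun v => (e v).1) a = (univ.filter fun x : Σ a, Fin (c a) => x.1 = a).card :=
    card_equiv e (by simp)
  rw [this, card_filter, Fintype.sum_sigma]
  simp [apply_ite Finset.card]

theorem sum_stab (c : A → ℕ) (h : ∑ a, c a = n) :
    ∑ Θ : Fin n → A with cnt Θ = c, (univ.filter fun π : Equiv.Perm (Fin n) => Θ ∘ π = Θ).card =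
      n.factorial := by
  obtain ⟨Θ0, rfl⟩ := exists_cnt c h
  have := card_eq_sum_card_fiberwise (s := univ) (t := univ.filter fun Θ => cnt Θ = cnt Θ0)
    (f := fun σ : Equiv.Perm (Fin n) => Θ0 ∘ σ) (fun σ _ => by simp [cnt_comp])
  rw [card_univ, Fintype.card_perm, Fintype.card_fin] at this
  rw [this]
  refine sum_congr rfl fun Θ hΘ => ?_
  obtain ⟨σ, rfl⟩ := cnt_eq_iff.1 (mem_filter.1 hΘ).2
  exact card_equiv (Equiv.mulLeft σ) fun π => by
    simp only [mem_filter, mem_univ, true_and, Equiv.coe_mulLeft, Equiv.Perm.coe_mul,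
      Function.comp_assoc]

variable {T : Type} [CommRing T]

theorem orbit_sum (ω : A → T) (Q : (A → ℕ) → Prop) [DecidablePred Q] :
    ∑ Θ : Fin n → A, ∑ π : Equiv.Perm (Fin n),
      (if Θ ∘ π = Θ ∧ Q (cnt Θ) then ∏ v, ω (Θ v) else 0) =
    (n.factorial : T) * ∑ c ∈ piAntidiag univ n, if Q c then ∏ a, ω a ^ c a else 0 := by
  rw [← sum_fiberwise_of_maps_to (s := univ) (t := piAntidiag univ n) (g := cnt)
    (fun Θ _ => by simp [sum_cnt]), mul_sum]
  refine sum_congr rfl fun c hc => ?_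
  rw [← sum_stab c (mem_piAntidiag.1 hc).1, Nat.cast_sum, sum_mul]
  refine sum_congr rfl fun Θ hΘ => ?_
  rw [(mem_filter.1 hΘ).2]
  by_cases hq : Q c
  · simp only [hq, and_true, if_true]
    rw [← sum_filter, sum_const, nsmul_eq_mul, ← (mem_filter.1 hΘ).2, ← prod_fiberwise' univ Θ ω]
    simp only [prod_const, cnt]
  · simp [hq]

def hh (ω : A → T) (k : ℕ) : T := ∑ c ∈ piAntidiag univ k, ∏ a, ω a ^ c a

theorem hh_gen (ω : A → T) (k : ℕ) :
    hh ω k = PowerSeries.coeff k (∏ a, PowerSeries.mk fun j => ω a ^ j) := by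
  rw [PowerSeries.coeff_prod, hh]
  refine sum_bij' (fun c _ => Finsupp.equivFunOnFinite.symm c) (fun l _ => l) ?_ ?_ ?_ ?_ ?_ <;>
    simp

theorem hh_mul (q : T) (ω : A → T) (k : ℕ) : hh (fun a => q * ω a) k = q ^ k * hh ω k := by
  rw [hh, hh, mul_sum]
  refine sum_congr rfl fun c hc => ?_
  simp only [mul_pow, prod_mul_distrib, prod_pow_eq_pow_sum, (mem_piAntidiag.1 hc).1]

theorem hh_units (ω : ℤˣ × A → T) (k : ℕ) : hh ω k =
    ∑ j ∈ range (k + 1), hh (fun a => ω (-1, a)) j * hh (fun a => ω (1, a)) (k - j) := by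
  rw [hh_gen, Fintype.prod_prod_type, show (univ : Finset ℤˣ) = {-1, 1} by decide,
    prod_pair (by decide), PowerSeries.coeff_mul,
    Nat.sum_antidiagonal_eq_sum_range_succ_mk]
  simp only [hh_gen]

theorem hh_hsymm {R : Type} [CommRing R] (φ : MvPolynomial A R →+* T) (k : ℕ) :
    hh (fun a => φ (MvPolynomial.X a)) k = φ (MvPolynomial.hsymm A R k) := by
  rw [hh, ← map_sym_eq_piAntidiag, sum_map, MvPolynomial.hsymm, map_sum, sym_univ]
  refine sum_congr rfl fun s _ => ?_
  rw [map_multiset_prod, Multiset.map_map, Finset.prod_multiset_map_count]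
  refine (prod_subset (subset_univ _) fun a _ ha => ?_).symm
  rw [Multiset.mem_toFinset] at ha
  change _ ^ Multiset.count a s.1 = 1
  rw [Multiset.count_eq_zero_of_notMem ha, pow_zero]

theorem hh_blocks {B : Type} [DecidableEq B] [Fintype B] (ω : B × A → T) (k : B → ℕ) {n : ℕ}
    (hk : ∑ b, k b = n) :
    ∑ c ∈ piAntidiag univ n, (if (fun b => ∑ a, c (b, a)) = k then ∏ x, ω x ^ c x else 0) =
      ∏ b, hh (fun a => ω (b, a)) (k b) := by
  simp only [hh]
  rw [prod_univ_sum, ← sum_filter]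
  refine sum_bij' (fun c _ b a => c (b, a)) (fun f _ x => f x.1 x.2) ?_ ?_ ?_ ?_ ?_
  · intro c hc
    simp only [Fintype.mem_piFinset, mem_piAntidiag, mem_univ, implies_true, and_true]
    exact fun b => congrFun (mem_filter.1 hc).2 b
  · intro f hf
    simp only [Fintype.mem_piFinset, mem_piAntidiag, mem_univ, implies_true, and_true] at hf
    simp only [mem_filter, mem_piAntidiag, mem_univ, implies_true, and_true]
    rw [Fintype.sum_prod_type]
    simp only [hf, hk, and_self]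
  · intro c _; rfl
  · intro c _; rfl
  · intro c _; rw [Fintype.prod_prod_type]

theorem cnt_fst {B : Type} [DecidableEq B] (Θ : Fin n → B × A) (b : B) :
    cnt (fun v => (Θ v).1) b = ∑ a, cnt Θ (b, a) := by
  rw [cnt, card_eq_sum_card_fiberwise (t := univ) (f := fun v => (Θ v).2) (fun _ _ => mem_univ _)]
  refine sum_congr rfl fun a _ => ?_
  rw [filter_filter, cnt]
  congr 1
  ext v; simp [Prod.ext_iff]

theorem orbit_blocks {B : Type} [DecidableEq B] [Fintype B] (blk : Fin n → B) (ω : B × A → T) :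
    ∑ Θ : Fin n → B × A, ∑ π : Equiv.Perm (Fin n),
      (if Θ ∘ π = Θ ∧ cnt (fun v => (Θ v).1) = cnt blk then ∏ v, ω (Θ v) else 0) =
    (n.factorial : T) * ∏ b, hh (fun a => ω (b, a)) (cnt blk b) := by
  rw [← hh_blocks ω _ (sum_cnt blk), ← orbit_sum ω fun c => (fun b => ∑ a, c (b, a)) = cnt blk]
  refine sum_congr rfl fun Θ _ => sum_congr rfl fun π _ => ?_
  rw [show cnt (fun v => (Θ v).1) = fun b => ∑ a, cnt Θ (b, a) from funext (cnt_fst Θ)]

end

end Pool.Agent.Lib.MP_33bfb2_co
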