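import Pool.Agent.Lib.MP_33bfb2_co.Cube
import Pool.Agent.Lib.MP_33bfb2_co.Orb

namespace Pool.Agent.Lib.MP_33bfb2_co

open Finset MvPolynomial

set_option maxHeartbeats 400000

theorem ifc {α : Type} {p q : Prop} {_ : Decidable p} {_ : Decidable q} {a b c d : α}
    (h : p ↔ q) (h1 : a = c) (h2 : b = d) : (if p then a else b) = if q then c else d :=
  if_congr h h1 h2

open Classical in
theorem prod_sum_fiber {ι Q A T : Type} [Fintype ι] [Fintype Q] [DecidableEq Q] [Fintype A]
    [CommRing T]
    (cl : ι → Q) (hcl : Function.Surjective cl) (t : ι → A → T) :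
    ∏ C, ∑ a, ∏ j with cl j = C, t j a =
      ∑ g : ι → A, if (∀ i j, cl i = cl j → g i = g j) then ∏ j, t j (g j) else 0 := by
  rw [prod_univ_sum, Fintype.piFinset_univ, ← sum_filter]
  refine sum_bij (fun G _ => G ∘ cl) ?_ ?_ ?_ ?_
  · intro G _
    simp only [mem_filter, mem_univ, true_and]
    exact fun i j h => congrArg G h
  · intro G _ G' _ h
    exact hcl.injective_comp_right h
  · intro g hg
    refine ⟨fun C => g (Function.surjInv hcl C), mem_univ _, funext fun i => ?_⟩
    exact (mem_filter.1 hg).2 _ _ (Function.surjInv_eq hcl _)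
  · intro G _
    rw [← prod_fiberwise univ cl]
    exact prod_congr rfl fun C _ => prod_congr rfl fun j hj => by
      rw [Function.comp_apply, (mem_filter.1 hj).2]

variable {n : ℕ}

abbrev SL (N : ℕ) := MvPolynomial (Fin N ⊕ Fin N) ℂ

open Classical in
noncomputable def pw (N : ℕ) (w : W n) : SL N := ∏ C ∈ cycles w,
    if Even (C.filter fun j => (w.1 (j, 1)).2 = -1).card then
      rename Sum.inl (psum (Fin N) ℂ C.card) + rename Sum.inr (psum (Fin N) ℂ C.card)
    else rename Sum.inl (psum (Fin N) ℂ C.card) - rename Sum.inr (psum (Fin N) ℂ C.card)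

noncomputable def xa {N : ℕ} (a : ℤˣ × Fin N) : SL N :=
  X (if a.1 = 1 then Sum.inl a.2 else Sum.inr a.2)

theorem ab_pow (w : W n) (k : ℕ) : ab (w ^ k) = ab w ^ k := by
  induction k with
  | zero => rfl
  | succ k ih => rw [pow_succ, pow_succ, ab_mul, ih]

theorem prod_sign (C : Finset (Fin n)) (ε : Fin n → ℤˣ) :
    ∏ j ∈ C, (ε j : ℤ) = (-1) ^ (C.filter fun j => ε j = -1).card := by
  rw [← prod_const, prod_filter]
  refine prod_congr rfl fun j _ => ?_
  rcases Int.units_eq_one_or (ε j) with e | e <;> simp [e]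

theorem pw_eq (N : ℕ) (w : W n) : pw N w = ∑ g : Fin n → ℤˣ × Fin N, if g ∘ ab w = g then
    ∏ v, (if (g v).1 = 1 then 1 else (sg w v : ℤ)) • xa (g v) else 0 := by
  classical
  let cls : Fin n → Finset (Fin n) := fun i => univ.filter fun j => ∃ k : ℕ, ((w ^ k).1 (i, 1)).1 = j
  have h1 : ∀ i j, j ∈ cls i ↔ (ab w).SameCycle i j := by
    intro i j
    simp only [cls, mem_filter, mem_univ, true_and]
    constructor
    · rintro ⟨k, rfl⟩
      exact ⟨k, by rw [zpow_natCast, ← ab_pow]; rfl⟩
    · intro h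
      obtain ⟨k, -, hk⟩ := h.exists_pow_eq'
      exact ⟨k, by rw [← hk, ← ab_pow]; rfl⟩
  have h2 : ∀ i j, cls i = cls j ↔ (ab w).SameCycle i j := by
    intro i j
    constructor
    · intro h
      rw [← h1, h, h1]
    · intro h
      ext t
      rw [h1, h1]
      exact ⟨fun a => h.symm.trans a, fun a => h.trans a⟩
  let cl : Fin n → {C // C ∈ cycles w} := fun i => ⟨cls i, mem_image_of_mem _ (mem_univ i)⟩
  have hcl : Function.Surjective cl := by
    rintro ⟨C, hC⟩
    obtain ⟨i, -, rfl⟩ := mem_image.1 hC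
    exact ⟨i, rfl⟩
  have key := prod_sum_fiber cl hcl
    fun v (a : ℤˣ × Fin N) => (if a.1 = 1 then 1 else (sg w v : ℤ)) • xa a
  rw [pw, ← prod_coe_sort]
  refine Eq.trans (prod_congr rfl fun C _ => ?_)
    (key.trans (sum_congr (by congr; exact Subsingleton.elim _ _) fun g _ => ?_))
  · have e : (univ.filter fun j => cl j = C) = C.1 := by
      obtain ⟨i, rfl⟩ := hcl C
      ext j
      simp only [mem_filter, mem_univ, true_and, cl, Subtype.mk.injEq, h1, h2]
      exact Equiv.Perm.sameCycle_comm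
    have e2 : ∀ a : ℤˣ × Fin N, ∏ j with cl j = C, (if a.1 = 1 then 1 else (sg w j : ℤ)) • xa a =
        (∏ j ∈ C.1, if a.1 = 1 then 1 else (sg w j : ℤ)) • xa a ^ C.1.card := by
      intro a
      rw [← prod_const, ← prod_smul, ← e]
    have e3 : ¬ ((-1 : ℤˣ) = 1) := by decide
    rw [sum_congr rfl fun a _ => e2 a, Fintype.sum_prod_type, sum_units]
    simp only [if_true, e3, if_false, prod_const_one, one_smul, prod_sign, xa, psum, map_sum,
      map_pow, rename_X, ← smul_sum]
    change (if Even (C.1.filter fun j => sg w j = -1).card then _ else _) = _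
    split_ifs with h
    · rw [h.neg_one_pow, one_smul]
    · rw [(Nat.not_even_iff_odd.1 h).neg_one_pow, neg_smul, one_smul, sub_eq_add_neg]
  · have : g ∘ ab w = g ↔ ∀ i j, cl i = cl j → g i = g j := by
      refine ⟨fun h i j e => ?_, fun h => _root_.funext fun i => ?_⟩
      · obtain ⟨k, -, rfl⟩ := ((h2 i j).1 (congrArg Subtype.val e)).exists_pow_eq'
        clear e
        induction k with
        | zero => rfl
        | succ k ih => rw [pow_succ', Equiv.Perm.mul_apply, ih]; exact (congrFun h _).symm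
      · refine h _ _ (Subtype.ext ((h2 _ _).2 ?_))
        exact ⟨-1, by simp⟩
    exact ifc this.symm rfl rfl

section
variable {B : Type} [DecidableEq B] {T : Type} [CommRing T] {N : ℕ}

open Classical in
noncomputable def om (lp : B → Prop) (q : T) (x : ℤˣ × Fin N → T) (b : B) (a : ℤˣ × Fin N) : T :=
  if lp b then (if a.1 = 1 then x (1, a.2) else q * x (1, a.2)) else x a

omit [DecidableEq B] in
open Classical in
theorem inner_sum (lp : B → Prop) (q : T) (x : ℤˣ × Fin N → T) (π : Equiv.Perm (Fin n))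
    (β : Fin n → B) (hβ : ∀ v, β (π v) = β v) :
    ∑ ε : Fin n → ℤˣ, ∑ g : Fin n → ℤˣ × Fin N, ∑ η : Fin n → ℤˣ,
      (if g ∘ π = g then ∏ v, (if (g v).1 = 1 then 1 else (ε v : ℤ)) • x (g v) else 0) *
      (if ∀ v, η (π v) = if lp (β v) then η v else ε v * η v then
        q ^ (∑ v, if lp (β v) ∧ η v ≠ 1 then 1 else 0) else 0) =
    2 ^ n * ∑ g : Fin n → ℤˣ × Fin N, if g ∘ π = g then ∏ v, om lp q x (β v) (g v) else 0 := by
  let Φ : (Fin n → ℤˣ × Fin N) × (Fin n → ℤˣ) → (Fin n → ℤˣ × Fin N) × (Fin n → ℤˣ) := fun p =>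
    (fun v => (if lp (β v) then p.2 v else (p.1 v).1, (p.1 v).2),
      fun v => if lp (β v) then (p.1 v).1 else p.2 v)
  have hΦ : Function.Involutive Φ := by
    rintro ⟨g, η⟩
    refine Prod.ext (_root_.funext fun v => ?_) (_root_.funext fun v => ?_) <;>
      by_cases h : lp (β v) <;> simp [Φ, h]
  have e2 : (2 : T) ^ n = ∑ η : Fin n → ℤˣ,
      ∏ v, if lp (β v) then (if η v = 1 then 2 else 0) else 1 := by
    rw [← Fintype.piFinset_univ, ← prod_univ_sum (fun _ => univ)
      fun v (e : ℤˣ) => if lp (β v) then (if e = 1 then (2 : T) else 0) else 1]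
    rw [prod_congr rfl (g := fun _ => 2), prod_const, card_univ, Fintype.card_fin]
    intro v _
    rw [sum_units]
    by_cases h : lp (β v) <;> simp [h, one_add_one_eq_two]
  conv_rhs => rw [e2, mul_comm, sum_mul_sum, ← Fintype.sum_prod_type',
    ← Equiv.sum_comp hΦ.toPerm, Fintype.sum_prod_type]
  rw [sum_comm]
  refine sum_congr rfl fun g _ => ?_
  rw [sum_comm]
  refine sum_congr rfl fun η _ => ?_
  simp only [Function.Involutive.coe_toPerm, Φ]
  have e3 : ∀ ε : Fin n → ℤˣ, (∏ v, (if (g v).1 = 1 then 1 else (ε v : ℤ)) • x (g v)) *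
      (if ∀ v, η (π v) = if lp (β v) then η v else ε v * η v then
        q ^ (∑ v, if lp (β v) ∧ η v ≠ 1 then 1 else 0) else 0) =
      ∏ v, ((if (g v).1 = 1 then 1 else (ε v : ℤ)) • x (g v) *
        if η (π v) = if lp (β v) then η v else ε v * η v then
          q ^ (if lp (β v) ∧ η v ≠ 1 then 1 else 0) else 0) := by
    intro ε
    rw [prod_mul_distrib, Fintype.prod_ite_zero, prod_pow_eq_pow_sum]
    congr
  have e4 : ∑ ε : Fin n → ℤˣ, ∏ v, ((if (g v).1 = 1 then 1 else (ε v : ℤ)) • x (g v) *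
        if η (π v) = if lp (β v) then η v else ε v * η v then
          q ^ (if lp (β v) ∧ η v ≠ 1 then 1 else 0) else 0) =
      ∏ v, ((((if ¬ lp (β v) ∧ (g v).1 ≠ 1 then η (π v) else 1) *
          (if ¬ lp (β v) ∧ (g v).1 ≠ 1 then η v else 1) : ℤˣ) : ℤ) : T) *
        ((if lp (β v) → η (π v) = η v then
          om lp q x (β v) (if lp (β v) then η v else (g v).1, (g v).2) else 0) *
        (if lp (β v) then (if (if lp (β v) then (g v).1 else η v) = 1 then 2 else 0) else 1)) := by
    rw [← Fintype.piFinset_univ, ← prod_univ_sum (fun _ => univ) fun v (e : ℤˣ) =>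
      ((if (g v).1 = 1 then 1 else (e : ℤ)) • x (g v) *
        if η (π v) = if lp (β v) then η v else e * η v then
          q ^ (if lp (β v) ∧ η v ≠ 1 then 1 else 0) else 0)]
    refine prod_congr rfl fun v _ => ?_
    rw [sum_units]
    generalize g v = a, η (π v) = e1, η v = e2
    obtain ⟨s, i⟩ := a
    by_cases h : lp (β v) <;> rcases Int.units_eq_one_or s with rfl | rfl <;>
      rcases Int.units_eq_one_or e1 with rfl | rfl <;>
      rcases Int.units_eq_one_or e2 with rfl | rfl <;> simp [h, om] <;> ring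
  by_cases hg : g ∘ π = g
  · simp only [if_pos hg, e3]
    have hg' : ∀ v, g (π v) = g v := congrFun hg
    rw [e4, prod_mul_distrib, prod_mul_distrib, ← Int.cast_prod, ← Units.coe_prod,
      prod_mul_distrib]
    have e5 : ∏ v, (if ¬ lp (β v) ∧ (g v).1 ≠ 1 then η (π v) else 1) =
        ∏ v, (if ¬ lp (β v) ∧ (g v).1 ≠ 1 then η v else 1) := by
      rw [← Equiv.prod_comp π fun v => (if ¬ lp (β v) ∧ (g v).1 ≠ 1 then η v else 1)]
      simp only [hβ, hg']
    rw [e5, Int.units_mul_self, Units.val_one, Int.cast_one, one_mul, Fintype.prod_ite_zero]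
    congr 1
    refine ifc ⟨fun h => _root_.funext fun v => ?_, fun h v hv => ?_⟩ rfl rfl
    · simp only [Function.comp_apply, hβ, hg']
      by_cases l : lp (β v)
      · simp [l, h v l]
      · simp [l]
    · have := congrArg Prod.fst (congrFun h v)
      simpa [hβ, hv] using this
  · simp only [if_neg hg, zero_mul, sum_const_zero]
    by_cases hs : ∀ v, lp (β v) → (g v).1 = 1
    · rw [if_neg, zero_mul]
      intro h
      refine hg (_root_.funext fun v => ?_)
      have := congrFun h v
      simp only [Function.comp_apply, hβ, Prod.mk.injEq] at this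
      refine Prod.ext ?_ this.2
      by_cases l : lp (β v)
      · rw [hs v l]; exact hs _ (by rw [hβ]; exact l)
      · simpa [l] using this.1
    · push Not at hs
      obtain ⟨v, l, hv⟩ := hs
      exact (mul_eq_zero_of_right _ (prod_eq_zero (mem_univ v) (by simp [l, hv]))).symm

omit [DecidableEq B] in
theorem tau_eq_iff {blk : Fin n → B} (lp : B → Prop) [DecidablePred lp] (u : W n) (θ : Th blk) :
    tau lp u θ = θ ↔ (∀ v, θ.1.1 (ab u v) = θ.1.1 v) ∧
      ∀ v, θ.2 (ab u v) = if lp (θ.1.1 v) then θ.2 v else sg u v * θ.2 v := by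
  have e1 : ∀ v, ab u⁻¹ (ab u v) = v := fun v => by rw [ab_inv]; simp
  rw [Prod.ext_iff, Subtype.ext_iff, funext_iff, funext_iff, ← (ab u).forall_congr_right,
    ← (ab u).forall_congr_right (q := fun v => (tau lp u θ).2 v = θ.2 v)]
  simp only [tau, Function.comp_apply, e1, sg_inv]
  refine and_congr (forall_congr' fun v => eq_comm) (forall_congr' fun v => ?_)
  by_cases h : lp (θ.1.1 v) <;> simp only [h, if_true, if_false] <;> exact eq_comm

variable [Fintype B]

open Classical in
theorem frob_sum (blk : Fin n → B) (lp : B → Prop) (q : T) (φ : SL N →+* T) :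
    ∑ u : W n, φ (pw N u) * ∑ θ : Th blk, (if tau lp u θ = θ then q ^ dg lp θ else 0) =
      (2 ^ n * n.factorial : T) * ∏ b, hh (om lp q (fun a => φ (xa a)) b) (cnt blk b) := by
  rw [mul_assoc, ← orbit_blocks blk fun p => om lp q (fun a => φ (xa a)) p.1 p.2,
    ← Equiv.sum_comp eW.symm, Fintype.sum_prod_type, sum_comm (γ := Fin n → B × ℤˣ × Fin N),
    mul_sum]
  refine sum_congr rfl fun π _ => ?_
  rw [← Equiv.sum_comp (Equiv.arrowProdEquivProdArrow _ _ _).symm, Fintype.sum_prod_type, mul_sum,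
    ← Fintype.sum_subtype_add_sum_subtype fun β : Fin n → B => ∃ σ : Equiv.Perm (Fin n),
      β = blk ∘ σ, sum_eq_zero (s := univ) (f := fun i : {i // ¬ _} => _), add_zero]
  · simp only [Fintype.sum_prod_type, mul_sum (s := univ (α := {β : Fin n → B // _}))]
    rw [sum_comm]
    refine sum_congr rfl fun β _ => ?_
    have hc : cnt β.1 = cnt blk := cnt_eq_iff.2 β.2
    have e : ∀ g : Fin n → ℤˣ × Fin N, ((Equiv.arrowProdEquivProdArrow _ _ _).symm (β.1, g) :
        Fin n → B × ℤˣ × Fin N) = fun v => (β.1 v, g v) := fun _ => rfl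
    simp only [e, hc, and_true, tau_eq_iff, pw_eq, map_sum, apply_ite φ, map_prod, map_zsmul,
      map_zero, sum_mul_sum, eW, Equiv.coe_fn_symm_mk, sg_mkW, ab_mkW]
    by_cases hβ : ∀ v, β.1 (π v) = β.1 v
    · refine Eq.trans ?_ ((inner_sum lp q (fun a => φ (xa a)) π β.1 hβ).trans ?_)
      · refine sum_congr rfl fun ε _ => sum_congr rfl fun g _ => sum_congr rfl fun η _ => ?_
        congr 1
        exact ifc (and_iff_right hβ) rfl rfl
      · congr 1
        refine sum_congr rfl fun g _ => ifc ?_ rfl rfl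
        simp only [_root_.funext_iff, Function.comp_apply, Prod.mk.injEq, hβ, true_and]
    · rw [sum_eq_zero, sum_eq_zero, mul_zero]
      · intro g _
        exact if_neg fun h => hβ fun v => congrArg Prod.fst (congrFun h v)
      · intro ε _
        refine sum_eq_zero fun g _ => sum_eq_zero fun η _ => ?_
        rw [if_neg (c := _ ∧ _) fun h => hβ h.1, mul_zero]
  · intro β _
    rw [sum_eq_zero, mul_zero]
    intro g _
    exact if_neg fun h => β.2 (cnt_eq_iff.1 h.2)

end

end Pool.Agent.Lib.MP_33bfb2_co
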