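import Pool.Agent.Lib.MP_33bfb2_co.Transfer

namespace Pool.Agent.Lib.MP_33bfb2_co

open Finset MvPolynomial

set_option maxHeartbeats 400000

variable {n : ℕ}

theorem pos_bd {i : Fin n} {b : V n} (h : i < b.1) : (i : ℕ) + 1 < pos b ∧ pos b + i + 1 ≤ 2 * n := by
  obtain ⟨j, u⟩ := b
  have := j.2
  have : (i : ℕ) < j := h
  rcases Int.units_eq_one_or u with rfl | rfl <;> simp only [pos_p, pos_m] <;> omega

theorem exists_h (E : Finset (Rt n)) (hE : ∀ γ ∈ E, can γ)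
    (hD : ∀ i b b', i < b.1 → i < b'.1 → pos b' ≤ pos b → (i, b) ∈ E → (i, b') ∈ E)
    (hU : ∀ i k b, i < k → k < b.1 → (i, b) ∈ E → (k, b) ∈ E)
    (hL : ∀ i k, i ≤ k → (i, (i, -1)) ∈ E → (k, (k, -1)) ∈ E)
    (hA : ∀ i k, i < k → (k, (k, -1)) ∉ E → (i, (k, 1)) ∈ E) :
    ∃ h, valid n h ∧ TT n h = E := by
  obtain ⟨h, h0, h1⟩ : ∃ h : ℕ → ℕ,
      (∀ m, h 0 ≤ m ↔ ∀ k : Fin n, (k, (k, -1)) ∉ E → (k : ℕ) + 1 ≤ m) ∧
      ∀ (i : Fin n) m, h (i + 1) ≤ m ↔
        (i : ℕ) + 1 ≤ m ∧ ∀ b : V n, i < b.1 → (i, b) ∈ E → pos b ≤ m := by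
    refine ⟨fun t => if t = 0 then (univ.filter fun k : Fin n => (k, (k, -1)) ∉ E).sup
      fun k => (k : ℕ) + 1 else t ⊔ (E.filter fun γ => (γ.1 : ℕ) + 1 = t ∧ γ.1 < γ.2.1).sup
        fun γ => pos γ.2, fun m => by simp, fun i m => ?_⟩
    simp only [Nat.succ_ne_zero, if_false, sup_le_iff, Finset.sup_le_iff, mem_filter]
    refine and_congr_right fun _ => ⟨fun e b h1 h2 => e (i, b) ⟨h2, rfl, h1⟩, ?_⟩
    rintro e ⟨k, b⟩ ⟨h1, h2, h3⟩
    obtain rfl : k = i := Fin.ext (by simpa using h2)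
    exact e b h3 h1
  have l1 : ∀ i : Fin n, (i : ℕ) + 1 ≤ h (i + 1) := fun i => ((h1 i _).1 le_rfl).1
  have l2 : ∀ (i : Fin n) b, i < b.1 → (i, b) ∈ E → pos b ≤ h (i + 1) :=
    fun i => ((h1 i _).1 le_rfl).2
  have l3 : h 0 ≤ n := (h0 _).2 fun k _ => k.2
  refine ⟨h, ⟨l3, fun i hi => ?_, fun i hi => ?_⟩, ?_⟩
  · rcases i with _ | i
    · omega
    · have := l1 ⟨i, hi⟩
      have := (h1 ⟨i, hi⟩ (2 * n - (i + 1))).2 ⟨by dsimp only; omega, fun b hb _ => by
        have := pos_bd hb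
        dsimp only at this; omega⟩
      dsimp only at *; omega
  · rcases i with _ | i
    · refine Or.inl ((h0 _).2 fun k hk => ?_)
      have a1 := l1 ⟨0, hi⟩
      by_cases e : (k : ℕ) = 0
      · rw [e]; exact a1
      · have := l2 ⟨0, hi⟩ (k, 1) (Nat.pos_of_ne_zero e) (hA _ _ (Nat.pos_of_ne_zero e) hk)
        rwa [pos_p] at this
    · by_contra hc
      push Not at hc
      have a1 := l1 ⟨i + 1, hi⟩
      refine absurd ((h1 ⟨i, by omega⟩ (h (i + 1 + 1))).2 ⟨by dsimp only at *; omega, ?_⟩)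
        (not_le.2 hc.1)
      rintro ⟨j, u⟩ hb hb'
      by_cases e : i + 1 < j
      · exact l2 ⟨i + 1, hi⟩ (j, u) e (hU _ _ _ (by simp) e hb')
      have e' : (j : ℕ) = i + 1 := by have : i < j := hb; omega
      rcases Int.units_eq_one_or u with rfl | rfl
      · rw [pos_p, e']; exact a1
      · exfalso
        dsimp only at a1
        have a2 : i + 2 < n := by omega
        have := l2 ⟨i + 1, hi⟩ (⟨i + 2, a2⟩, -1) (by simp) (hU ⟨i, by omega⟩ _ _ (by simp) (by simp)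
          (hD _ _ _ hb (by simp) (by simp only [pos_m]; omega) hb'))
        simp only [pos_m] at this
        omega
  · ext ⟨i, b⟩
    rw [mem_TT]
    constructor
    · rintro (⟨a1, a2⟩ | ⟨a1, a2⟩)
      · by_contra hc
        have := pos_bd a1
        have := (h1 i (pos b - 1)).2 ⟨by dsimp only at *; omega, fun b' a3 a4 => by
          by_contra a5
          exact hc (hD i b' b a3 a1 (by omega) a4)⟩
        dsimp only at *; omega
      · dsimp only at a1 a2
        subst a1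
        by_contra hc
        have := (h0 _).1 a2 i hc
        omega
    · intro hm
      rcases hE _ hm with a1 | a1
      · exact Or.inl ⟨a1, l2 i b a1 hm⟩
      · refine Or.inr ⟨a1, (h0 _).2 fun k hk => ?_⟩
        by_contra hc
        simp only [isLoop] at a1
        subst a1
        exact hk (hL i k (by dsimp only at hc; exact Fin.le_def.2 (by omega)) hm)

def rv (c : ℤ) (γ : Rt n) : Fin n → ℤ :=
  if γ.2.1 = γ.1 then Pi.single γ.1 c else Pi.single γ.1 1 - Pi.single γ.2.1 (γ.2.2 : ℤ)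

theorem rv_loop (c : ℤ) (i : Fin n) (u : ℤˣ) : rv c (i, (i, u)) = Pi.single i c := by simp [rv]

theorem rv_p (c : ℤ) {i j : Fin n} (h : i < j) :
    rv c (i, (j, 1)) = Pi.single i 1 - Pi.single j 1 := by simp [rv, h.ne']

theorem rv_m (c : ℤ) {i j : Fin n} (h : i < j) :
    rv c (i, (j, -1)) = Pi.single i 1 + Pi.single j 1 := by simp [rv, h.ne', Pi.single_neg]

theorem exists_rv {c : ℤ} {a : Fin n → ℤ} (h : a ∈ posRoots n c) : ∃ γ, can γ ∧ rv c γ = a := by
  rcases h with ⟨i, j, hij, rfl | rfl⟩ | ⟨i, rfl⟩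
  · exact ⟨(i, (j, 1)), Or.inl hij, rv_p c hij⟩
  · exact ⟨(i, (j, -1)), Or.inl hij, rv_m c hij⟩
  · exact ⟨(i, (i, -1)), Or.inr rfl, rv_loop c i _⟩

theorem lin_single (i : Fin n) (c : ℤ) : lin (Pi.single i c) = c • X i := by
  rw [lin, sum_eq_single i]
  · simp
  · intro b _ hb; simp [hb]
  · simp

theorem lin_sub (a b : Fin n → ℤ) : lin (a - b) = lin a - lin b := by
  simp only [lin, Pi.sub_apply, sub_smul, sum_sub_distrib]

theorem isRefl_uniq {a : Fin n → ℤ} (ha : ∑ j, a j ^ 2 ≠ 0) {s s' : W n} (h : IsRefl a s)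
    (h' : IsRefl a s') : s = s' := by
  have e : ∀ i, s.1 (i, 1) = s'.1 (i, 1) := fun i => by
    have := (h i).trans (h' i).symm
    rw [act_X, act_X] at this
    exact xv_inj (sub_right_injective (smul_right_injective _ ha this))
  refine W_ext fun ⟨i, u⟩ => ?_
  rcases Int.units_eq_one_or u with rfl | rfl
  · exact e i
  · exact (W_ng s (i, 1)).trans ((congrArg ng (e i)).trans (W_ng s' (i, 1)).symm)

theorem sq_loop (i : Fin n) (c : ℤ) : ∑ j, (Pi.single i c : Fin n → ℤ) j ^ 2 = c ^ 2 := by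
  rw [sum_eq_single i]
  · simp
  · intro b _ hb; simp [hb]
  · simp

theorem sq_pair {i j : Fin n} (h : i ≠ j) (u : ℤˣ) :
    ∑ k, (Pi.single i 1 - Pi.single j (u : ℤ) : Fin n → ℤ) k ^ 2 = 2 := by
  rw [sum_eq_add i j h]
  · rcases Int.units_eq_one_or u with rfl | rfl <;> simp [h, h.symm]
  · intro b _ hb; simp [hb.1, hb.2]
  · simp
  · simp

theorem refl_rv {c : ℤ} (hc : c ≠ 0) {γ : Rt n} (h : can γ) :
    (∀ s, IsRefl (rv c γ) s ↔ s = rf (γ.1, 1) γ.2) ∧ ∀ (w : W n) f,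
      act w (lin (rv c γ)) ∣ f ↔ xv (w.1 (γ.1, 1)) - xv (w.1 γ.2) ∣ f := by
  obtain ⟨i, j, u⟩ := γ
  rcases h with h | h
  · have hne : i ≠ j := h.ne
    have e : rv c (i, (j, u)) = Pi.single i 1 - Pi.single j (u : ℤ) := if_neg hne.symm
    have el : lin (rv c (i, (j, u))) = xv (i, 1) - xv (j, u) := by
      rw [e, lin_sub, lin_single, lin_single]; rfl
    have r : IsRefl (rv c (i, (j, u))) (rf (i, 1) (j, u)) := by
      intro k
      rw [el, e, sq_pair hne, act_X, rf_apply]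
      by_cases a1 : k = i
      · subst a1
        simp [rfun, hne, xv]
      by_cases a2 : k = j
      · subst a2
        rcases Int.units_eq_one_or u with rfl | rfl <;> simp [rfun, a1, xv, ng] <;> ring
      · simp [rfun, a1, a2, xv, ng]
    refine ⟨fun s => ⟨fun hs => isRefl_uniq (by rw [e, sq_pair hne]; simp) hs r, fun hs => hs ▸ r⟩,
      fun w f => by rw [el, map_sub, act_xv', act_xv']⟩
  · simp only [isLoop, Prod.mk.injEq] at h
    obtain ⟨rfl, rfl⟩ := h
    have r : IsRefl (rv c (j, (j, -1))) (rf (j, 1) (j, -1)) := by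
      intro k
      rw [rv_loop, sq_loop, lin_single, act_X, rf_flip]
      by_cases a1 : k = j
      · subst a1
        simp [xv, ng]; ring
      · simp [a1, xv]
    refine ⟨fun s => ⟨fun hs => isRefl_uniq (by rw [rv_loop, sq_loop]; simpa using hc) hs r,
      fun hs => hs ▸ r⟩, fun w f => ?_⟩
    have e1 : act w (lin (rv c (j, (j, -1)))) = C (c : ℂ) * xv (w.1 (j, 1)) := by
      rw [rv_loop, lin_single, map_zsmul, act_X]; simp
    have e2 : xv (w.1 (j, 1)) - xv (w.1 (j, -1)) = C (2 : ℂ) * xv (w.1 (j, 1)) := by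
      rw [show ((j, -1) : V n) = ng (j, 1) from rfl, W_ng, xv_ng, show (C 2 : P n) = 2 from rfl]
      ring
    rw [e1, e2, IsUnit.mul_left_dvd ((IsUnit.mk0 _ (Int.cast_ne_zero.2 hc)).map C),
      IsUnit.mul_left_dvd ((IsUnit.mk0 _ (two_ne_zero' ℂ)).map C)]

theorem spl_eq {c : ℤ} (hc : c ≠ 0) {H : Set (Fin n → ℤ)} (hH : H ⊆ posRoots n c)
    {E : Finset (Rt n)} (hE : ∀ γ, γ ∈ E ↔ can γ ∧ rv c γ ∈ H) : spl H = SR (RT E) := by
  ext ρ
  rw [mem_SR_RT]
  constructor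
  · intro h γ hγ w
    obtain ⟨a1, a2⟩ := (hE γ).1 hγ
    exact ((refl_rv hc a1).2 w _).1 (h _ a2 _ (((refl_rv hc a1).1 _).2 rfl) w)
  · intro h a ha s hs w
    obtain ⟨γ, a1, rfl⟩ := exists_rv (hH ha)
    rw [((refl_rv hc a1).1 _).1 hs]
    exact ((refl_rv hc a1).2 w _).2 (h γ ((hE γ).2 ⟨a1, ha⟩) w)

theorem main (hn : 1 ≤ n) {c : ℤ} (hc : c = 1 ∨ c = 2) {H : Set (Fin n → ℤ)}
    (hH : H ⊆ posRoots n c)
    (hd : ∀ β ∈ posRoots n c, ∀ γ ∈ posRoots n c, β + γ ∈ H → β ∈ H)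
    (ha : ∀ i j : Fin n, i < j → Pi.single i 1 - Pi.single j 1 ∉ H →
      ∀ β ∈ posRoots n c, β ∉ H → Pi.single i 1 - Pi.single j 1 + β ∉ posRoots n c) (d : ℕ) :
    HPos n fun N => frob N (dotChar H d) := by
  classical
  obtain ⟨E, hE⟩ : ∃ E : Finset (Rt n), ∀ γ, γ ∈ E ↔ can γ ∧ rv c γ ∈ H :=
    ⟨univ.filter fun γ => can γ ∧ rv c γ ∈ H, by simp⟩
  obtain ⟨e, he⟩ : ∃ e : Fin n → Fin n → ℤ, ∀ i, Pi.single i 1 = e i := ⟨_, fun _ => rfl⟩
  obtain ⟨l, hl⟩ : ∃ l : Fin n → Fin n → ℤ, ∀ i, Pi.single i c = l i := ⟨_, fun _ => rfl⟩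
  have pm : ∀ i j, i < j → e i - e j ∈ posRoots n c := fun i j h =>
    Or.inl ⟨i, j, h, Or.inl (by rw [he, he])⟩
  have pp : ∀ i j, i ≠ j → e i + e j ∈ posRoots n c := fun i j h => by
    rcases lt_or_gt_of_ne h with h | h
    · exact Or.inl ⟨i, j, h, Or.inr (by rw [he, he])⟩
    · exact Or.inl ⟨j, i, h, Or.inr (by rw [he, he, add_comm])⟩
  have pl : ∀ i, l i ∈ posRoots n c := fun i => Or.inr ⟨i, (hl i).symm⟩
  have hl' : (∀ i, l i = e i) ∨ ∀ i, l i = e i + e i := by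
    refine hc.imp (fun a i => by rw [← hl, a, he]) fun a i => ?_
    rw [← hl, a, ← he, ← Pi.single_add]; rfl
  have mp : ∀ i j, i < j → ((i, (j, 1)) ∈ E ↔ e i - e j ∈ H) := fun i j h => by
    rw [hE, rv_p c h, he, he]; exact and_iff_right (Or.inl h)
  have mm : ∀ i j, i < j → ((i, (j, -1)) ∈ E ↔ e i + e j ∈ H) := fun i j h => by
    rw [hE, rv_m c h, he, he]; exact and_iff_right (Or.inl h)
  have ml : ∀ i, (i, (i, -1)) ∈ E ↔ l i ∈ H := fun i => by
    rw [hE, rv_loop, hl]; exact and_iff_right (Or.inr rfl)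
  simp only [he] at ha
  have hd' : ∀ {a β γ}, a ∈ H → β ∈ posRoots n c → γ ∈ posRoots n c → a = β + γ → β ∈ H :=
    fun h1 h2 h3 h4 => hd _ h2 _ h3 (h4 ▸ h1)
  have ha' : ∀ {i j β a}, i < j → e i - e j ∉ H → β ∈ posRoots n c → β ∉ H → a ∈ posRoots n c →
      a = e i - e j + β → False := fun h1 h2 h3 h4 h5 h6 => ha _ _ h1 h2 _ h3 h4 (h6 ▸ h5)
  obtain ⟨h, hv, rfl⟩ : ∃ h, valid n h ∧ TT n h = E := by
    refine exists_h E (fun γ h => ((hE γ).1 h).1) ?_ ?_ ?_ ?_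
    · rintro i ⟨j, u⟩ ⟨k, u'⟩ h1 h2 h3 h4
      have := j.2
      have := k.2
      by_cases e0 : ((k, u') : V n) = (j, u)
      · rw [e0]; exact h4
      have h5 : pos ((k, u') : V n) < pos ((j, u) : V n) := h3.lt_of_ne fun a => e0 (pos_inj a)
      rcases Int.units_eq_one_or u with rfl | rfl <;> rcases Int.units_eq_one_or u' with rfl | rfl <;>
        simp only [pos_p, pos_m] at h5 h1 h2 <;> simp only [mp _ _ h1, mp _ _ h2, mm _ _ h1, mm _ _ h2] at h4 ⊢
      · exact hd' h4 (pm _ _ h2) (pm k j (by omega)) (by abel)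
      · omega
      · by_cases a : k = j
        · subst a
          rcases hl' with b | b
          · exact hd' (hd' h4 (pl i) (pl k) (by rw [b, b])) (pm _ _ h1) (pl k) (by rw [b, b]; abel)
          · exact hd' h4 (pm _ _ h1) (pl k) (by rw [b]; abel)
        · exact hd' h4 (pm _ _ h2) (pp _ _ a) (by abel)
      · exact hd' h4 (pp _ _ h2.ne) (pm j k (by omega)) (by abel)
    · rintro i k ⟨j, u⟩ h1 h2 h3
      dsimp only at h2
      rcases Int.units_eq_one_or u with rfl | rfl <;>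
        simp only [mp _ _ (h1.trans h2), mp _ _ h2, mm _ _ (h1.trans h2), mm _ _ h2] at h3 ⊢
      · exact hd' h3 (pm _ _ h2) (pm _ _ h1) (by abel)
      · exact hd' h3 (pp _ _ h2.ne) (pm _ _ h1) (by abel)
    · intro i k h1 h2
      rcases h1.eq_or_lt with rfl | h1
      · exact h2
      rw [ml] at h2 ⊢
      rcases hl' with b | b
      · exact hd' h2 (pl k) (pm _ _ h1) (by rw [b, b]; abel)
      · exact hd' (hd' h2 (pp _ _ h1.ne) (pm _ _ h1) (by rw [b]; abel)) (pl k) (pm _ _ h1)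
          (by rw [b]; abel)
    · intro i k h1 h2
      rw [ml] at h2
      rw [mp _ _ h1]
      by_contra h3
      rcases hl' with b | b
      · exact ha' h1 h3 (pl k) h2 (pl i) (by rw [b, b]; abel)
      · exact ha' h1 h3 (pl k) h2 (pp _ _ h1.ne) (by rw [b]; abel)
  suffices h3 : ∀ a b c, adj (TT n h) a b ∨ adj (TT n h) a c ∨ adj (TT n h) b c by
    have := LL_hpos hn hv h3 d
    simp only [LL, coeff_FL, ← spl_eq (by omega) hH hE, ← dotChar_eq] at this
    exact this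
  have key : ∀ a b c : V n, pos a < pos b → pos b < pos c → ¬ adj (TT n h) a b →
      ¬ adj (TT n h) b c → adj (TT n h) a c := by
    rintro ⟨i, u⟩ ⟨j, u'⟩ ⟨k, u''⟩ h1 h2 h3 h4
    refine Or.inl (by_contra fun h5 => ?_)
    simp only [adj, tadj_iff fun _ => can_TT, not_or, not_and] at h3 h4
    have h6 := h3.2 h3.1
    have h7 := h4.2 h4.1
    have h8 := h3.1
    have h9 := h4.1
    have := i.2
    have := j.2
    have := k.2
    have sw : ∀ s t, s ≠ t → rt s t (-1) ∉ TT n h → e s + e t ∉ H := fun s t a1 a2 a3 => by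
      unfold rt at a2
      split_ifs at a2 with a4
      · exact a2 ((mm _ _ a4).2 a3)
      · exact a2 ((mm _ _ (by omega)).2 (add_comm (e s) _ ▸ a3))
    rcases Int.units_eq_one_or u with rfl | rfl <;> rcases Int.units_eq_one_or u' with rfl | rfl <;>
      rcases Int.units_eq_one_or u'' with rfl | rfl <;>
      simp only [pos_p, pos_m, mul_one, mul_neg, neg_neg] at h1 h2 h5 h6 h7 h8 h9 <;>
      try omega
    · have b1 : i < j := by omega
      have b2 : j < k := by omega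
      rw [rt, if_pos b1, mp _ _ b1] at h6
      rw [rt, if_pos b2, mp _ _ b2] at h7
      exact ha' b1 h6 (pm _ _ b2) h7 (pm _ _ (b1.trans b2)) (by abel)
    · have b1 : i < j := by omega
      rw [rt, if_pos b1, mp _ _ b1] at h6
      exact ha' b1 h6 (pp _ _ h9) (sw _ _ h9 h7) (pp _ _ h5) (by abel)
    · have b2 : k < j := by omega
      rw [rt, if_neg b2.not_gt, mp _ _ b2] at h7
      exact ha' b2 h7 (pp _ _ h8) (sw _ _ h8 h6) (pp _ _ h5) (by abel)
    · have b1 : j < i := by omega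
      have b2 : k < j := by omega
      rw [rt, if_neg b1.not_gt, mp _ _ b1] at h6
      rw [rt, if_neg b2.not_gt, mp _ _ b2] at h7
      exact ha' b2 h7 (pm _ _ b1) h6 (pm _ _ (b2.trans b1)) (by abel)
  intro a b c
  by_contra hc
  simp only [not_or] at hc
  obtain ⟨c1, c2, c3⟩ := hc
  have ne : ∀ {a b : V n}, ¬ adj (TT n h) a b → pos a < pos b ∨ pos b < pos a := fun e =>
    lt_or_gt_of_ne fun e' => e (Or.inl (congrArg Prod.fst (pos_inj e')))
  have c1' := mt adj.symm c1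
  have c2' := mt adj.symm c2
  have c3' := mt adj.symm c3
  rcases ne c1 with d1 | d1 <;> rcases ne c2 with d2 | d2 <;> rcases ne c3 with d3 | d3 <;>
    first
    | omega
    | exact c2 (key _ _ _ d1 d3 c1 c3)
    | exact c1 (key _ _ _ d2 d3 c2 c3')
    | exact c3' (key _ _ _ d2 d1 c2' c1)
    | exact c3 (key _ _ _ d1 d2 c1' c2)
    | exact c1' (key _ _ _ d3 d2 c3 c2')
    | exact c2' (key _ _ _ d3 d1 c3' c1')

end Pool.Agent.Lib.MP_33bfb2_co
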