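import Pool.Agent.Lib.MP_33bfb2_co.Frob

namespace Pool.Agent.Lib.MP_33bfb2_co

open Finset

set_option maxHeartbeats 400000

theorem rank_image {α : Type} [LinearOrder α] (U : Finset α) :
    Set.InjOn (fun k => (U.filter (· < k)).card) U ∧
      U.image (fun k => (U.filter (· < k)).card) = range U.card := by
  have h1 : StrictMonoOn (fun k => (U.filter (· < k)).card) U := by
    intro a ha b _ hab
    refine card_lt_card ⟨fun t ht => ?_, fun h => ?_⟩
    · rw [mem_filter] at ht ⊢; exact ⟨ht.1, ht.2.trans hab⟩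
    · exact lt_irrefl _ (mem_filter.1 (h (mem_filter.2 ⟨ha, hab⟩))).2
  refine ⟨h1.injOn, eq_of_subset_of_card_le (fun m hm => ?_) ?_⟩
  · obtain ⟨k, hk, rfl⟩ := mem_image.1 hm
    refine mem_range.2 (card_lt_card ⟨filter_subset _ _, fun h => ?_⟩)
    exact lt_irrefl _ (mem_filter.1 (h hk)).2
  · rw [card_image_of_injOn h1.injOn, card_range]

theorem rank_prod {α M : Type} [LinearOrder α] [CommMonoid M] (U : Finset α) (f : ℕ → M) :
    ∏ k ∈ U, f (U.filter (· < k)).card = ∏ m ∈ range U.card, f m := by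
  rw [← (rank_image U).2, prod_image (rank_image U).1]

theorem rank_sum {α M : Type} [LinearOrder α] [AddCommMonoid M] (U : Finset α) (f : ℕ → M) :
    ∑ k ∈ U, f (U.filter (· < k)).card = ∑ m ∈ range U.card, f m := by
  rw [← (rank_image U).2, sum_image (rank_image U).1]

section
variable {T : Type} [CommRing T]

def qf (q : T) (k : ℕ) : T := ∏ m ∈ range k, qi q (m + 1)

open Classical in
noncomputable def BaseV {B : Type} [Fintype B] (q : T) (ξ η : ℕ → T) (lp : B → Prop) (k : B → ℕ) :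
    T :=
  ∏ b, qf q (k b) * ∑ j ∈ range (k b + 1), (if lp b then q ^ j * ξ j else η j) * ξ (k b - j)

theorem map_qi {T' : Type} [CommRing T'] (φ : T →+* T') (q : T) (j : ℕ) :
    φ (qi q j) = qi (φ q) j := by simp [qi]

theorem map_BaseV {T' : Type} [CommRing T'] (φ : T →+* T') {B : Type} [Fintype B] (q : T)
    (ξ η : ℕ → T) (lp : B → Prop) (k : B → ℕ) {ξ' η' : ℕ → T'} {m : ℕ} (hk : ∀ b, k b ≤ m)
    (h1 : ∀ j ≤ m, φ (ξ j) = ξ' j) (h2 : ∀ j ≤ m, φ (η j) = η' j) :
    φ (BaseV q ξ η lp k) = BaseV (φ q) ξ' η' lp k := by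
  simp only [BaseV, map_prod, map_mul, qf, map_qi, map_sum]
  refine prod_congr rfl fun b _ => ?_
  congr 1
  refine sum_congr rfl fun j hj => ?_
  have := mem_range.1 hj
  have := hk b
  rw [h1 _ (by omega)]
  split_ifs
  · rw [map_mul, map_pow, h1 _ (by omega)]
  · rw [h2 _ (by omega)]

variable {n : ℕ}

theorem prod_Bk {B : Type} [Fintype B] [DecidableEq B] (q : T) (blk : Fin n → B) :
    ∏ k : Fin n, qi q (Bk blk k).card = ∏ b, qf q (cnt blk b) := by
  rw [← prod_fiberwise univ blk]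
  refine prod_congr rfl fun b _ => ?_
  rw [qf, cnt, ← rank_prod _ fun m => qi q (m + 1)]
  refine prod_congr rfl fun k hk => ?_
  congr 1
  have hk' := (mem_filter.1 hk).2
  rw [← card_insert_of_notMem (a := k) (by simp)]
  congr 1
  ext j
  simp only [mem_Bk, mem_insert, mem_filter, mem_univ, true_and, hk']
  constructor
  · rintro ⟨h1, h2⟩
    exact h1.eq_or_lt.imp id fun h => ⟨h2, h⟩
  · rintro (rfl | h)
    · exact ⟨le_rfl, hk'⟩
    · exact ⟨h.2.le, h.1⟩

end

variable {n : ℕ}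

open Classical in
noncomputable def FL (N : ℕ) (χ : W n → PowerSeries ℂ) : PowerSeries (SL N) :=
  ∑ w : W n, PowerSeries.C ((1 / (2 ^ n * n.factorial) : ℂ) • pw N w) *
    PowerSeries.map (algebraMap ℂ (SL N)) (χ w)

theorem coeff_FL (N : ℕ) (χ : W n → PowerSeries ℂ) (i : ℕ) :
    PowerSeries.coeff i (FL N χ) = frob N fun w => PowerSeries.coeff i (χ w) := by
  rw [FL, map_sum, frob, smul_sum]
  refine sum_congr (by congr) fun w _ => ?_
  rw [PowerSeries.coeff_C_mul, PowerSeries.coeff_map, mul_comm, ← Algebra.smul_def, smul_comm]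
  rfl

theorem FL_mul (N : ℕ) (a : PowerSeries ℂ) (χ : W n → PowerSeries ℂ) :
    FL N (fun w => a * χ w) = PowerSeries.map (algebraMap ℂ (SL N)) a * FL N χ := by
  simp only [FL, mul_sum, map_mul]
  exact sum_congr rfl fun w _ => by ring

theorem FL_add (N : ℕ) (χ χ' : W n → PowerSeries ℂ) :
    FL N (fun w => χ w + χ' w) = FL N χ + FL N χ' := by
  simp only [FL, map_add, mul_add, sum_add_distrib]

noncomputable def LL (N : ℕ) (E : Finset (Rt n)) : PowerSeries (SL N) :=
  FL N fun w => ch (SR (RT E)) w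

theorem LL_tlaw (N : ℕ) : TLaw PowerSeries.X (LL (n := n) N) := by
  intro E α β β' σ t
  have := congrArg (FL N) (funext fun w => ch_tlaw w E α β β' σ t)
  rw [FL_add, FL_mul, FL_mul] at this
  simpa [LL] using this

noncomputable def hx (N j : ℕ) : SL N := MvPolynomial.rename Sum.inl (MvPolynomial.hsymm (Fin N) ℂ j)
noncomputable def hy (N j : ℕ) : SL N := MvPolynomial.rename Sum.inr (MvPolynomial.hsymm (Fin N) ℂ j)

theorem FL_base (N : ℕ) {B : Type} [Fintype B] [DecidableEq B] (blk : Fin n → B) (lp : B → Prop) :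
    FL N (fun w => ch (SR (Rb blk lp)) w) = BaseV PowerSeries.X (fun j => PowerSeries.C (hx N j))
      (fun j => PowerSeries.C (hy N j)) lp (cnt blk) := by
  classical
  simp only [tower, ch_Mk]
  rw [FL_mul, prod_Bk, BaseV, prod_mul_distrib]
  congr 1
  · simp [qf, map_qi]
  have := frob_sum (N := N) blk lp PowerSeries.X (PowerSeries.C (R := SL N))
  have e : ∀ w : W n, (PowerSeries.C ((1 / (2 ^ n * n.factorial) : ℂ) • pw N w) : PowerSeries _) =
      PowerSeries.C (algebraMap ℂ (SL N) (1 / (2 ^ n * n.factorial))) * PowerSeries.C (pw N w) :=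
    fun w => by rw [Algebra.smul_def, map_mul]
  simp only [FL, map_sum, apply_ite (PowerSeries.map (algebraMap ℂ (SL N))), map_pow,
    PowerSeries.map_X, map_zero, e, mul_assoc]
  rw [← mul_sum, this, ← mul_assoc]
  have e2 : (PowerSeries.C (algebraMap ℂ (SL N) (1 / (2 ^ n * n.factorial))) : PowerSeries _) *
      (2 ^ n * n.factorial) = 1 := by
    have : (2 ^ n * n.factorial : PowerSeries (SL N)) =
        PowerSeries.C (algebraMap ℂ (SL N) (2 ^ n * n.factorial)) := by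
      simp only [map_mul, map_pow, map_ofNat, map_natCast]
    rw [this, ← map_mul, ← map_mul, one_div_mul_cancel, map_one, map_one]
    exact mul_ne_zero (pow_ne_zero _ two_ne_zero) (Nat.cast_ne_zero.2 n.factorial_ne_zero)
  rw [e2, one_mul]
  refine prod_congr rfl fun b _ => ?_
  rw [hh_units]
  refine sum_congr rfl fun j _ => ?_
  have x1 : ∀ j, hh (fun i : Fin N => (PowerSeries.C (xa (1, i)) : PowerSeries (SL N))) j =
      PowerSeries.C (hx N j) := fun j => by
    have := hh_hsymm ((PowerSeries.C (R := SL N)).comp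
      (MvPolynomial.rename (R := ℂ) (Sum.inl : Fin N → Fin N ⊕ Fin N)).toRingHom) j
    simpa [xa, hx, hy] using this
  have x2 : ∀ j, hh (fun i : Fin N => (PowerSeries.C (xa (-1, i)) : PowerSeries (SL N))) j =
      PowerSeries.C (hy N j) := fun j => by
    have := hh_hsymm ((PowerSeries.C (R := SL N)).comp
      (MvPolynomial.rename (R := ℂ) (Sum.inr : Fin N → Fin N ⊕ Fin N)).toRingHom) j
    simpa [xa, hx, hy] using this
  have e3 : ¬ ((-1 : ℤˣ) = 1) := by decide
  by_cases l : lp b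
  · simp only [om, l, if_true, e3, if_false, hh_mul, x1]
  · simp only [om, l, if_false, x1, x2]

/-- base edge sets -/
def IsBase {B : Type} (blk : Fin n → B) (lp : B → Prop) (E : Finset (Rt n)) : Prop :=
  ∀ γ, γ ∈ E ↔ (γ.1 < γ.2.1 ∧ γ.2.2 = 1 ∧ blk γ.1 = blk γ.2.1) ∨ (isLoop γ ∧ lp (blk γ.1))

theorem LL_base (N : ℕ) {B : Type} [Fintype B] [DecidableEq B] {blk : Fin n → B} {lp : B → Prop}
    {E : Finset (Rt n)} (h : IsBase blk lp E) :
    LL N E = BaseV PowerSeries.X (fun j => PowerSeries.C (hx N j))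
      (fun j => PowerSeries.C (hy N j)) lp (cnt blk) := by
  rw [← FL_base, LL]
  congr 2
  funext w
  congr 1
  ext ρ
  rw [mem_SR_RT, mem_SR]
  constructor
  · rintro hρ ⟨i, u⟩ ⟨j, u'⟩ ⟨rfl, ⟨rfl, h1, h2⟩ | ⟨h1, h2⟩⟩
    · rcases lt_or_gt_of_ne h1 with h3 | h3
      · exact hρ (i, (j, 1)) ((h _).2 (Or.inl ⟨h3, rfl, h2⟩))
      · exact (hρ (j, (i, 1)) ((h _).2 (Or.inl ⟨h3, rfl, h2.symm⟩))).symm
    · exact hρ (i, (j, u')) ((h _).2 (Or.inr ⟨h1, h2⟩))
  · rintro hρ ⟨i, j, u⟩ hγ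
    rcases (h _).1 hγ with ⟨h1, h2, h3⟩ | ⟨h1, h2⟩
    · exact hρ _ _ ⟨rfl, Or.inl ⟨h2, h1.ne, h3⟩⟩
    · exact hρ _ _ ⟨rfl, Or.inr ⟨h1, h2⟩⟩

theorem isBase_TT {h : ℕ → ℕ} (hb : Base n h) (hn : 1 ≤ n) :
    ∃ (blk : Fin n → Fin (n + 1)) (b0 : Option (Fin (n + 1))),
      IsBase blk (fun b => some b ≠ b0) (TT n h) := by
  obtain ⟨hv, h1, h2⟩ := hb
  have b1 := h1 1 le_rfl hn
  have b2 := hv.2.1 1 hn
  refine ⟨fun i => ⟨h (i + 1), Nat.lt_succ_of_le (h1 _ (by omega) i.2).1⟩,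
    if h 0 = 0 then none else some ⟨h 1, by omega⟩, ?_⟩
  rintro ⟨i, j, u⟩
  have a1 := h1 (i + 1) (by omega) i.2
  have a2 := h1 (j + 1) (by omega) j.2
  have a3 := hv.2.1 (j + 1) j.2
  have a4 := hv.2.1 (i + 1) i.2
  have a5 : (i : ℕ) < j → _ := fun e => hv.mono (show (i : ℕ) + 1 ≤ j + 1 by omega) j.2
  have a6 : (j : ℕ) + 1 ≤ h (i + 1) → _ := fun e => hv.mono e a1.1
  have a7 := hv.mono (show 1 ≤ (i : ℕ) + 1 by omega) i.2
  have a8 : (i : ℕ) + 1 ≤ h 1 → _ := fun e => hv.mono e b1.1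
  have := i.2
  have := j.2
  rcases Int.units_eq_one_or u with rfl | rfl
  · simp only [mem_p, isLoop, Prod.mk.injEq, Fin.mk.injEq, Fin.lt_def]
    have e3 : ¬ ((1 : ℤˣ) = -1) := by decide
    simp only [e3, and_false, false_and, or_false, true_and]
    omega
  · have e3 : ¬ ((-1 : ℤˣ) = 1) := by decide
    simp only [mem_m, isLoop, Prod.mk.injEq, Fin.lt_def, e3, and_false, false_and, false_or,
      and_true, Fin.ext_iff]
    split_ifs with e
    · simp only [ne_eq, reduceCtorEq, not_false_eq_true, and_true]; omega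
    · simp only [ne_eq, Option.some.injEq, Fin.mk.injEq]; omega

end Pool.Agent.Lib.MP_33bfb2_co
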