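import Pool.Agent.Lib.MP_33bfb2_co.Trip

namespace Pool.Agent.Lib.MP_33bfb2_co

open Finset MvPolynomial

set_option maxHeartbeats 400000

variable {n : ℕ}

def TLaw {T : Type} [CommRing T] (q : T) (G : Finset (Rt n) → T) : Prop :=
  ∀ E α β β' σ, Trip E α β β' σ →
    (1 + q) * G (insert β E) = G (insert β' (insert β E)) + q * G E

theorem TLaw.law {T : Type} [CommRing T] {q : T} {G : Finset (Rt n) → T} (h : TLaw q G) :
    Law n q fun g => G (TT n g) := by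
  intro p a b hv ht
  obtain ⟨E, α, β, β', σ, t, e1, ⟨e2, e3, e4⟩ | ⟨e2, e3, e4⟩⟩ := trip_of_tri hv ht
  · refine ⟨fun _ => ?_, fun e => absurd e2 e⟩
    simp only [e1, e3, e4]; exact h E α β β' σ t
  · refine ⟨fun e => absurd e e2, fun _ => ?_⟩
    simp only [e1, e3, e4]; exact h E α β β' σ t

theorem TT_congr {h h' : ℕ → ℕ} (e : ∀ i ≤ n, h i = h' i) : TT n h = TT n h' := by
  ext γ
  rw [mem_TT, mem_TT, e 0 (Nat.zero_le _), e (γ.1 + 1) γ.1.2]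

def RT (E : Finset (Rt n)) (x y : V n) : Prop := x.2 = 1 ∧ (x.1, y) ∈ E

theorem mem_SR_RT {E : Finset (Rt n)} {ρ : Fn n} :
    ρ ∈ SR (RT E) ↔ ∀ γ ∈ E, Ed (γ.1, 1) γ.2 ρ := by
  constructor
  · intro h γ hγ
    exact h _ _ ⟨rfl, hγ⟩
  · rintro h ⟨i, u⟩ y ⟨rfl, h2⟩
    exact h (i, y) h2

theorem Ed_par {s : W n} {γ γ' : Rt n} {ρ : Fn n}
    (h : ((γ'.1, 1) = s.1 (γ.1, 1) ∧ γ'.2 = s.1 γ.2) ∨
      ((γ'.1, 1) = ng (s.1 γ.2) ∧ γ'.2 = ng (s.1 (γ.1, 1)))) :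
    Ed (γ'.1, 1) γ'.2 ρ ↔ Ed (s.1 (γ.1, 1)) (s.1 γ.2) ρ := by
  rcases h with ⟨h1, h2⟩ | ⟨h1, h2⟩
  · rw [h1, h2]
  · rw [h1, h2]
    exact ⟨fun h => by simpa using h.ng.symm, fun h => h.ng.symm⟩

theorem vl_par {A : Type} [AddCommGroup A] {y : V n → A} (hy : ∀ v, y (ng v) = - y v)
    {s : W n} {γ γ' : Rt n}
    (h : ((γ'.1, 1) = s.1 (γ.1, 1) ∧ γ'.2 = s.1 γ.2) ∨
      ((γ'.1, 1) = ng (s.1 γ.2) ∧ γ'.2 = ng (s.1 (γ.1, 1)))) :
    vl y γ' = vl (fun v => y (s.1 v)) γ := by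
  unfold vl
  rcases h with ⟨h1, h2⟩ | ⟨h1, h2⟩
  · rw [h1, h2]
  · rw [h1, h2, hy, hy]; abel

theorem Trip.βα {E : Finset (Rt n)} {α β β' : Rt n} {σ : Rt n → Rt n} (t : Trip E α β β' σ) :
    β ≠ α := fun e => t.hβ (e ▸ t.hα)

theorem ch_tlaw (u : W n) : TLaw PowerSeries.X fun E => ch (SR (RT E)) u := by
  intro E α β β' σ t
  have hp := t.par β t.cβ t.βα
  rw [t.σβ] at hp
  obtain ⟨κ, hκ, hl⟩ : ∃ κ : ℂ, κ ≠ 0 ∧ ∀ w : W n, vl (fun v => xv (w.1 v)) β -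
      vl (fun v => xv (w.1 v)) β' = C κ * vl (fun v => xv (w.1 v)) α := by
    have hy : ∀ (w : W n) v, xv (w.1 (ng v)) = - xv (w.1 v) := fun w v => by rw [W_ng, xv_ng]
    rcases t.lin with ⟨-, h⟩ | ⟨-, h⟩
    · refine ⟨-1, by simp, fun w => ?_⟩
      rw [h _ _ (hy w)]; simp
    · refine ⟨-2, by simp, fun w => ?_⟩
      rw [h _ _ (hy w), map_neg, show (C 2 : P n) = 2 from rfl]; ring
  have := ch_modular (R := RT E) (a := (α.1, 1)) (b := α.2) (c := (β.1, 1)) (d := β.2)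
    (t.hE α t.hα).ne t.cβ.ne (fun ρ hρ => mem_SR_RT.1 hρ α t.hα) ?_ hκ ?_ u
  · have e1 : SR (RT (insert β E)) = SR fun x y => RT E x y ∨ (x = (β.1, 1) ∧ y = β.2) := by
      ext ρ
      rw [mem_SR_RT, mem_SR, forall_mem_insert, ← mem_SR_RT, mem_SR]
      constructor
      · rintro ⟨h1, h2⟩ x y (h | ⟨rfl, rfl⟩)
        · exact h2 x y h
        · exact h1
      · exact fun h => ⟨h _ _ (Or.inr ⟨rfl, rfl⟩), fun x y h' => h x y (Or.inl h')⟩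
    have e2 : SR (RT (insert β' (insert β E))) = SR fun x y => RT E x y ∨
        (x = (β.1, 1) ∧ y = β.2) ∨
        (x = (rf (α.1, 1) α.2).1 (β.1, 1) ∧ y = (rf (α.1, 1) α.2).1 β.2) := by
      ext ρ
      rw [mem_SR_RT, mem_SR, forall_mem_insert, forall_mem_insert, ← mem_SR_RT, mem_SR, Ed_par hp]
      constructor
      · rintro ⟨h0, h1, h2⟩ x y (h | ⟨rfl, rfl⟩ | ⟨rfl, rfl⟩)
        · exact h2 x y h
        · exact h1
        · exact h0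
      · exact fun h => ⟨h _ _ (Or.inr (Or.inr ⟨rfl, rfl⟩)), h _ _ (Or.inr (Or.inl ⟨rfl, rfl⟩)),
          fun x y h' => h x y (Or.inl h')⟩
    simp only [e1, e2]
    exact this
  · rintro ⟨i, u⟩ d ⟨rfl, h2⟩
    refine ⟨(t.hE (i, d) h2).ne, fun ρ hρ => ?_⟩
    by_cases e : (i, d) = α
    · subst e
      rw [rf_left, rf_right]
      exact (mem_SR_RT.1 hρ (i, d) h2).symm
    · exact (Ed_par (t.par (i, d) (t.hE _ h2) e)).1 (mem_SR_RT.1 hρ _ (t.mem _ h2))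
  · intro w
    have := hl w
    rw [vl_par (fun v => by rw [W_ng, xv_ng]) hp] at this
    exact this

end Pool.Agent.Lib.MP_33bfb2_co
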