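import Pool.Agent.Lib.MP_33bfb2_co.Refl

namespace Pool.Agent.Lib.MP_33bfb2_co

open MvPolynomial

variable {n : ℕ}

def Ed (a b : V n) (ρ : Fn n) : Prop := ∀ w : W n, xv (w.1 a) - xv (w.1 b) ∣ ρ w - ρ (w * rf a b)

theorem Ed.symm {a b : V n} {ρ : Fn n} (h : Ed a b ρ) : Ed b a ρ := by
  intro w
  rw [rf_symm, ← neg_sub, neg_dvd]
  exact h w

theorem Ed.ng {a b : V n} {ρ : Fn n} (h : Ed a b ρ) : Ed (ng a) (ng b) ρ := by
  intro w
  rw [rf_ng, W_ng, W_ng, xv_ng, xv_ng, neg_sub_neg, ← neg_sub, neg_dvd]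
  exact h w

theorem Ed.mul {a b : V n} {ρ σ : Fn n} (h : Ed a b ρ) (h' : Ed a b σ) : Ed a b (ρ * σ) := by
  intro w
  have : (ρ * σ) w - (ρ * σ) (w * rf a b) =
      (ρ w - ρ (w * rf a b)) * σ w + ρ (w * rf a b) * (σ w - σ (w * rf a b)) := by
    simp only [Pi.mul_apply]; ring
  rw [this]
  exact dvd_add ((h w).mul_right _) ((h' w).mul_left _)

def SR (R : V n → V n → Prop) : Submodule (P n) (Fn n) where
  carrier := {ρ | ∀ a b, R a b → Ed a b ρ}
  zero_mem' := by intro a b _ w; simp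
  add_mem' := by
    intro ρ σ hρ hσ a b h w
    have := dvd_add (hρ a b h w) (hσ a b h w)
    simpa [add_sub_add_comm] using this
  smul_mem' := by
    intro f ρ hρ a b h w
    have := (hρ a b h w).mul_left f
    simpa [mul_sub] using this

theorem mem_SR {R : V n → V n → Prop} {ρ : Fn n} : ρ ∈ SR R ↔ ∀ a b, R a b → Ed a b ρ := Iff.rfl

theorem gs_SR (R : V n → V n → Prop) : GS (SR R) where
  st u ρ hρ a b h w := by
    have := map_dvd (act u) (hρ a b h (u⁻¹ * w))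
    rw [map_sub, map_sub, act_xv', act_xv', ← W_mul_apply, ← W_mul_apply, mul_inv_cancel_left,
      mul_assoc] at this
    exact this
  gr ρ hρ i a b h w := by
    obtain ⟨g, hg⟩ := hρ a b h w
    rw [hc_apply, hc_apply, ← map_sub, hg, hcomp_mul ((xv_hom _).sub (xv_hom _))]
    split_ifs
    · exact dvd_mul_right _ _
    · exact dvd_zero _

def InvS (G : Set (W n)) : Submodule (P n) (Fn n) where
  carrier := {ρ | ∀ s ∈ G, ∀ w, ρ (w * s) = ρ w}
  zero_mem' := by intro s _ w; simp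
  add_mem' := by
    intro ρ σ hρ hσ s h w
    simp [hρ s h w, hσ s h w]
  smul_mem' := by
    intro f ρ hρ s h w
    simp [hρ s h w]

theorem mem_InvS {G : Set (W n)} {ρ : Fn n} : ρ ∈ InvS G ↔ ∀ s ∈ G, ∀ w, ρ (w * s) = ρ w :=
  Iff.rfl

theorem gs_InvS (G : Set (W n)) : GS (InvS G) where
  st u ρ hρ s h w := by
    change act u (ρ (u⁻¹ * (w * s))) = act u (ρ (u⁻¹ * w))
    rw [← mul_assoc, hρ s h]
  gr ρ hρ i s h w := by rw [hc_apply, hc_apply, hρ s h]

noncomputable def xR (v : V n) : Fn n := fun w => xv (w.1 v)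

theorem Ed_xR (a b v : V n) : Ed a b (xR v) := fun w => lab_dvd_W w a b v

theorem dot_xR (u : W n) (v : V n) : dot u (xR v) = xR v := by
  funext w
  change act u (xv ((u⁻¹ * w).1 v)) = _
  rw [act_xv', ← W_mul_apply, mul_inv_cancel_left]; rfl

theorem Ed_zR (a b c d : V n) : Ed a b (xR c - xR d) := by
  intro w
  have := dvd_sub (Ed_xR a b c w) (Ed_xR a b d w)
  simp only [Pi.sub_apply]
  convert this using 1
  ring

theorem inv_zR {a b : V n} (h : a ≠ b) : Inv (xR a - xR b) 1 where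
  hd _ _ := (xv_hom _).sub (xv_hom _)
  ne w := lab_ne fun e => h (w.1.injective e)
  inv w := by rw [map_sub, dot_xR, dot_xR]

theorem W_mul_rf_rf (w : W n) (a b : V n) : w * rf a b * rf a b = w := by
  rw [mul_assoc, rf_mul_self, mul_one]

theorem rf_W_inj {w : W n} {a b c d : V n} (h : rf (w.1 a) (w.1 b) = rf (w.1 c) (w.1 d)) :
    rf a b = rf c d := by
  have h1 := rf_conj w a b
  rw [h, rf_conj] at h1
  exact (mul_left_cancel h1).symm

/-- Demazure operator -/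
theorem demazure {R : V n → V n → Prop} {a b : V n} (hab : a ≠ b)
    (hR : ∀ ρ ∈ SR R, Ed a b ρ)
    (hst : ∀ c d, R c d → c ≠ d ∧ ∀ ρ ∈ SR R, Ed ((rf a b).1 c) ((rf a b).1 d) ρ)
    {ρ : Fn n} (hρ : ρ ∈ SR R) : ∃ D ∈ SR R ⊓ InvS {rf a b},
      ∀ w, ρ w - ρ (w * rf a b) = (xv (w.1 a) - xv (w.1 b)) * D w := by
  choose D hD using hR ρ hρ
  have hne : ∀ w : W n, xv (w.1 a) - xv (w.1 b) ≠ 0 :=
    fun w => lab_ne fun e => hab (w.1.injective e)
  have hinv : ∀ w, D (w * rf a b) = D w := by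
    intro w
    have h1 := hD (w * rf a b)
    rw [W_mul_rf_rf, W_mul_apply, W_mul_apply, rf_left, rf_right] at h1
    apply mul_left_cancel₀ (hne w)
    linear_combination h1 + hD w
  refine ⟨D, ⟨fun c d hcd w => ?_, ?_⟩, hD⟩
  · obtain ⟨hne', hs⟩ := hst c d hcd
    by_cases hdv : xv (w.1 c) - xv (w.1 d) ∣ xv (w.1 a) - xv (w.1 b)
    · have := rf_W_inj (rf_eq_of_dvd hdv fun e => hab (w.1.injective e))
      rw [← this, hinv]; simp
    · have hp : Prime (xv (w.1 c) - xv (w.1 d)) := lab_prime fun e => hne' (w.1.injective e)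
      refine (hp.dvd_or_dvd (a := xv (w.1 a) - xv (w.1 b)) ?_).resolve_left hdv
      have h1 := hρ c d hcd w
      have h2 := hs ρ hρ (w * rf a b)
      rw [← W_mul_apply, ← W_mul_apply, W_mul_rf_rf, mul_assoc w, ← mul_left_inj (rf a b) |>.1 (by
        rw [mul_assoc (rf a b), rf_conj, ← mul_assoc, rf_mul_self, one_mul, mul_assoc,
          rf_mul_self, mul_one] : rf c d * rf a b * rf a b =
          rf a b * rf ((rf a b).1 c) ((rf a b).1 d) * rf a b), ← mul_assoc] at h2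
      have h3 := Ed_zR c d a b w
      simp only [Pi.sub_apply, xR] at h3
      have e : (xv (w.1 a) - xv (w.1 b)) * (D w - D (w * rf c d)) =
          (ρ w - ρ (w * rf c d)) - (ρ (w * rf a b) - ρ (w * rf c d * rf a b)) -
          (xv (w.1 a) - xv (w.1 b) - (xv ((w * rf c d).1 a) - xv ((w * rf c d).1 b))) *
            D (w * rf c d) := by
        linear_combination hD (w * rf c d) - hD w
      rw [e]
      exact dvd_sub (dvd_sub h1 h2) (h3.mul_right _)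
  · rintro s rfl w
    exact hinv w

theorem ch_split {R : V n → V n → Prop} {a b : V n} (hab : a ≠ b)
    (hR : ∀ ρ ∈ SR R, Ed a b ρ)
    (hst : ∀ c d, R c d → c ≠ d ∧ ∀ ρ ∈ SR R, Ed ((rf a b).1 c) ((rf a b).1 d) ρ)
    {M : Submodule (P n) (Fn n)} (hM : GS M) (hle : M ≤ SR R) {z : Fn n} (hz : Inv z 1)
    {κ : ℂ} (hκ : κ ≠ 0) (hzs : ∀ w, z w - z (w * rf a b) = C κ * (xv (w.1 a) - xv (w.1 b)))
    (hzM : mz z (SR R ⊓ InvS {rf a b}) ≤ M) (u : W n) :
    ch M u = ch (M ⊓ InvS {rf a b}) u + PowerSeries.X * ch (SR R ⊓ InvS {rf a b}) u := by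
  have hA : GS (SR R ⊓ InvS {rf a b}) := (gs_SR R).inf (gs_InvS _)
  have hk : (C κ : P n) * C κ⁻¹ = 1 := by rw [← C_mul, mul_inv_cancel₀ hκ, C_1]
  have h1 : M = (M ⊓ InvS {rf a b}) ⊔ mz z (SR R ⊓ InvS {rf a b}) := by
    refine le_antisymm (fun ρ hρ => ?_) (sup_le inf_le_left hzM)
    obtain ⟨D, hD, hD'⟩ := demazure hab hR hst (hle hρ)
    have hm : z * ((C κ⁻¹ : P n) • D) ∈ mz z (SR R ⊓ InvS {rf a b}) :=
      ⟨_, Submodule.smul_mem _ _ hD, rfl⟩
    rw [← sub_add_cancel ρ (z * ((C κ⁻¹ : P n) • D))]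
    refine Submodule.add_mem_sup ⟨M.sub_mem hρ (hzM hm), ?_⟩ hm
    rintro s rfl w
    simp only [Pi.sub_apply, Pi.mul_apply, Pi.smul_apply, smul_eq_mul]
    rw [hD.2 _ rfl w]
    linear_combination - hD' w + (C κ⁻¹ * D w) * hzs w + (xv (w.1 a) - xv (w.1 b)) * D w * hk
  have h2 : Disjoint (M ⊓ InvS {rf a b}) (mz z (SR R ⊓ InvS {rf a b})) := by
    rw [Submodule.disjoint_def]
    rintro _ ⟨-, h3⟩ ⟨σ, hσ, rfl⟩
    have : σ = 0 := by
      funext w
      have e1 : z (w * rf a b) * σ (w * rf a b) = z w * σ w := h3 _ rfl w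
      rw [hσ.2 _ rfl w] at e1
      have e2 : (xv (w.1 a) - xv (w.1 b)) * σ w = 0 := by
        linear_combination (- C κ⁻¹) * e1 - (C κ⁻¹ * σ w) * hzs w -
          (xv (w.1 a) - xv (w.1 b)) * σ w * hk
      exact (mul_eq_zero.1 e2).resolve_left (lab_ne fun e => hab (w.1.injective e))
    rw [this, map_zero]
  conv_lhs => rw [h1]
  rw [ch_sup (hM.inf (gs_InvS _)) (hA.mz hz) h2, ch_mz hz hA, pow_one]

theorem ch_stable {R : V n → V n → Prop} {a b : V n} (hab : a ≠ b)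
    (hR : ∀ ρ ∈ SR R, Ed a b ρ)
    (hst : ∀ c d, R c d → c ≠ d ∧ ∀ ρ ∈ SR R, Ed ((rf a b).1 c) ((rf a b).1 d) ρ) (u : W n) :
    ch (SR R) u = (1 + PowerSeries.X) * ch (SR R ⊓ InvS {rf a b}) u := by
  rw [ch_split hab hR hst (gs_SR R) le_rfl (inv_zR hab) (κ := 2) two_ne_zero ?_ ?_ u]
  · ring
  · intro w
    simp only [Pi.sub_apply, xR, W_mul_apply, rf_left, rf_right]
    rw [show (C 2 : P n) = 2 from rfl]; ring
  · rintro _ ⟨σ, hσ, rfl⟩ c d hcd
    exact (Ed_zR c d a b).mul (hσ.1 c d hcd)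

/-- The modular law for spline modules. -/
theorem ch_modular {R : V n → V n → Prop} {a b c d : V n} (hab : a ≠ b) (hcd : c ≠ d)
    (hR : ∀ ρ ∈ SR R, Ed a b ρ)
    (hst : ∀ c d, R c d → c ≠ d ∧ ∀ ρ ∈ SR R, Ed ((rf a b).1 c) ((rf a b).1 d) ρ)
    {κ : ℂ} (hκ : κ ≠ 0)
    (hl : ∀ w : W n, xv (w.1 c) - xv (w.1 d) - (xv (w.1 ((rf a b).1 c)) - xv (w.1 ((rf a b).1 d))) =
      C κ * (xv (w.1 a) - xv (w.1 b))) (u : W n) :
    (1 + PowerSeries.X) * ch (SR fun x y => R x y ∨ (x = c ∧ y = d)) u =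
      ch (SR fun x y => R x y ∨ (x = c ∧ y = d) ∨ (x = (rf a b).1 c ∧ y = (rf a b).1 d)) u +
        PowerSeries.X * ch (SR R) u := by
  have hss : ∀ v, (rf a b).1 ((rf a b).1 v) = v := fun v => rfun_rfun a b v
  rw [ch_stable hab hR hst, ch_stable (R := fun x y => R x y ∨ (x = c ∧ y = d) ∨
      (x = (rf a b).1 c ∧ y = (rf a b).1 d)) hab (fun ρ hρ => hR ρ fun x y h => hρ x y (Or.inl h)),
    ch_split hab hR hst (gs_SR fun x y => R x y ∨ (x = c ∧ y = d))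
      (fun ρ hρ x y h => hρ x y (Or.inl h)) (inv_zR hcd) hκ hl]
  · have : SR (fun x y => R x y ∨ (x = c ∧ y = d)) ⊓ InvS {rf a b} =
        SR (fun x y => R x y ∨ (x = c ∧ y = d) ∨ (x = (rf a b).1 c ∧ y = (rf a b).1 d)) ⊓
          InvS {rf a b} := by
      ext ρ
      constructor
      · rintro ⟨h1, h2⟩
        refine ⟨?_, h2⟩
        rintro x y (h | h | ⟨rfl, rfl⟩)
        · exact h1 x y (Or.inl h)
        · exact h1 x y (Or.inr h)
        · intro w
          have := h1 c d (Or.inr ⟨rfl, rfl⟩) (w * rf a b)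
          rw [h2 _ rfl, mul_assoc, ← rf_conj (rf a b) c d, ← mul_assoc, h2 _ rfl] at this
          exact this
      · rintro ⟨h1, h2⟩
        refine ⟨?_, h2⟩
        rintro x y (h | h)
        · exact h1 x y (Or.inl h)
        · exact h1 x y (Or.inr (Or.inl h))
    rw [this]; ring
  · rintro _ ⟨σ, hσ, rfl⟩ x y (h | ⟨rfl, rfl⟩)
    · exact (Ed_zR x y c d).mul (hσ.1 x y h)
    · intro w
      simp only [LinearMap.mulLeft_apply, Pi.mul_apply, Pi.sub_apply, xR, W_mul_apply, rf_left,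
        rf_right]
      exact ⟨σ w + σ (w * rf x y), by ring⟩
  · rintro x y (h | ⟨rfl, rfl⟩ | ⟨rfl, rfl⟩)
    · exact ⟨(hst x y h).1, fun ρ hρ => (hst x y h).2 ρ fun x y h => hρ x y (Or.inl h)⟩
    · exact ⟨hcd, fun ρ hρ => hρ _ _ (Or.inr (Or.inr ⟨rfl, rfl⟩))⟩
    · refine ⟨fun e => hcd ((rf a b).1.injective e), fun ρ hρ => ?_⟩
      rw [hss, hss]
      exact hρ _ _ (Or.inr (Or.inl ⟨rfl, rfl⟩))

end Pool.Agent.Lib.MP_33bfb2_co
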