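import Pool.Agent.Lib.MP_33bfb2_co.CBase

namespace Pool.Agent.Lib.MP_33bfb2_co

open Finset

set_option maxHeartbeats 400000

section
variable {A V : Type} [Ring A] [Fintype V] [DecidableEq V]

open Classical in
structure Alg (u : V → A) (ad : V → V → Prop) (E2 : Finset V → A) (R : Finset V) : Prop where
  symm : ∀ a b, ad a b → ad b a
  refl : ∀ a, ad a a
  E0 : E2 ∅ = 0
  Ei : ∀ v Z, v ∉ Z → E2 (insert v Z) = E2 Z + ∑ a ∈ Z, if ad v a then 0 else u v * u a
  clq : ∀ a ∉ R, ∀ b ∉ R, ad a b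
  no3 : ∀ a b c, ad a b ∨ ad a c ∨ ad b c
  r1 : ∀ a b, ¬ ad a b → u a * u b = u b * u a
  r2 : ∀ a b v, ¬ ad a b → ad v a → ad v b → u v * u a * u b = u a * u b * u v
  r3 : ∀ l ∉ R, ∀ l' ∉ R, ∀ r ∈ R, ∀ r' ∈ R, ¬ ad l r' → ¬ ad r' r → ¬ ad r l' →
    u l' * u r * u r' * u l = 0
  r4 : ∀ l ∉ R, ∀ r ∈ R, ∀ r' ∈ R, ad l r → ad l r' → ¬ ad r r' → u r * u r' * u l = 0

def Hm (e1 e2 : A) : ℕ → A
  | 0 => 0
  | 1 => 1
  | d + 2 => e1 * Hm e1 e2 (d + 1) - e2 * Hm e1 e2 d

def Sm (e1 e2 : A) : ℕ → ℕ → A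
  | a, 0 => Hm e1 e2 a
  | 0, b + 1 => - Hm e1 e2 (b + 1)
  | a + 1, b + 1 => e2 * Sm e1 e2 a b

theorem Hm_comm {e1 e2 x : A} (h1 : Commute x e1) (h2 : Commute x e2) (d : ℕ) :
    Commute x (Hm e1 e2 d) := by
  induction d using Nat.twoStepInduction with
  | zero => exact Commute.zero_right _
  | one => exact Commute.one_right _
  | more d a b => exact (h1.mul_right b).sub_right (h2.mul_right a)

theorem Sm_ge (e1 e2 : A) (b d : ℕ) : Sm e1 e2 (b + d) b = e2 ^ b * Hm e1 e2 d := by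
  induction b with
  | zero => simp [Sm]
  | succ b ih => rw [show b + 1 + d = b + d + 1 by omega, Sm, ih, pow_succ', mul_assoc]

theorem Sm_le (e1 e2 : A) (a d : ℕ) : Sm e1 e2 a (a + d) = - (e2 ^ a * Hm e1 e2 d) := by
  induction a with
  | zero => cases d <;> simp [Sm, Hm]
  | succ a ih => rw [show a + 1 + d = a + d + 1 by omega, Sm, ih, pow_succ', mul_assoc, mul_neg]

theorem Sm_e1 {e1 e2 : A} (h : Commute e1 e2) (a b : ℕ) :
    e1 * Sm e1 e2 a b = Sm e1 e2 (a + 1) b + Sm e1 e2 a (b + 1) := by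
  induction a generalizing b with
  | zero =>
    rcases b with _ | b
    · simp [Sm, Hm]
    · have : Sm e1 e2 0 b = - Hm e1 e2 b := by simpa using Sm_le e1 e2 0 b
      simp only [Sm, Hm, this]; noncomm_ring
  | succ a ih =>
    rcases b with _ | b
    · simp only [Sm, Hm]; noncomm_ring
    · simp only [Sm]
      rw [← mul_assoc, h.eq, mul_assoc, ih, mul_add]

variable {u : V → A} {ad : V → V → Prop} {E2 : Finset V → A} {R : Finset V}

omit [Fintype V] in
open Classical in
theorem Alg.pair (h : Alg u ad E2 R) (φ : A →+ A) (G : V → V → A) (Z : Finset V)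
    (h0 : ∀ a ∈ Z, G a a = 0)
    (h1 : ∀ a ∈ Z, ∀ b ∈ Z, φ (if ad a b then 0 else u a * u b) = G a b + G b a) :
    φ (E2 Z) = ∑ a ∈ Z, ∑ b ∈ Z, G a b := by
  induction Z using Finset.induction_on with
  | empty => simp [h.E0]
  | insert v Z hv ih =>
    have m := mem_insert_self v Z
    rw [h.Ei v Z hv, map_add, ih (fun a ha => h0 a (mem_insert_of_mem ha))
      (fun a ha b hb => h1 a (mem_insert_of_mem ha) b (mem_insert_of_mem hb)), map_sum,
      sum_congr rfl fun a ha => h1 v m a (mem_insert_of_mem ha)]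
    simp only [sum_insert hv, h0 v m, sum_add_distrib]
    abel

omit [Fintype V] in
theorem Alg.clique (h : Alg u ad E2 R) {Z : Finset V} (hZ : ∀ a ∈ Z, ∀ b ∈ Z, ad a b) :
    E2 Z = 0 := by
  have := h.pair (AddMonoidHom.id A) (fun _ _ => 0) Z (by simp) fun a ha b hb => by
    simp [hZ a ha b hb]
  simpa using this

omit [Fintype V] in
theorem Alg.E2_mem (h : Alg u ad E2 R) (Z : Finset V) :
    E2 Z ∈ Subsemiring.closure (Set.range u) := by
  induction Z using Finset.induction_on with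
  | empty => rw [h.E0]; exact zero_mem _
  | insert v Z hv ih =>
    rw [h.Ei v Z hv]
    refine add_mem ih (sum_mem fun a _ => ?_)
    split_ifs
    · exact zero_mem _
    · exact mul_mem (Subsemiring.subset_closure ⟨_, rfl⟩) (Subsemiring.subset_closure ⟨_, rfl⟩)

theorem Alg.comm (h : Alg u ad E2 R) : Commute (∑ v, u v) (E2 univ) := by
  classical
  have := h.pair (AddMonoidHom.mulLeft (∑ v, u v) - AddMonoidHom.mulRight (∑ v, u v))
    (fun a b => ∑ v, if ¬ ad a b ∧ ¬ ad a v then u v * u a * u b - u b * u a * u v else 0) univ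
    (fun a _ => by simp [h.refl]) fun a _ b _ => ?_
  · simp only [AddMonoidHom.sub_apply, AddMonoidHom.coe_mulLeft, AddMonoidHom.coe_mulRight]
      at this
    rw [Commute, SemiconjBy, ← sub_eq_zero, this]
    refine sum_eq_zero fun a _ => ?_
    have e : ∀ b v, (if ¬ ad a b ∧ ¬ ad a v then u v * u a * u b - u b * u a * u v else 0) =
        (if ¬ ad a b ∧ ¬ ad a v then u v * u a * u b else 0) -
        (if ¬ ad a v ∧ ¬ ad a b then u b * u a * u v else 0) := fun b v => by
      by_cases ad a b <;> by_cases ad a v <;> simp [*]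
    simp only [e, sum_sub_distrib]
    rw [sub_eq_zero, sum_comm]
  · simp only [AddMonoidHom.sub_apply, AddMonoidHom.coe_mulLeft, AddMonoidHom.coe_mulRight]
    by_cases hab : ad a b
    · simp [hab, h.symm a b hab]
    · have hba : ¬ ad b a := fun e => hab (h.symm _ _ e)
      rw [if_neg hab, sum_mul, mul_sum, ← sum_sub_distrib, ← sum_add_distrib]
      refine sum_congr rfl fun v _ => ?_
      have c := h.r1 a b hab
      by_cases h1 : ad a v <;> by_cases h2 : ad b v
      · simp only [h1, h2, not_true, and_false, if_false, add_zero]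
        rw [← mul_assoc, h.r2 a b v hab (h.symm _ _ h1) (h.symm _ _ h2), sub_self]
      · simp only [h1, h2, hba, not_true, and_false, if_false, zero_add, not_false_eq_true,
          and_self, if_true]
        rw [c, ← mul_assoc, ← c]
      · simp only [h1, h2, hab, not_true, and_false, if_false, add_zero, not_false_eq_true,
          and_self, if_true]
        rw [← c, ← mul_assoc]
      · exact absurd (h.no3 a b v) (by tauto)

omit [Fintype V] in
open Classical in
theorem Alg.sumD (h : Alg u ad E2 R) (v : V) (Z : Finset V) :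
    (∑ a ∈ Z, if ad v a then 0 else u v * u a) = (∑ a ∈ Z with ¬ ad v a, u a) * u v := by
  rw [sum_mul, sum_filter]
  refine sum_congr rfl fun a _ => ?_
  by_cases e : ad v a
  · simp [e]
  · simp [e, h.r1 v a e]

omit [Fintype V] in
open Classical in
theorem Alg.cl' (h : Alg u ad E2 R) (v : V) (Z : Finset V) :
    E2 (Z.filter fun a => ¬ ad v a) = 0 :=
  h.clique fun a ha b hb => by
    have := h.no3 v a b
    have := (mem_filter.1 ha).2
    have := (mem_filter.1 hb).2
    tauto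

theorem Alg.A_mem (h : Alg u ad E2 R) (k : ℕ) (Z : Finset V) :
    Hm (∑ v, u v) (E2 univ) (k + 1) - Hm (∑ v, u v) (E2 univ) k * ∑ a ∈ Z, u a +
      Hm (∑ v, u v) (E2 univ) (k - 1) * E2 Z ∈ Subsemiring.closure (Set.range u) := by
  classical
  induction k generalizing Z with
  | zero => simp [Hm, one_mem]
  | succ k ih =>
    rw [← compl_compl Z]
    generalize Zᶜ = W
    induction W using Finset.induction_on with
    | empty =>
      rw [compl_empty, Nat.add_sub_cancel, Hm, (Hm_comm (Commute.refl _) h.comm _).eq,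
        (Hm_comm h.comm.symm (Commute.refl _) _).eq]
      simp [zero_mem]
    | insert v W hv ih2 =>
      have e : Wᶜ = insert v (insert v W)ᶜ := by
        rw [compl_insert, insert_erase (mem_compl.2 hv)]
      have hv' : v ∉ (insert v W)ᶜ := by simp
      rw [e, sum_insert hv', h.Ei _ _ hv', h.sumD] at ih2
      have := add_mem ih2 (mul_mem (ih ((insert v W)ᶜ.filter fun a => ¬ ad v a))
        (Subsemiring.subset_closure ⟨v, rfl⟩))
      rw [h.cl'] at this
      convert this using 1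
      rw [Nat.add_sub_cancel]
      noncomm_ring

open Classical in
theorem Alg.B_mem (h : Alg u ad E2 R) (k : ℕ) (v : V) :
    (Hm (∑ v, u v) (E2 univ) (k + 1) - Hm (∑ v, u v) (E2 univ) k * ∑ a with ¬ ad v a, u a) * u v ∈
      Subsemiring.closure (Set.range u) := by
  have := h.A_mem k (univ.filter fun a => ¬ ad v a)
  rw [h.cl', mul_zero, add_zero] at this
  exact mul_mem this (Subsemiring.subset_closure ⟨v, rfl⟩)

open Classical in
theorem Alg.Pm (h : Alg u ad E2 R) :
    E2 univ - E2 R = ∑ l ∈ Rᶜ, ∑ r ∈ R, if ad l r then 0 else u l * u r := by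
  have : ∀ L ⊆ Rᶜ, E2 (L ∪ R) = E2 R + ∑ l ∈ L, ∑ r ∈ R, if ad l r then 0 else u l * u r := by
    intro L
    induction L using Finset.induction_on with
    | empty => simp
    | insert l L hl ih =>
      intro hs
      have l1 : l ∉ R := mem_compl.1 (hs (mem_insert_self _ _))
      have hs' := (subset_insert _ _).trans hs
      rw [insert_union, h.Ei _ _ (by simp [hl, l1]), ih hs', sum_insert hl,
        sum_union (disjoint_left.2 fun a ha => mem_compl.1 (hs' ha)),
        sum_eq_zero (s := L) fun a ha => if_pos (h.clq l l1 a (mem_compl.1 (hs' ha)))]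
      abel
  have := this Rᶜ subset_rfl
  rw [union_comm, union_compl] at this
  rw [this]; abel

open Classical in
theorem Alg.Pm' (h : Alg u ad E2 R) :
    E2 univ - E2 R = ∑ l ∈ Rᶜ, (∑ a with ¬ ad l a, u a) * u l := by
  rw [h.Pm]
  refine sum_congr rfl fun l hl => ?_
  rw [← h.sumD]
  exact sum_subset (subset_univ _) fun a _ ha => if_pos (h.clq l (mem_compl.1 hl) a ha)

theorem Alg.Y_mem (h : Alg u ad E2 R) (d : ℕ) :
    Hm (∑ v, u v) (E2 univ) (d + 1) * ∑ l ∈ Rᶜ, u l -
      Hm (∑ v, u v) (E2 univ) d * (E2 univ - E2 R) ∈ Subsemiring.closure (Set.range u) := by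
  rw [h.Pm', mul_sum, mul_sum, ← sum_sub_distrib]
  refine sum_mem fun l _ => ?_
  have := h.B_mem d l
  rwa [sub_mul, mul_assoc] at this

open Classical in
theorem Alg.pp_eq (h : Alg u ad E2 R) (d : ℕ) :
    Hm (∑ v, u v) (E2 univ) (d + 2) - E2 univ * Hm (∑ v, u v) (E2 univ) d =
      ∑ v, (Hm (∑ v, u v) (E2 univ) (d + 1) -
        Hm (∑ v, u v) (E2 univ) d * ∑ a with ¬ ad v a, u a) * u v := by
  have := h.pair (AddMonoidHom.id A + AddMonoidHom.id A)
    (fun a b => if ad a b then 0 else u a * u b) univ (fun a _ => if_pos (h.refl a))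
    fun a _ b _ => by
      by_cases e : ad a b
      · simp [e, h.symm _ _ e]
      · have e' : ¬ ad b a := fun e' => e (h.symm _ _ e')
        simp [e, e', h.r1 a b e]
  simp only [AddMonoidHom.add_apply, AddMonoidHom.id_apply, h.sumD] at this
  simp only [sub_mul, mul_assoc, sum_sub_distrib, ← mul_sum]
  rw [← this, Hm, (Hm_comm (Commute.refl _) h.comm _).eq,
    (Hm_comm h.comm.symm (Commute.refl _) _).eq]
  noncomm_ring

theorem Alg.pp_mem (h : Alg u ad E2 R) (d : ℕ) :
    Hm (∑ v, u v) (E2 univ) (d + 2) - E2 univ * Hm (∑ v, u v) (E2 univ) d ∈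
      Subsemiring.closure (Set.range u) := by
  rw [h.pp_eq]
  exact sum_mem fun v _ => h.B_mem d v

theorem Alg.X_mem (h : Alg u ad E2 R) (d : ℕ) :
    Hm (∑ v, u v) (E2 univ) (d + 2) - E2 univ * Hm (∑ v, u v) (E2 univ) d -
      (Hm (∑ v, u v) (E2 univ) (d + 1) * ∑ l ∈ Rᶜ, u l -
        Hm (∑ v, u v) (E2 univ) d * (E2 univ - E2 R)) ∈ Subsemiring.closure (Set.range u) := by
  rw [h.pp_eq, h.Pm', mul_sum, mul_sum, ← sum_sub_distrib, ← sum_add_sum_compl R]
  simp only [← mul_assoc, ← sub_mul, add_sub_cancel_right]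
  exact sum_mem fun v _ => h.B_mem d v

theorem Alg.Z_mem (h : Alg u ad E2 R) (d : ℕ) :
    Hm (∑ v, u v) (E2 univ) (d + 1) * (E2 univ - E2 R) -
      E2 univ * Hm (∑ v, u v) (E2 univ) d * ∑ l ∈ Rᶜ, u l ∈ Subsemiring.closure (Set.range u) := by
  classical
  have e1 : (E2 univ - E2 R) * ∑ l ∈ Rᶜ, u l = (∑ l ∈ Rᶜ, u l) * (E2 univ - E2 R) := by
    rw [h.Pm, sum_mul_sum, sum_mul_sum]
    simp only [sum_mul, mul_sum]
    have a1 : ∀ a ∈ Rᶜ, ∀ b ∈ Rᶜ, ∀ r, (if ad a r then 0 else u a * u r) * u b =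
        (if ¬ ad a r ∧ ¬ ad b r then u a * u b * u r else 0) +
        (if ad b r ∧ ¬ ad a r then u b * u a * u r else 0) := by
      intro a ha b hb r
      by_cases h1 : ad a r <;> by_cases h2 : ad b r <;> simp [h1, h2]
      · exact (h.r2 a r b h1 (h.clq _ (mem_compl.1 hb) _ (mem_compl.1 ha)) h2).symm
      · rw [mul_assoc, ← h.r1 b r h2, mul_assoc]
    have a2 : ∀ a b r, u a * (if ad b r then 0 else u b * u r) =
        (if ¬ ad a r ∧ ¬ ad b r then u a * u b * u r else 0) +
        (if ad a r ∧ ¬ ad b r then u a * u b * u r else 0) := by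
      intro a b r
      by_cases h1 : ad a r <;> by_cases h2 : ad b r <;> simp [h1, h2, mul_assoc]
    rw [sum_congr rfl fun a ha => sum_congr rfl fun b hb => sum_congr rfl fun r _ => a1 a ha b hb r]
    simp only [a2, sum_add_distrib]
    congr 1
    exact sum_comm
  have e2 : ∀ l ∈ Rᶜ, E2 R * u l = ∑ a ∈ R, ∑ b ∈ R,
      if ¬ ad l a ∧ ¬ ad a b then u b * u a * u l else 0 := by
    intro l hl
    refine h.pair (AddMonoidHom.mulRight (u l)) _ R (fun a _ => by simp [h.refl])
      fun a ha b hb => ?_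
    by_cases hab : ad a b
    · simp [hab, h.symm a b hab]
    · have hba : ¬ ad b a := fun e => hab (h.symm _ _ e)
      by_cases h1 : ad l a <;> by_cases h2 : ad l b <;> simp [h1, h2, hab, hba]
      · exact h.r4 l (mem_compl.1 hl) a ha b hb h1 h2 hab
      · rw [h.r1 a b hab]
      · exact absurd (h.no3 l a b) (by tauto)
  have e3 : E2 univ * ∑ l ∈ Rᶜ, u l = ∑ l ∈ Rᶜ, ∑ a ∈ R, if ad l a then 0 else
      (∑ b ∈ Rᶜ ∪ R.filter fun b => ¬ ad a b, u b) * (u a * u l) := by
    rw [← sub_add_cancel (E2 univ) (E2 R), add_mul, e1, h.Pm, mul_sum, mul_sum, ← sum_add_distrib]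
    refine sum_congr rfl fun l hl => ?_
    rw [e2 l hl, mul_sum, ← sum_add_distrib]
    refine sum_congr rfl fun a ha => ?_
    by_cases h1 : ad l a
    · simp [h1]
    · rw [if_neg h1, if_neg h1, sum_union (disjoint_left.2 fun b hb e =>
        mem_compl.1 hb (mem_filter.1 e).1), add_mul, h.r1 l a h1, sum_filter, sum_mul (s := R)]
      congr 1
      exact sum_congr rfl fun b _ => by by_cases h2 : ad a b <;> simp [h1, h2, mul_assoc]
  rw [(Hm_comm h.comm.symm (Commute.refl _) _).eq, mul_assoc, e3, h.Pm, mul_sum, mul_sum,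
    ← sum_sub_distrib]
  refine sum_mem fun l hl => ?_
  rw [mul_sum, mul_sum, ← sum_sub_distrib]
  refine sum_mem fun a ha => ?_
  by_cases h1 : ad l a
  · simp [h1, zero_mem]
  · have e4 := h.pair (AddMonoidHom.mulRight (u a * u l)) (fun _ _ => 0)
      (Rᶜ ∪ R.filter fun b => ¬ ad a b) (by simp) fun b hb c hc => by
        by_cases hbc : ad b c
        · simp [hbc]
        · have hcb : ¬ ad c b := fun e => hbc (h.symm _ _ e)
          simp only [if_neg hbc, AddMonoidHom.coe_mulRight, add_zero, ← mul_assoc]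
          simp only [mem_union, mem_compl, mem_filter] at hb hc
          rcases hb with hb | hb <;> rcases hc with hc | hc
          · exact absurd (h.clq b hb c hc) hbc
          · exact h.r3 l (mem_compl.1 hl) b hb c hc.1 a ha h1 hc.2 hcb
          · rw [h.r1 b c hbc]
            exact h.r3 l (mem_compl.1 hl) c hc b hb.1 a ha h1 hb.2 hbc
          · exact absurd (h.no3 a b c) (by tauto)
    simp only [AddMonoidHom.coe_mulRight, sum_const_zero] at e4
    have := mul_mem (h.A_mem d (Rᶜ ∪ R.filter fun b => ¬ ad a b))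
      (mul_mem (Subsemiring.subset_closure (s := Set.range u) ⟨a, rfl⟩)
        (Subsemiring.subset_closure ⟨l, rfl⟩))
    rw [add_mul, mul_assoc _ (E2 _), e4, mul_zero, add_zero, sub_mul, mul_assoc] at this
    rwa [if_neg h1, if_neg h1, h.r1 l a h1]

theorem Alg.y_mem (h : Alg u ad E2 R) (a b : ℕ) :
    Sm (∑ v, u v) (E2 univ) (a + 1) b * ∑ l ∈ Rᶜ, u l -
      Sm (∑ v, u v) (E2 univ) a b * (E2 univ - E2 R) ∈ Subsemiring.closure (Set.range u) := by
  rcases le_or_gt b a with e | e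
  · obtain ⟨d, rfl⟩ := Nat.exists_eq_add_of_le e
    rw [add_assoc, Sm_ge, Sm_ge, mul_assoc, mul_assoc, ← mul_sub]
    exact mul_mem (pow_mem (h.E2_mem _) _) (h.Y_mem d)
  · obtain ⟨d, rfl⟩ := Nat.exists_eq_add_of_le e
    rw [Nat.succ_eq_add_one, Sm_le, show a + 1 + d = a + (d + 1) by omega, Sm_le]
    convert mul_mem (pow_mem (h.E2_mem univ) a) (h.Z_mem d) using 1
    rw [pow_succ]; noncomm_ring

/-- coefficient operators of the x part -/
def cX (e1 e2 L P : A) : ℕ → ℕ → A
  | 0, b => Sm e1 e2 1 b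
  | a + 1, b => Sm e1 e2 (a + 2) b - (Sm e1 e2 (a + 1) b * L - Sm e1 e2 a b * P)

theorem Alg.x_mem (h : Alg u ad E2 R) {a b : ℕ} (hab : b < a) :
    cX (∑ v, u v) (E2 univ) (∑ l ∈ Rᶜ, u l) (E2 univ - E2 R) a b +
      cX (∑ v, u v) (E2 univ) (∑ l ∈ Rᶜ, u l) (E2 univ - E2 R) b a ∈
        Subsemiring.closure (Set.range u) := by
  obtain ⟨d, rfl⟩ := Nat.exists_eq_add_of_lt hab
  rcases b with _ | b
  · have : Sm (∑ v, u v) (E2 univ) 0 d = - Hm (∑ v, u v) (E2 univ) d := by
      simpa using Sm_le _ _ 0 d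
    convert h.X_mem d using 1
    simp only [cX, Sm, zero_add, this]; noncomm_ring
  · have c := (Hm_comm h.comm.symm (Commute.refl (E2 univ)) (d + 2)).eq
    have c' := (Hm_comm h.comm.symm (Commute.refl (E2 univ)) d).eq
    have s1 := Sm_ge (∑ v, u v) (E2 univ) (b + 1) (d + 2)
    have s2 := Sm_ge (∑ v, u v) (E2 univ) (b + 1) (d + 1)
    have s3 := Sm_ge (∑ v, u v) (E2 univ) (b + 1) d
    have s4 := Sm_le (∑ v, u v) (E2 univ) (b + 2) d
    have s5 := Sm_le (∑ v, u v) (E2 univ) (b + 1) (d + 1)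
    have s6 := Sm_le (∑ v, u v) (E2 univ) b (d + 2)
    rw [show b + 2 + d = b + 1 + d + 1 by omega] at s4
    rw [show b + (d + 2) = b + 1 + d + 1 by omega] at s6
    convert mul_mem (mul_mem (pow_mem (h.E2_mem univ) b) (h.pp_mem d)) (h.E2_mem R) using 1
    simp only [cX]
    rw [show b + 1 + d + 2 = b + 1 + (d + 2) from rfl, s1, s3, s4, s6,
      show b + 1 + d + 1 = b + 1 + (d + 1) from rfl, s2, s5]
    generalize Hm (∑ v, u v) (E2 univ) (d + 2) = H2 at *
    generalize Hm (∑ v, u v) (E2 univ) d = H0 at *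
    have c1 : E2 univ ^ b * H2 * E2 univ = E2 univ ^ b * E2 univ * H2 := by
      rw [mul_assoc, ← c, mul_assoc]
    have c2 : E2 univ ^ b * E2 univ * H0 * E2 univ = E2 univ ^ b * E2 univ * E2 univ * H0 := by
      rw [mul_assoc _ H0, ← c', ← mul_assoc]
    simp only [pow_succ, mul_sub, sub_mul, neg_mul, ← mul_assoc, c1, c2]
    abel

theorem Alg.x_mem' (h : Alg u ad E2 R) (a : ℕ) :
    cX (∑ v, u v) (E2 univ) (∑ l ∈ Rᶜ, u l) (E2 univ - E2 R) a a ∈
      Subsemiring.closure (Set.range u) := by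
  rcases a with _ | a
  · simp [cX, Sm, Hm, one_mem]
  · have s1 := Sm_ge (∑ v, u v) (E2 univ) (a + 1) 1
    have s2 := Sm_ge (∑ v, u v) (E2 univ) (a + 1) 0
    have s3 := Sm_le (∑ v, u v) (E2 univ) a 1
    convert mul_mem (pow_mem (h.E2_mem univ) a) (h.E2_mem R) using 1
    simp only [cX]
    rw [s1, s3, show Sm (∑ v, u v) (E2 univ) (a + 1) (a + 1) = _ from s2]
    simp only [Hm, pow_succ]; noncomm_ring

end

end Pool.Agent.Lib.MP_33bfb2_co
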