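import Pool.Agent.Lib.MP_33bfb2_co.Ch

namespace Pool.Agent.Lib.MP_33bfb2_co

open MvPolynomial

abbrev V (n : ℕ) := Fin n × ℤˣ

variable {n : ℕ}

def ng (v : V n) : V n := (v.1, -v.2)

@[simp] theorem ng_ng (v : V n) : ng (ng v) = v := by simp [ng]
@[simp] theorem ng_fst (v : V n) : (ng v).1 = v.1 := rfl
@[simp] theorem ng_snd (v : V n) : (ng v).2 = -v.2 := rfl
theorem ng_mk (i : Fin n) (u : ℤˣ) : ng (i, u) = (i, -u) := rfl

theorem ng_ne (v : V n) : ng v ≠ v := by
  obtain ⟨i, u⟩ := v
  rcases Int.units_eq_one_or u with rfl | rfl <;> simp [ng]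

theorem ng_inj {a b : V n} : ng a = ng b ↔ a = b :=
  ⟨fun h => by rw [← ng_ng a, h, ng_ng], fun h => by rw [h]⟩

theorem eq_or_ng {a b : V n} (h : a.1 = b.1) : a = b ∨ a = ng b := by
  obtain ⟨i, u⟩ := a
  obtain ⟨j, u'⟩ := b
  simp only at h
  subst h
  rcases Int.units_eq_one_or u with rfl | rfl <;> rcases Int.units_eq_one_or u' with rfl | rfl <;>
    simp [ng]

theorem W_ng (w : W n) (v : V n) : w.1 (ng v) = ng (w.1 v) := W_neg w v

theorem mem_W {e : Equiv.Perm (V n)} (h : ∀ v, e (ng v) = ng (e v)) : e ∈ W n := by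
  refine Subgroup.mem_centralizer_iff.2 ?_
  rintro _ rfl
  ext1 v
  exact (h v).symm

def rfun (a b v : V n) : V n :=
  if v = a then b else if v = b then a else if v = ng a then ng b else if v = ng b then ng a else v

theorem rfun_rfun (a b v : V n) : rfun a b (rfun a b v) = v := by
  have := ng_ne a
  have := ng_ne b
  have := ng_ng a
  have := ng_ng b
  unfold rfun
  grind

theorem rfun_ng (a b v : V n) : rfun a b (ng v) = ng (rfun a b v) := by
  have := ng_ne a
  have := ng_ne b
  have := ng_ng a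
  have := ng_ng b
  have := ng_ng v
  unfold rfun
  grind

/-- the reflection exchanging a and b -/
def rf (a b : V n) : W n :=
  ⟨Function.Involutive.toPerm (rfun a b) (rfun_rfun a b), mem_W (rfun_ng a b)⟩

theorem rf_apply (a b v : V n) : (rf a b).1 v = rfun a b v := rfl

theorem W_ext {u w : W n} (h : ∀ v, u.1 v = w.1 v) : u = w := Subtype.ext (Equiv.ext h)

theorem W_mul_apply (u w : W n) (v : V n) : (u * w).1 v = u.1 (w.1 v) := rfl

theorem rf_mul_self (a b : V n) : rf a b * rf a b = 1 := W_ext fun v => rfun_rfun a b v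

theorem rf_symm (a b : V n) : rf b a = rf a b := by
  refine W_ext fun v => ?_
  have := ng_ne a
  have := ng_ne b
  have := ng_ng a
  have := ng_ng b
  simp only [rf_apply, rfun]
  grind

theorem rf_ng (a b : V n) : rf (ng a) (ng b) = rf a b := by
  refine W_ext fun v => ?_
  have := ng_ne a
  have := ng_ne b
  have := ng_ng a
  have := ng_ng b
  simp only [rf_apply, rfun]
  grind

theorem rf_conj (w : W n) (a b : V n) : rf (w.1 a) (w.1 b) * w = w * rf a b := by
  refine W_ext fun v => ?_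
  simp only [W_mul_apply, rf_apply, rfun, ← W_ng, EmbeddingLike.apply_eq_iff_eq]
  split_ifs <;> rfl

theorem rf_left (a b : V n) : (rf a b).1 a = b := by simp [rf_apply, rfun]
theorem rf_right (a b : V n) : (rf a b).1 b = a := by rw [← rf_symm, rf_left]

noncomputable def xv (v : V n) : P n := (v.2 : ℤ) • X v.1

theorem xv_ng (v : V n) : xv (ng v) = - xv v := by simp [xv, ng]

theorem act_xv' (w : W n) (v : V n) : act w (xv v) = xv (w.1 v) := act_xv w v

theorem xv_one (i : Fin n) : xv (i, 1) = X i := by simp [xv]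

theorem act_X (w : W n) (i : Fin n) : act w (X i) = xv (w.1 (i, 1)) := by
  rw [← act_xv', xv_one]

theorem xv_hom (v : V n) : (xv v).IsHomogeneous 1 :=
  (homogeneousSubmodule (Fin n) ℂ 1).toAddSubgroup.zsmul_mem (isHomogeneous_X _ _) _

theorem act_one (f : P n) : act 1 f = f := by
  have : act (1 : W n) = AlgHom.id ℂ _ := by
    apply MvPolynomial.algHom_ext
    intro i
    rw [act_X]; exact xv_one i
  rw [this]; rfl

theorem lab_dvd_xv (a b v : V n) : xv a - xv b ∣ xv v - xv (rfun a b v) := by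
  unfold rfun
  split_ifs with h1 h2 h3 h4
  · rw [h1]
  · rw [h2]; exact ⟨-1, by ring⟩
  · rw [h3, xv_ng, xv_ng]; exact ⟨-1, by ring⟩
  · rw [h4, xv_ng, xv_ng]; exact ⟨1, by ring⟩
  · simp

noncomputable def phi (a b : V n) : P n →ₐ[ℂ] P n :=
  aeval fun k => C (1 / 2 : ℂ) * (X k + xv (rfun a b (k, 1)))

theorem phi_xv (a b v : V n) : phi a b (xv v) = C (1 / 2 : ℂ) * (xv v + xv (rfun a b v)) := by
  obtain ⟨i, u⟩ := v
  rcases Int.units_eq_one_or u with rfl | rfl
  · simp [phi, xv_one]
  · rw [← ng_mk, rfun_ng, xv_ng, xv_ng, map_neg, xv_one]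
    simp only [phi, aeval_X]; ring

theorem half_two : (C (1 / 2 : ℂ) : P n) * 2 = 1 := by
  rw [show (2 : P n) = C 2 from rfl, ← C_mul]; norm_num

theorem dvd_sub_hom {π : P n} (φ : P n →ₐ[ℂ] P n) (h : ∀ k, π ∣ X k - φ (X k)) (f : P n) :
    π ∣ f - φ f := by
  induction f using MvPolynomial.induction_on with
  | C r => simp
  | add p q hp hq =>
    have := dvd_add hp hq
    rwa [map_add, add_sub_add_comm]
  | mul_X p k hp =>
    have : p * X k - φ (p * X k) = (p - φ p) * X k + φ p * (X k - φ (X k)) := by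
      rw [map_mul]; ring
    rw [this]
    exact dvd_add (hp.mul_right _) ((h k).mul_left _)

theorem dvd_iff_phi (a b : V n) (f : P n) : xv a - xv b ∣ f ↔ phi a b f = 0 := by
  constructor
  · rintro ⟨g, rfl⟩
    have e1 : rfun a b a = b := rf_left a b
    have e2 : rfun a b b = a := rf_right a b
    rw [map_mul, map_sub, phi_xv, phi_xv, e1, e2]; ring
  · intro h
    have := dvd_sub_hom (π := xv a - xv b) (phi a b) (fun k => ?_) f
    · rwa [h, sub_zero] at this
    · rw [← xv_one, phi_xv]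
      have e : xv (k, 1) - C (1 / 2 : ℂ) * (xv (k, 1) + xv (rfun a b (k, 1))) =
          C (1 / 2 : ℂ) * (xv (k, 1) - xv (rfun a b (k, 1))) := by
        have := half_two (n := n)
        linear_combination (-xv (k, 1)) * this
      rw [e]
      exact (lab_dvd_xv a b _).mul_left _

def dl (e v : V n) : ℤ := if v = e then 1 else if v = ng e then -1 else 0

theorem eval_xv (e v : V n) :
    eval (Pi.single e.1 ((e.2 : ℤ) : ℂ)) (xv v) = (dl e v : ℂ) := by
  obtain ⟨i, u⟩ := e
  obtain ⟨j, u'⟩ := v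
  by_cases h : j = i
  · subst h
    rcases Int.units_eq_one_or u with rfl | rfl <;> rcases Int.units_eq_one_or u' with rfl | rfl <;>
      simp [xv, dl, ng]
  · simp [xv, dl, ng, h]

theorem xv_inj {a b : V n} (h : xv a = xv b) : a = b := by
  have := congrArg (eval (Pi.single a.1 ((a.2 : ℤ) : ℂ))) h
  rw [eval_xv, eval_xv, Int.cast_inj] at this
  unfold dl at this
  grind

theorem lab_ne {a b : V n} (h : a ≠ b) : xv a - xv b ≠ 0 := fun e => h (xv_inj (sub_eq_zero.1 e))

theorem lab_prime {a b : V n} (h : a ≠ b) : Prime (xv a - xv b) := by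
  refine ⟨lab_ne h, fun hu => ?_, fun f g hfg => ?_⟩
  · have := (dvd_iff_phi a b 1).1 hu.dvd
    simp at this
  · rw [dvd_iff_phi, map_mul, mul_eq_zero] at hfg
    rwa [dvd_iff_phi, dvd_iff_phi]

theorem rf_eq_of_dvd {a b c d : V n} (h : xv a - xv b ∣ xv c - xv d) (hcd : c ≠ d) :
    rf c d = rf a b := by
  rw [dvd_iff_phi, map_sub, phi_xv, phi_xv, ← mul_sub, mul_eq_zero] at h
  have h2 : xv c + xv (rfun a b c) = xv d + xv (rfun a b d) := by
    rcases h with h | h
    · simp at h
    · exact sub_eq_zero.1 h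
  have h3 : ∀ e, dl e c + dl e (rfun a b c) = dl e d + dl e (rfun a b d) := by
    intro e
    have := congrArg (eval (Pi.single e.1 ((e.2 : ℤ) : ℂ))) h2
    simp only [map_add, eval_xv] at this
    exact_mod_cast this
  have hc := h3 c
  have hd := h3 d
  have n1 := ng_ne a
  have n2 := ng_ne b
  have n3 := ng_ng a
  have n4 := ng_ng b
  have n5 := ng_ne c
  have n6 := ng_ne d
  have n7 := ng_ng c
  have n8 := ng_ng d
  have k1 : rfun a b d = c ∨ (rfun a b c = ng c ∧ rfun a b d = ng d) := by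
    generalize rfun a b c = c' at hc hd
    generalize rfun a b d = d' at hc hd
    clear h h2 h3
    unfold dl at hc hd
    grind
  have k2 : ∀ x, rfun a b x = ng x → b = ng a ∧ (x = a ∨ x = b) := by
    intro x hx
    have := ng_ne x
    have := ng_ng x
    clear h h2 h3 hc hd k1
    unfold rfun at hx
    grind
  have key : (c = a ∧ d = b) ∨ (c = b ∧ d = a) ∨ (c = ng a ∧ d = ng b) ∨ (c = ng b ∧ d = ng a) := by
    clear h h2 h3 hc hd
    rcases k1 with k1 | ⟨k1, k3⟩
    · unfold rfun at k1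
      grind
    · have := k2 c k1
      have := k2 d k3
      grind
  rcases key with ⟨rfl, rfl⟩ | ⟨rfl, rfl⟩ | ⟨rfl, rfl⟩ | ⟨rfl, rfl⟩
  · rfl
  · exact rf_symm _ _
  · exact rf_ng _ _
  · rw [rf_ng, rf_symm]

theorem lab_dvd_W (w : W n) (a b v : V n) :
    xv (w.1 a) - xv (w.1 b) ∣ xv (w.1 v) - xv ((w * rf a b).1 v) := by
  have := map_dvd (act w) (lab_dvd_xv a b v)
  simp only [map_sub, act_xv'] at this
  exact this

end Pool.Agent.Lib.MP_33bfb2_co
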