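import Pool.Agent.Lib.MP_33bfb2_co.Wop

namespace Pool.Agent.Lib.MP_33bfb2_co

open Finset

set_option maxHeartbeats 400000

variable {n : ℕ} {T : Type} [CommRing T]

instance (γ : Rt n) : Decidable (isLoop γ) := by unfold isLoop; infer_instance

def nuf (θ : T) (γ : Rt n) (κ : Fin n → ℤ) : T := if isLoop γ ∧ κ γ.1 = 1 then θ else 1

def nu (θ : T) (E : Finset (Rt n)) (κ : Fin n → ℤ) : T := ∏ γ ∈ Eᶜ, nuf θ γ κ

def dlt (n : ℕ) (T : Type) [CommRing T] : St n T := fun U => if U = ∅ then 1 else 0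

def Rep (q θ : T) (F : Finset (Rt n) → St n T) : Prop :=
  ∃ (s : ℕ) (ι : Type) (I : Finset ι) (κ : ι → Fin n → ℤ), 1 ≤ s ∧ (∀ x ∈ I, ∀ i, |κ x i| ≤ s) ∧
    (∀ w : W n, ∃ π : ι → ι, (∀ x ∈ I, π x ∈ I) ∧ Set.InjOn π I ∧
      ∀ x ∈ I, ∀ v, kh (κ (π x)) v = kh (κ x) (w.1 v)) ∧
    ∀ E, F E = ∑ x ∈ I, nu θ E (κ x) • Wk q E (κ x) (dlt n T)

def pull (w : W n) (τ : Finset (V n)) : Finset (V n) := τ.map w.1.symm.toEmbedding

theorem mem_pull {w : W n} {τ : Finset (V n)} {v : V n} : v ∈ pull w τ ↔ w.1 v ∈ τ := by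
  simp [pull]

theorem kh_pull (w : W n) (τ : Finset (V n)) (v : V n) :
    kh (vec (pull w τ)) v = kh (vec τ) (w.1 v) := by
  simp only [kh_vec, mem_pull, W_ng]

theorem inj.pull {τ : Finset (V n)} (h : inj τ) (w : W n) : inj (pull w τ) := by
  intro a ha hb
  rw [mem_pull] at ha hb
  rw [W_ng] at hb
  exact h _ ha hb

theorem pull_card (w : W n) (τ : Finset (V n)) : (pull w τ).card = τ.card := card_map _

theorem pull_inj (w : W n) : Function.Injective (pull w) := map_injective _

theorem vec_abs (τ : Finset (V n)) (i : Fin n) : vec τ i = 0 ∨ vec τ i = 1 ∨ vec τ i = -1 := by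
  unfold vec; split_ifs <;> simp

theorem rep_dlt (q : T) : Rep q 1 fun _ : Finset (Rt n) => dlt n T :=
  ⟨1, Unit, univ, fun _ => 0, le_rfl, by simp, fun _ => ⟨id, by simp, by simp, by simp [kh]⟩,
    fun E => by simp [nu, nuf, Wk_zero]⟩

def RR (E : Finset (Rt n)) : Finset (V n) :=
  univ.filter fun v => ¬ (v.2 = 1 ∧ (v.1, (v.1, -1)) ∉ E)

theorem rep_RR (q : T) (j : ℕ) : Rep q 0 fun E : Finset (Rt n) => Ej q E j (RR E) (dlt n T) := by
  refine ⟨1, _, (powersetCard j univ).filter inj, vec, le_rfl, fun τ _ i => ?_, fun w =>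
    ⟨pull w, fun τ hτ => ?_, (pull_inj w).injOn, fun τ _ => kh_pull w τ⟩, fun E => ?_⟩
  · rcases vec_abs τ i with e | e | e <;> simp [e]
  · simp only [mem_filter, mem_powersetCard_univ] at hτ ⊢
    exact ⟨(pull_card w τ).trans hτ.1, hτ.2.pull w⟩
  · have : powersetCard j (RR E) = (powersetCard j univ).filter (· ⊆ RR E) := by
      ext τ; simp [mem_powersetCard, and_comm]
    simp only [Ej, LinearMap.sum_apply]
    rw [this, sum_filter, sum_filter]
    refine sum_congr rfl fun τ _ => ?_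
    by_cases hi : inj τ
    · rw [if_pos hi, Wt, if_pos hi]
      split_ifs with h
      · rw [nu, prod_eq_one, one_smul]
        rintro ⟨i, c⟩ hγ
        refine if_neg ?_
        rintro ⟨h1, h2⟩
        have h3 : (i, 1) ∈ τ := by
          by_contra e
          simp only [vec, if_neg e] at h2
          split_ifs at h2 <;> omega
        simp only [isLoop] at h1
        subst h1
        exact (mem_filter.1 (h h3)).2 ⟨rfl, mem_compl.1 hγ⟩
      · obtain ⟨⟨i, u⟩, h1, h2⟩ := not_subset.1 h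
        simp only [RR, mem_filter, mem_univ, true_and, not_not] at h2
        obtain ⟨rfl, h2⟩ := h2
        rw [nu, prod_eq_zero (mem_compl.2 h2), zero_smul]
        refine if_pos ⟨rfl, ?_⟩
        rw [← kh_one (vec τ), kh_vec, if_pos h1, if_neg (hi _ h1)]; rfl
    · simp [hi, Wt]

theorem Rep.Ej {q θ : T} {F : Finset (Rt n) → St n T} (h : Rep q θ F) (j : ℕ) :
    Rep q θ fun E => Ej q E j univ (F E) := by
  obtain ⟨s, ι, I, κ, h0, h1, h2, h3⟩ := h
  classical
  refine ⟨s + 1, Finset (V n) × ι, (powersetCard j univ ×ˢ I).filter fun p =>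
    inj p.1 ∧ ∀ v, kh (vec p.1) v = 0 ∨ kh (κ p.2) v = 0,
    fun p => ((s : ℤ) + 1) • vec p.1 + κ p.2, by omega, fun p hp i => ?_, fun w => ?_, fun E => ?_⟩
  · simp only [mem_filter, mem_product] at hp
    have a := hp.2.2 (i, 1)
    have b := abs_le.1 (h1 _ hp.1.2 i)
    rw [kh_one, kh_one] at a
    simp only [Pi.add_apply, Pi.smul_apply, smul_eq_mul, abs_le, Nat.cast_add, Nat.cast_one]
    rcases vec_abs p.1 i with e | e | e <;> rw [e] at a ⊢ <;> omega
  · obtain ⟨π, p1, p2, p3⟩ := h2 w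
    refine ⟨fun p => (pull w p.1, π p.2), fun p hp => ?_, fun p hp p' hp' e => ?_,
      fun p hp v => ?_⟩
    · simp only [mem_filter, mem_product, mem_powersetCard_univ] at hp ⊢
      refine ⟨⟨(pull_card w _).trans hp.1.1, p1 _ hp.1.2⟩, hp.2.1.pull w, fun v => ?_⟩
      rw [kh_pull, p3 _ hp.1.2]; exact hp.2.2 _
    · simp only [coe_filter, mem_product, Set.mem_ofPred_eq, Prod.mk.injEq] at hp hp' e
      exact Prod.ext (pull_inj w e.1) (p2 hp.1.2 hp'.1.2 e.2)
    · simp only [mem_filter, mem_product] at hp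
      simp only [kh_add, kh_smul, kh_pull, p3 _ hp.1.2]
  · simp only [h3, MP_33bfb2_co.Ej, LinearMap.sum_apply, map_sum, map_smul, smul_sum]
    rw [sum_filter, sum_product, sum_comm]
    refine sum_congr rfl fun τ _ => sum_congr rfl fun x hx => ?_
    by_cases hi : inj τ
    swap
    · simp [hi, Wt]
    rw [Wt, if_pos hi]
    have b := fun i => abs_le.1 (h1 x hx i)
    split_ifs with hd
    · have hd' : ∀ i, vec τ i = 0 ∨ κ x i = 0 := fun i => by simpa [kh_one] using hd.2 (i, 1)
      have e1 : nu θ E (((s : ℤ) + 1) • vec τ + κ x) = nu θ E (κ x) := by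
        refine prod_congr rfl fun γ _ => if_congr (and_congr_right fun _ => ?_) rfl rfl
        have := hd' γ.1
        simp only [Pi.add_apply, Pi.smul_apply, smul_eq_mul]
        rcases vec_abs τ γ.1 with e | e | e <;> rw [e] at this ⊢ <;> omega
      rw [e1, ← Wk_mul, Wk_smul (by omega)]
      · rfl
      · intro i
        have := hd' i
        simp only [Pi.smul_apply, smul_eq_mul, mul_eq_zero]; omega
      · rintro ⟨i, j, u⟩ _ m
        have d1 := hd' i
        have d2 := hd' j
        have b1 := b i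
        have b2 := b j
        simp only [Pi.smul_apply, smul_eq_mul] at m
        simp only [vl, kh, Pi.add_apply, Pi.smul_apply, smul_eq_mul]
        rcases Int.units_eq_one_or u with rfl | rfl <;>
          rcases vec_abs τ i with e | e | e <;> rcases vec_abs τ j with e' | e' | e' <;>
          rw [e] at d1 m ⊢ <;> rw [e'] at d2 m ⊢ <;>
          simp only [Units.val_one, Units.val_neg] <;>
          refine chi_congr q ?_ ?_ <;> omega
    · have : ∃ v, kh (vec τ) v ≠ 0 ∧ kh (κ x) v ≠ 0 := by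
        by_contra hc
        refine hd ⟨hi, fun v => ?_⟩
        by_contra hc'
        exact hc ⟨v, by tauto⟩
      obtain ⟨v, v1, v2⟩ := this
      rw [Ne, kh_eq_zero] at v1 v2
      rw [(van_Wk v2 _).kill v1, smul_zero]

def fac (q θ : T) (E : Finset (Rt n)) (κ : Fin n → ℤ) (γ : Rt n) : T :=
  if γ ∈ E then chi q (vl (kh κ) γ) else nuf θ γ κ

theorem eval_univ (q θ : T) (E : Finset (Rt n)) (κ : Fin n → ℤ) :
    (nu θ E κ • Wk q E κ (dlt n T)) univ = if ∀ i, κ i ≠ 0 then ∏ γ, fac q θ E κ γ else 0 := by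
  rw [Pi.smul_apply, Wk_apply, if_pos (subset_univ _), dlt, smul_eq_mul]
  by_cases h : ∀ i, κ i ≠ 0
  · rw [if_pos h, if_pos (by ext i; simp [mem_spp, h i]), mul_one, ← prod_mul_prod_compl E,
      mul_comm]
    congr 1
    · exact prod_congr rfl fun γ hγ => by simp [fac, hγ, h]
    · exact prod_congr rfl fun γ hγ => by simp [fac, mem_compl.1 hγ]
  · rw [if_neg h, if_neg, mul_zero, mul_zero]
    intro e
    refine h fun i => ?_
    have : i ∉ univ \ spp κ := by rw [e]; simp
    simpa [mem_spp] using this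

theorem local_law (q θ : T) {E : Finset (Rt n)} {α β β' : Rt n} {σ : Rt n → Rt n}
    (t : Trip E α β β' σ) {κ κ' : Fin n → ℤ} (hκ : ∀ i, κ i ≠ 0)
    (h : ∀ v, kh κ' v = kh κ ((rf (α.1, 1) α.2).1 v)) :
    (1 + q) * (∏ γ, fac q θ (insert β E) κ γ + ∏ γ, fac q θ (insert β E) κ' γ) =
      (∏ γ, fac q θ (insert β' (insert β E)) κ γ + ∏ γ, fac q θ (insert β' (insert β E)) κ' γ) +
        q * (∏ γ, fac q θ E κ γ + ∏ γ, fac q θ E κ' γ) := by
  have n1 : β ≠ α := t.βα
  have n2 : β' ≠ α := fun e => t.hβ' (e ▸ t.hα)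
  have n3 := t.hne
  have σβ' : σ β' = β := by rw [← t.σβ, t.inv]
  have split : ∀ g : Rt n → T, ∏ γ, g γ =
      g α * g β * g β' * ∏ γ ∈ ((univ.erase α).erase β).erase β', g γ := by
    intro g
    rw [← mul_prod_erase _ _ (mem_univ α), ← mul_prod_erase (a := β) _ _ (by simp [n1]),
      ← mul_prod_erase (a := β') _ _ (by simp [n2, n3.symm])]
    ring
  have hv : ∀ γ, can γ → γ ≠ α → vl (kh κ') γ = vl (kh κ) (σ γ) := fun γ a b => by
    rw [vl_par (kh_ng κ) (t.par γ a b)]
    simp only [vl, h]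
  have hn : ∀ γ, γ ≠ α → nuf θ γ κ' = nuf θ (σ γ) κ := by
    intro γ b
    by_cases l : isLoop γ
    · have e : ((σ γ).1, 1) = (rf (α.1, 1) α.2).1 (γ.1, 1) := by
        rcases t.par γ (Or.inr l) b with e | e
        · exact e.1
        · rw [e.1, show γ.2 = ng (γ.1, 1) from l, W_ng, ng_ng]
      simp only [nuf, l, t.loop γ l, true_and]
      rw [← kh_one κ', ← kh_one κ, h, e]
    · have l' : ¬ isLoop (σ γ) := fun e => l (by have := t.loop _ e; rwa [t.inv] at this)
      simp [nuf, l, l']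
  have hR : ∏ γ ∈ ((univ.erase α).erase β).erase β', fac q θ E κ' γ =
      ∏ γ ∈ ((univ.erase α).erase β).erase β', fac q θ E κ γ := by
    have m : ∀ γ ∈ ((univ.erase α).erase β).erase β', σ γ ∈ ((univ.erase α).erase β).erase β' := by
      intro γ hγ
      simp only [mem_erase, mem_univ, and_true] at hγ ⊢
      refine ⟨fun e => hγ.2.1 ?_, fun e => hγ.1 ?_, fun e => hγ.2.2 ?_⟩ <;>
        rw [← t.inv γ, e]
      exacts [σβ', t.σβ, t.σα]
    refine prod_bij' (fun γ _ => σ γ) (fun γ _ => σ γ) m m (fun γ _ => t.inv γ)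
      (fun γ _ => t.inv γ) fun γ hγ => ?_
    simp only [mem_erase, mem_univ, and_true] at hγ
    by_cases e : γ ∈ E
    · simp only [fac, e, t.mem γ e, if_true, hv γ (t.hE γ e) hγ.2.2]
    · have e' : σ γ ∉ E := fun e' => e (by have := t.mem _ e'; rwa [t.inv] at this)
      simp only [fac, e, e', if_false, hn γ hγ.2.2]
  have r1 : ∀ κ, ∏ γ ∈ ((univ.erase α).erase β).erase β', fac q θ (insert β E) κ γ =
      ∏ γ ∈ ((univ.erase α).erase β).erase β', fac q θ E κ γ := fun κ =>
    prod_congr rfl fun γ hγ => by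
      simp only [mem_erase] at hγ
      simp [fac, hγ.2.1]
  have r2 : ∀ κ, ∏ γ ∈ ((univ.erase α).erase β).erase β', fac q θ (insert β' (insert β E)) κ γ =
      ∏ γ ∈ ((univ.erase α).erase β).erase β', fac q θ E κ γ := fun κ =>
    prod_congr rfl fun γ hγ => by
      simp only [mem_erase] at hγ
      simp [fac, hγ.2.1, hγ.1]
  have a1 : vl (kh κ') α = - vl (kh κ) α := by
    simp only [vl, h, rf_left, rf_right]; ring
  simp only [split (fac _ _ _ _), r1, r2, hR]
  generalize ∏ γ ∈ ((univ.erase α).erase β).erase β', fac q θ E κ γ = R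
  simp only [fac, mem_insert, t.hα, t.hβ, t.hβ', n3, n3.symm, or_true, or_false, if_true,
    if_false, a1, hv β t.cβ n1, hv β' t.cβ' n2, hn β n1, hn β' n2, t.σβ, σβ']
  rcases t.lin with ⟨l, e⟩ | ⟨l, e⟩
  · have l' : ¬ isLoop β' := fun e => l (σβ' ▸ t.loop _ e)
    rw [e ℤ _ (kh_ng κ)]
    simp only [nuf, l, l', false_and, if_false, chi]
    generalize vl (kh κ) α = A, vl (kh κ) β = B
    split_ifs <;> first | (exfalso; omega) | ring
  · have l' : isLoop β' := t.σβ ▸ t.loop _ l
    have e1 := e ℤ _ (kh_ng κ)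
    have e2 : ∀ γ : Rt n, isLoop γ → vl (kh κ) γ = 2 * κ γ.1 := fun γ l => by
      rw [vl, show γ.2 = ng (γ.1, 1) from l, kh_ng, kh_one]; ring
    rw [e2 β l, e2 β' l'] at e1 ⊢
    simp only [nuf, l, l', true_and, chi]
    have := hκ β.1
    have := hκ β'.1
    generalize vl (kh κ) α = A at *
    generalize κ β.1 = B at *
    generalize κ β'.1 = B' at *
    split_ifs <;> first | (exfalso; omega) | ring

theorem Rep.tlaw {q θ : T} (h2 : ∀ a : T, a + a = 0 → a = 0) {F : Finset (Rt n) → St n T}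
    (h : Rep q θ F) : TLaw q fun E => F E univ := by
  obtain ⟨s, ι, I, κ, -, -, h1, h3⟩ := h
  intro E α β β' σ t
  obtain ⟨π, p1, p2, p3⟩ := h1 (rf (α.1, 1) α.2)
  have key : ∀ E, F E univ + F E univ = ∑ x ∈ I, if ∀ i, κ x i ≠ 0 then
      ∏ γ, fac q θ E (κ x) γ + ∏ γ, fac q θ E (κ (π x)) γ else 0 := by
    intro E
    rw [h3, Finset.sum_apply]
    simp only [eval_univ]
    nth_rewrite 2 [← sum_nbij π p1 p2 (surjOn_of_injOn_of_card_le π p1 p2 le_rfl)
      (f := fun x => if ∀ i, κ (π x) i ≠ 0 then ∏ γ, fac q θ E (κ (π x)) γ else 0) fun _ _ => rfl]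
    rw [← sum_add_distrib]
    refine sum_congr rfl fun x hx => ?_
    have : (∀ i, κ (π x) i ≠ 0) ↔ ∀ i, κ x i ≠ 0 := by
      constructor
      · intro h i
        have := h ((rf (α.1, 1) α.2).1 (i, 1)).1
        rwa [Ne, ← kh_eq_zero, p3 x hx, ← W_mul_apply, rf_mul_self, kh_eq_zero] at this
      · intro h i
        rw [← kh_one (κ (π x)), p3 x hx, Ne, kh_eq_zero]; exact h _
    simp only [this]
    split_ifs <;> simp
  rw [← sub_eq_zero]
  refine h2 _ ?_
  have : (1 + q) * (F (insert β E) univ + F (insert β E) univ) =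
      (F (insert β' (insert β E)) univ + F (insert β' (insert β E)) univ) +
        q * (F E univ + F E univ) := by
    simp only [key, mul_sum, ← sum_add_distrib]
    refine sum_congr rfl fun x hx => ?_
    split_ifs with e
    · exact local_law q θ t e (p3 x hx)
    · simp
  linear_combination this

def Good (n : ℕ) (q : T) : Submodule T (Finset (Rt n) → St n T) :=
  Submodule.span T {F | ∃ θ, Rep q θ F}

theorem good_Ej {q : T} {F : Finset (Rt n) → St n T} (h : F ∈ Good n q) (j : ℕ) :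
    (fun E => Ej q E j univ (F E)) ∈ Good n q := by
  induction h using Submodule.span_induction with
  | mem F hF => obtain ⟨θ, h⟩ := hF; exact Submodule.subset_span ⟨θ, h.Ej j⟩
  | zero => simp only [Pi.zero_apply, map_zero]; exact zero_mem _
  | add F G _ _ hF hG => simp only [Pi.add_apply, map_add]; exact add_mem hF hG
  | smul c F _ hF => simp only [Pi.smul_apply, map_smul]; exact Submodule.smul_mem _ c hF

theorem good_tlaw {q : T} (h2 : ∀ a : T, a + a = 0 → a = 0) {F : Finset (Rt n) → St n T}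
    (h : F ∈ Good n q) : TLaw q fun E => F E univ := by
  induction h using Submodule.span_induction with
  | mem F hF => obtain ⟨θ, h⟩ := hF; exact h.tlaw h2
  | zero => intro E α β β' σ _; simp
  | add F G _ _ hF hG =>
    intro E α β β' σ t
    simp only [Pi.add_apply]
    linear_combination hF E α β β' σ t + hG E α β β' σ t
  | smul c F _ hF =>
    intro E α β β' σ t
    simp only [Pi.smul_apply, smul_eq_mul]
    linear_combination c * hF E α β β' σ t

def Yt (q : T) (E : Finset (Rt n)) : ℕ → St n T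
  | j => (-1 : T) ^ j • Ej q E j (RR E) (dlt n T) +
      ∑ i : Fin j, (-1 : T) ^ (i : ℕ) • Ej q E (i + 1) univ (Yt q E (j - 1 - i))
decreasing_by have := i.2; omega

theorem good_Yt (q : T) (j : ℕ) : (fun E => Yt q E j) ∈ Good n q := by
  induction j using Nat.strong_induction_on with
  | _ j ih =>
  have : (fun E : Finset (Rt n) => Yt q E j) =
      (-1 : T) ^ j • (fun E => Ej q E j (RR E) (dlt n T)) + ∑ i : Fin j, (-1 : T) ^ (i : ℕ) •
        fun E => Ej q E (i + 1) univ (Yt q E (j - 1 - i)) := by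
    funext E
    rw [Yt]
    simp only [Pi.add_apply, Pi.smul_apply, Finset.sum_apply]
  rw [this]
  exact add_mem (Submodule.smul_mem _ _ (Submodule.subset_span ⟨0, rep_RR q j⟩))
    (Submodule.sum_mem _ fun i _ => Submodule.smul_mem _ _
      (good_Ej (ih _ (by have := i.2; omega)) _))

def Ex (q : T) (E : Finset (Rt n)) (x : T) : Module.End T (St n T) :=
  ∑ j ∈ range (2 * n + 2 + 1), x ^ j • Ej q E j univ

def CC (q : T) (xs : List T) (ε : ℕ → T) (E : Finset (Rt n)) : T :=
  (xs.map (Ex q E)).prod (∑ j ∈ range (n + 1), ε j • Yt q E j) univ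

theorem CC_tlaw {q : T} (h2 : ∀ a : T, a + a = 0 → a = 0) (xs : List T) (ε : ℕ → T) :
    TLaw q (CC (n := n) q xs ε) := by
  refine good_tlaw h2 (F := fun E => (xs.map (Ex q E)).prod (∑ j ∈ range (n + 1), ε j • Yt q E j))
    ?_
  induction xs with
  | nil =>
    have : (fun E : Finset (Rt n) => ∑ j ∈ range (n + 1), ε j • Yt q E j) =
        ∑ j ∈ range (n + 1), ε j • fun E => Yt q E j := by
      funext E; simp only [Finset.sum_apply, Pi.smul_apply]
    simp only [List.map_nil, List.prod_nil, Module.End.one_apply, this]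
    exact Submodule.sum_mem _ fun j _ => Submodule.smul_mem _ _ (good_Yt q j)
  | cons x xs ih =>
    have : ∀ F : Finset (Rt n) → St n T, (fun E => Ex q E x (F E)) =
        ∑ j ∈ range (2 * n + 2 + 1), x ^ j • fun E => Ej q E j univ (F E) := by
      intro F
      funext E; simp only [Ex, Finset.sum_apply, Pi.smul_apply, LinearMap.sum_apply,
        LinearMap.smul_apply]
    simp only [List.map_cons, List.prod_cons, Module.End.mul_apply, this]
    exact Submodule.sum_mem _ fun j _ => Submodule.smul_mem _ _ (good_Ej ih j)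

end Pool.Agent.Lib.MP_33bfb2_co
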