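import Pool.Agent.Lib.MP_33bfb2_co.LLaw

namespace Pool.Agent.Lib.MP_33bfb2_co

open Finset

set_option maxHeartbeats 400000

theorem prod_dvd_primes {R ι : Type} [CommRing R] [IsDomain R] (S : Finset ι) (π : ι → R) (z : R)
    (hp : ∀ i ∈ S, Prime (π i)) (hn : ∀ i ∈ S, ∀ j ∈ S, i ≠ j → ¬ π i ∣ π j)
    (hd : ∀ i ∈ S, π i ∣ z) : ∏ i ∈ S, π i ∣ z := by
  classical
  induction S using Finset.induction_on with
  | empty => simp
  | insert a S ha ih =>
    obtain ⟨y, rfl⟩ := ih (fun i hi => hp i (mem_insert_of_mem hi))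
      (fun i hi j hj => hn i (mem_insert_of_mem hi) j (mem_insert_of_mem hj))
      (fun i hi => hd i (mem_insert_of_mem hi))
    have h1 := hp a (mem_insert_self _ _)
    rw [prod_insert ha, mul_comm (π a)]
    refine mul_dvd_mul_left _ ((h1.dvd_or_dvd (hd a (mem_insert_self _ _))).resolve_left ?_)
    rw [h1.dvd_finsetProd_iff]
    rintro ⟨j, hj, h⟩
    exact hn a (mem_insert_self _ _) j (mem_insert_of_mem hj) (fun e => ha (e ▸ hj)) h

theorem newton {R ι : Type} [CommRing R] [IsDomain R] (B : Finset ι) (y d : ι → R)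
    (hp : ∀ i ∈ B, ∀ j ∈ B, i ≠ j → Prime (y i - y j))
    (hn : ∀ i ∈ B, ∀ j ∈ B, ∀ l ∈ B, i ≠ j → i ≠ l → j ≠ l → ¬ y i - y j ∣ y i - y l)
    (hd : ∀ i ∈ B, ∀ j ∈ B, y i - y j ∣ d i - d j) :
    ∃ p : Polynomial R, p.degree < B.card ∧ ∀ i ∈ B, p.eval (y i) = d i := by
  classical
  induction B using Finset.induction_on with
  | empty => exact ⟨0, by simp, by simp⟩
  | insert a B ha ih =>
    have m := mem_insert_self a B
    have m' : ∀ i ∈ B, i ∈ insert a B := fun i => mem_insert_of_mem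
    have ne : ∀ i ∈ B, a ≠ i := fun i hi e => ha (e ▸ hi)
    obtain ⟨p, p1, p2⟩ := ih (fun i hi j hj => hp i (m' i hi) j (m' j hj))
      (fun i hi j hj l hl => hn i (m' i hi) j (m' j hj) l (m' l hl))
      (fun i hi j hj => hd i (m' i hi) j (m' j hj))
    obtain ⟨c, hc⟩ := prod_dvd_primes B (fun j => y a - y j) (d a - p.eval (y a))
      (fun j hj => hp a m j (m' j hj) (ne j hj))
      (fun j hj l hl h => hn a m j (m' j hj) l (m' l hl) (ne j hj) (ne l hl) h)
      (fun j hj => by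
        have := dvd_sub (hd a m j (m' j hj)) (Polynomial.sub_dvd_eval_sub (y a) (y j) p)
        rw [p2 j hj] at this
        convert this using 1; ring)
    refine ⟨p + Polynomial.C c * ∏ j ∈ B, (Polynomial.X - Polynomial.C (y j)), ?_, ?_⟩
    · rw [card_insert_of_notMem ha]
      refine (Polynomial.degree_add_le _ _).trans_lt (max_lt (p1.trans ?_) ?_)
      · exact_mod_cast Nat.lt_succ_self _
      · rw [← Polynomial.smul_eq_C_mul]
        refine (Polynomial.degree_smul_le _ _).trans_lt ?_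
        rw [Polynomial.degree_prod]
        simp only [Polynomial.degree_X_sub_C, sum_const, nsmul_eq_mul, mul_one]
        exact_mod_cast Nat.lt_succ_self _
    · intro i hi
      simp only [Polynomial.eval_add, Polynomial.eval_mul, Polynomial.eval_C, Polynomial.eval_prod,
        Polynomial.eval_sub, Polynomial.eval_X]
      rcases mem_insert.1 hi with rfl | hi
      · linear_combination - hc
      · rw [prod_eq_zero hi (sub_self _), p2 i hi]; ring

variable {n : ℕ}

noncomputable def Nt (z : Fn n) (M : Submodule (P n) (Fn n)) : ℕ → Submodule (P n) (Fn n)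
  | 0 => ⊥
  | j + 1 => Nt z M j ⊔ mz (z ^ j) M

theorem mem_Nt {z : Fn n} {M : Submodule (P n) (Fn n)} {j : ℕ} {ρ : Fn n} :
    ρ ∈ Nt z M j ↔ ∃ σ : ℕ → Fn n, (∀ i, σ i ∈ M) ∧ ρ = ∑ i ∈ range j, z ^ i * σ i := by
  induction j generalizing ρ with
  | zero =>
    simp only [Nt, Submodule.mem_bot, range_zero, sum_empty]
    exact ⟨fun h => ⟨0, fun _ => zero_mem _, h⟩, fun ⟨_, _, h⟩ => h⟩
  | succ j ih =>
    rw [Nt, Submodule.mem_sup]
    constructor
    · rintro ⟨a, ha, _, ⟨τ, hτ, rfl⟩, rfl⟩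
      obtain ⟨σ, hσ, rfl⟩ := ih.1 ha
      refine ⟨fun i => if i = j then τ else σ i, fun i => ?_, ?_⟩
      · beta_reduce
        split_ifs
        · exact hτ
        · exact hσ i
      · beta_reduce
        rw [sum_range_succ, if_pos rfl]
        congr 1
        exact sum_congr rfl fun i hi => by rw [if_neg (mem_range.1 hi).ne]
    · rintro ⟨σ, hσ, rfl⟩
      exact ⟨_, ih.2 ⟨σ, hσ, rfl⟩, _, ⟨σ j, hσ j, rfl⟩, (sum_range_succ _ _).symm⟩

theorem ch_Nt {z : Fn n} (hz : Inv z 1) {M : Submodule (P n) (Fn n)} (hM : GS M) {r : ℕ}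
    (hi : ∀ σ : ℕ → Fn n, (∀ i, σ i ∈ M) → ∑ i ∈ range r, z ^ i * σ i = 0 → ∀ i < r, σ i = 0)
    (u : W n) : ∀ j ≤ r, GS (Nt z M j) ∧ ch (Nt z M j) u = qi PowerSeries.X j * ch M u := by
  intro j hj
  induction j with
  | zero => exact ⟨GS.bot, by rw [Nt, ch_bot, qi_zero, zero_mul]⟩
  | succ j ih =>
    obtain ⟨g, e⟩ := ih (by omega)
    refine ⟨g.sup (hM.mz (hz.pow j)), ?_⟩
    rw [Nt, ch_sup g (hM.mz (hz.pow j)), ch_mz (hz.pow j) hM, e, qi_succ, add_mul]
    rw [Submodule.disjoint_def]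
    rintro _ h ⟨τ, hτ, rfl⟩
    obtain ⟨σ, hσ, e⟩ := mem_Nt.1 h
    have := hi (fun i => if i < j then σ i else if i = j then - τ else 0) (fun i => ?_) ?_ j hj
    · simp only [lt_irrefl, if_false, if_true, neg_eq_zero] at this
      rw [this, map_zero]
    · split_ifs
      · exact hσ i
      · exact neg_mem hτ
      · exact zero_mem _
    · rw [← sum_range_add_sum_Ico _ hj, sum_range_succ, sum_eq_zero (s := Ico _ _),
        sum_congr rfl (g := fun i => z ^ i * σ i), ← e]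
      · simp
      · intro i hi; rw [if_pos (mem_range.1 hi)]
      · intro i hi
        have := mem_Ico.1 hi
        rw [if_neg (by omega), if_neg (by omega), mul_zero]

def lift (g : Equiv.Perm (Fin n)) : W n :=
  ⟨Equiv.prodCongr g (Equiv.refl _), mem_W fun _ => rfl⟩

theorem lift_apply (g : Equiv.Perm (Fin n)) (v : V n) : (lift g).1 v = (g v.1, v.2) := rfl

theorem lift_mul (g g' : Equiv.Perm (Fin n)) : lift (g * g') = lift g * lift g' :=
  W_ext fun _ => rfl

theorem rf_lift (i j : Fin n) : rf (i, 1) (j, 1) = lift (Equiv.swap i j) :=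
  W_ext fun v => rf_swap i j v

section
variable {B : Type} [DecidableEq B] (blk : Fin n → B) (lp : B → Prop)

def Rb (x y : V n) : Prop :=
  x.2 = 1 ∧ ((y.2 = 1 ∧ x.1 ≠ y.1 ∧ blk x.1 = blk y.1) ∨ (y = ng x ∧ lp (blk x.1)))

def Gk (k : ℕ) : Set (W n) :=
  {s | ∃ g, s = lift g ∧ (∀ i, blk (g i) = blk i) ∧ ∀ i : Fin n, k ≤ i → g i = i}

noncomputable def Mk (k : ℕ) : Submodule (P n) (Fn n) := SR (Rb blk lp) ⊓ InvS (Gk blk k)

def Bk (k : Fin n) : Finset (Fin n) := univ.filter fun j => j ≤ k ∧ blk j = blk k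

variable {blk lp}

omit [DecidableEq B] in
theorem Rb.ne {x y : V n} (h : Rb blk lp x y) : x ≠ y := by
  rintro rfl
  rcases h.2 with h | h
  · exact h.2.1 rfl
  · exact ng_ne x h.1.symm

omit [DecidableEq B] in
theorem Rb.lift {x y : V n} (h : Rb blk lp x y) {g : Equiv.Perm (Fin n)}
    (hg : ∀ i, blk (g i) = blk i) : Rb blk lp ((lift g).1 x) ((lift g).1 y) := by
  refine ⟨h.1, h.2.imp (fun h => ⟨h.1, fun e => h.2.1 (g.injective e), ?_⟩) fun h => ⟨?_, ?_⟩⟩
  · simp only [lift_apply, hg, h.2.2]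
  · rw [h.1, W_ng]
  · simp only [lift_apply, hg, h.2]

theorem mem_Bk {k j : Fin n} : j ∈ Bk blk k ↔ j ≤ k ∧ blk j = blk k := by simp [Bk]

omit [DecidableEq B] in
theorem blk_swap {i j : Fin n} (h : blk i = blk j) (t : Fin n) :
    blk (Equiv.swap i j t) = blk t := by
  rw [Equiv.swap_apply_def]; split_ifs <;> simp_all

theorem swap_Gk {k i j : Fin n} (hi : i ∈ Bk blk k) (hj : j ∈ Bk blk k) :
    lift (Equiv.swap i j) ∈ Gk blk (k + 1) := by
  rw [mem_Bk] at hi hj
  refine ⟨_, rfl, blk_swap (hi.2.trans hj.2.symm), fun t ht => ?_⟩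
  have h1 := hi.1
  have h2 := hj.1
  rw [Fin.le_def] at h1 h2
  exact Equiv.swap_apply_of_ne_of_ne (by rw [Ne, Fin.ext_iff]; omega)
    (by rw [Ne, Fin.ext_iff]; omega)

theorem node_inj (w : W n) (S : Finset (Fin n)) :
    Set.InjOn (fun j => xv (w.1 (j, 1))) S := fun _ _ _ _ e => by
  simpa using xv_inj e

theorem coset {k : Fin n} {ρ : Fn n} (hρ : ρ ∈ InvS (Gk blk k)) {g : Equiv.Perm (Fin n)}
    (h1 : ∀ i, blk (g i) = blk i) (h2 : ∀ i : Fin n, (k : ℕ) + 1 ≤ i → g i = i) {j : Fin n}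
    (hj : j ∈ Bk blk k) : g j ∈ Bk blk k ∧
      ∀ w, ρ (w * lift g * lift (Equiv.swap j k)) = ρ (w * lift (Equiv.swap (g j) k)) := by
  rw [mem_Bk] at hj
  have hle : ∀ t : Fin n, t ≤ k → ∀ i : Fin n, (k : ℕ) + 1 ≤ i → i ≠ t := fun t ht i hi => by
    rw [Fin.le_def] at ht; rw [Ne, Fin.ext_iff]; omega
  have hgj : g j ≤ k := by
    by_contra hc
    have := h2 (g j) (by rw [Fin.le_def] at hc; omega)
    rw [g.injective this] at hc
    exact hc hj.1
  refine ⟨mem_Bk.2 ⟨hgj, (h1 j).trans hj.2⟩, fun w => ?_⟩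
  have e : w * lift g * lift (Equiv.swap j k) = w * lift (Equiv.swap (g j) k) *
      lift (Equiv.swap (g j) k * g * Equiv.swap j k) := by
    simp only [mul_assoc, ← lift_mul, Equiv.swap_mul_self_mul]
  rw [e]
  refine hρ _ ⟨_, rfl, fun i => ?_, fun i hi => ?_⟩ _
  · simp only [Equiv.Perm.mul_apply]
    rw [blk_swap ((h1 j).trans hj.2), h1, blk_swap hj.2]
  · simp only [Equiv.Perm.mul_apply]
    by_cases e : i = k
    · rw [e, Equiv.swap_apply_right, Equiv.swap_apply_left]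
    · have hi' : (k : ℕ) + 1 ≤ i := by rw [Fin.ext_iff] at e; omega
      rw [Equiv.swap_apply_of_ne_of_ne (hle j hj.1 i hi') e, h2 i hi',
        Equiv.swap_apply_of_ne_of_ne (hle _ hgj i hi') e]

theorem tower_span {k : Fin n} {ρ : Fn n} (hρ : ρ ∈ Mk blk lp k) :
    ρ ∈ Nt (xR (k, 1)) (Mk blk lp (k + 1)) (Bk blk k).card := by
  have hk : k ∈ Bk blk k := mem_Bk.2 ⟨le_rfl, rfl⟩
  have conj : ∀ (w : W n) (c d : V n), Rb blk lp c d → ∀ j ∈ Bk blk k,
      xv (w.1 c) - xv (w.1 d) ∣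
        ρ (w * lift (Equiv.swap j k)) - ρ (w * rf c d * lift (Equiv.swap j k)) := by
    intro w c d h j hj
    have t : lift (Equiv.swap j k) * lift (Equiv.swap j k) = 1 := by
      rw [← rf_lift, rf_mul_self]
    have := hρ.1 _ _ (h.lift (blk_swap (mem_Bk.1 hj).2)) (w * lift (Equiv.swap j k))
    have e : lift (Equiv.swap j k) * rf ((lift (Equiv.swap j k)).1 c) ((lift (Equiv.swap j k)).1 d)
        = rf c d * lift (Equiv.swap j k) := by
      have := rf_conj (lift (Equiv.swap j k)) c d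
      calc _ = lift (Equiv.swap j k) * (rf ((lift (Equiv.swap j k)).1 c)
            ((lift (Equiv.swap j k)).1 d) * lift (Equiv.swap j k)) * lift (Equiv.swap j k) := by
            rw [mul_assoc, mul_assoc, t, mul_one]
        _ = _ := by rw [this, ← mul_assoc, t, one_mul]
    rwa [← W_mul_apply, ← W_mul_apply, mul_assoc w _ (lift _), t, mul_one, mul_assoc w, e,
      ← mul_assoc] at this
  have ex : ∀ w : W n, ∃ p : Polynomial (P n), p.degree < (Bk blk k).card ∧
      ∀ j ∈ Bk blk k, p.eval (xv (w.1 (j, 1))) = ρ (w * lift (Equiv.swap j k)) := by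
    intro w
    have ne : ∀ i j : Fin n, i ≠ j → w.1 (i, 1) ≠ w.1 (j, 1) := fun i j h e => h (by simpa using e)
    refine newton _ _ _ (fun i _ j _ h => lab_prime (ne i j h)) (fun i _ j _ l _ h1 h2 h3 h => ?_)
      (fun i hi j hj => ?_)
    · have := congrArg (fun s : W n => s.1 (i, 1)) (rf_W_inj (rf_eq_of_dvd h (ne i l h2)))
      simp only [rf_left, Prod.mk.injEq] at this
      exact h3 this.1.symm
    · by_cases e : i = j
      · simp [e]
      have hb := (mem_Bk.1 hi).2.trans (mem_Bk.1 hj).2.symm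
      obtain ⟨g, e1, g1, g2⟩ := swap_Gk hi hj
      have := conj w (i, 1) (j, 1) ⟨rfl, Or.inl ⟨rfl, e, hb⟩⟩ i hi
      obtain ⟨g, g0, g1, g2⟩ := swap_Gk hi hj
      rw [rf_lift, (coset hρ.2 (blk_swap hb) (fun t ht => ?_) hi).2, Equiv.swap_apply_left] at this
      · exact this
      · have := congrArg (fun s : W n => (s.1 (t, 1)).1) g0
        exact this.trans (g2 t ht)
  choose p p1 p2 using ex
  have inv : ∀ s ∈ Gk blk (k + 1), ∀ w, p (w * s) = p w := by
    rintro _ ⟨g, rfl, g1, g2⟩ w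
    refine Polynomial.eq_of_degrees_lt_of_eval_index_eq _ (node_inj (w * lift g) _) (p1 _) (p1 _) ?_
    intro j hj
    obtain ⟨c1, c2⟩ := coset hρ.2 g1 g2 hj
    rw [p2 _ j hj, c2, ← p2 w _ c1]; rfl
  refine mem_Nt.2 ⟨fun i w => (p w).coeff i, fun i => ⟨fun c d hcd w => ?_, fun s hs w => ?_⟩, ?_⟩
  · by_cases hdv : ∃ a ∈ Bk blk k, ∃ b ∈ Bk blk k, a ≠ b ∧
        xv (w.1 c) - xv (w.1 d) ∣ xv (w.1 (a, 1)) - xv (w.1 (b, 1))
    · obtain ⟨a, ha, b, hb, hab, h⟩ := hdv
      have := rf_W_inj (rf_eq_of_dvd h fun e => hab (by simpa using e))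
      simp only [← this, rf_lift, inv _ (swap_Gk ha hb), sub_self, dvd_zero]
    · let φ : P n →+* P n := (phi (w.1 c) (w.1 d)).toRingHom
      have hφ : ∀ x y, xv (w.1 c) - xv (w.1 d) ∣ x - y ↔ φ x = φ y := fun x y => by
        rw [dvd_iff_phi, map_sub, sub_eq_zero]; rfl
      have : (p w).map φ = (p (w * rf c d)).map φ := by
        refine Polynomial.eq_of_degrees_lt_of_eval_index_eq (Bk blk k)
          (v := fun j => φ (xv (w.1 (j, 1)))) (fun a ha b hb e => ?_)
          (Polynomial.degree_map_le.trans_lt (p1 _)) (Polynomial.degree_map_le.trans_lt (p1 _)) ?_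
        · by_contra hab
          exact hdv ⟨a, ha, b, hb, hab, (hφ _ _).2 e⟩
        · intro j hj
          conv_rhs => rw [(hφ _ _).1 (lab_dvd_W w c d (j, 1))]
          rw [Polynomial.eval_map_apply, Polynomial.eval_map_apply, p2 _ j hj, p2 _ j hj]
          exact (hφ _ _).1 (conj w c d hcd j hj)
      rw [hφ, ← Polynomial.coeff_map, this, Polynomial.coeff_map]
  · simp only [inv s hs w]
  · funext w
    have := p2 w k hk
    rw [← rf_lift, show rf ((k, 1) : V n) (k, 1) = 1 from W_ext fun v => by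
      rw [rf_swap]; simp, mul_one] at this
    rw [← this, Finset.sum_apply]
    by_cases e : p w = 0
    · simp [e]
    · rw [Polynomial.eval_eq_sum_range' ((Polynomial.natDegree_lt_iff_degree_lt e).2 (p1 w))]
      exact sum_congr rfl fun i _ => mul_comm _ _

theorem tower_indep {k : Fin n} (σ : ℕ → Fn n) (hσ : ∀ i, σ i ∈ Mk blk lp (k + 1))
    (h : ∑ i ∈ range (Bk blk k).card, xR (k, 1) ^ i * σ i = 0) :
    ∀ i < (Bk blk k).card, σ i = 0 := by
  intro i hi
  funext w
  have hk : k ∈ Bk blk k := mem_Bk.2 ⟨le_rfl, rfl⟩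
  have : ∑ i : Fin (Bk blk k).card, Polynomial.C (σ i w) * Polynomial.X ^ (i : ℕ) = 0 := by
    refine Polynomial.eq_zero_of_degree_lt_of_eval_index_eq_zero _ (node_inj w (Bk blk k))
      (Polynomial.degree_sum_fin_lt _) fun j hj => ?_
    have := congrFun h (w * lift (Equiv.swap j k))
    rw [Finset.sum_apply, sum_range] at this
    rw [Polynomial.eval_finsetSum]
    refine (sum_congr rfl fun i _ => ?_).trans this
    simp only [Pi.mul_apply, Pi.pow_apply, (hσ i).2 _ (swap_Gk hj hk), xR, W_mul_apply, lift_apply,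
      Equiv.swap_apply_right]
    rw [Polynomial.eval_mul, Polynomial.eval_C, Polynomial.eval_pow, Polynomial.eval_X, mul_comm]
  have := congrArg (fun p => Polynomial.coeff p i) this
  simp only [Polynomial.finsetSum_coeff, Polynomial.coeff_C_mul_X_pow, Polynomial.coeff_zero]
    at this
  rw [sum_eq_single ⟨i, hi⟩] at this
  · simpa using this
  · intro b _ hb
    rw [if_neg fun e => hb (Fin.ext e.symm)]
  · simp

omit [DecidableEq B] in
theorem gs_Mk (k : ℕ) : GS (Mk blk lp k) := (gs_SR _).inf (gs_InvS _)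

theorem inv_xR (v : V n) : Inv (xR v) 1 where
  hd _ _ := xv_hom _
  ne w e := by
    have h : xv (w.1 v) = 0 := e
    exact ng_ne _ (xv_inj (by rw [xv_ng, h, neg_zero]))
  inv w := dot_xR w v

theorem Ed.pow {a b : V n} {ρ : Fn n} (h : Ed a b ρ) (j : ℕ) : Ed a b (ρ ^ j) := by
  induction j with
  | zero => intro w; simp
  | succ j ih => rw [pow_succ]; exact ih.mul h

theorem tower_step (k : Fin n) (u : W n) :
    ch (Mk blk lp k) u = qi PowerSeries.X (Bk blk k).card * ch (Mk blk lp (k + 1)) u := by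
  rw [← (ch_Nt (inv_xR (k, 1)) (gs_Mk _) tower_indep u _ le_rfl).2]
  congr 1
  refine le_antisymm (fun ρ => tower_span) fun ρ hρ => ?_
  obtain ⟨σ, hσ, rfl⟩ := mem_Nt.1 hρ
  refine Submodule.sum_mem _ fun i _ => ⟨fun a b h => ((Ed_xR a b _).pow i).mul ((hσ i).1 a b h), ?_⟩
  rintro _ ⟨g, rfl, g1, g2⟩ w
  simp only [Pi.mul_apply, Pi.pow_apply, xR, W_mul_apply, lift_apply, g2 k le_rfl]
  rw [(hσ i).2 _ ⟨g, rfl, g1, fun t ht => g2 t (by omega)⟩]

theorem tower (u : W n) : ch (SR (Rb blk lp)) u =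
    (∏ k : Fin n, qi PowerSeries.X (Bk blk k).card) * ch (Mk blk lp n) u := by
  have h0 : SR (Rb blk lp) = Mk blk lp 0 := by
    refine le_antisymm (fun ρ hρ => ⟨hρ, ?_⟩) inf_le_left
    rintro _ ⟨g, rfl, -, g2⟩ w
    have : lift g = 1 := W_ext fun v => by rw [lift_apply, g2 _ (Nat.zero_le _)]; rfl
    rw [this, mul_one]
  have : ∀ m ≤ n, ch (Mk blk lp 0) u =
      (∏ k ∈ univ.filter (fun k : Fin n => (k : ℕ) < m), qi PowerSeries.X (Bk blk k).card) *
        ch (Mk blk lp m) u := by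
    intro m hm
    induction m with
    | zero => simp
    | succ m ih =>
      have e : univ.filter (fun k : Fin n => (k : ℕ) < m + 1) =
          insert ⟨m, hm⟩ (univ.filter (fun k : Fin n => (k : ℕ) < m)) := by
        ext t; simp only [mem_filter, mem_univ, true_and, mem_insert, Fin.ext_iff]; omega
      rw [ih (by omega), e, prod_insert (by simp), tower_step ⟨m, hm⟩]
      ring
  rw [h0, this n le_rfl, filter_true_of_mem fun k _ => k.2]

end

end Pool.Agent.Lib.MP_33bfb2_co
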