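import Pool.Agent.Lib.MP_33bfb2_co.Defs

namespace Pool.Agent.Lib.MP_33bfb2_co

section Tr
variable {M : Type} [AddCommGroup M] [Module ℂ M]

open Classical in
/-- trace on an invariant subspace -/
noncomputable def trOn (f : M →ₗ[ℂ] M) (A : Submodule ℂ M) : ℂ :=
  if h : ∀ x ∈ A, f x ∈ A then LinearMap.trace ℂ A (f.restrict h) else 0

theorem trOn_eq (f : M →ₗ[ℂ] M) {A : Submodule ℂ M} (h : ∀ x ∈ A, f x ∈ A) :
    trOn f A = LinearMap.trace ℂ A (f.restrict h) := by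
  rw [trOn, dif_pos h]

theorem trOn_bot (f : M →ₗ[ℂ] M) : trOn f ⊥ = 0 := by
  have h : ∀ x ∈ (⊥ : Submodule ℂ M), f x ∈ (⊥ : Submodule ℂ M) := by
    intro x hx; rw [Submodule.mem_bot] at hx ⊢; rw [hx, map_zero]
  rw [trOn_eq f h]
  have : f.restrict h = 0 := Subsingleton.elim _ _
  rw [this, map_zero]

theorem trace_quot {V : Type} [AddCommGroup V] [Module ℂ V] [FiniteDimensional ℂ V]
    (g : V →ₗ[ℂ] V) (B : Submodule ℂ V) (h : ∀ x ∈ B, g x ∈ B) :
    LinearMap.trace ℂ _ (B.mapQ B g h) =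
      LinearMap.trace ℂ V g - LinearMap.trace ℂ B (g.restrict h) := by
  obtain ⟨C, hC⟩ := B.exists_isCompl
  let π : V →ₗ[ℂ] B := B.projectionOnto C hC
  let j : (V ⧸ B) →ₗ[ℂ] V := B.liftQ (LinearMap.id - B.subtype ∘ₗ π) (by
    intro x hx
    simp only [LinearMap.mem_ker, LinearMap.sub_apply, LinearMap.id_apply, LinearMap.comp_apply]
    have : π x = ⟨x, hx⟩ := Submodule.projectionOnto_apply_left hC ⟨x, hx⟩
    rw [this]; simp)
  have h1 : g = B.subtype ∘ₗ (π ∘ₗ g) + j ∘ₗ (B.mkQ ∘ₗ g) := by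
    ext x; simp [j]
  have h2 : (π ∘ₗ g) ∘ₗ B.subtype = g.restrict h := by
    ext x
    have : π (g x) = ⟨g x, h x x.2⟩ := Submodule.projectionOnto_apply_left hC ⟨g x, h x x.2⟩
    simp [this]
  have h3 : (B.mkQ ∘ₗ g) ∘ₗ j = B.mapQ B g h := by
    apply Submodule.linearMap_qext
    ext x
    simp only [LinearMap.comp_apply, Submodule.mkQ_apply, j, Submodule.liftQ_apply,
      LinearMap.sub_apply, LinearMap.id_apply, Submodule.mapQ_apply, map_sub]
    have : (Submodule.Quotient.mk (g (B.subtype (π x))) : V ⧸ B) = 0 :=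
      (Submodule.Quotient.mk_eq_zero _).2 (h _ (π x).2)
    rw [this, sub_zero]
  have h4 : LinearMap.trace ℂ V g = LinearMap.trace ℂ B (g.restrict h) +
      LinearMap.trace ℂ _ (B.mapQ B g h) := by
    conv_lhs => rw [h1]
    rw [map_add, LinearMap.trace_comp_comm', h2, LinearMap.trace_comp_comm' (B.mkQ ∘ₗ g) j, h3]
  rw [h4]; ring

theorem trOn_equiv {M' : Type} [AddCommGroup M'] [Module ℂ M'] (f : M →ₗ[ℂ] M)
    {A : Submodule ℂ M} (h : ∀ x ∈ A, f x ∈ A) (g : M' →ₗ[ℂ] M') (e : M' ≃ₗ[ℂ] A)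
    (he : ∀ x, (e (g x) : M) = f (e x)) : trOn f A = LinearMap.trace ℂ M' g := by
  rw [trOn_eq f h, ← LinearMap.trace_conj' g e]
  congr 1
  ext x
  simp [LinearEquiv.conj_apply, he]

theorem quotTrace_eq (f : M →ₗ[ℂ] M) (A B : Submodule ℂ M) [FiniteDimensional ℂ A] (hAB : B ≤ A)
    (hA : ∀ x ∈ A, f x ∈ A) (hB : ∀ x ∈ B, f x ∈ B) :
    quotTrace f A B hA hB = trOn f A - trOn f B := by
  rw [quotTrace, trace_quot, trOn_eq f hA]
  congr 1
  symm
  refine trOn_equiv f hB _ (Submodule.comapSubtypeEquivOfLe hAB) ?_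
  intro x; rfl

theorem trOn_sup (f : M →ₗ[ℂ] M) {A B : Submodule ℂ M} [FiniteDimensional ℂ A]
    [FiniteDimensional ℂ B] (hA : ∀ x ∈ A, f x ∈ A) (hB : ∀ x ∈ B, f x ∈ B)
    (hd : Disjoint A B) : trOn f (A ⊔ B) = trOn f A + trOn f B := by
  have hAB : ∀ x ∈ A ⊔ B, f x ∈ A ⊔ B := by
    intro x hx
    obtain ⟨a, ha, b, hb, rfl⟩ := Submodule.mem_sup.1 hx
    rw [map_add]
    exact Submodule.add_mem_sup (hA a ha) (hB b hb)
  let φ : (A × B) →ₗ[ℂ] M := A.subtype.coprod B.subtype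
  have hφ : Function.Injective φ := by
    rw [← LinearMap.ker_eq_bot, LinearMap.ker_coprod_of_disjoint_range]
    · simp
    · simpa using hd
  have hr : LinearMap.range φ = A ⊔ B := by simp [φ, LinearMap.range_coprod]
  let e : (A × B) ≃ₗ[ℂ] (A ⊔ B : Submodule ℂ M) :=
    (LinearEquiv.ofInjective φ hφ).trans (LinearEquiv.ofEq _ _ hr)
  rw [trOn_equiv f hAB ((f.restrict hA).prodMap (f.restrict hB)) e, LinearMap.trace_prodMap',
    trOn_eq f hA, trOn_eq f hB]
  intro x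
  simp [e, φ]

theorem trOn_map (f g : M →ₗ[ℂ] M) {A : Submodule ℂ M} (hA : ∀ x ∈ A, f x ∈ A)
    (hg : Function.Injective g) (hc : ∀ x, g (f x) = f (g x)) :
    trOn f (A.map g) = trOn f A := by
  have hA' : ∀ x ∈ A.map g, f x ∈ A.map g := by
    rintro _ ⟨x, hx, rfl⟩
    exact ⟨f x, hA x hx, hc x⟩
  rw [trOn_equiv f hA' (f.restrict hA) (Submodule.equivMapOfInjective g hg A), trOn_eq f hA]
  intro x
  simp [hc]

open Classical in
theorem trOn_perm {ι : Type} [Fintype ι] (f : M →ₗ[ℂ] M) (b : ι → M) (hb : LinearIndependent ℂ b)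
    (σ : ι → ι) (hσ : ∀ i, f (b i) = b (σ i)) :
    trOn f (Submodule.span ℂ (Set.range b)) = ∑ i, if σ i = i then 1 else 0 := by
  have hA : ∀ x ∈ Submodule.span ℂ (Set.range b), f x ∈ Submodule.span ℂ (Set.range b) := by
    intro x hx
    have : (Submodule.span ℂ (Set.range b)).map f ≤ Submodule.span ℂ (Set.range b) := by
      rw [Submodule.map_span, Submodule.span_le]
      rintro _ ⟨_, ⟨i, rfl⟩, rfl⟩
      rw [hσ]
      exact Submodule.subset_span ⟨_, rfl⟩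
    exact this ⟨x, hx, rfl⟩
  rw [trOn_eq f hA, LinearMap.trace_eq_matrix_trace ℂ (Module.Basis.span hb), Matrix.trace]
  refine Finset.sum_congr rfl fun i _ => ?_
  rw [Matrix.diag_apply, LinearMap.toMatrix_apply]
  have : f.restrict hA (Module.Basis.span hb i) = Module.Basis.span hb (σ i) := by
    ext
    simp [Module.Basis.span_apply, hσ]
  rw [this, Module.Basis.repr_self, Finsupp.single_apply]

end Tr

end Pool.Agent.Lib.MP_33bfb2_co
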