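import Pool.Agent.Lib.MP_33bfb2_co.CPos

namespace Pool.Agent.Lib.MP_33bfb2_co

open Finset

set_option maxHeartbeats 400000

variable {n : ℕ}

theorem exists_eps {T : Type} [CommRing T] (e η : ℕ → T) (h1 : e 0 = 1) (h2 : η 0 = 1) :
    ∃ ε : ℕ → T, ε 0 = 1 ∧ ∀ m, ∑ j ∈ range (m + 1), ε j * e (m - j) = η m := by
  have h : PowerSeries.mk η * (PowerSeries.mk e).invOfUnit 1 * PowerSeries.mk e =
      PowerSeries.mk η := by
    rw [mul_assoc, mul_comm _ (PowerSeries.mk e), PowerSeries.mul_invOfUnit _ _ (by simp [h1]),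
      mul_one]
  have h' : ∀ m, ∑ j ∈ range (m + 1), PowerSeries.coeff j
      (PowerSeries.mk η * (PowerSeries.mk e).invOfUnit 1) * e (m - j) = η m := by
    intro m
    have := congrArg (PowerSeries.coeff m) h
    rw [PowerSeries.coeff_mul, Nat.sum_antidiagonal_eq_sum_range_succ_mk] at this
    simpa using this
  refine ⟨_, ?_, h'⟩
  simpa [h1, h2] using h' 0

def vr {A : Type} [CommRing A] (t : Fin n → A) (j : ℕ) : A :=
  if h : 0 < j ∧ j - 1 < n then t ⟨j - 1, h.2⟩ else 1

theorem map_vr {A A' : Type} [CommRing A] [CommRing A'] (φ : A →+* A') (t : Fin n → A)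
    (s : ℕ → A') (h0 : s 0 = 1) (h : ∀ k, φ (t k) = s (k + 1)) {j : ℕ} (hj : j ≤ n) :
    φ (vr t j) = s j := by
  unfold vr
  split_ifs with e
  · rw [h]; congr 1; dsimp only; omega
  · rw [map_one, show j = 0 by omega, h0]

abbrev S0 (n : ℕ) := MvPolynomial (Fin n) (MvPolynomial (Fin n) ℂ)

noncomputable def phe (n : ℕ) : S0 n →ₐ[ℂ] S0 n :=
  (MvPolynomial.aeval fun k : Fin n =>
    MvPolynomial.esymm (Fin n) (MvPolynomial (Fin n) ℂ) (k + 1)).restrictScalars ℂ

noncomputable def phh (n N : ℕ) : S0 n →ₐ[ℂ] SL N :=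
  MvPolynomial.aevalTower (MvPolynomial.aeval fun k : Fin n => hy N (k + 1))
    fun k : Fin n => hx N (k + 1)

theorem phe_inj : Function.Injective (phe n) := by
  intro f g e
  apply MvPolynomial.esymmAlgHom_injective (σ := Fin n) (MvPolynomial (Fin n) ℂ) (n := n) (by simp)
  apply Subtype.ext
  rw [MvPolynomial.esymmAlgHom_apply, MvPolynomial.esymmAlgHom_apply]
  exact e

theorem exists_psi (n N : ℕ) : ∃ ψ : S0 n →+ SL N, ∀ f, ψ (phe n f) = phh n N f := by
  obtain ⟨g, hg⟩ := (phe n).toLinearMap.exists_leftInverse_of_injective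
    (LinearMap.ker_eq_bot.2 phe_inj)
  refine ⟨((phh n N).toLinearMap.comp g).toAddMonoidHom, fun f => ?_⟩
  have : g (phe n f) = f := congrArg (fun l => l f) (congrArg DFunLike.coe hg)
  exact congrArg (phh n N) this

noncomputable def xi0 (n : ℕ) : ℕ → S0 n := vr fun k => MvPolynomial.X k
noncomputable def eta0 (n : ℕ) : ℕ → S0 n := vr fun k => MvPolynomial.C (MvPolynomial.X k)

theorem hx_zero (N : ℕ) : hx N 0 = 1 := by simp [hx]
theorem hy_zero (N : ℕ) : hy N 0 = 1 := by simp [hy]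

theorem phe_xi {j : ℕ} (hj : j ≤ n) : phe n (xi0 n j) = es univ MvPolynomial.X j :=
  map_vr (phe n).toRingHom _ (es univ MvPolynomial.X) (es_zero _ _)
    (fun k => by simp [phe]; rfl) hj

theorem phe_eta (j : ℕ) : phe n (eta0 n j) = eta0 n j := by
  unfold eta0 vr
  split_ifs <;> simp [phe]

theorem phh_xi (N : ℕ) {j : ℕ} (hj : j ≤ n) : phh n N (xi0 n j) = hx N j :=
  map_vr (phh n N).toRingHom _ (hx N) (hx_zero N) (fun k => by simp [phh]) hj

theorem phh_eta (N : ℕ) {j : ℕ} (hj : j ≤ n) : phh n N (eta0 n j) = hy N j :=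
  map_vr (phh n N).toRingHom _ (hy N) (hy_zero N) (fun k => by simp [phh]) hj

noncomputable def cw {A B : Type} [CommRing A] [CommRing B] (ψ : A →+ B) :
    PowerSeries A →+ PowerSeries B where
  toFun f := PowerSeries.mk fun i => ψ (PowerSeries.coeff i f)
  map_zero' := by ext; simp
  map_add' f g := by ext; simp

theorem coeff_cw {A B : Type} [CommRing A] [CommRing B] (ψ : A →+ B) (f : PowerSeries A) (i : ℕ) :
    PowerSeries.coeff i (cw ψ f) = ψ (PowerSeries.coeff i f) :=
  PowerSeries.coeff_mk i fun i => ψ (PowerSeries.coeff i f)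

theorem cw_X {A B : Type} [CommRing A] [CommRing B] (ψ : A →+ B) (f : PowerSeries A) :
    cw ψ (PowerSeries.X * f) = PowerSeries.X * cw ψ f := by
  ext i
  rcases i with _ | i
  · simp [coeff_cw]
  · simp [coeff_cw, PowerSeries.coeff_succ_X_mul]

def KN (A : Type) [CommRing A] : Subsemiring (PowerSeries A) where
  carrier := {c | ∀ i, ∃ m : ℕ, PowerSeries.coeff i c = m}
  zero_mem' _ := ⟨0, by simp⟩
  one_mem' i := by
    rw [PowerSeries.coeff_one]
    split_ifs
    exacts [⟨1, by simp⟩, ⟨0, by simp⟩]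
  add_mem' ha hb i := by
    obtain ⟨x, hx⟩ := ha i
    obtain ⟨y, hy⟩ := hb i
    exact ⟨x + y, by simp [hx, hy]⟩
  mul_mem' ha hb i := by
    choose x hx using ha
    choose y hy using hb
    exact ⟨∑ p ∈ antidiagonal i, x p.1 * y p.2, by simp [PowerSeries.coeff_mul, hx, hy]⟩

theorem X_mem_KN (A : Type) [CommRing A] : PowerSeries.X ∈ KN A := fun i => by
  rw [PowerSeries.coeff_X]
  split_ifs
  exacts [⟨1, by simp⟩, ⟨0, by simp⟩]

theorem cnt_le {A : Type} [DecidableEq A] (Θ : Fin n → A) (a : A) : cnt Θ a ≤ n :=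
  (card_le_univ _).trans (by simp)

theorem LL_eq (hn : 1 ≤ n) (N : ℕ) (ψ : S0 n →+ SL N) (hψ : ∀ f, ψ (phe n f) = phh n N f)
    (ε : ℕ → PowerSeries (S0 n)) (h0 : ε 0 = 1)
    (hε : ∀ m ≤ n, ∑ j ∈ range (m + 1),
      ε j * es univ (fun i => PowerSeries.C (MvPolynomial.X i)) (m - j) = PowerSeries.C (eta0 n m))
    {h : ℕ → ℕ} (hv : valid n h) :
    LL N (TT n h) = cw ψ (CC PowerSeries.X
      (List.ofFn fun i => PowerSeries.C (MvPolynomial.X i)) ε (TT n h)) := by
  rw [← sub_eq_zero]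
  refine det (F := fun g => LL N (TT n g) - cw ψ (CC PowerSeries.X
      (List.ofFn fun i => PowerSeries.C (MvPolynomial.X i)) ε (TT n g))) (q := PowerSeries.X)
    hn (fun a e => (mul_eq_zero.1 e).resolve_left PowerSeries.X_ne_zero)
    (fun j a e => (mul_eq_zero.1 e).resolve_left fun e' => ?_) (TLaw.law (G := fun E =>
      LL N E - cw ψ (CC PowerSeries.X (List.ofFn fun i => PowerSeries.C (MvPolynomial.X i)) ε E)) ?_)
    (fun g g' e => by simp only [TT_congr e]) (fun g hg => ?_) hv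
  · have := congrArg PowerSeries.constantCoeff e'
    simp [qi, sum_range_succ'] at this
  · intro E α β β' σ t
    have l1 := LL_tlaw N E α β β' σ t
    have l2 := congrArg (cw ψ) (CC_tlaw (q := PowerSeries.X) (fun a e => by
      ext i : 1
      simpa using congrArg (PowerSeries.coeff i) e)
      (List.ofFn fun i => PowerSeries.C (MvPolynomial.X i)) ε E α β β' σ t)
    rw [add_mul, one_mul, map_add, map_add, cw_X, cw_X] at l2
    linear_combination l1 - l2
  · obtain ⟨blk, b0, hb⟩ := isBase_TT hg hn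
    have m1 := map_BaseV (PowerSeries.map (phe n).toRingHom) PowerSeries.X
      (fun j => PowerSeries.C (xi0 n j)) (fun j => PowerSeries.C (eta0 n j))
      (fun b => some b ≠ b0) (cnt blk) (cnt_le blk)
      (ξ' := es univ fun i => PowerSeries.C (MvPolynomial.X i))
      (η' := fun j => PowerSeries.C (eta0 n j))
      (fun j hj => by rw [← map_es, ← phe_xi hj]; simp) (fun j _ => by simp [phe_eta])
    have m2 := map_BaseV (PowerSeries.map (phh n N).toRingHom) PowerSeries.X
      (fun j => PowerSeries.C (xi0 n j)) (fun j => PowerSeries.C (eta0 n j))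
      (fun b => some b ≠ b0) (cnt blk) (cnt_le blk)
      (ξ' := fun j => PowerSeries.C (hx N j)) (η' := fun j => PowerSeries.C (hy N j))
      (fun j hj => by simp [phh_xi N hj]) (fun j hj => by simp [phh_eta N hj])
    rw [PowerSeries.map_X] at m1 m2
    show LL N (TT n g) - _ = 0
    rw [LL_base N hb, CC_base _ hb _ ε _ h0 hε, ← m1, ← m2, sub_eq_zero]
    ext i : 1
    rw [coeff_cw, PowerSeries.coeff_map, PowerSeries.coeff_map]
    exact (hψ _).symm

theorem LL_pos (hn : 1 ≤ n) {h : ℕ → ℕ} (hv : valid n h)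
    (h3 : ∀ a b c, adj (TT n h) a b ∨ adj (TT n h) a c ∨ adj (TT n h) b c) (i : ℕ) :
    ∃ ky kx : ℕ → ℕ, ∀ N, PowerSeries.coeff i (LL N (TT n h)) =
      ∑ m ∈ range (n + 1), ky m • (hy N m * hx N (n - m)) +
        ∑ m ∈ range (n + 1), kx m • (hx N m * hx N (n - m)) := by
  obtain ⟨ε, h0, hε⟩ := exists_eps (T := PowerSeries (S0 n))
    (es univ fun i : Fin n => PowerSeries.C (MvPolynomial.X i))
    (fun m => PowerSeries.C (eta0 n m)) (es_zero _ _) (by simp [eta0, vr])
  obtain ⟨cy, cx, c1, c2, c3⟩ := CC_pos PowerSeries.X hv h3 (KN (S0 n)) (X_mem_KN _)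
    (fun i => PowerSeries.C (MvPolynomial.X i)) ε _ h0 fun m _ => hε m
  choose ky hky using fun m => c1 m i
  choose! kx hkx using fun m hm => c2 m hm i
  refine ⟨ky, kx, fun N => ?_⟩
  obtain ⟨ψ, hψ⟩ := exists_psi n N
  rw [LL_eq hn N ψ hψ ε h0 (fun m _ => hε m) hv, coeff_cw, c3]
  simp only [map_add, map_sum, ← map_es, ← map_mul, PowerSeries.coeff_mul_C]
  congr 1 <;> refine sum_congr rfl fun m hm => ?_
  · have := mem_range.1 hm
    rw [hky, ← nsmul_eq_mul, map_nsmul, ← phe_xi (by omega), ← phe_eta, ← map_mul, hψ, map_mul,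
      phh_xi N (by omega), phh_eta N (by omega)]
  · have := mem_range.1 hm
    rw [hkx m (by omega), ← nsmul_eq_mul, map_nsmul, ← phe_xi (by omega), ← phe_xi (by omega),
      ← map_mul, hψ, map_mul, phh_xi N (by omega), phh_xi N (by omega)]

theorem HPos.add {F G : (N : ℕ) → SL N} (hF : HPos n F) (hG : HPos n G) :
    HPos n fun N => F N + G N := by
  obtain ⟨c, hc⟩ := hF
  obtain ⟨d, hd⟩ := hG
  exact ⟨c + d, fun N => by simp only [hc, hd, Pi.add_apply, add_smul, sum_add_distrib]⟩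

theorem HPos.sum {ι : Type} (s : Finset ι) {F : ι → (N : ℕ) → SL N} (h : ∀ i ∈ s, HPos n (F i)) :
    HPos n fun N => ∑ i ∈ s, F i N := by
  classical
  induction s using Finset.induction_on with
  | empty => exact ⟨0, fun N => by simp⟩
  | insert a s ha ih =>
    simp only [sum_insert ha]
    exact (h a (mem_insert_self _ _)).add (ih fun i hi => h i (mem_insert_of_mem hi))

theorem HPos.basic (r : ℕ) (k : Fin (n + 1)) (l : Nat.Partition k) (m : Nat.Partition (n - k)) :
    HPos n fun N => r • (MvPolynomial.rename Sum.inl (MvPolynomial.hsymmPart (Fin N) ℂ l) *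
      MvPolynomial.rename Sum.inr (MvPolynomial.hsymmPart (Fin N) ℂ m)) := by
  classical
  refine ⟨Pi.single k (Pi.single l (Pi.single m r)), fun N => ?_⟩
  rw [sum_eq_single k, sum_eq_single l, sum_eq_single m]
  · simp
  · intro b _ hb; simp [hb]
  · simp
  · intro b _ hb; simp [hb]
  · simp
  · intro b _ hb; simp [Pi.single_eq_of_ne hb]
  · simp

theorem hsymmPart_ofSums (N k : ℕ) (l : Multiset ℕ) (hl : l.sum = k) :
    MvPolynomial.hsymmPart (Fin N) ℂ (Nat.Partition.ofSums k l hl) =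
      (l.map (MvPolynomial.hsymm (Fin N) ℂ)).prod := by
  conv_rhs => rw [← Multiset.filter_add_not (· ≠ 0) l, Multiset.map_add, Multiset.prod_add]
  rw [Multiset.prod_eq_one (s := (l.filter fun a => ¬ a ≠ 0).map _), mul_one]
  · rfl
  · intro x hx
    obtain ⟨a, ha, rfl⟩ := Multiset.mem_map.1 hx
    rw [not_not.1 (Multiset.mem_filter.1 ha).2, MvPolynomial.hsymm_zero]

theorem LL_hpos (hn : 1 ≤ n) {h : ℕ → ℕ} (hv : valid n h)
    (h3 : ∀ a b c, adj (TT n h) a b ∨ adj (TT n h) a c ∨ adj (TT n h) b c) (i : ℕ) :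
    HPos n fun N => PowerSeries.coeff i (LL N (TT n h)) := by
  obtain ⟨ky, kx, e⟩ := LL_pos hn hv h3 i
  simp only [e]
  refine (HPos.sum _ fun m hm => ?_).add (HPos.sum _ fun m hm => ?_)
  · have := mem_range.1 hm
    have b := HPos.basic (n := n) (ky m) ⟨n - m, by omega⟩ (.indiscrete _) (.indiscrete _)
    simp only [MvPolynomial.hsymmPart_indiscrete, show n - (n - m) = m by omega] at b
    simpa only [hx, hy, mul_comm] using b
  · have := mem_range.1 hm
    have b := HPos.basic (kx m) (Fin.last n)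
      (.ofSums _ {m, n - m} (by simp; omega)) (.indiscrete _)
    simp only [MvPolynomial.hsymmPart_indiscrete, hsymmPart_ofSums] at b
    simpa [hx] using b

end Pool.Agent.Lib.MP_33bfb2_co
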