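import Pool.Agent.Lib.MP_33bfb2_co.Mod
import Pool.Agent.Lib.MP_33bfb2_co.Det3

namespace Pool.Agent.Lib.MP_33bfb2_co

open Finset

abbrev Rt (n : ℕ) := Fin n × V n

variable {n : ℕ}

def pos (b : V n) : ℕ := if b.2 = 1 then b.1 + 1 else 2 * n - b.1

theorem pos_p (j : Fin n) : pos ((j, 1) : V n) = j + 1 := by simp [pos]
theorem pos_m (j : Fin n) : pos ((j, -1) : V n) = 2 * n - j := by simp [pos]

theorem pos_inj {a b : V n} (h : pos a = pos b) : a = b := by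
  obtain ⟨i, u⟩ := a
  obtain ⟨j, u'⟩ := b
  have := i.2
  have := j.2
  rcases Int.units_eq_one_or u with rfl | rfl <;> rcases Int.units_eq_one_or u' with rfl | rfl <;>
    simp only [pos_p, pos_m] at h <;> first | omega | (congr 1; ext; omega)

def TT (n : ℕ) (h : ℕ → ℕ) : Finset (Rt n) :=
  univ.filter fun γ => (γ.1 < γ.2.1 ∧ pos γ.2 ≤ h (γ.1 + 1)) ∨ (γ.2 = (γ.1, -1) ∧ h 0 ≤ γ.1)

theorem mem_TT {h : ℕ → ℕ} {γ : Rt n} : γ ∈ TT n h ↔
    (γ.1 < γ.2.1 ∧ pos γ.2 ≤ h (γ.1 + 1)) ∨ (γ.2 = (γ.1, -1) ∧ h 0 ≤ γ.1) := by simp [TT]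

def isLoop (γ : Rt n) : Prop := γ.2 = (γ.1, -1)
def can (γ : Rt n) : Prop := γ.1 < γ.2.1 ∨ isLoop γ

theorem can_TT {h : ℕ → ℕ} {γ : Rt n} (hγ : γ ∈ TT n h) : can γ :=
  (mem_TT.1 hγ).imp And.left And.left

theorem can.ne {γ : Rt n} (h : can γ) : ((γ.1, 1) : V n) ≠ γ.2 := by
  intro e
  rcases h with h | h
  · rw [← e] at h; exact lt_irrefl _ h
  · rw [isLoop, ← e] at h; simp at h

def vl {A : Type} [AddCommGroup A] (y : V n → A) (γ : Rt n) : A := y (γ.1, 1) - y γ.2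

structure Trip (E : Finset (Rt n)) (α β β' : Rt n) (σ : Rt n → Rt n) : Prop where
  hE : ∀ γ ∈ E, can γ
  hα : α ∈ E
  hβ : β ∉ E
  hβ' : β' ∉ E
  hne : β ≠ β'
  cβ : can β
  cβ' : can β'
  inv : ∀ γ, σ (σ γ) = γ
  mem : ∀ γ ∈ E, σ γ ∈ E
  σα : σ α = α
  σβ : σ β = β'
  par : ∀ γ, can γ → γ ≠ α →
    (((σ γ).1, 1) = (rf (α.1, 1) α.2).1 (γ.1, 1) ∧ (σ γ).2 = (rf (α.1, 1) α.2).1 γ.2) ∨
    (((σ γ).1, 1) = ng ((rf (α.1, 1) α.2).1 γ.2) ∧ (σ γ).2 = ng ((rf (α.1, 1) α.2).1 (γ.1, 1)))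
  loop : ∀ γ, isLoop γ → isLoop (σ γ)
  lin : (¬ isLoop β ∧ ∀ (A : Type) [AddCommGroup A] (y : V n → A), (∀ v, y (ng v) = - y v) →
      vl y β' = vl y β + vl y α) ∨
    (isLoop β ∧ ∀ (A : Type) [AddCommGroup A] (y : V n → A), (∀ v, y (ng v) = - y v) →
      vl y β' = vl y β + vl y α + vl y α)

theorem rf_swap (i j : Fin n) (v : V n) :
    (rf (i, 1) (j, 1)).1 v = (Equiv.swap i j v.1, v.2) := by
  obtain ⟨k, u⟩ := v
  rcases Int.units_eq_one_or u with rfl | rfl <;>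
    simp only [rf_apply, rfun, ng_mk, Equiv.swap_apply_def, Prod.mk.injEq] <;>
    split_ifs <;> simp_all

theorem rf_flip (i : Fin n) (v : V n) :
    (rf (i, 1) (i, -1)).1 v = if v.1 = i then ng v else v := by
  obtain ⟨k, u⟩ := v
  by_cases h : k = i
  · subst h
    rcases Int.units_eq_one_or u with rfl | rfl <;> simp [rf_apply, rfun, ng_mk]
  · simp [rf_apply, rfun, ng_mk, h]

def sgA (i j : Fin n) (γ : Rt n) : Rt n :=
  if (γ.1 = i ∧ γ.2.1 = j) ∨ (γ.1 = j ∧ γ.2.1 = i) then γ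
  else (Equiv.swap i j γ.1, (Equiv.swap i j γ.2.1, γ.2.2))

def sgB (i : Fin n) (γ : Rt n) : Rt n :=
  if γ.2.1 = i ∧ γ.1 ≠ i then (γ.1, ng γ.2) else γ

theorem sgA_inv (i j : Fin n) (γ : Rt n) : sgA i j (sgA i j γ) = γ := by
  obtain ⟨a, b, u⟩ := γ
  simp only [sgA, Equiv.swap_apply_def]
  grind

theorem sgB_inv (i : Fin n) (γ : Rt n) : sgB i (sgB i γ) = γ := by
  obtain ⟨a, b, u⟩ := γ
  by_cases h : b = i ∧ a ≠ i <;> simp [sgB, h]

theorem sgA_loop (i j : Fin n) (γ : Rt n) (h : isLoop γ) : isLoop (sgA i j γ) := by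
  obtain ⟨a, b, u⟩ := γ
  simp only [isLoop, Prod.mk.injEq] at h
  obtain ⟨rfl, rfl⟩ := h
  unfold sgA
  split_ifs <;> rfl

theorem sgB_loop (i : Fin n) (γ : Rt n) (h : isLoop γ) : isLoop (sgB i γ) := by
  obtain ⟨a, b, u⟩ := γ
  simp only [isLoop, Prod.mk.injEq] at h
  obtain ⟨rfl, rfl⟩ := h
  simp [sgB, isLoop]

theorem sgA_par {i j : Fin n} (hij : i < j) (γ : Rt n) (hc : can γ) (hne : γ ≠ (i, (j, 1))) :
    (((sgA i j γ).1, 1) = (rf (i, 1) (j, 1)).1 (γ.1, 1) ∧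
      (sgA i j γ).2 = (rf (i, 1) (j, 1)).1 γ.2) ∨
    (((sgA i j γ).1, 1) = ng ((rf (i, 1) (j, 1)).1 γ.2) ∧
      (sgA i j γ).2 = ng ((rf (i, 1) (j, 1)).1 (γ.1, 1))) := by
  obtain ⟨a, b, u⟩ := γ
  simp only [rf_swap, sgA]
  split_ifs with h
  · right
    rcases h with ⟨rfl, rfl⟩ | ⟨rfl, rfl⟩
    · rcases Int.units_eq_one_or u with rfl | rfl
      · exact absurd rfl hne
      · simp [ng]
    · exfalso
      rcases hc with hc | hc
      · exact lt_asymm hij hc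
      · simp only [isLoop, Prod.mk.injEq] at hc
        exact hij.ne hc.1
  · exact Or.inl ⟨rfl, rfl⟩

theorem sgB_par {i : Fin n} (hi : ∀ j, j ≤ i) (γ : Rt n) (hc : can γ) (hne : γ ≠ (i, (i, -1))) :
    (((sgB i γ).1, 1) = (rf (i, 1) (i, -1)).1 (γ.1, 1) ∧
      (sgB i γ).2 = (rf (i, 1) (i, -1)).1 γ.2) := by
  obtain ⟨a, b, u⟩ := γ
  have ha : a ≠ i := by
    rintro rfl
    rcases hc with hc | hc
    · exact absurd (hi b) (not_le.2 hc)
    · exact hne (by simp only [isLoop] at hc; rw [hc])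
  simp only [rf_flip, sgB]
  by_cases hb : b = i <;> simp [ha, hb]

theorem mem_p {h : ℕ → ℕ} {a b : Fin n} : (a, (b, 1)) ∈ TT n h ↔
    (a : ℕ) < b ∧ (b : ℕ) + 1 ≤ h (a + 1) := by
  simp [mem_TT, pos_p]

theorem mem_m {h : ℕ → ℕ} {a b : Fin n} : (a, (b, -1)) ∈ TT n h ↔
    ((a : ℕ) < b ∧ 2 * n ≤ h (a + 1) + b) ∨ ((b : ℕ) = a ∧ h 0 ≤ a) := by
  simp [mem_TT, pos_m, Fin.ext_iff]

theorem swap_val (i j a : Fin n) : (Equiv.swap i j a : ℕ) =
    if (a : ℕ) = i then (j : ℕ) else if (a : ℕ) = j then (i : ℕ) else a := by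
  simp only [Equiv.swap_apply_def, Fin.ext_iff]
  split_ifs <;> rfl

theorem sgA_mem {g : ℕ → ℕ} {i j : Fin n} (hij : (j : ℕ) = i + 1)
    (h1 : ∀ t < (j : ℕ), g t ≠ j ∧ g t + j ≠ 2 * n) (h2 : min (g j) (2 * n - j - 1) = g (j + 1))
    (γ : Rt n) (h : γ ∈ TT n g) : sgA i j γ ∈ TT n g := by
  obtain ⟨a, b, u⟩ := γ
  unfold sgA
  split_ifs with hc
  · exact h
  have hj := j.2
  have hb := b.2
  have h0 := h1 0 (by omega)
  have h3 := h1 (a + 1)
  simp only [Fin.ext_iff] at hc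
  rcases Int.units_eq_one_or u with rfl | rfl
  · simp only [mem_p, swap_val] at h ⊢
    grind
  · simp only [mem_m, swap_val] at h ⊢
    grind

theorem sgB_mem {g : ℕ → ℕ} {i : Fin n} (hi : (i : ℕ) + 1 = n) (h1 : ∀ t < n, g t ≠ n)
    (γ : Rt n) (h : γ ∈ TT n g) : sgB i γ ∈ TT n g := by
  obtain ⟨a, b, u⟩ := γ
  unfold sgB
  split_ifs with hc
  swap
  · exact h
  have ha := a.2
  have h3 := h1 (a + 1)
  simp only [ne_eq, Fin.ext_iff] at hc
  rcases Int.units_eq_one_or u with rfl | rfl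
  · simp only [ng_mk, mem_p, mem_m] at h ⊢
    grind
  · simp only [ng_mk, neg_neg, mem_p, mem_m] at h ⊢
    grind

theorem TT_dn {g : ℕ → ℕ} (a : Fin n) (b : V n) (hab : a < b.1) (hb : pos b = g (a + 1)) :
    TT n g = insert (a, b) (TT n (dn g (a + 1) 1)) ∧ (a, b) ∉ TT n (dn g (a + 1) 1) := by
  have hp : 1 ≤ pos b := by have := b.1.2; unfold pos; split_ifs <;> omega
  constructor
  · ext ⟨c, d⟩
    have := pos_inj (a := d) (b := b)
    simp only [mem_insert, mem_TT, dn, Prod.mk.injEq, Fin.ext_iff, Fin.lt_def] at hab ⊢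
    grind
  · simp only [mem_TT, dn, Fin.lt_def] at hab ⊢
    rintro (h | h)
    · simp only [if_true] at h; omega
    · rw [h.1] at hab; exact lt_irrefl _ hab

theorem TT_dn0 {g : ℕ → ℕ} (a : Fin n) (hb : g 0 = a + 1) :
    TT n (dn g 0 1) = insert (a, (a, -1)) (TT n g) ∧ (a, (a, -1)) ∉ TT n g := by
  constructor
  · ext ⟨c, d⟩
    simp only [mem_insert, mem_TT, dn, Prod.mk.injEq, Fin.ext_iff, Fin.lt_def]
    have : (c : ℕ) = a → c = a := Fin.ext
    grind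
  · simp only [mem_m]; omega

theorem dn_dn (g : ℕ → ℕ) (i : ℕ) : dn g i 2 = dn (dn g i 1) i 1 := by
  funext t; simp only [dn]; split_ifs <;> omega

theorem tripA {g : ℕ → ℕ} {i j : Fin n} (hij : (j : ℕ) = i + 1) (h0 : (j : ℕ) + 1 ≤ g j)
    (h1 : ∀ t < (j : ℕ), g t ≠ j ∧ g t + j ≠ 2 * n) (h2 : min (g j) (2 * n - j - 1) = g (j + 1))
    {β β' : Rt n} (hβ : β ∉ TT n g) (hβ' : β' ∉ insert β (TT n g)) (cβ : can β) (cβ' : can β')
    (hσ : sgA i j β = β')
    (lin : (¬ isLoop β ∧ ∀ (A : Type) [AddCommGroup A] (y : V n → A), (∀ v, y (ng v) = - y v) →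
      vl y β' = vl y β + vl y (i, (j, 1))) ∨
    (isLoop β ∧ ∀ (A : Type) [AddCommGroup A] (y : V n → A), (∀ v, y (ng v) = - y v) →
      vl y β' = vl y β + vl y (i, (j, 1)) + vl y (i, (j, 1)))) :
    Trip (TT n g) (i, (j, 1)) β β' (sgA i j) where
  hE _ := can_TT
  hα := mem_p.2 ⟨by omega, by rw [← hij]; exact h0⟩
  hβ := hβ
  hβ' h := hβ' (mem_insert_of_mem h)
  hne e := hβ' (e ▸ mem_insert_self _ _)
  cβ := cβ
  cβ' := cβ'
  inv := sgA_inv i j
  mem := sgA_mem hij h1 h2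
  σα := by simp [sgA]
  σβ := hσ
  par := sgA_par (by rw [Fin.lt_def]; omega)
  loop := sgA_loop i j
  lin := lin

theorem trip_of_tri {p a b : ℕ → ℕ} (hv : valid n p) (ht : Tri n p a b) :
    ∃ E α β β' σ, Trip (n := n) E α β β' σ ∧ TT n a = insert β E ∧
      ((a 0 = p 0 ∧ TT n b = E ∧ TT n p = insert β' (insert β E)) ∨
        (a 0 ≠ p 0 ∧ TT n p = E ∧ TT n b = insert β' (insert β E))) := by
  have p0 := hv.1
  rcases ht with ⟨k, i, hs, hc, rfl, rfl⟩ | ⟨k, hs, hc, rfl, rfl⟩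
  · rcases hs with ⟨s1, s2, s3, s4, s5⟩ | ⟨rfl, s1⟩
    · let i0 : Fin n := ⟨k - 1, by omega⟩
      let i1 : Fin n := ⟨k, s2⟩
      have e01 : (i1 : ℕ) = i0 + 1 := by simp only [i0, i1]; omega
      obtain ⟨c1, c2⟩ := hc
      rcases Nat.eq_zero_or_pos i with rfl | hi
      · have e : p 0 = k + 1 := by omega
        obtain ⟨t1, t2⟩ := TT_dn0 (g := p) i1 e
        obtain ⟨t3, t4⟩ := TT_dn0 (g := dn p 0 1) i0 (by simp only [dn, i0, if_true]; omega)
        refine ⟨TT n p, _, (i1, (i1, -1)), (i0, (i0, -1)), _,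
          tripA e01 s3 s4 s5 t2 (t1 ▸ t4) (Or.inr rfl) (Or.inr rfl) ?_ (Or.inr ⟨rfl, ?_⟩), t1,
          Or.inr ⟨by simp only [dn, if_true]; omega, rfl, by rw [dn_dn, t3, t1]⟩⟩
        · have : i1 ≠ i0 := by rw [Ne, Fin.ext_iff]; omega
          simp [sgA, this]
        · intro A _ y hy
          simp only [vl, ← ng_mk, hy]; abel
      · let r : Fin n := ⟨i - 1, by omega⟩
        have er : (r : ℕ) + 1 = i := by simp only [r]; omega
        have r0 : r < i0 := by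
          have := s4 i c1
          have := hv.2.1 i (by omega)
          have := hv.mono c1.le s2.le
          rw [Fin.lt_def]; simp only [r, i0]; omega
        have r1 : r < i1 := by rw [Fin.lt_def] at *; omega
        have hb : ∀ t, t ≠ i → dn (dn p i 1) i 1 t = p t := fun t ht => by simp [dn, ht]
        have hb' : dn (dn p i 1) i 1 i = p i - 2 := by simp [dn]; omega
        have q1 : (i1 : ℕ) + 1 ≤ dn (dn p i 1) i 1 i1 := by rw [hb _ (by simp [i1]; omega)]; exact s3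
        have q2 : ∀ t < (i1 : ℕ), dn (dn p i 1) i 1 t ≠ i1 ∧ dn (dn p i 1) i 1 t + i1 ≠ 2 * n := by
          intro t ht
          have := s4 t ht
          by_cases e : t = i
          · rw [e, hb']; simp only [i1]; omega
          · rw [hb t e]; exact this
        have q3 : min (dn (dn p i 1) i 1 i1) (2 * n - i1 - 1) = dn (dn p i 1) i 1 (i1 + 1) := by
          rw [hb _ (by simp [i1]; omega), hb _ (by simp [i1]; omega)]; exact s5
        have n0 : r ≠ i0 := r0.ne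
        have n1 : r ≠ i1 := r1.ne
        have z0 : dn p i 1 0 = p 0 := by simp only [dn]; rw [if_neg (by omega)]
        rcases (show p i = k + 1 ∨ p i + k = 2 * n + 1 by omega) with e | e
        · obtain ⟨t1, t2⟩ := TT_dn (g := p) r (i1, 1) r1 (by rw [pos_p, er, e])
          obtain ⟨t3, t4⟩ := TT_dn (g := dn p i 1) r (i0, 1) r0
            (by rw [pos_p, er]; simp only [dn, if_true, i0]; omega)
          rw [er] at t1 t2 t3 t4
          refine ⟨_, _, (r, (i0, 1)), (r, (i1, 1)), _,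
            tripA e01 q1 q2 q3 t4 (t3 ▸ t2) (Or.inl r0) (Or.inl r1) ?_ (Or.inl ⟨?_, ?_⟩), t3,
            Or.inl ⟨z0, by rw [dn_dn], by rw [t1, t3]⟩⟩
          · simp [sgA, n0, n1, Equiv.swap_apply_of_ne_of_ne]
          · simp [isLoop]
          · intro A _ y hy
            simp only [vl]; abel
        · obtain ⟨t1, t2⟩ := TT_dn (g := p) r (i0, -1) r0
            (by rw [pos_m, er]; simp only [i0]; omega)
          obtain ⟨t3, t4⟩ := TT_dn (g := dn p i 1) r (i1, -1) r1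
            (by rw [pos_m, er]; simp only [dn, if_true, i1]; omega)
          rw [er] at t1 t2 t3 t4
          refine ⟨_, _, (r, (i1, -1)), (r, (i0, -1)), _,
            tripA e01 q1 q2 q3 t4 (t3 ▸ t2) (Or.inl r1) (Or.inl r0) ?_ (Or.inl ⟨?_, ?_⟩), t3,
            Or.inl ⟨z0, by rw [dn_dn], by rw [t1, t3]⟩⟩
          · simp [sgA, n0, n1, Equiv.swap_apply_of_ne_of_ne]
          · simp [isLoop, n1.symm]
          · intro A _ y hy
            simp only [vl, ← ng_mk, hy]; abel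
    · obtain ⟨c1, c2⟩ := hc
      have e : p i = k + 1 := by omega
      have hi : 1 ≤ i := by
        rcases Nat.eq_zero_or_pos i with rfl | hi
        · omega
        · exact hi
      let l : Fin k := ⟨k - 1, by omega⟩
      let r : Fin k := ⟨i - 1, by omega⟩
      have er : (r : ℕ) + 1 = i := by simp only [r]; omega
      have r0 : r < l := by rw [Fin.lt_def]; simp only [r, l]; omega
      have z0 : dn p i 1 0 = p 0 := by simp only [dn]; rw [if_neg (by omega)]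
      obtain ⟨t1, t2⟩ := TT_dn (g := p) r (l, -1) r0 (by rw [pos_m, er]; simp only [l]; omega)
      obtain ⟨t3, t4⟩ := TT_dn (g := dn p i 1) r (l, 1) r0
        (by rw [pos_p, er]; simp only [dn, if_true, l]; omega)
      rw [er] at t1 t2 t3 t4
      have hl : ∀ j, j ≤ l := fun j => by have := j.2; rw [Fin.le_def]; simp only [l]; omega
      refine ⟨_, (l, (l, -1)), (r, (l, 1)), (r, (l, -1)), sgB l,
        ⟨fun _ => can_TT, ?_, t4, fun h => t2 (t3 ▸ mem_insert_of_mem h), by simp, Or.inl r0,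
          Or.inl r0, sgB_inv l, sgB_mem (by simp only [l]; omega) ?_, by simp [sgB],
          by simp [sgB, r0.ne, ng_mk], fun γ a b => Or.inl (sgB_par hl γ a b), sgB_loop l,
          Or.inl ⟨by simp [isLoop], ?_⟩⟩, t3, Or.inl ⟨z0, by rw [dn_dn], by rw [t1, t3]⟩⟩
      · have := s1 0 (by omega)
        refine mem_m.2 (Or.inr ⟨rfl, ?_⟩)
        simp only [dn, l]; rw [if_neg (by omega), if_neg (by omega)]; omega
      · intro t ht
        have := s1 t ht
        simp only [dn]; split_ifs <;> omega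
      · intro A _ y hy
        simp only [vl, ← ng_mk, hy]; abel
  · obtain ⟨c1, c2, c3⟩ := hc
    rcases hs with ⟨s1, s2, s3, s4, s5⟩ | ⟨rfl, s1⟩
    swap
    · omega
    let i0 : Fin n := ⟨k - 1, by omega⟩
    let i1 : Fin n := ⟨k, s2⟩
    have e01 : (i1 : ℕ) = i0 + 1 := by simp only [i0, i1]; omega
    have e0 : (i0 : ℕ) + 1 = k := by simp only [i0]; omega
    have bk := hv.2.1 (k + 1) s2
    obtain ⟨d, d1, d2⟩ : ∃ d : V n, pos d = p k ∧ i1 < d.1 := by
      by_cases e : p k ≤ n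
      · exact ⟨(⟨p k - 1, by omega⟩, 1), by rw [pos_p]; simp only; omega,
          by rw [Fin.lt_def]; simp only [i1]; omega⟩
      · exact ⟨(⟨2 * n - p k, by omega⟩, -1), by rw [pos_m]; simp only; omega,
          by rw [Fin.lt_def]; simp only [i1]; omega⟩
    have d0 : i0 < d.1 := by rw [Fin.lt_def] at *; omega
    obtain ⟨t1, t2⟩ := TT_dn (g := p) i0 d d0 (by rw [e0, d1])
    obtain ⟨t3, t4⟩ := TT_dn (g := dn p k 1) i1 d d2 (by simp [dn, i1, d1, c2])
    rw [e0] at t1 t2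
    have hb : ∀ t < k, dn (dn p k 1) (k + 1) 1 t = p t := fun t ht => by
      simp only [dn]; rw [if_neg (by omega), if_neg (by omega)]
    have hb1 : dn (dn p k 1) (k + 1) 1 k = p k - 1 := by simp [dn]
    have hb2 : dn (dn p k 1) (k + 1) 1 (k + 1) = p k - 1 := by simp [dn, c2]
    refine ⟨_, _, (i1, d), (i0, d), _,
      tripA (g := dn (dn p k 1) (k + 1) 1) e01 (by simp only [i1, hb1]; omega)
        (fun t ht => by rw [hb t ht]; exact s4 t ht) (by simp only [i1, hb1, hb2]; omega)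
        t4 (t3 ▸ t2) (Or.inl d2) (Or.inl d0) ?_ (Or.inl ⟨?_, ?_⟩), t3,
      Or.inl ⟨by simp only [dn]; rw [if_neg (by omega)], rfl, by rw [t1, t3]⟩⟩
    · simp [sgA, d0.ne', d2.ne', Equiv.swap_apply_of_ne_of_ne]
    · intro e
      simp only [isLoop] at e
      rw [e] at d2; exact lt_irrefl _ d2
    · intro A _ y hy
      simp only [vl]; abel

end Pool.Agent.Lib.MP_33bfb2_co
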