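import Pool.Agent.Lib.MP_33bfb2_co.LBase

namespace Pool.Agent.Lib.MP_33bfb2_co

open Finset

set_option maxHeartbeats 400000

variable {n : ℕ} {T : Type} [CommRing T]

def kh (κ : Fin n → ℤ) (v : V n) : ℤ := v.2 * κ v.1

theorem kh_ng (κ : Fin n → ℤ) (v : V n) : kh κ (ng v) = - kh κ v := by simp [kh]
theorem kh_one (κ : Fin n → ℤ) (i : Fin n) : kh κ (i, 1) = κ i := by simp [kh]
theorem kh_add (κ κ' : Fin n → ℤ) (v : V n) : kh (κ + κ') v = kh κ v + kh κ' v := by
  simp [kh, mul_add]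
theorem kh_smul (c : ℤ) (κ : Fin n → ℤ) (v : V n) : kh (c • κ) v = c * kh κ v := by
  simp [kh]; ring
theorem kh_eq_zero {κ : Fin n → ℤ} {v : V n} : kh κ v = 0 ↔ κ v.1 = 0 := by simp [kh]
theorem kh_abs (κ : Fin n → ℤ) (v : V n) : |kh κ v| = |κ v.1| := by
  rcases Int.units_eq_one_or v.2 with e | e <;> simp [kh, e]

def chi (q : T) (t : ℤ) : T := if t = 0 then 0 else if 0 < t then q else 1

theorem chi_congr (q : T) {t t' : ℤ} (h1 : t = 0 ↔ t' = 0) (h2 : 0 < t ↔ 0 < t') :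
    chi q t = chi q t' := by simp only [chi, h1, h2]

def spp (κ : Fin n → ℤ) : Finset (Fin n) := univ.filter fun i => κ i ≠ 0

theorem mem_spp {κ : Fin n → ℤ} {i : Fin n} : i ∈ spp κ ↔ κ i ≠ 0 := by simp [spp]

def wt (q : T) (E : Finset (Rt n)) (κ : Fin n → ℤ) (U : Finset (Fin n)) : T :=
  ∏ γ ∈ E, if (γ.1 ∈ U ∧ γ.2.1 ∈ U) ∧ (κ γ.1 ≠ 0 ∨ κ γ.2.1 ≠ 0) then chi q (vl (kh κ) γ) else 1

abbrev St (n : ℕ) (T : Type) := Finset (Fin n) → T

def Wk (q : T) (E : Finset (Rt n)) (κ : Fin n → ℤ) : Module.End T (St n T) where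
  toFun f U := if spp κ ⊆ U then wt q E κ U * f (U \ spp κ) else 0
  map_add' f g := by funext U; simp only [Pi.add_apply]; split_ifs <;> ring
  map_smul' c f := by
    funext U; simp only [Pi.smul_apply, smul_eq_mul, RingHom.id_apply]; split_ifs <;> ring

theorem Wk_apply (q : T) (E : Finset (Rt n)) (κ : Fin n → ℤ) (f : St n T) (U : Finset (Fin n)) :
    Wk q E κ f U = if spp κ ⊆ U then wt q E κ U * f (U \ spp κ) else 0 := rfl

def Van (i : Fin n) (f : St n T) : Prop := ∀ U, i ∉ U → f U = 0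

section
variable {q : T} {E : Finset (Rt n)}

theorem van_Wk {κ : Fin n → ℤ} {i : Fin n} (h : κ i ≠ 0) (f : St n T) : Van i (Wk q E κ f) :=
  fun _ hU => if_neg fun e => hU (e (mem_spp.2 h))

theorem Van.Wk {i : Fin n} {f : St n T} (h : Van i f) (κ : Fin n → ℤ) : Van i (Wk q E κ f) := by
  intro U hU
  rw [Wk_apply, h _ fun e => hU (mem_sdiff.1 e).1]; simp

theorem Van.kill {i : Fin n} {f : St n T} (h : Van i f) {κ : Fin n → ℤ} (hκ : κ i ≠ 0) :
    MP_33bfb2_co.Wk q E κ f = 0 := by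
  funext U
  rw [Wk_apply, h _ fun e => (mem_sdiff.1 e).2 (mem_spp.2 hκ)]; simp

theorem Wk_mul {κ κ' : Fin n → ℤ} (hd : ∀ i, κ i = 0 ∨ κ' i = 0)
    (h : ∀ γ ∈ E, (κ γ.1 ≠ 0 ∨ κ γ.2.1 ≠ 0) →
      chi q (vl (kh (κ + κ')) γ) = chi q (vl (kh κ) γ)) :
    Wk q E κ * Wk q E κ' = Wk q E (κ + κ') := by
  have hs : spp (κ + κ') = spp κ ∪ spp κ' := by
    ext i
    have := hd i
    simp only [mem_spp, mem_union, Pi.add_apply]; omega
  refine LinearMap.ext fun f => funext fun U => ?_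
  simp only [Module.End.mul_apply, Wk_apply, hs, sdiff_sdiff_left, sup_eq_union]
  by_cases h1 : spp κ ⊆ U
  · by_cases h2 : spp κ' ⊆ U
    · have h3 : spp κ' ⊆ U \ spp κ := fun i hi => mem_sdiff.2 ⟨h2 hi, by
        have := hd i
        rw [mem_spp] at hi ⊢; omega⟩
      rw [if_pos h1, if_pos h3, if_pos (union_subset h1 h2), ← mul_assoc]
      congr 1
      rw [wt, wt, wt, ← prod_mul_distrib]
      refine prod_congr rfl fun γ hγ => ?_
      have d1 := hd γ.1
      have d2 := hd γ.2.1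
      simp only [mem_sdiff, mem_spp, Pi.add_apply]
      by_cases m : κ γ.1 ≠ 0 ∨ κ γ.2.1 ≠ 0
      · rw [if_neg (c := (_ ∧ _) ∧ (κ' _ ≠ 0 ∨ _)) (by tauto), mul_one, h γ hγ m]
        exact if_congr (and_congr_right fun _ => by omega) rfl rfl
      · rw [if_neg (by tauto), one_mul]
        push Not at m
        have : vl (kh (κ + κ')) γ = vl (kh κ') γ := by simp [vl, kh, m.1, m.2]
        simp [this, m.1, m.2]
    · rw [if_neg (c := _ ⊆ U \ _) fun e => h2 (e.trans sdiff_subset),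
        if_neg (c := spp κ ∪ spp κ' ⊆ U) fun e => h2 (subset_union_right.trans e)]; simp
  · rw [if_neg h1, if_neg fun e => h1 (subset_union_left.trans e)]

theorem Wk_smul {c : ℤ} (hc : 0 < c) (κ : Fin n → ℤ) : Wk q E (c • κ) = Wk q E κ := by
  have hs : spp (c • κ) = spp κ := by ext i; simp [mem_spp, hc.ne']
  refine LinearMap.ext fun f => funext fun U => ?_
  simp only [Wk_apply, hs, wt, vl, kh_smul, ← mul_sub, Pi.smul_apply, smul_eq_mul, ne_eq,
    mul_eq_zero, hc.ne', false_or]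
  congr 2
  refine prod_congr rfl fun γ _ => ?_
  rw [chi_congr q (by simp [hc.ne']) (mul_pos_iff_of_pos_left hc)]

theorem Wk_zero : Wk q E 0 = 1 := by
  refine LinearMap.ext fun f => funext fun U => ?_
  simp [Wk_apply, wt, spp]

end

def vec (τ : Finset (V n)) (i : Fin n) : ℤ :=
  (if (i, 1) ∈ τ then 1 else 0) - (if (i, -1) ∈ τ then 1 else 0)

theorem kh_vec (τ : Finset (V n)) (v : V n) :
    kh (vec τ) v = (if v ∈ τ then 1 else 0) - (if ng v ∈ τ then 1 else 0) := by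
  obtain ⟨i, u⟩ := v
  rcases Int.units_eq_one_or u with rfl | rfl <;> simp [kh, vec, ng]

theorem vec_insert {τ : Finset (V n)} {v : V n} (h : v ∉ τ) :
    vec (insert v τ) = vec {v} + vec τ := by
  funext i
  simp only [vec, mem_insert, mem_singleton, Pi.add_apply]
  grind

def inj (τ : Finset (V n)) : Prop := ∀ a ∈ τ, ng a ∉ τ

instance (τ : Finset (V n)) : Decidable (inj τ) := by unfold inj; infer_instance

theorem inj.vec_ne {τ : Finset (V n)} (h : inj τ) {a : V n} (ha : a ∈ τ) : vec τ a.1 ≠ 0 := by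
  rw [Ne, ← kh_eq_zero, kh_vec, if_pos ha, if_neg (h a ha)]; simp

theorem inj_single (a : V n) : inj {a} := by
  intro b hb
  rw [mem_singleton] at hb ⊢
  rw [hb]; exact ng_ne a

def Wt (q : T) (E : Finset (Rt n)) (τ : Finset (V n)) : Module.End T (St n T) :=
  if inj τ then Wk q E (vec τ) else 0

def Ej (q : T) (E : Finset (Rt n)) (j : ℕ) (Z : Finset (V n)) : Module.End T (St n T) :=
  ∑ τ ∈ powersetCard j Z, Wt q E τ

def uu (q : T) (E : Finset (Rt n)) (a : V n) : Module.End T (St n T) := Wk q E (vec {a})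

def tadj (E : Finset (Rt n)) (a b : V n) : Prop :=
  a.1 ≠ b.1 ∧ ∃ γ ∈ E, (a = (γ.1, 1) ∧ b = γ.2) ∨ (b = (γ.1, 1) ∧ a = γ.2) ∨
    (ng a = (γ.1, 1) ∧ ng b = γ.2) ∨ (ng b = (γ.1, 1) ∧ ng a = γ.2)

def adj (E : Finset (Rt n)) (a b : V n) : Prop := a.1 = b.1 ∨ tadj E a b

theorem tadj.symm {E : Finset (Rt n)} {a b : V n} (h : tadj E a b) : tadj E b a := by
  obtain ⟨h1, γ, hγ, h2⟩ := h
  exact ⟨h1.symm, γ, hγ, by tauto⟩

theorem adj.symm {E : Finset (Rt n)} {a b : V n} (h : adj E a b) : adj E b a :=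
  h.imp Eq.symm tadj.symm

section
variable {q : T} {E : Finset (Rt n)}

theorem Wt_zero {τ : Finset (V n)} {a b : V n} (ha : a ∈ τ) (hb : b ∈ τ) (hne : a ≠ b)
    (h : adj E a b) : Wt q E τ = 0 := by
  unfold Wt
  split_ifs with hi
  swap
  · rfl
  rcases h with h | ⟨-, γ, hγ, h⟩
  · rcases eq_or_ng h with e | e
    · exact absurd e hne
    · exact absurd (e ▸ ha) (hi b hb)
  refine LinearMap.ext fun f => funext fun U => ?_
  rw [Wk_apply]
  split_ifs with hU
  swap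
  · rfl
  have a1 := hi.vec_ne ha
  have b1 := hi.vec_ne hb
  have a2 := hU (mem_spp.2 a1)
  have b2 := hU (mem_spp.2 b1)
  have a3 : kh (vec τ) a = 1 := by rw [kh_vec, if_pos ha, if_neg (hi a ha)]; rfl
  have b3 : kh (vec τ) b = 1 := by rw [kh_vec, if_pos hb, if_neg (hi b hb)]; rfl
  rw [wt, prod_eq_zero hγ, zero_mul]
  · rfl
  obtain ⟨i, c⟩ := γ
  have key : ∀ x y : V n, x.1 ∈ U → y.1 ∈ U → vec τ x.1 ≠ 0 → kh (vec τ) x = kh (vec τ) y →
      x = (i, 1) → y = c → (if (i ∈ U ∧ c.1 ∈ U) ∧ (vec τ i ≠ 0 ∨ vec τ c.1 ≠ 0) then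
        chi q (vl (kh (vec τ)) (i, c)) else 1) = 0 := by
    rintro _ y x1 y1 x2 e rfl rfl
    rw [if_pos ⟨⟨x1, y1⟩, Or.inl x2⟩, vl, e, sub_self]; simp [chi]
  rcases h with h | h | h | h
  · exact key a b a2 b2 a1 (a3.trans b3.symm) h.1 h.2
  · exact key b a b2 a2 b1 (b3.trans a3.symm) h.1 h.2
  · exact key (ng a) (ng b) a2 b2 a1 (by rw [kh_ng, kh_ng, a3, b3]) h.1 h.2
  · exact key (ng b) (ng a) b2 a2 b1 (by rw [kh_ng, kh_ng, a3, b3]) h.1 h.2

theorem Wt_insert {τ : Finset (V n)} {v : V n} (hv : v ∉ τ) (h : ∀ a ∈ τ, ¬ tadj E v a) :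
    Wt q E (insert v τ) = uu q E v * Wt q E τ := by
  unfold Wt
  by_cases hi : inj τ
  swap
  · rw [if_neg hi, if_neg fun e => hi fun a ha hb => e a (mem_insert_of_mem ha)
      (mem_insert_of_mem hb), mul_zero]
  rw [if_pos hi]
  by_cases h2 : ng v ∈ τ
  · rw [if_neg fun e => e v (mem_insert_self _ _) (mem_insert_of_mem h2)]
    have h3 : vec τ v.1 ≠ 0 := hi.vec_ne (a := ng v) h2
    exact LinearMap.ext fun f => ((van_Wk h3 f).kill
      ((inj_single v).vec_ne (mem_singleton_self v))).symm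
  have h3 : inj (insert v τ) := by
    intro a ha hb
    have := ng_ne a
    have := ng_ng a
    have := hi a
    simp only [mem_insert] at ha hb
    grind
  rw [if_pos h3, vec_insert hv, uu, Wk_mul]
  · intro i
    by_cases e : v.1 = i
    · right; rw [← e, ← kh_eq_zero, kh_vec, if_neg hv, if_neg h2]; rfl
    · left
      simp only [vec, mem_singleton]
      rw [if_neg, if_neg] <;> first | rfl | (rintro rfl; exact e rfl)
  · rintro ⟨i, c⟩ hγ m
    have h4 := fun a ha e e' => h a ha ⟨e, (i, c), hγ, e'⟩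
    have h5 := h4 c
    have h6 := h4 (ng c)
    have h7 := h4 (i, 1)
    have h8 := h4 (ng (i, 1))
    have := hi c
    have := hi (i, 1)
    have := ng_ne v
    have := ng_ng v
    have := ng_ng c
    have := ng_ng ((i, 1) : V n)
    have := ng_fst v
    have := ng_fst c
    have := ng_fst ((i, 1) : V n)
    have := @eq_or_ng n v c
    have := @eq_or_ng n v (i, 1)
    rw [← kh_one (vec {v}), ne_eq (vec _ _), ← kh_eq_zero] at m
    simp only [vl, kh_add, kh_vec, mem_singleton] at m ⊢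
    clear h h4 h3 hi hγ
    refine chi_congr q ?_ ?_ <;> grind

theorem Ej_zero (Z : Finset (V n)) : Ej q E 0 Z = 1 := by
  have : vec (∅ : Finset (V n)) = 0 := by funext i; simp [vec]
  simp [Ej, Wt, inj, this, Wk_zero]

theorem Ej_empty (j : ℕ) : Ej q E (j + 1) ∅ = 0 := by
  rw [Ej, powersetCard_eq_empty.2 (by simp), sum_empty]

theorem Ej_insert (j : ℕ) {Z : Finset (V n)} {v : V n} (hv : v ∉ Z) :
    Ej q E (j + 1) (insert v Z) =
      Ej q E (j + 1) Z + ∑ τ ∈ powersetCard j Z, Wt q E (insert v τ) := by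
  have h : ∀ τ ∈ powersetCard j Z, v ∉ τ := fun τ hτ e => hv ((mem_powersetCard.1 hτ).1 e)
  rw [Ej, powersetCard_succ_insert hv, sum_union, sum_image]
  · rfl
  · intro a ha b hb e
    rw [← erase_insert (h a ha), ← erase_insert (h b hb)]
    exact congrArg (erase · v) e
  · rw [disjoint_right]
    intro _ h1 h2
    obtain ⟨τ, -, rfl⟩ := mem_image.1 h1
    exact hv ((mem_powersetCard.1 h2).1 (mem_insert_self _ _))

theorem Ej_one (Z : Finset (V n)) : Ej q E 1 Z = ∑ a ∈ Z, uu q E a := by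
  rw [Ej, powersetCard_one, sum_map]
  exact sum_congr rfl fun a _ => if_pos (inj_single a)

end

end Pool.Agent.Lib.MP_33bfb2_co
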